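import Pool.Agent.H534.NW.Eng
import Pool.Agent.H534.UT.Poly

/-!
# Narrow constellations of every shape in relatively dense sets of arguments with rough polynomial values
-/

set_option autoImplicit false

open Finset Filter Polynomial

namespace Pool.Agent.H534.NW

open Pool.Agent.H534.RS
open Pool.Agent.H534.RT (Sys0 SysU)
open Pool.Agent.H534.UT (V_dW num1)
open Pool.Agent.Y677.RSZ
open Pool.Agent.W123.RP Pool.Agent.H373R2.T7 Pool.Agent.W123.RU Pool.Agent.W123.RU.Poly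
open Pool.Agent.TH423.SH (PS)

variable {ι : Type} [Fintype ι]

theorem sysU_of_sys {g H W : ℕ} {F : ℤ → ℤ} (h : Sys g F) (hW : g ≤ W) : SysU g H W F := by
  refine ⟨⟨h.per, h.root⟩, ?_⟩
  obtain ⟨Δ, hΔ⟩ := h.coll
  refine ⟨Δ, fun t ht1 htH htW => ?_⟩
  have h1 : g ≤ t := hW.trans (Nat.le_of_dvd (by omega) htW)
  obtain ⟨h2, h3, h4⟩ := hΔ t h1
  exact ⟨h2, h3.trans (Nat.pow_le_pow_left htH g), h4⟩

/-- the modulus is large -/
theorem WS_ge (σ : ℝ) (hσ2 : σ ≤ 1 / 2) (g : ℕ) : ∃ H₀ : ℕ, ∀ H : ℕ, H₀ ≤ H → ∀ (r : ℕ) (b : Fin r → ℕ),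
    g ≤ WS σ b H := by
  obtain ⟨p, hpg, hp⟩ := Nat.exists_infinite_primes g
  have hNr : Tendsto (fun H : ℕ => (H : ℝ)) atTop atTop := tendsto_natCast_atTop_atTop
  have hl : Tendsto (fun H : ℕ => Real.log (H : ℝ)) atTop atTop := Real.tendsto_log_atTop.comp hNr
  have hll : Tendsto (fun H : ℕ => Real.log (Real.log (H : ℝ))) atTop atTop := Real.tendsto_log_atTop.comp hl
  obtain ⟨H₀, hH₀⟩ := eventually_atTop.1 ((hll.eventually_ge_atTop (p : ℝ)).and (hl.eventually_ge_atTop ((p : ℝ) ^ 2)))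
  refine ⟨H₀, fun H hH r b => ?_⟩
  obtain ⟨h1, h2⟩ := hH₀ H hH
  have hp1 : (1 : ℝ) ≤ p := by exact_mod_cast hp.one_lt.le
  have hl1 : 1 ≤ Real.log (H : ℝ) := by nlinarith
  have hd : p ∣ WS σ b H := by
    rw [WS_dvd σ b H p hp]
    refine ⟨?_, Or.inl h1⟩
    calc (p : ℝ) ≤ Real.sqrt (Real.log H) := Real.le_sqrt_of_sq_le h2
      _ = Real.log H ^ (1 / 2 : ℝ) := Real.sqrt_eq_rpow _
      _ ≤ _ := by
          apply Real.rpow_le_rpow_of_exponent_le hl1
          linarith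
  exact hpg.trans (Nat.le_of_dvd (WS_pos σ b H) hd)

/-- the product over the primes of the modulus is at most one -/
theorem dW_le_one {g : ℕ} {F : ℤ → ℤ} (hF : Sys0 g F) (W : ℕ) : 0 < dW F W ∧ dW F W ≤ 1 := by
  unfold dW
  constructor
  · apply prod_pos
    intro p hp
    exact Pool.Agent.Y814.RSZ.fac_pos _ _ (hF.root p (Nat.prime_of_mem_primeFactors hp)).2
  · apply prod_le_one
    · intro p hp
      exact (Pool.Agent.Y814.RSZ.fac_pos _ _ (hF.root p (Nat.prime_of_mem_primeFactors hp)).2).le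
    · intro p _
      exact Pool.Agent.Y814.RSZ.fac_le_one _ _

open Classical in
/-- the number `n` is counted for all `d` of a positive proportion of `[1, X]`: for every shape `b` and every
`X ≥ (log H) ^ L` with `b i * WS σ b H * X ^ 3 ≤ H`, at least `c X` of the `d ≤ X` have at least
`c H / (log H) ^ (s (k + 1))` elements `n` of `A` with `n + WS σ b H * d * b i` in `A` for all `i` -/
def Shapes (k s : ℕ) (c σ : ℝ) (L H : ℕ) (A : Finset ℕ) : Prop :=
  ∀ (X : ℕ) (b : Fin k → ℕ), Real.log H ^ L ≤ X → Function.Injective b → (∀ i, 1 ≤ b i) →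
    (∀ i, b i * WS σ b H * X ^ 3 ≤ H) →
    c * X ≤ (((Icc 1 X).filter (fun d => c * (H / Real.log H ^ (s * (k + 1))) ≤
      ((A.filter (fun n => ∀ i, n + WS σ b H * d * b i ∈ A)).card : ℝ))).card : ℝ)

open Classical in
theorem Shapes.mono {k s L L' H : ℕ} {c c' σ : ℝ} {A A' : Finset ℕ} (h : Shapes k s c σ L H A) (hH : 3 ≤ H)
    (hc : c' ≤ c) (hL : L ≤ L') (hA : A ⊆ A') : Shapes k s c' σ L' H A' := by
  intro X b hX hb hb1 hb2
  have hl1 : 1 ≤ Real.log (H : ℝ) := by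
    rw [Real.le_log_iff_exp_le (by positivity)]
    have h1 := Real.exp_one_lt_d9
    have h2 : (3 : ℝ) ≤ H := by exact_mod_cast hH
    linarith
  have h1 := h X b ((pow_le_pow_right₀ hl1 hL).trans hX) hb hb1 hb2
  calc c' * (X : ℝ) ≤ c * X := by gcongr
    _ ≤ _ := h1
    _ ≤ _ := by
      apply Nat.cast_le.2
      apply card_le_card
      intro d hd
      rw [mem_filter] at hd ⊢
      refine ⟨hd.1, le_trans ?_ (hd.2.trans ?_)⟩
      · gcongr
      · apply Nat.cast_le.2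
        apply card_le_card
        intro n hn
        rw [mem_filter] at hn ⊢
        exact ⟨hA hn.1, fun i => hA (hn.2 i)⟩

open Classical in
/-- **Narrow constellations of every shape in relatively dense sets of arguments with rough polynomial values.** -/
theorem polyW [Nonempty ι] (f : ι → ℤ[X]) (hf : Poly.Sys f) (k g : ℕ) (η κ : ℝ) (hk : 1 ≤ k)
    (hη : 0 < η) (hκ : 0 < κ) :
    ∃ c σm : ℝ, 0 < c ∧ 0 < σm ∧ σm ≤ 1 / 2 ∧ ∀ σ : ℝ, 0 < σ → σ ≤ σm → ∃ L H₀ : ℕ,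
    ∀ (Y H : ℕ) (A : Finset ℕ), H₀ ≤ H → Y ≤ H ^ g → A ⊆ Ioc Y (Y + H) →
    (∀ n ∈ A, ∀ i, ∀ p : ℕ, p.Prime → (p : ℝ) ≤ (H : ℝ) ^ η → ¬ (p : ℤ) ∣ (f i).eval (n : ℤ)) →
    κ * (H / Real.log H ^ Fintype.card ι) ≤ A.card → Shapes k (Fintype.card ι) c σ L H A := by
  obtain ⟨s, hs⟩ : ∃ s, s = Fintype.card ι := ⟨_, rfl⟩
  rw [← hs]
  obtain ⟨v, Cv, hv, hCv, hV⟩ := V_bounds f hf
  rw [← hs] at hV
  set P : ℤ[X] := ∏ i, f i with hPdef
  have hP0 : P ≠ 0 := Finset.prod_ne_zero_iff.2 (fun i _ => (hf.irr i).ne_zero)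
  obtain ⟨g₀, hg₀⟩ := poly_all P hP0 (by
    intro p hp
    obtain ⟨m, hm⟩ := hf.adm p hp
    refine ⟨m, fun hd => ?_⟩
    obtain ⟨i, hi⟩ := (prod_dvd_iff f p hp m).1 hd
    exact hm i hi)
  obtain ⟨K, D, hKD⟩ := eval_bound P
  obtain ⟨n₀, hn₀⟩ := ne_zero_ev P hP0
  obtain ⟨g', hg'⟩ : ∃ g' : ℕ, g' = g₀ + ((g + 2) * D + 1) := ⟨_, rfl⟩
  obtain ⟨c, σm, hc, hσm, hσm2, heng⟩ := engW k g' η (κ / (2 * Cv)) hk hη (by positivity)
  obtain ⟨H₂, hH₂⟩ := num1 1 κ one_pos hκ s n₀ g K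
  refine ⟨min c (c * v ^ (k + 1)), σm, lt_min hc (by positivity), hσm, hσm2, fun σ hσ hσσ => ?_⟩
  have hσ2 : σ ≤ 1 / 2 := hσσ.trans hσm2
  obtain ⟨L, H₁, heng⟩ := heng σ hσ hσσ
  obtain ⟨H₃, hH₃⟩ := WS_ge σ hσ2 g'
  refine ⟨L, max (max H₁ H₂) H₃, ?_⟩
  intro Y H A hH hY' hA hAr hAc X b hX hb hb1 hb2
  have hH1 : H₁ ≤ H := le_trans ((le_max_left _ _).trans (le_max_left _ _)) hH
  obtain ⟨n1, n2, n3, n4, n5, n6, n7, n8⟩ := hH₂ H (le_trans ((le_max_right _ _).trans (le_max_left _ _)) hH)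
  have hWg := hH₃ H (le_trans (le_max_right _ _) hH) k b
  have hY : (Y : ℝ) ≤ (H : ℝ) ^ g := by exact_mod_cast hY'
  have hH16 : (16 : ℝ) ≤ H := by exact_mod_cast n1
  have hH0 : (0 : ℝ) < H := by linarith
  have hlog : 0 < Real.log (H : ℝ) := Real.log_pos (by linarith)
  have hVF : ∀ z, V (fun n => P.eval n) 1 z = Vq (Poly.Q f) z := fun z => V_eq f z
  obtain ⟨A', hA'⟩ : ∃ A' : Finset ℕ, A' = A.filter (fun n => Y + n₀ < n) := ⟨_, rfl⟩
  have hA'A : A' ⊆ A := by rw [hA']; exact filter_subset _ _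
  have hA'c : (A.card : ℝ) - n₀ ≤ A'.card := by
    have h1 : A ⊆ A' ∪ Ioc Y (Y + n₀) := by
      intro n hn
      rw [mem_union]
      by_cases h : Y + n₀ < n
      · left
        rw [hA', mem_filter]
        exact ⟨hn, h⟩
      · right
        rw [mem_Ioc]
        exact ⟨(mem_Ioc.1 (hA hn)).1, by omega⟩
    have h2 := (card_le_card h1).trans (card_union_le _ _)
    rw [Nat.card_Ioc, Nat.add_sub_cancel_left] at h2
    have h3 : (A.card : ℝ) ≤ A'.card + n₀ := by exact_mod_cast h2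
    linarith
  have hSys := sysU_of_sys (H := H) (hg₀.mono (show g₀ ≤ g' by omega)) hWg
  obtain ⟨D', hD'c, hD'⟩ := heng (fun n => P.eval n) (Y + n₀) H X A' b hSys hH1 hX
    (by
      intro n hn
      rw [mem_Ioc] at hn
      refine ⟨hn₀ n (by omega), ?_⟩
      have h1 := hKD (n : ℤ)
      have h2 : |((n : ℤ) : ℝ)| = (n : ℝ) := by
        rw [Int.cast_natCast, abs_of_nonneg (Nat.cast_nonneg n)]
      rw [h2] at h1
      have h3 : 1 + (n : ℝ) ≤ (H : ℝ) ^ (g + 2) := by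
        have e1 : (n : ℝ) ≤ ((Y + n₀ + H : ℕ) : ℝ) := by exact_mod_cast hn.2
        push_cast at e1
        linarith
      have h4 : |((P.eval (n : ℤ) : ℤ) : ℝ)| ≤ (H : ℝ) ^ g' := by
        refine h1.trans ?_
        calc (K : ℝ) * (1 + (n : ℝ)) ^ D ≤ H * ((H : ℝ) ^ (g + 2)) ^ D := by gcongr
          _ = (H : ℝ) ^ ((g + 2) * D + 1) := by rw [← pow_mul]; ring
          _ ≤ (H : ℝ) ^ g' := pow_le_pow_right₀ (by linarith) (by omega)
      exact_mod_cast h4)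
    (by
      intro n hn
      rw [hA', mem_filter] at hn
      have := mem_Ioc.1 (hA hn.1)
      rw [mem_Ioc]
      omega)
    (by
      intro n hn p hp hpH hd
      obtain ⟨i, hi⟩ := (prod_dvd_iff f p hp n).1 hd
      exact hAr n (hA'A hn) i p hp hpH hi)
    (by
      rw [hVF]
      have h1 := (hV H (by omega)).2
      calc κ / (2 * Cv) * (H * Vq (Poly.Q f) H) ≤ κ / (2 * Cv) * (H * (Cv / Real.log H ^ s)) := by gcongr
        _ = κ * (H / Real.log H ^ s) - κ / 2 * (H / Real.log H ^ s) := by field_simp; ring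
        _ ≤ A'.card := by linarith)
    hb hb1 hb2
  have hsub : D' ⊆ (Icc 1 X).filter (fun d =>
      min c (c * v ^ (k + 1)) * (H / Real.log H ^ (s * (k + 1))) ≤
        ((A.filter (fun n => ∀ i, n + WS σ b H * d * b i ∈ A)).card : ℝ)) := by
    intro d hd
    obtain ⟨h1, h2, h3⟩ := hD' d hd
    rw [mem_filter, mem_Icc]
    refine ⟨⟨h1, h2⟩, ?_⟩
    have hsub : ((solN A' (WS σ b H) b d).card : ℝ) ≤
        ((A.filter (fun n => ∀ i, n + WS σ b H * d * b i ∈ A)).card : ℝ) := by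
      have : solN A' (WS σ b H) b d ⊆ A.filter (fun n => ∀ i, n + WS σ b H * d * b i ∈ A) := by
        unfold solN
        intro n hn
        rw [mem_filter] at hn ⊢
        refine ⟨hA'A hn.1, fun l => ?_⟩
        have h5 := hA'A (hn.2 l)
        rwa [mul_right_comm] at h5
      exact_mod_cast card_le_card this
    refine le_trans ?_ (h3.trans hsub)
    have hsplit : V (fun n => P.eval n) 1 H = dW (fun n => P.eval n) (WS σ b H) * V (fun n => P.eval n) (WS σ b H) H := by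
      apply V_dW _ _ _ (WS_pos σ b H)
      intro p hp hd
      have h4 := ((WS_dvd σ b H p hp).1 hd).1
      have h6 : Real.log (H : ℝ) ^ (1 - σ) ≤ Real.log H := by
        have hl1 : 1 ≤ Real.log (H : ℝ) := by
          by_contra h
          have := Real.log_nonpos hlog.le (not_le.1 h).le
          linarith
        calc Real.log (H : ℝ) ^ (1 - σ) ≤ Real.log (H : ℝ) ^ (1 : ℝ) := by
              apply Real.rpow_le_rpow_of_exponent_le hl1
              linarith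
          _ = _ := Real.rpow_one _
      have h5 : (p : ℝ) ≤ H := by linarith
      exact_mod_cast h5
    rw [hVF] at hsplit
    obtain ⟨d₁, hd₁⟩ : ∃ d₁, d₁ = dW (fun n => P.eval n) (WS σ b H) := ⟨_, rfl⟩
    obtain ⟨v₁, hv₁⟩ : ∃ v₁, v₁ = V (fun n => P.eval n) (WS σ b H) H := ⟨_, rfl⟩
    rw [← hd₁, ← hv₁] at hsplit
    rw [← hd₁, ← hv₁]
    have hVH := (hV H (by omega)).1
    rw [hsplit] at hVH
    obtain ⟨hd0, hd2⟩ : 0 < d₁ ∧ d₁ ≤ 1 := by
      rw [hd₁]
      exact dW_le_one hSys.toSys0 _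
    have hdv0 : 0 < d₁ * v₁ := lt_of_lt_of_le (by positivity) hVH
    have hv0 : 0 < v₁ := pos_of_mul_pos_right hdv0 hd0.le
    have e2 : d₁ * v₁ ^ (k + 1) = (d₁ * v₁) ^ (k + 1) / d₁ ^ k := by
      rw [mul_pow, eq_div_iff (by positivity), pow_succ d₁]
      ring
    have e3 : v ^ (k + 1) * (1 / Real.log H ^ (s * (k + 1)) / d₁ ^ k) ≤ d₁ * v₁ ^ (k + 1) := by
      rw [e2]
      calc v ^ (k + 1) * (1 / Real.log H ^ (s * (k + 1)) / d₁ ^ k) = (v / Real.log H ^ s) ^ (k + 1) / d₁ ^ k := by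
              rw [div_pow, ← pow_mul]
              field_simp
        _ ≤ (d₁ * v₁) ^ (k + 1) / d₁ ^ k := by gcongr
    calc min c (c * v ^ (k + 1)) * (H / Real.log H ^ (s * (k + 1))) ≤
          (c * v ^ (k + 1)) * (H / Real.log H ^ (s * (k + 1)) / 1) := by
            rw [div_one]
            gcongr
            exact min_le_right _ _
      _ ≤ (c * v ^ (k + 1)) * (H / Real.log H ^ (s * (k + 1)) / d₁ ^ k) := by
            have e5 : d₁ ^ k ≤ 1 := pow_le_one₀ hd0.le hd2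
            gcongr
      _ = c * (H * (v ^ (k + 1) * (1 / Real.log H ^ (s * (k + 1)) / d₁ ^ k))) := by ring
      _ ≤ c * (H * (d₁ * v₁ ^ (k + 1))) := by gcongr
      _ = _ := by ring
  calc min c (c * v ^ (k + 1)) * (X : ℝ) ≤ c * X := by
        gcongr
        exact min_le_left _ _
    _ ≤ D'.card := hD'c
    _ ≤ _ := by exact_mod_cast card_le_card hsub

end Pool.Agent.H534.NW
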