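import Pool.Graph.R_seed8.Y880.RS.P3f
import Pool.Agent.H534.NW.Clu
import Pool.Agent.H534.SZ.Mert

/-!
# Sieve products of patterns: upper and lower bounds
-/

set_option autoImplicit false

open Finset Filter

namespace Pool.Agent.H534.NW

open Pool.Agent.H534.RS hiding majW classes engP
open Pool.Agent.H534.RT
open Pool.Agent.Y677.RSZ hiding Sys V_pos fac_pos V_lower
open Pool.Agent.TH423.SH (PS)
open Pool.Agent.Y674.PSP (fact_le VV_le)
open Pool.Agent.Y880.RS.P3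

theorem VV_ge (N : ℕ) (hN : 1 ≤ N) : Real.log N ≤ Pool.Agent.Y674.PSP.VV N := by
  have h1 : Real.log N ≤ ∑ n ∈ Icc 1 N, (n : ℝ)⁻¹ := by
    have h := log_add_one_le_harmonic N
    have h2 : Real.log N ≤ Real.log (N + 1) :=
      Real.log_le_log (by exact_mod_cast hN) (by linarith)
    rw [harmonic_eq_sum_Icc] at h
    push_cast at h
    exact h2.trans (by exact_mod_cast h)
  refine h1.trans (fact_le _ (fun p hp => (mem_filter.1 hp).2) _ (fun m hm => ?_))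
  rw [mem_Icc] at hm
  refine ⟨by omega, fun p hp hpm => ?_⟩
  rw [mem_filter, mem_Icc]
  exact ⟨⟨hp.one_lt.le, (Nat.le_of_dvd (by omega) hpm).trans hm.2⟩, hp⟩

theorem one_sub_exp (y : ℝ) (h0 : 0 ≤ y) (h1 : y ≤ 1 / 2) : Real.exp (-(2 * y)) ≤ 1 - y := by
  have hpos : 0 < 1 - y := by linarith
  rw [← Real.le_log_iff_exp_le hpos]
  refine le_trans ?_ (Real.one_sub_inv_le_log_of_pos hpos)
  have : 1 - (1 - y)⁻¹ = -(y / (1 - y)) := by field_simp; ring
  rw [this, neg_le_neg_iff, div_le_iff₀ hpos]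
  nlinarith

/-- the factor at a large prime -/
theorem fac_low (a : ℕ) (x : ℝ) (h0 : 0 ≤ x) (h1 : x ≤ 1) (h2 : (a : ℝ) ^ 2 * x ^ 2 ≤ 1 / 2) :
    (1 - x) ^ a * Real.exp (-(2 * ((a : ℝ) ^ 2 * x ^ 2))) ≤ 1 - a * x := by
  have h3 := one_sub_exp ((a : ℝ) ^ 2 * x ^ 2) (by positivity) h2
  have hax : 0 ≤ (a : ℝ) * x := by positivity
  have h4 : (1 - x) ^ a * (1 + a * x) ≤ 1 := by
    calc (1 - x) ^ a * (1 + a * x) ≤ (1 - x) ^ a * (1 + x) ^ a := by
          apply mul_le_mul_of_nonneg_left (one_add_mul_le_pow (by linarith) a)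
          exact pow_nonneg (by linarith) a
      _ = (1 - x ^ 2) ^ a := by rw [← mul_pow]; congr 1; ring
      _ ≤ 1 := pow_le_one₀ (by nlinarith) (by nlinarith [sq_nonneg x])
  have h5 : 0 ≤ (1 - x) ^ a := pow_nonneg (by linarith) a
  have h6 : a * x ≤ 1 := by
    have : ((a : ℝ) * x) ^ 2 ≤ 1 := by rw [mul_pow]; linarith
    nlinarith
  calc (1 - x) ^ a * Real.exp (-(2 * ((a : ℝ) ^ 2 * x ^ 2))) ≤ (1 - x) ^ a * (1 - (a : ℝ) ^ 2 * x ^ 2) := by gcongr
    _ = ((1 - x) ^ a * (1 + a * x)) * (1 - a * x) := by ring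
    _ ≤ 1 * (1 - a * x) := by
        apply mul_le_mul_of_nonneg_right h4
        linarith
    _ = _ := one_mul _

/-- a lower bound of the right order of magnitude for the full sieve product -/
theorem V_low (a : ℕ) : ∃ v : ℝ, 0 < v ∧ ∀ (F : ℤ → ℤ) (H : ℕ), Sys0 a F → 2 ≤ H →
    v / Real.log H ^ a ≤ V F 1 H := by
  obtain ⟨K, hK, hV⟩ := VV_le
  obtain ⟨T, hT⟩ : ∃ T : ℕ, T = 2 * a ^ 2 + 2 * a + 1 := ⟨_, rfl⟩
  have hT0 : (0 : ℝ) < T := by
    have : 0 < T := by omega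
    exact_mod_cast this
  have hT1 : (1 : ℝ) ≤ T := by
    have : 1 ≤ T := by omega
    exact_mod_cast this
  refine ⟨(1 / (T : ℝ)) ^ T * Real.exp (-(4 * (a : ℝ) ^ 2)) / K ^ a, by positivity, ?_⟩
  intro F H hF hH
  have hlog : 0 < Real.log (H : ℝ) := Real.log_pos (by exact_mod_cast hH)
  have hfac : ∀ p ∈ PS 1 H, (1 - (p : ℝ)⁻¹) ^ a * ((if p ≤ T then 1 / (T : ℝ) else 1) *
      Real.exp (-(2 * ((a : ℝ) ^ 2 * (1 / (p : ℝ) ^ 2))))) ≤ 1 - (rt F p : ℝ) / p := by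
    intro p hp
    unfold Pool.Agent.TH423.SH.PS at hp
    rw [mem_filter, mem_Icc] at hp
    obtain ⟨⟨hp1, hp2⟩, hpp, -⟩ := hp
    have hp0 : (0 : ℝ) < p := by exact_mod_cast hpp.pos
    have hp2' : (2 : ℝ) ≤ p := by exact_mod_cast hpp.two_le
    obtain ⟨r1, r2⟩ := hF.root p hpp
    have hx0 : (0 : ℝ) ≤ (p : ℝ)⁻¹ := by positivity
    have hx1 : (p : ℝ)⁻¹ ≤ 1 := inv_le_one_of_one_le₀ (by linarith)
    by_cases hpT : p ≤ T
    · rw [if_pos hpT]
      have e1 : (1 - (p : ℝ)⁻¹) ^ a ≤ 1 := pow_le_one₀ (by linarith) (by linarith)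
      have e2 : Real.exp (-(2 * ((a : ℝ) ^ 2 * (1 / (p : ℝ) ^ 2)))) ≤ 1 := by
        rw [Real.exp_le_one_iff]
        have : 0 ≤ 2 * ((a : ℝ) ^ 2 * (1 / (p : ℝ) ^ 2)) := by positivity
        linarith
      have e3 : 0 ≤ (1 - (p : ℝ)⁻¹) ^ a := pow_nonneg (by linarith) a
      have e4 : 1 / (T : ℝ) ≤ 1 - (rt F p : ℝ) / p := by
        have h7 : (rt F p : ℝ) ≤ p - 1 := by
          have h6 : rt F p + 1 ≤ p := r2
          have h7 : ((rt F p + 1 : ℕ) : ℝ) ≤ p := by exact_mod_cast h6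
          push_cast at h7
          linarith
        have h8 : (rt F p : ℝ) / p ≤ (p - 1) / p := div_le_div_of_nonneg_right h7 hp0.le
        have h9 : ((p : ℝ) - 1) / p = 1 - 1 / p := by field_simp
        have h10 : 1 / (T : ℝ) ≤ 1 / p := by
          apply one_div_le_one_div_of_le hp0
          exact_mod_cast hpT
        linarith
      refine le_trans ?_ e4
      calc (1 - (p : ℝ)⁻¹) ^ a * (1 / (T : ℝ) * Real.exp (-(2 * ((a : ℝ) ^ 2 * (1 / (p : ℝ) ^ 2))))) ≤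
            1 * (1 / (T : ℝ) * 1) := by gcongr
        _ = _ := by ring
    · rw [if_neg hpT, one_mul]
      have hTp : (T : ℝ) ≤ p := by exact_mod_cast (not_le.1 hpT).le
      have hTr : (T : ℝ) = 2 * (a : ℝ) ^ 2 + 2 * a + 1 := by rw [hT]; push_cast; ring
      have ha0 : (0 : ℝ) ≤ a := Nat.cast_nonneg a
      have h2 : (a : ℝ) ^ 2 * ((p : ℝ)⁻¹) ^ 2 ≤ 1 / 2 := by
        rw [inv_pow, ← div_eq_mul_inv, div_le_iff₀ (by positivity)]
        have : (p : ℝ) ≤ (p : ℝ) ^ 2 := by nlinarith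
        nlinarith
      have h3 := fac_low a (p : ℝ)⁻¹ hx0 hx1 h2
      have e : (1 : ℝ) / (p : ℝ) ^ 2 = ((p : ℝ)⁻¹) ^ 2 := by rw [inv_pow, one_div]
      rw [e]
      refine h3.trans ?_
      have h4 : (rt F p : ℝ) ≤ a := by exact_mod_cast r1
      rw [div_eq_mul_inv]
      gcongr
  have hprod : ∏ p ∈ PS 1 H, ((1 - (p : ℝ)⁻¹) ^ a * ((if p ≤ T then 1 / (T : ℝ) else 1) *
      Real.exp (-(2 * ((a : ℝ) ^ 2 * (1 / (p : ℝ) ^ 2)))))) ≤ V F 1 H := by
    unfold V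
    apply Finset.prod_le_prod _ hfac
    intro p hp
    unfold Pool.Agent.TH423.SH.PS at hp
    rw [mem_filter, mem_Icc] at hp
    have hp2' : (2 : ℝ) ≤ p := by exact_mod_cast hp.2.1.two_le
    have hx1 : (p : ℝ)⁻¹ ≤ 1 := inv_le_one_of_one_le₀ (by linarith)
    apply mul_nonneg (pow_nonneg (by linarith) a)
    apply mul_nonneg _ (Real.exp_pos _).le
    split_ifs
    · positivity
    · exact zero_le_one
  refine le_trans ?_ hprod
  rw [prod_mul_distrib, prod_mul_distrib, prod_pow, ← Real.exp_sum]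
  have hPSe : PS 1 H = (Icc 1 H).filter Nat.Prime := by
    unfold Pool.Agent.TH423.SH.PS
    ext p
    rw [mem_filter, mem_filter]
    constructor
    · rintro ⟨h1, h2, -⟩
      exact ⟨h1, h2⟩
    · rintro ⟨h1, h2⟩
      exact ⟨h1, h2, fun h3 => h2.one_lt.ne' (Nat.dvd_one.1 h3)⟩
  have hVVe : ∏ p ∈ PS 1 H, (1 - (p : ℝ)⁻¹) = (Pool.Agent.Y674.PSP.VV H)⁻¹ := by
    unfold Pool.Agent.Y674.PSP.VV
    rw [hPSe, prod_inv_distrib, inv_inv]
  have hVV0 : 0 < Pool.Agent.Y674.PSP.VV H := by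
    have h1 := VV_ge H (by omega)
    linarith
  have b1 : 1 / (K * Real.log H) ^ a ≤ (∏ p ∈ PS 1 H, (1 - (p : ℝ)⁻¹)) ^ a := by
    rw [hVVe, inv_pow, ← one_div]
    apply one_div_le_one_div_of_le (by positivity)
    exact pow_le_pow_left₀ hVV0.le (hV H hH) _
  have b2 : (1 / (T : ℝ)) ^ T ≤ ∏ p ∈ PS 1 H, (if p ≤ T then 1 / (T : ℝ) else 1) := by
    rw [prod_ite, prod_const, prod_const_one, mul_one]
    apply pow_le_pow_of_le_one (by positivity)
    · rw [div_le_one hT0]; exact hT1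
    · have hsub : (PS 1 H).filter (fun p => p ≤ T) ⊆ Icc 1 T := by
        intro p hp
        rw [mem_filter] at hp
        have h1 := hp.1
        unfold Pool.Agent.TH423.SH.PS at h1
        rw [mem_filter, mem_Icc] at h1
        rw [mem_Icc]
        exact ⟨h1.1.1, hp.2⟩
      have := card_le_card hsub
      rw [Nat.card_Icc] at this
      omega
  have b3 : Real.exp (-(4 * (a : ℝ) ^ 2)) ≤ Real.exp (∑ p ∈ PS 1 H, (-(2 * ((a : ℝ) ^ 2 * (1 / (p : ℝ) ^ 2))))) := by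
    apply Real.exp_le_exp.2
    rw [sum_neg_distrib, neg_le_neg_iff, ← mul_sum, ← mul_sum]
    have h1 := Pool.Agent.H534.SZ.sum_inv_sq (PS 1 H) (by
      intro p hp
      unfold Pool.Agent.TH423.SH.PS at hp
      rw [mem_filter, mem_Icc] at hp
      exact hp.1.1)
    have h2 : 0 ≤ (a : ℝ) ^ 2 := by positivity
    nlinarith
  calc (1 / (T : ℝ)) ^ T * Real.exp (-(4 * (a : ℝ) ^ 2)) / K ^ a / Real.log H ^ a =
        (1 / (K * Real.log H) ^ a) * ((1 / (T : ℝ)) ^ T * Real.exp (-(4 * (a : ℝ) ^ 2))) := by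
          rw [mul_pow]
          field_simp
    _ ≤ _ := by
        apply mul_le_mul b1 _ (by positivity) (le_trans (by positivity) b1)
        exact mul_le_mul b2 b3 (Real.exp_pos _).le (le_trans (by positivity) b2)

/-- an upper bound for the sieve product -/
theorem V_up (a A₃ : ℕ) (F : ℤ → ℤ) (Q H Δ : ℕ) (s : ℝ) (hs : 1 ≤ s) (hQ : 1 ≤ Q) (hH : 2 ≤ H)
    (hQH : ∀ p : ℕ, p.Prime → p ∣ Q → p ≤ H) (hQs : ∀ p : ℕ, p.Prime → (p : ℝ) ≤ s → p ∣ Q)
    (hΔ : Δ ≠ 0) (hΔs : Real.log Δ ≤ A₃ * s)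
    (hrt : ∀ p : ℕ, p.Prime → ¬ p ∣ Q → ¬ p ∣ Δ → a ≤ rt F p) :
    V F Q H ≤ Real.exp (2 * a * (A₃ / Real.log 2)) * ((Q : ℝ) / (Q.totient * Real.log H)) ^ a := by
  have hl2 : 0 < Real.log 2 := Real.log_pos (by norm_num)
  have hlog : 0 < Real.log (H : ℝ) := Real.log_pos (by exact_mod_cast hH)
  have hQ0 : (0 : ℝ) < Q := by exact_mod_cast hQ
  have hφ0 : (0 : ℝ) < Q.totient := by exact_mod_cast Nat.totient_pos.2 hQ
  have hPS : ∀ p ∈ PS Q H, p.Prime ∧ ¬ p ∣ Q ∧ s < p := by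
    intro p hp
    unfold Pool.Agent.TH423.SH.PS at hp
    rw [mem_filter, mem_Icc] at hp
    refine ⟨hp.2.1, hp.2.2, ?_⟩
    by_contra h
    exact hp.2.2 (hQs p hp.2.1 (not_lt.1 h))
  have hfac : ∀ p ∈ PS Q H, 1 - (rt F p : ℝ) / p ≤ (1 - (p : ℝ)⁻¹) ^ a *
      Real.exp (if p ∣ Δ then 2 * a * (1 / (p : ℝ)) else 0) := by
    intro p hp
    obtain ⟨hpp, hpQ, hps⟩ := hPS p hp
    have hp0 : (0 : ℝ) < p := by exact_mod_cast hpp.pos
    have hp2' : (2 : ℝ) ≤ p := by exact_mod_cast hpp.two_le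
    by_cases hd : p ∣ Δ
    · rw [if_pos hd]
      have h1 : 0 ≤ (rt F p : ℝ) / p := by positivity
      have h2 := one_sub_exp (p : ℝ)⁻¹ (by positivity) (by
        rw [inv_eq_one_div]
        exact one_div_le_one_div_of_le (by norm_num) hp2')
      have h3 : Real.exp (-(2 * (p : ℝ)⁻¹)) ^ a ≤ (1 - (p : ℝ)⁻¹) ^ a :=
        pow_le_pow_left₀ (Real.exp_pos _).le h2 a
      have h4 : (1 : ℝ) = Real.exp (-(2 * (p : ℝ)⁻¹)) ^ a * Real.exp (2 * a * (1 / (p : ℝ))) := by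
        rw [← Real.exp_nat_mul, ← Real.exp_add]
        rw [show (a : ℝ) * -(2 * (p : ℝ)⁻¹) + 2 * a * (1 / (p : ℝ)) = 0 by rw [one_div]; ring, Real.exp_zero]
      calc 1 - (rt F p : ℝ) / p ≤ 1 := by linarith
        _ = Real.exp (-(2 * (p : ℝ)⁻¹)) ^ a * Real.exp (2 * a * (1 / (p : ℝ))) := h4
        _ ≤ _ := by gcongr
    · rw [if_neg hd, Real.exp_zero, mul_one]
      have h1 : (a : ℝ) ≤ rt F p := by exact_mod_cast hrt p hpp hpQ hd
      have h2 : 1 + (a : ℝ) * (-(p : ℝ)⁻¹) ≤ (1 + -(p : ℝ)⁻¹) ^ a := by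
        apply one_add_mul_le_pow
        have : (p : ℝ)⁻¹ ≤ 1 := inv_le_one_of_one_le₀ (by linarith)
        linarith
      have h3 : (a : ℝ) * (p : ℝ)⁻¹ ≤ (rt F p : ℝ) / p := by
        rw [div_eq_mul_inv]
        gcongr
      calc 1 - (rt F p : ℝ) / p ≤ 1 + (a : ℝ) * (-(p : ℝ)⁻¹) := by linarith
        _ ≤ (1 + -(p : ℝ)⁻¹) ^ a := h2
        _ = _ := by rw [← sub_eq_add_neg]
  have hprod : V F Q H ≤ ∏ p ∈ PS Q H, ((1 - (p : ℝ)⁻¹) ^ a *
      Real.exp (if p ∣ Δ then 2 * a * (1 / (p : ℝ)) else 0)) := by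
    unfold V
    apply Finset.prod_le_prod _ hfac
    intro p hp
    have h1 := rt_le (F := F) p
    have hp0 : (0 : ℝ) < p := by exact_mod_cast (hPS p hp).1.pos
    have h2 : (rt F p : ℝ) / p ≤ 1 := by
      rw [div_le_one hp0]
      exact_mod_cast h1
    linarith
  refine hprod.trans ?_
  rw [prod_mul_distrib, prod_pow, ← Real.exp_sum, mul_comm]
  apply mul_le_mul _ _ (by
    apply pow_nonneg
    apply prod_nonneg
    intro p hp
    have hp2' : (2 : ℝ) ≤ p := by exact_mod_cast (hPS p hp).1.two_le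
    have : (p : ℝ)⁻¹ ≤ 1 := inv_le_one_of_one_le₀ (by linarith)
    linarith) (Real.exp_pos _).le
  · apply Real.exp_le_exp.2
    rw [← sum_filter, ← mul_sum]
    apply mul_le_mul_of_nonneg_left _ (by positivity)
    have h1 : ∑ p ∈ (PS Q H).filter (fun p => p ∣ Δ), (1 : ℝ) / p ≤
        ∑ _p ∈ (PS Q H).filter (fun p => p ∣ Δ), 1 / s := by
      apply sum_le_sum
      intro p hp
      apply one_div_le_one_div_of_le (by linarith)
      exact (hPS p (mem_filter.1 hp).1).2.2.le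
    refine h1.trans ?_
    rw [sum_const, nsmul_eq_mul]
    have h2 : (((PS Q H).filter (fun p => p ∣ Δ)).card : ℝ) ≤ Real.log Δ / Real.log 2 := by
      have hsub : (PS Q H).filter (fun p => p ∣ Δ) ⊆ Δ.primeFactors := by
        intro p hp
        rw [mem_filter] at hp
        rw [Nat.mem_primeFactors]
        exact ⟨(hPS p hp.1).1, hp.2, hΔ⟩
      have h3 : 2 ^ Δ.primeFactors.card ≤ Δ := by
        calc 2 ^ Δ.primeFactors.card ≤ ∏ p ∈ Δ.primeFactors, p :=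
              Finset.pow_card_le_prod _ _ _ (fun p hp => (Nat.prime_of_mem_primeFactors hp).two_le)
          _ ≤ Δ := Nat.le_of_dvd (Nat.pos_of_ne_zero hΔ) (Nat.prod_primeFactors_dvd Δ)
      have h4 : (2 : ℝ) ^ Δ.primeFactors.card ≤ Δ := by exact_mod_cast h3
      have h5 := Real.log_le_log (by positivity) h4
      rw [Real.log_pow] at h5
      rw [le_div_iff₀ hl2]
      refine le_trans ?_ h5
      have : (((PS Q H).filter (fun p => p ∣ Δ)).card : ℝ) ≤ Δ.primeFactors.card := by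
        exact_mod_cast card_le_card hsub
      gcongr
    calc (((PS Q H).filter (fun p => p ∣ Δ)).card : ℝ) * (1 / s) ≤ (A₃ * s / Real.log 2) * (1 / s) := by
          apply mul_le_mul_of_nonneg_right _ (by positivity)
          refine h2.trans ?_
          gcongr
      _ = _ := by
          have : s ≠ 0 := by linarith
          field_simp
  · apply pow_le_pow_left₀
    · apply prod_nonneg
      intro p hp
      have hp2' : (2 : ℝ) ≤ p := by exact_mod_cast (hPS p hp).1.two_le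
      have : (p : ℝ)⁻¹ ≤ 1 := inv_le_one_of_one_le₀ (by linarith)
      linarith
    -- the product over the primes not dividing `Q`
    have hPSe : (Icc 1 H).filter Nat.Prime = PS Q H ∪ Q.primeFactors := by
      unfold Pool.Agent.TH423.SH.PS
      ext p
      rw [mem_union, mem_filter, mem_filter, mem_Icc, Nat.mem_primeFactors]
      constructor
      · rintro ⟨h1, h2⟩
        by_cases h3 : p ∣ Q
        · right; exact ⟨h2, h3, by omega⟩
        · left; exact ⟨h1, h2, h3⟩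
      · rintro (⟨h1, h2, -⟩ | ⟨h1, h2, -⟩)
        · exact ⟨h1, h2⟩
        · exact ⟨⟨h1.one_lt.le, hQH p h1 h2⟩, h1⟩
    have hdis : Disjoint (PS Q H) Q.primeFactors := by
      rw [Finset.disjoint_left]
      intro p hp hq
      exact (hPS p hp).2.1 (Nat.dvd_of_mem_primeFactors hq)
    have h1 : (Pool.Agent.Y674.PSP.VV H)⁻¹ = (∏ p ∈ PS Q H, (1 - (p : ℝ)⁻¹)) * ∏ p ∈ Q.primeFactors, (1 - (p : ℝ)⁻¹) := by
      rw [← prod_union hdis, ← hPSe]
      unfold Pool.Agent.Y674.PSP.VV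
      rw [prod_inv_distrib, inv_inv]
    have h2 : ∏ p ∈ Q.primeFactors, (1 - (p : ℝ)⁻¹) = Q.totient / Q := by
      have h := Nat.totient_eq_mul_prod_factors Q
      have h3 := congrArg (fun x : ℚ => (x : ℝ)) h
      simp only [Rat.cast_natCast, Rat.cast_mul, Rat.cast_prod, Rat.cast_sub, Rat.cast_one, Rat.cast_inv] at h3
      rw [h3]
      field_simp
    rw [h2] at h1
    have h3 := VV_ge H (by omega)
    have h4 : (Pool.Agent.Y674.PSP.VV H)⁻¹ ≤ (Real.log H)⁻¹ := inv_anti₀ hlog h3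
    rw [h1] at h4
    have h5 : (∏ p ∈ PS Q H, (1 - (p : ℝ)⁻¹)) * (Q.totient / Q) * (Q / Q.totient) ≤ (Real.log H)⁻¹ * (Q / Q.totient) := by
      apply mul_le_mul_of_nonneg_right h4 (by positivity)
    calc ∏ p ∈ PS Q H, (1 - (p : ℝ)⁻¹) = (∏ p ∈ PS Q H, (1 - (p : ℝ)⁻¹)) * (Q.totient / Q) * (Q / Q.totient) := by
          field_simp
      _ ≤ _ := h5
      _ = _ := by field_simp

end Pool.Agent.H534.NW
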