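import Pool.Agent.H534.NW.Arr1

/-!
# Patterns: local counts
-/

set_option autoImplicit false

open Finset Filter

namespace Pool.Agent.H534.NW

open Pool.Agent.H534.RS hiding majW classes engP
open Pool.Agent.H534.RT
open Pool.Agent.Y677.RSZ hiding Sys V_pos fac_pos V_lower
open Pool.Agent.TH423.SH (PS)
open Pool.Agent.Y880.RS.P3

/-- the product of the `n + h_i`, with `h_0 = 0` -/
def FP {m : ℕ} (h : Fin m → ℕ) : ℤ → ℤ := FL (fun _ : Fin (m + 1) => 1) (fun i => (ext0 h i : ℤ))

theorem FP_dvd {m : ℕ} (h : Fin m → ℕ) {p : ℕ} (hp : p.Prime) (n : ℤ) :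
    (p : ℤ) ∣ FP h n ↔ ∃ i, (p : ℤ) ∣ n + (ext0 h i : ℤ) := by
  unfold FP
  rw [FL_dvd hp]
  constructor
  · rintro ⟨j, hj⟩
    refine ⟨j, ?_⟩
    rwa [Nat.cast_one, one_mul] at hj
  · rintro ⟨j, hj⟩
    refine ⟨j, ?_⟩
    rwa [Nat.cast_one, one_mul]

theorem FP_per {m : ℕ} (h : Fin m → ℕ) : ∀ p : ℕ, p.Prime → ∀ n : ℤ, (p : ℤ) ∣ FP h (n + p) - FP h n :=
  fun p _ n => FL_per p n

/-- the roots modulo `p` of a pattern with different residues -/
theorem FP_rt {m : ℕ} (h : Fin m → ℕ) {p : ℕ} (hp : p.Prime)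
    (hd : ∀ i j, i ≠ j → ¬ (p : ℤ) ∣ (ext0 h i : ℤ) - (ext0 h j : ℤ)) : m + 1 ≤ rt (FP h) p := by
  classical
  unfold rt
  have hp0 : (p : ℤ) ≠ 0 := by exact_mod_cast hp.ne_zero
  have hpp : (0 : ℤ) < p := by exact_mod_cast hp.pos
  have hc : ∀ i : Fin (m + 1), (((-(ext0 h i : ℤ)) % p).toNat : ℤ) = (-(ext0 h i : ℤ)) % p :=
    fun i => Int.toNat_of_nonneg (Int.emod_nonneg _ hp0)
  have h1 : (univ : Finset (Fin (m + 1))).card ≤ ((range p).filter (fun r : ℕ => (p : ℤ) ∣ FP h r)).card := by
    apply card_le_card_of_injOn (fun i => ((-(ext0 h i : ℤ)) % p).toNat)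
    · intro i _
      rw [mem_coe, mem_filter, mem_range]
      refine ⟨?_, ?_⟩
      · have h2 := Int.emod_lt_of_pos (-(ext0 h i : ℤ)) hpp
        rw [← hc i] at h2
        exact_mod_cast h2
      · rw [FP_dvd h hp]
        refine ⟨i, ?_⟩
        rw [hc i, Int.emod_def]
        exact ⟨-(-(ext0 h i : ℤ) / p), by ring⟩
    · intro i _ j _ hij
      by_contra hne
      apply hd i j hne
      simp only at hij
      have h2 : (-(ext0 h i : ℤ)) % p = (-(ext0 h j : ℤ)) % p := by rw [← hc i, ← hc j, hij]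
      have h3 : (p : ℤ) ∣ (-(ext0 h j : ℤ)) - (-(ext0 h i : ℤ)) := Int.ModEq.dvd h2
      have h4 : (-(ext0 h j : ℤ)) - (-(ext0 h i : ℤ)) = (ext0 h i : ℤ) - (ext0 h j : ℤ) := by ring
      rwa [h4] at h3
  rwa [card_univ, Fintype.card_fin] at h1

/-- a bound for the number of the roots modulo `p` -/
theorem FP_rt_le {m : ℕ} (h : Fin m → ℕ) {p : ℕ} (hp : p.Prime) : rt (FP h) p ≤ m + 1 := by
  classical
  unfold rt
  have hp0 : (p : ℤ) ≠ 0 := by exact_mod_cast hp.ne_zero
  have hpp : (0 : ℤ) < p := by exact_mod_cast hp.pos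
  have hsub : (range p).filter (fun r : ℕ => (p : ℤ) ∣ FP h r) ⊆
      (univ : Finset (Fin (m + 1))).image (fun i => ((-(ext0 h i : ℤ)) % p).toNat) := by
    intro r hr
    rw [mem_filter, mem_range, FP_dvd h hp] at hr
    obtain ⟨hr1, i, hi⟩ := hr
    rw [mem_image]
    refine ⟨i, mem_univ _, ?_⟩
    have h1 : (-(ext0 h i : ℤ)) % p = (r : ℤ) % p := by
      apply Int.emod_emod_of_dvd _ (dvd_refl _) |>.symm.trans
      rw [Int.emod_emod_of_dvd _ (dvd_refl _)]
      apply (Int.emod_emod_of_dvd _ (dvd_refl (p : ℤ))).symm.trans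
      rw [Int.emod_emod_of_dvd _ (dvd_refl _)]
      exact Int.ModEq.symm ((Int.modEq_iff_dvd).2 (by
        have e : -(ext0 h i : ℤ) - r = -((r : ℤ) + ext0 h i) := by ring
        rw [e]
        exact (dvd_neg).2 hi))
    rw [h1, Int.emod_eq_of_lt (by positivity) (by exact_mod_cast hr1), Int.toNat_natCast]
  refine (card_le_card hsub).trans (card_image_le.trans ?_)
  rw [card_univ, Fintype.card_fin]

/-- the classes modulo `Q` prime to a pattern -/
theorem cls3_card {m : ℕ} (h : Fin m → ℕ) (Q : ℕ) (hQ : Squarefree Q) :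
    ((cls3 m Q h).card : ℝ) = Q * dW (FP h) Q := by
  classical
  have h0 : cls3 m Q h = (range Q).filter (fun b : ℕ => ∀ p ∈ Q.primeFactors, ¬ (p : ℤ) ∣ FP h b) := by
    unfold cls3
    apply filter_congr
    intro b _
    have hcop : ∀ t : ℕ, (b + t).Coprime Q ↔ ∀ p ∈ Q.primeFactors, ¬ (p : ℤ) ∣ (b : ℤ) + (t : ℤ) := by
      intro t
      constructor
      · intro hc p hp hd
        have hpp := Nat.prime_of_mem_primeFactors hp
        have hd' : p ∣ b + t := by exact_mod_cast hd
        exact Nat.Prime.one_lt hpp |>.ne' (Nat.eq_one_of_dvd_coprimes hc hd' (Nat.dvd_of_mem_primeFactors hp))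
      · intro hc
        apply Nat.Coprime.symm
        rw [Nat.coprime_iff_gcd_eq_one]
        by_contra hg
        obtain ⟨p, hp, hpd⟩ := Nat.exists_prime_and_dvd hg
        refine hc p (Nat.mem_primeFactors.2 ⟨hp, hpd.trans (Nat.gcd_dvd_left _ _), hQ.ne_zero⟩) ?_
        exact_mod_cast hpd.trans (Nat.gcd_dvd_right _ _)
    constructor
    · rintro ⟨h1, h2⟩ p hp hd
      rw [FP_dvd h (Nat.prime_of_mem_primeFactors hp)] at hd
      obtain ⟨i, hi⟩ := hd
      revert hi
      refine Fin.cases ?_ (fun j => ?_) i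
      · intro hi
        rw [ext0_zero] at hi
        have h3 := (hcop 0).1 (by rwa [add_zero]) p hp
        exact h3 hi
      · intro hi
        rw [ext0_succ] at hi
        exact (hcop (h j)).1 (h2 j) p hp hi
    · intro h1
      constructor
      · have h3 := (hcop 0).2 (fun p hp hd => h1 p hp ((FP_dvd h (Nat.prime_of_mem_primeFactors hp) _).2
          ⟨0, by rw [ext0_zero]; exact hd⟩))
        rwa [add_zero] at h3
      · intro j
        exact (hcop (h j)).2 (fun p hp hd => h1 p hp ((FP_dvd h (Nat.prime_of_mem_primeFactors hp) _).2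
          ⟨j.succ, by rw [ext0_succ]; exact hd⟩))
  have h1 : (cls3 m Q h).card = ∏ p ∈ Q.primeFactors, (p - rt (FP h) p) := by
    rw [h0]
    have := pig (FP h) (FP_per h) Q hQ
    convert this
  rw [h1, Nat.cast_prod]
  have h2 : (Q : ℝ) = ∏ p ∈ Q.primeFactors, (p : ℝ) := by
    conv_lhs => rw [← Nat.prod_primeFactors_of_squarefree hQ]
    push_cast
    rfl
  conv_rhs => rw [h2]
  unfold dW
  rw [← prod_mul_distrib]
  apply prod_congr rfl
  intro p hp
  have hp0 : (p : ℝ) ≠ 0 := by
    have := (Nat.prime_of_mem_primeFactors hp).pos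
    positivity
  rw [Nat.cast_sub (rt_le p)]
  field_simp

/-- few patterns have a difference divisible by `w` -/
theorem bad_count (m K w : ℕ) (hw : 1 ≤ w) (hK : 1 ≤ K) :
    (((box m K).filter (fun h => ∃ i j : Fin (m + 1), i ≠ j ∧ (w : ℤ) ∣ (ext0 h i : ℤ) - (ext0 h j : ℤ))).card : ℝ) ≤
      ((m : ℝ) + 1) ^ 2 * ((K : ℝ) ^ m * (1 / w + 1 / K)) := by
  classical
  have hwr : (0 : ℝ) < w := by exact_mod_cast hw
  have hKr : (0 : ℝ) < K := by exact_mod_cast hK
  -- one pair
  have hone : ∀ (i : Fin (m + 1)) (j : Fin m), i ≠ j.succ →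
      (((box m K).filter (fun h => (w : ℤ) ∣ (ext0 h i : ℤ) - (ext0 h j.succ : ℤ))).card : ℝ) ≤
        (K : ℝ) ^ m * (1 / w + 1 / K) := by
    intro i j hij
    have h1 : ((box m K).filter (fun h => (w : ℤ) ∣ (ext0 h i : ℤ) - (ext0 h j.succ : ℤ))).card ≤
        ((Fintype.piFinset (fun l : Fin m => if l = j then {1} else Icc 1 K)) ×ˢ range (K / w + 1)).card := by
      apply card_le_card_of_injOn (fun h => (Function.update h j 1, h j / w))
      · intro h hh
        rw [mem_coe, mem_filter, mem_box] at hh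
        rw [mem_coe, mem_product, Fintype.mem_piFinset, mem_range]
        refine ⟨fun l => ?_, ?_⟩
        · by_cases hl : l = j
          · rw [if_pos hl, hl]
            simp
          · rw [if_neg hl]
            simp only
            rw [Function.update_of_ne hl, mem_Icc]
            exact hh.1 l
        · have := Nat.div_le_div_right (c := w) (hh.1 j).2
          show h j / w < K / w + 1
          omega
      · intro h hh h' hh' he
        rw [mem_coe, mem_filter] at hh hh'
        simp only [Prod.mk.injEq] at he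
        obtain ⟨he1, he2⟩ := he
        have hl : ∀ l, l ≠ j → h l = h' l := by
          intro l hl
          have := congrFun he1 l
          rwa [Function.update_of_ne hl, Function.update_of_ne hl] at this
        have hi : ext0 h i = ext0 h' i := by
          revert hij
          refine Fin.cases ?_ (fun l => ?_) i
          · intro _; rfl
          · intro hl'
            rw [ext0_succ, ext0_succ]
            exact hl l (fun e => hl' (by rw [e]))
        have hj : h j = h' j := by
          have d1 := hh.2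
          have d2 := hh'.2
          rw [ext0_succ] at d1 d2
          rw [hi] at d1
          have d3 : (w : ℤ) ∣ (h' j : ℤ) - (h j : ℤ) := by
            have := dvd_sub d1 d2
            have e : (ext0 h' i : ℤ) - (h j : ℤ) - ((ext0 h' i : ℤ) - (h' j : ℤ)) = (h' j : ℤ) - (h j : ℤ) := by ring
            rwa [e] at this
          have d4 : h j % w = h' j % w := by
            have : (h j : ℤ) ≡ (h' j : ℤ) [ZMOD w] := (Int.modEq_iff_dvd).2 d3
            exact (Int.natCast_modEq_iff.1 this)
          have e1 := Nat.div_add_mod (h j) w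
          have e2 := Nat.div_add_mod (h' j) w
          rw [← e1, ← e2, he2, d4]
        funext l
        by_cases hl' : l = j
        · rw [hl']; exact hj
        · exact hl l hl'
    have h2 : (Fintype.piFinset (fun l : Fin m => if l = j then ({1} : Finset ℕ) else Icc 1 K)).card * K = K ^ m := by
      rw [Fintype.card_piFinset]
      have e1 : ∀ l : Fin m, (if l = j then ({1} : Finset ℕ) else Icc 1 K).card = if l = j then 1 else K := by
        intro l
        split_ifs
        · rw [card_singleton]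
        · rw [Nat.card_Icc]; omega
      rw [prod_congr rfl (fun l _ => e1 l)]
      have e2 : (∏ l : Fin m, (if l = j then K else 1)) = K := by
        rw [prod_ite_eq' univ j (fun _ => K), if_pos (mem_univ _)]
      conv_lhs => rw [← e2]
      conv_lhs => rw [e2]
      calc (∏ l : Fin m, (if l = j then 1 else K)) * K =
            (∏ l : Fin m, (if l = j then 1 else K)) * ∏ l : Fin m, (if l = j then K else 1) := by rw [e2]
        _ = ∏ l : Fin m, ((if l = j then 1 else K) * (if l = j then K else 1)) := by rw [prod_mul_distrib]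
        _ = ∏ _l : Fin m, K := by
            apply prod_congr rfl
            intro l _
            split_ifs <;> simp
        _ = K ^ m := by rw [prod_const, card_univ, Fintype.card_fin]
    have h3 : ((Fintype.piFinset (fun l : Fin m => if l = j then ({1} : Finset ℕ) else Icc 1 K)).card : ℝ) =
        (K : ℝ) ^ m / K := by
      rw [eq_div_iff hKr.ne']
      exact_mod_cast h2
    have h4 : ((K / w + 1 : ℕ) : ℝ) ≤ K / w + 1 := by
      push_cast
      have := Nat.cast_div_le (α := ℝ) (m := K) (n := w)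
      linarith
    rw [card_product, card_range] at h1
    calc (((box m K).filter (fun h => (w : ℤ) ∣ (ext0 h i : ℤ) - (ext0 h j.succ : ℤ))).card : ℝ) ≤
          ((Fintype.piFinset (fun l : Fin m => if l = j then ({1} : Finset ℕ) else Icc 1 K)).card : ℝ) * ((K / w + 1 : ℕ) : ℝ) := by
            exact_mod_cast h1
      _ ≤ (K : ℝ) ^ m / K * (K / w + 1) := by
          rw [h3]
          gcongr
      _ = _ := by field_simp
  have hsub : (box m K).filter (fun h => ∃ i j : Fin (m + 1), i ≠ j ∧ (w : ℤ) ∣ (ext0 h i : ℤ) - (ext0 h j : ℤ)) ⊆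
      ((univ : Finset (Fin (m + 1) × Fin m)).filter (fun q => q.1 ≠ q.2.succ)).biUnion
        (fun q => (box m K).filter (fun h => (w : ℤ) ∣ (ext0 h q.1 : ℤ) - (ext0 h q.2.succ : ℤ))) := by
    intro h hh
    rw [mem_filter] at hh
    obtain ⟨hb, i, j, hij, hd⟩ := hh
    rw [mem_biUnion]
    rcases Fin.eq_zero_or_eq_succ j with hj | ⟨j', hj⟩
    · rcases Fin.eq_zero_or_eq_succ i with hi | ⟨i', hi⟩
      · exact absurd (hi.trans hj.symm) hij
      · refine ⟨(j, i'), mem_filter.2 ⟨mem_univ _, fun e => hij (by rw [hi]; exact e.symm)⟩, mem_filter.2 ⟨hb, ?_⟩⟩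
        rw [← hi]
        have e : (ext0 h j : ℤ) - (ext0 h i : ℤ) = -((ext0 h i : ℤ) - (ext0 h j : ℤ)) := by ring
        simp only
        rw [e]
        exact (dvd_neg).2 hd
    · refine ⟨(i, j'), mem_filter.2 ⟨mem_univ _, fun e => hij (by rw [hj]; exact e)⟩, mem_filter.2 ⟨hb, ?_⟩⟩
      simp only
      rw [← hj]
      exact hd
  calc (((box m K).filter (fun h => ∃ i j : Fin (m + 1), i ≠ j ∧ (w : ℤ) ∣ (ext0 h i : ℤ) - (ext0 h j : ℤ))).card : ℝ) ≤
        ((((univ : Finset (Fin (m + 1) × Fin m)).filter (fun q => q.1 ≠ q.2.succ)).biUnion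
        (fun q => (box m K).filter (fun h => (w : ℤ) ∣ (ext0 h q.1 : ℤ) - (ext0 h q.2.succ : ℤ)))).card : ℝ) := by
          exact_mod_cast card_le_card hsub
    _ ≤ ∑ q ∈ (univ : Finset (Fin (m + 1) × Fin m)).filter (fun q => q.1 ≠ q.2.succ),
        (((box m K).filter (fun h => (w : ℤ) ∣ (ext0 h q.1 : ℤ) - (ext0 h q.2.succ : ℤ))).card : ℝ) := by
          exact_mod_cast card_biUnion_le
    _ ≤ ∑ _q ∈ (univ : Finset (Fin (m + 1) × Fin m)).filter (fun q => q.1 ≠ q.2.succ), (K : ℝ) ^ m * (1 / w + 1 / K) := by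
          apply sum_le_sum
          intro q hq
          exact hone q.1 q.2 (mem_filter.1 hq).2
    _ ≤ ((m : ℝ) + 1) ^ 2 * ((K : ℝ) ^ m * (1 / w + 1 / K)) := by
          rw [sum_const, nsmul_eq_mul]
          apply mul_le_mul_of_nonneg_right _ (by positivity)
          have h5 : ((univ : Finset (Fin (m + 1) × Fin m)).filter (fun q => q.1 ≠ q.2.succ)).card ≤ (m + 1) * m := by
            refine (card_filter_le _ _).trans ?_
            rw [card_univ, Fintype.card_prod, Fintype.card_fin, Fintype.card_fin]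
          have h6 : (((univ : Finset (Fin (m + 1) × Fin m)).filter (fun q => q.1 ≠ q.2.succ)).card : ℝ) ≤ ((m + 1) * m : ℕ) := by
            exact_mod_cast h5
          push_cast at h6
          nlinarith

end Pool.Agent.H534.NW
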