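import Pool.Agent.H534.NW.Clu

/-!
# Indices of primes modulo `q`: strings of primes with almost prime companions at every narrow shape
-/

set_option autoImplicit false

open Finset Filter

namespace Pool.Agent.H534.NW

open Pool.Agent.Y848.UG (Sys)

open Classical in
/-- a translate -/
theorem Shapes.add {k s L H : ℕ} {c σ : ℝ} {A A' : Finset ℕ} (h : Shapes k s c σ L H A) (t : ℕ)
    (hA : ∀ n ∈ A, n + t ∈ A') : Shapes k s c σ L H A' := by
  intro X b hX hb hb1 hb2
  refine (h X b hX hb hb1 hb2).trans ?_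
  apply Nat.cast_le.2
  apply card_le_card
  intro d hd
  rw [mem_filter] at hd ⊢
  refine ⟨hd.1, hd.2.trans ?_⟩
  apply Nat.cast_le.2
  apply card_le_card_of_injOn (fun n => n + t)
  · intro n hn
    obtain ⟨h1, h2⟩ := mem_filter.1 (mem_coe.1 hn)
    refine mem_coe.2 (mem_filter.2 ⟨hA n h1, fun i => ?_⟩)
    have h3 := hA _ (h2 i)
    have e : n + t + WS σ b H * d * b i = n + WS σ b H * d * b i + t := by ring
    rw [e]
    exact h3
  · intro n _ n' _ hnn
    simp only at hnn
    omega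

open Classical in
/-- a translate in the other direction -/
theorem Shapes.sub {k s L H : ℕ} {c σ : ℝ} {A A' : Finset ℕ} (h : Shapes k s c σ L H A) (t : ℕ)
    (hA : ∀ n ∈ A, t ≤ n ∧ n - t ∈ A') : Shapes k s c σ L H A' := by
  intro X b hX hb hb1 hb2
  refine (h X b hX hb hb1 hb2).trans ?_
  apply Nat.cast_le.2
  apply card_le_card
  intro d hd
  rw [mem_filter] at hd ⊢
  refine ⟨hd.1, hd.2.trans ?_⟩
  apply Nat.cast_le.2
  apply card_le_card_of_injOn (fun n => n - t)
  · intro n hn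
    obtain ⟨h1, h2⟩ := mem_filter.1 (mem_coe.1 hn)
    obtain ⟨h0, h1'⟩ := hA n h1
    refine mem_coe.2 (mem_filter.2 ⟨h1', fun i => ?_⟩)
    have h3 := (hA _ (h2 i)).2
    have e : n - t + WS σ b H * d * b i = n + WS σ b H * d * b i - t := by omega
    rw [e]
    exact h3
  · intro n hn n' hn' hnn
    have g1 := (hA n (mem_filter.1 (mem_coe.1 hn)).1).1
    have g2 := (hA n' (mem_filter.1 (mem_coe.1 hn')).1).1
    simp only at hnn
    omega

/-- the ranks of the elements of a finite set -/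
theorem exists_rank (P : Finset ℕ) (i : ℕ) (hi : 1 ≤ i) (hP : i ≤ P.card) : ∃ t ∈ P, (P.filter (· ≤ t)).card = i := by
  classical
  have himg : P.image (fun t => (P.filter (· ≤ t)).card) = Icc 1 P.card := by
    apply eq_of_subset_of_card_le
    · intro j hj
      rw [mem_image] at hj
      obtain ⟨t, ht, rfl⟩ := hj
      rw [mem_Icc]
      refine ⟨card_pos.2 ⟨t, mem_filter.2 ⟨ht, le_rfl⟩⟩, card_le_card (filter_subset _ _)⟩
    · rw [Nat.card_Icc, Nat.add_sub_cancel, card_image_of_injOn]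
      intro t ht t' ht' h
      simp only at h
      by_contra hne
      rcases lt_or_gt_of_ne hne with h1 | h1
      · have : (P.filter (· ≤ t)).card < (P.filter (· ≤ t')).card := by
          apply card_lt_card
          rw [Finset.ssubset_iff_of_subset]
          · exact ⟨t', mem_filter.2 ⟨ht', le_rfl⟩, fun h2 => absurd (mem_filter.1 h2).2 (by omega)⟩
          · intro u hu
            rw [mem_filter] at hu ⊢
            exact ⟨hu.1, by omega⟩
        omega
      · have : (P.filter (· ≤ t')).card < (P.filter (· ≤ t)).card := by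
          apply card_lt_card
          rw [Finset.ssubset_iff_of_subset]
          · exact ⟨t, mem_filter.2 ⟨ht, le_rfl⟩, fun h2 => absurd (mem_filter.1 h2).2 (by omega)⟩
          · intro u hu
            rw [mem_filter] at hu ⊢
            exact ⟨hu.1, by omega⟩
        omega
  have h1 : i ∈ P.image (fun t => (P.filter (· ≤ t)).card) := by
    rw [himg, mem_Icc]
    exact ⟨hi, hP⟩
  rw [mem_image] at h1
  exact h1

/-- the index of the primes after `n` -/
theorem index_after (n K L : ℕ) (P : Finset ℕ) (hP : P ⊆ Icc 1 K)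
    (h : ∀ t : ℕ, 1 ≤ t → t ≤ L → ((n + t).Prime ↔ t ∈ P)) :
    ∀ t ≤ L, Nat.primeCounting (n + t) = Nat.primeCounting n + (P.filter (· ≤ t)).card := by
  intro t
  induction t with
  | zero =>
    intro _
    have : P.filter (· ≤ 0) = ∅ := by
      apply filter_eq_empty_iff.2
      intro u hu h0
      have := mem_Icc.1 (hP hu)
      omega
    rw [this, card_empty, add_zero, add_zero]
  | succ t ih =>
    intro ht
    have ih' := ih (by omega)
    have h1 : Nat.primeCounting (n + (t + 1)) = Nat.primeCounting (n + t) + if (n + (t + 1)).Prime then 1 else 0 := by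
      unfold Nat.primeCounting Nat.primeCounting'
      rw [show n + (t + 1) + 1 = (n + t + 1) + 1 by ring, Nat.count_succ]
      rfl
    have h2 : (P.filter (· ≤ t + 1)).card = (P.filter (· ≤ t)).card + if t + 1 ∈ P then 1 else 0 := by
      by_cases hm : t + 1 ∈ P
      · rw [if_pos hm]
        have : P.filter (· ≤ t + 1) = insert (t + 1) (P.filter (· ≤ t)) := by
          ext u
          rw [mem_insert, mem_filter, mem_filter]
          constructor
          · rintro ⟨h3, h4⟩
            by_cases hu : u = t + 1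
            · exact Or.inl hu
            · exact Or.inr ⟨h3, by omega⟩
          · rintro (h3 | ⟨h3, h4⟩)
            · exact ⟨h3 ▸ hm, by omega⟩
            · exact ⟨h3, by omega⟩
        rw [this, card_insert_of_notMem (by
          rw [mem_filter]
          omega)]
      · rw [if_neg hm, add_zero]
        congr 1
        ext u
        rw [mem_filter, mem_filter]
        constructor
        · rintro ⟨h3, h4⟩
          refine ⟨h3, ?_⟩
          have : u ≠ t + 1 := fun h5 => hm (h5 ▸ h3)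
          omega
        · rintro ⟨h3, h4⟩
          exact ⟨h3, by omega⟩
    rw [h1, h2, ih', add_assoc]
    congr 2
    by_cases hm : t + 1 ∈ P
    · rw [if_pos hm, if_pos ((h (t + 1) (by omega) ht).2 hm)]
    · rw [if_neg hm, if_neg (fun h3 => hm ((h (t + 1) (by omega) ht).1 h3))]

theorem W0_tendsto : Tendsto W0 atTop atTop := by
  rw [tendsto_atTop]
  intro N
  obtain ⟨p, hpN, hp⟩ := Nat.exists_infinite_primes N
  have hNr : Tendsto (fun H : ℕ => (H : ℝ)) atTop atTop := tendsto_natCast_atTop_atTop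
  have hll : Tendsto (fun H : ℕ => Real.log (Real.log (H : ℝ))) atTop atTop :=
    Real.tendsto_log_atTop.comp (Real.tendsto_log_atTop.comp hNr)
  filter_upwards [hll.eventually_ge_atTop (p : ℝ)] with x hx
  have h0 : (0 : ℝ) ≤ p := Nat.cast_nonneg p
  have h1 : p ∣ W0 x := by
    unfold W0
    rw [hp.dvd_primorial_iff, Nat.le_floor_iff (by linarith)]
    exact hx
  exact hpN.trans (Nat.le_of_dvd (primorial_pos _) h1)

open Classical in
/-- **Strings of primes with almost prime companions and prescribed indices modulo `q`, at every narrow shape.** -/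
theorem idxN (r : ℕ) (a : ℕ → ℕ) (b : ℕ → ℤ) (hS : Sys r a b) (q m : ℕ) (hq : 1 ≤ q) : ∃ η : ℝ, 0 < η ∧
    ∃ B K : ℕ, ∀ k : ℕ, 1 ≤ k → ∃ c σ : ℝ, 0 < c ∧ 0 < σ ∧ σ ≤ 1 / 2 ∧ ∃ L₀ : ℕ, ∀ᶠ x : ℕ in atTop,
    ∀ L : ℕ, K ≤ L → (L : ℝ) ≤ Real.log x / Real.log (Real.log x) ^ 2 →
    ∃ (P S : Finset ℕ) (ρ : ℕ), P ⊆ Icc 1 K ∧ m ≤ P.card ∧ ρ < q ∧
      (∀ n ∈ S, x / 2 < n ∧ n ≤ x / 2 + x ∧ Nat.primeCounting n % q = ρ ∧
        (∀ t : ℕ, 1 ≤ t → t ≤ L → ((n + t).Prime ↔ t ∈ P)) ∧
        ∀ t ∈ P, ∀ l < r, ∀ p : ℕ, p.Prime → (p : ℤ) ∣ a l * ((n + t : ℕ) : ℤ) + b l → (x : ℝ) ^ η < p) ∧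
      Shapes k B c σ L₀ x S := by
  obtain ⟨η, hη, B, K, hclu⟩ := cluN m r
  refine ⟨η, hη, B, K, fun k hk => ?_⟩
  obtain ⟨M, hM⟩ : ∃ M : ℕ, M = ∑ l ∈ range (r + 1), (a l + (b l).natAbs) + 1 := ⟨_, rfl⟩
  have haM : ∀ l ≤ r, a l + (b l).natAbs ≤ M := by
    intro l hl
    rw [hM]
    have := single_le_sum (f := fun l => a l + (b l).natAbs) (fun _ _ => Nat.zero_le _) (mem_range.2 (by omega : l < r + 1))
    omega
  obtain ⟨c, σ, hc, hσ, hσ2, hcl⟩ := hclu k 1 M (1 / (q : ℝ)) hk (by positivity)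
  obtain ⟨Lx, x₀, hcl⟩ := hcl σ hσ le_rfl
  refine ⟨c, σ, hc, hσ, hσ2, Lx, ?_⟩
  filter_upwards [eventually_ge_atTop x₀, eventually_ge_atTop (4 * M + 4 * (K + 2)),
    W0_tendsto.eventually_ge_atTop (2 * M * M + K + 1)] with x hx hxM hxW L hKL hL
  have hx1 : (M : ℝ) ≤ x := by
    have : M ≤ x := by omega
    exact_mod_cast this
  have hbnd : ∀ l ≤ r, (a l : ℝ) ≤ x ∧ |(b l : ℝ)| ≤ x := by
    intro l hl
    have h1 := haM l hl
    constructor
    · have : a l ≤ M := by omega
      exact (by exact_mod_cast this : (a l : ℝ) ≤ M).trans hx1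
    · have h2 : (b l).natAbs ≤ M := by omega
      have h3 : |(b l : ℝ)| = ((b l).natAbs : ℝ) := by
        rw [Nat.cast_natAbs]
        push_cast
        rfl
      rw [h3]
      exact (by exact_mod_cast h2 : ((b l).natAbs : ℝ) ≤ M).trans hx1
  obtain ⟨P, S, hP, hPm, hSsub, hSgood, hSh⟩ := hcl x hx a b L hS (fun l hl => by rw [pow_one]; exact (hbnd l hl).1)
    (fun l hl => by rw [pow_one]; exact (hbnd l hl).2) hKL hL (Or.inr (fun l hl _ => Or.inl (by
      have := haM l hl.le
      omega))) (by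
      intro l hl n hn1 hn2 h0
      have h1 := haM l hl
      have h2 : (1 : ℤ) ≤ a l := by exact_mod_cast hS.pos l hl
      have h3 : (M : ℤ) < n := by exact_mod_cast (by omega : M < n)
      have h4 : (a l : ℤ) * n ≥ n := by nlinarith
      omega) (by
      intro l hl l' hl' hll s t ht1 htx htW h1 h2 h0
      have h3 : W0 x ≤ t := Nat.le_of_dvd (by omega) htW
      have h4 : 2 * M * M < s := by omega
      have h5 := haM l hl
      have h6 := haM l' hl'
      have h7 : (1 : ℤ) ≤ a l := by exact_mod_cast hS.pos l hl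
      have h8 : (1 : ℤ) ≤ a l' := by exact_mod_cast hS.pos l' hl'
      have h9 : (2 * M * M : ℤ) < s := by exact_mod_cast h4
      have h10 : (a l : ℤ) ≤ M := by exact_mod_cast (by omega : a l ≤ M)
      have h11 : (a l' : ℤ) ≤ M := by exact_mod_cast (by omega : a l' ≤ M)
      have h12 : |b l| ≤ M := by
        rw [← Int.natCast_natAbs]
        exact_mod_cast (by omega : (b l).natAbs ≤ M)
      have h13 : |b l'| ≤ M := by
        rw [← Int.natCast_natAbs]
        exact_mod_cast (by omega : (b l').natAbs ≤ M)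
      have h14 : (s : ℤ) ≤ a l * a l' * s := by nlinarith [mul_le_mul h7 h8 (by norm_num) (by omega)]
      have h15 : |(a l : ℤ) * b l'| ≤ M * M := by
        rw [abs_mul, Nat.abs_cast]
        exact mul_le_mul h10 h13 (abs_nonneg _) (by positivity)
      have h16 : |(a l' : ℤ) * b l| ≤ M * M := by
        rw [abs_mul, Nat.abs_cast]
        exact mul_le_mul h11 h12 (abs_nonneg _) (by positivity)
      rw [abs_le] at h15 h16
      nlinarith [h15.1, h16.2])
  -- a class of the index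
  have hqr : (0 : ℝ) < q := by exact_mod_cast hq
  obtain ⟨ρ, hρ, hρc⟩ : ∃ ρ ∈ range q, 1 / (q : ℝ) * S.card ≤ ((S.filter (fun n => Nat.primeCounting n % q = ρ)).card : ℝ) := by
    by_contra hcon
    push Not at hcon
    have h1 : S.card = ∑ ρ ∈ range q, (S.filter (fun n => Nat.primeCounting n % q = ρ)).card := by
      apply card_eq_sum_card_fiberwise
      intro n _
      rw [mem_coe, mem_range]
      exact Nat.mod_lt _ (by omega)
    have h2 : (S.card : ℝ) < ∑ _ρ ∈ range q, 1 / (q : ℝ) * S.card := by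
      have h3 : (S.card : ℝ) = ∑ ρ ∈ range q, ((S.filter (fun n => Nat.primeCounting n % q = ρ)).card : ℝ) := by
        exact_mod_cast h1
      rw [h3]
      have h4 : (range q).Nonempty := ⟨0, mem_range.2 (by omega)⟩
      rw [← h3]
      exact h3.trans_lt (sum_lt_sum_of_nonempty h4 hcon)
    rw [sum_const, card_range, nsmul_eq_mul] at h2
    have h3 : (q : ℝ) * (1 / (q : ℝ) * S.card) = S.card := by field_simp
    linarith
  rw [mem_range] at hρ
  refine ⟨P, S.filter (fun n => Nat.primeCounting n % q = ρ), ρ, hP, hPm, hρ, ?_,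
    hSh _ (filter_subset _ _) hρc⟩
  intro n hn
  rw [mem_filter] at hn
  have h1 := mem_Ioc.1 (hSsub hn.1)
  obtain ⟨h2, h3⟩ := hSgood n hn.1
  exact ⟨h1.1, h1.2, hn.2, h2, fun t ht l hl p hp hd => (h3 t ht).2 l hl p hp hd⟩

open Classical in
/-- primes with index in a given class modulo `q` and almost prime companions -/
theorem idxC (r : ℕ) (a : ℕ → ℕ) (b : ℕ → ℤ) (hS : Sys r a b) (q : ℕ) (hq : 1 ≤ q) : ∃ η : ℝ, 0 < η ∧
    ∃ B : ℕ, ∀ k : ℕ, 1 ≤ k → ∃ c σ : ℝ, 0 < c ∧ 0 < σ ∧ σ ≤ 1 / 2 ∧ ∃ L₀ : ℕ, ∀ᶠ x : ℕ in atTop, ∀ e : ℕ,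
    Shapes k B c σ L₀ x ((Ioc (x / 2) (2 * x)).filter (fun p => p.Prime ∧ Nat.primeCounting p ≡ e [MOD q] ∧
      ∀ l < r, ∀ u : ℕ, u.Prime → (u : ℤ) ∣ a l * (p : ℤ) + b l → (x : ℝ) ^ η < u)) := by
  obtain ⟨η, hη, B, K, hm⟩ := idxN r a b hS q q hq
  refine ⟨η, hη, B, fun k hk => ?_⟩
  obtain ⟨c, σ, hc, hσ, hσ2, L₀, hev⟩ := hm k hk
  refine ⟨c, σ, hc, hσ, hσ2, L₀, ?_⟩
  have hK : ∀ᶠ x : ℕ in atTop, (K : ℝ) ≤ Real.log x / Real.log (Real.log x) ^ 2 := by
    have hNr : Tendsto (fun H : ℕ => (H : ℝ)) atTop atTop := tendsto_natCast_atTop_atTop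
    have hl : Tendsto (fun H : ℕ => Real.log (H : ℝ)) atTop atTop := Real.tendsto_log_atTop.comp hNr
    have h1 : ∀ᶠ l : ℝ in atTop, (K : ℝ) ≤ l / Real.log l ^ 2 := by
      have h2 := (Real.isLittleO_pow_log_id_atTop (n := 2)).bound (show (0 : ℝ) < 1 / (K + 1) by positivity)
      filter_upwards [h2, eventually_gt_atTop 1] with l hl hl1
      have h3 : 0 < Real.log l := Real.log_pos hl1
      rw [Real.norm_eq_abs, abs_of_pos (by positivity), id, Real.norm_eq_abs, abs_of_pos (by linarith)] at hl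
      rw [le_div_iff₀ (by positivity)]
      calc (K : ℝ) * Real.log l ^ 2 ≤ (K + 1) * (1 / (K + 1) * l) := by gcongr; linarith
        _ = l := by field_simp
    exact hl.eventually h1
  filter_upwards [hev, hK, eventually_ge_atTop (2 * K + 2)] with x hx hxK hxK2 e
  obtain ⟨P, S, ρ, hP, hPm, hρ, hSg, hSh⟩ := hx K le_rfl hxK
  -- the rank
  obtain ⟨i, hi1, hi2, hi3⟩ : ∃ i : ℕ, 1 ≤ i ∧ i ≤ q ∧ ρ + i ≡ e [MOD q] := by
    refine ⟨(e % q + (q - ρ) - 1) % q + 1, by omega, by
      have := Nat.mod_lt (e % q + (q - ρ) - 1) (by omega : 0 < q)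
      omega, ?_⟩
    have h1 : e % q + (q - ρ) - 1 + 1 = e % q + (q - ρ) := by omega
    have h2 : (e % q + (q - ρ) - 1) % q + 1 ≡ e % q + (q - ρ) [MOD q] := by
      have h3 := (Nat.mod_modEq (e % q + (q - ρ) - 1) q).add_right 1
      rwa [h1] at h3
    calc ρ + ((e % q + (q - ρ) - 1) % q + 1) ≡ ρ + (e % q + (q - ρ)) [MOD q] := h2.add_left ρ
      _ = e % q + q := by omega
      _ ≡ e % q [MOD q] := by
        rw [Nat.ModEq, Nat.add_mod_right]
      _ ≡ e [MOD q] := Nat.mod_modEq e q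
  obtain ⟨t, ht, hti⟩ := exists_rank P i hi1 (hi2.trans hPm)
  have htK := mem_Icc.1 (hP ht)
  refine hSh.add t (fun n hn => ?_)
  obtain ⟨g1, g2, g3, g4, g5⟩ := hSg n hn
  rw [mem_filter, mem_Ioc]
  refine ⟨by omega, (g4 t htK.1 htK.2).2 ht, ?_, fun l hl u hu hd => g5 t ht l hl u hu hd⟩
  rw [index_after n K K P hP g4 t htK.2, hti]
  have h1 : Nat.primeCounting n + i ≡ ρ + i [MOD q] := by
    apply Nat.ModEq.add_right
    rw [← g3]
    exact (Nat.mod_modEq _ _).symm
  exact h1.trans hi3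

end Pool.Agent.H534.NW
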