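import Pool.Agent.H534.NW.Arr2
import Pool.Agent.H534.NW.Idx

/-!
# A positive proportion of the patterns occur with the right frequency in dense sets of primes
-/

set_option autoImplicit false

open Finset Filter

namespace Pool.Agent.H534.NW

open Pool.Agent.H534.RS hiding majW classes engP
open Pool.Agent.H534.RT
open Pool.Agent.Y677.RSZ hiding Sys V_pos fac_pos V_lower
open Pool.Agent.TH423.SH (PS)
open Pool.Agent.Y880.RS (cls log_ev ub3)
open Pool.Agent.Y880.RS.G5 (prim_dvd prim_exp)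
open Pool.Agent.Y880.RS.P3

theorem FP_sys {m : ℕ} (h : Fin m → ℕ) (p₀ Z : ℕ) (hpr : ∀ i, (p₀ + ext0 h i).Prime ∧ Z < p₀ + ext0 h i)
    (hZ : m + 1 ≤ Z) : Sys0 (m + 1) (FP h) := by
  classical
  refine ⟨FP_per h, fun p hp => ⟨FP_rt_le h hp, ?_⟩⟩
  by_cases hpm : m + 1 < p
  · exact (FP_rt_le h hp).trans_lt hpm
  · have h1 : (range p).filter (fun r : ℕ => (p : ℤ) ∣ FP h r) ⊂ range p := by
      refine ⟨filter_subset _ _, fun hsub => ?_⟩
      have h2 : p₀ % p ∈ range p := mem_range.2 (Nat.mod_lt _ hp.pos)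
      have h3 := hsub h2
      rw [mem_filter, FP_dvd h hp] at h3
      obtain ⟨-, i, hi⟩ := h3
      have h4 : p ∣ p₀ % p + ext0 h i := by exact_mod_cast hi
      have h5 : p ∣ p₀ + ext0 h i := by
        have e : p₀ + ext0 h i = p * (p₀ / p) + (p₀ % p + ext0 h i) := by
          have := Nat.div_add_mod p₀ p
          omega
        rw [e]
        exact dvd_add (dvd_mul_right _ _) h4
      obtain ⟨g1, g2⟩ := hpr i
      have h6 := (Nat.prime_dvd_prime_iff_eq hp g1).1 h5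
      omega
    have h2 := card_lt_card h1
    rw [card_range] at h2
    exact h2

/-- the difference of two shifts is not divisible by the prime -/
theorem shift_eq (a b : ℕ) : ((1 + a : ℕ) : ℤ) - ((1 + b : ℕ) : ℤ) = (a : ℤ) - (b : ℤ) := by
  push_cast
  ring

theorem patC (m A : ℕ) (hA : 1 ≤ A) (δ C₀ : ℝ) (hδ : 0 < δ) (hC₀ : 1 ≤ C₀) :
    ∃ κ c : ℝ, 0 < κ ∧ 0 < c ∧ ∃ Y₀ : ℕ, ∀ y Y K : ℕ, Y₀ ≤ Y → Real.log Y ≤ K →
    (K : ℝ) ≤ C₀ * Real.log Y → ∀ (S : Finset ℕ) (H : ℕ → Fin m → ℕ),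
    (∀ p ∈ S, p.Prime ∧ y < p ∧ p ≤ y + Y ∧ H p ∈ box m K ∧ Function.Injective (H p) ∧ ∀ i, (p + H p i).Prime) →
    δ * (Y / Real.log Y) ≤ S.card →
    ∃ G ⊆ box m K, c * Real.log Y ^ m ≤ G.card ∧ ∀ h ∈ G,
      (∀ i j, i ≠ j → ¬ (W0 Y : ℤ) ∣ (ext0 h i : ℤ) - (ext0 h j : ℤ)) ∧ Sys0 (m + 1) (FP h) ∧
      κ * (Y * V (FP h) 1 Y) ≤ ((S.filter (fun p => Nat.sqrt Y < p ∧ H p = h)).card : ℝ) := by
  classical
  obtain ⟨C₂, hC₂, hsec⟩ := second3 m
  obtain ⟨C₁, hC₁, hub0⟩ := ub3 (m + 1) 1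
  obtain ⟨C', hC'⟩ : ∃ C', C' = 3 * C₀ := ⟨_, rfl⟩
  have hC'3 : 3 ≤ C' := by linarith
  obtain ⟨δ₁, hδ₁⟩ : ∃ δ₁, δ₁ = δ / (12 * (2 * C') ^ m) := ⟨_, rfl⟩
  have hδ₁0 : 0 < δ₁ := by rw [hδ₁]; positivity
  obtain ⟨A₃, hA₃⟩ : ∃ A₃, A₃ = 4 * (m + 1) ^ 2 := ⟨_, rfl⟩
  obtain ⟨s₁, hub1⟩ := hub0 A₃
  obtain ⟨Z₁, hub⟩ := hub1 2
  obtain ⟨c₀, hc₀⟩ : ∃ c₀, c₀ = (δ / 12) ^ 2 / (C₁ ^ 2 * C₂ * (2 * C') ^ m) / 3 ^ m := ⟨_, rfl⟩
  have hc₀0 : 0 < c₀ := by rw [hc₀]; positivity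
  obtain ⟨E₀, hE₀⟩ : ∃ E₀, E₀ = Real.exp (2 * ((m + 1 : ℕ) : ℝ) * (A₃ / Real.log 2)) := ⟨_, rfl⟩
  have hE₀0 : 0 < E₀ := by rw [hE₀]; exact Real.exp_pos _
  obtain ⟨ε₀, hε₀⟩ : ∃ ε₀, ε₀ = c₀ / (4 * ((m : ℝ) + 1) ^ 2 * C₀ ^ m) := ⟨_, rfl⟩
  have hε₀0 : 0 < ε₀ := by rw [hε₀]; positivity
  obtain ⟨Z₃, hZ₃⟩ := log_ev (max (max (16 + C') (Real.exp (2 * s₁))) (max (Real.exp 2) (max (18 / δ) A₃)))
  obtain ⟨Z₄, hZ₄⟩ := plog_ev 2 (max 1 (18 / δ))
  obtain ⟨Y₀, hY₀⟩ := zfacts2 (max (max Z₁ (m + 1)) (max Z₃ Z₄))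
  obtain ⟨Y₁, hY₁⟩ := eventually_atTop.1 (W0_tendsto.eventually_ge_atTop (⌈1 / ε₀⌉₊ + 1))
  obtain ⟨Y₂, hY₂⟩ := log_ev (1 / ε₀)
  refine ⟨δ₁ / E₀, c₀ / 2, by positivity, by positivity, max Y₀ (max Y₁ (max Y₂ 2)), ?_⟩
  intro y Y K hY hKl hKC S H hS hSc
  have hYY0 : Y₀ ≤ Y := (le_max_left _ _).trans hY
  have hYY1 : Y₁ ≤ Y := ((le_max_left _ _).trans (le_max_right _ _)).trans hY
  have hYY2 : Y₂ ≤ Y := ((le_max_left _ _).trans ((le_max_right _ _).trans (le_max_right _ _))).trans hY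
  have hY2 : 2 ≤ Y := ((le_max_right _ _).trans ((le_max_right _ _).trans (le_max_right _ _))).trans hY
  obtain ⟨hZall, h16, hZ2, hZ3⟩ := hY₀ Y hYY0
  obtain ⟨Z, hZ⟩ : ∃ Z, Z = Nat.sqrt Y := ⟨_, rfl⟩
  rw [← hZ] at hZall h16 hZ2 hZ3
  rw [← hZ]
  have hZZ1 : Z₁ ≤ Z := ((le_max_left _ _).trans (le_max_left _ _)).trans hZall
  have hZZ2 : m + 1 ≤ Z := ((le_max_right _ _).trans (le_max_left _ _)).trans hZall
  have hZZ3 : Z₃ ≤ Z := ((le_max_left _ _).trans (le_max_right _ _)).trans hZall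
  have hZZ4 : Z₄ ≤ Z := ((le_max_right _ _).trans (le_max_right _ _)).trans hZall
  obtain ⟨L, hL⟩ : ∃ L, L = Real.log Z := ⟨_, rfl⟩
  obtain ⟨l, hl⟩ : ∃ l, l = Real.log Y := ⟨_, rfl⟩
  have hLs := hZ₃ Z hZZ3
  have hLp := hZ₄ Z hZZ4
  have hYl := hY₂ Y hYY2
  rw [← hL] at hLs hLp
  rw [← hl] at hKl hKC hSc hYl ⊢
  have hL1 : 16 + C' ≤ L := ((le_max_left _ _).trans (le_max_left _ _)).trans hLs
  have hL2 : Real.exp (2 * s₁) ≤ L := ((le_max_right _ _).trans (le_max_left _ _)).trans hLs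
  have hL3 : Real.exp 2 ≤ L := ((le_max_left _ _).trans (le_max_right _ _)).trans hLs
  have hL5 : (A₃ : ℝ) ≤ L := ((le_max_right _ _).trans ((le_max_right _ _).trans (le_max_right _ _))).trans hLs
  have hZ0 : (0 : ℝ) < Z := by
    have : 0 < Z := by omega
    exact_mod_cast this
  have hY0 : (0 : ℝ) < Y := by
    have : 0 < Y := by omega
    exact_mod_cast this
  have hL0 : 0 < L := by linarith
  have hL1' : 1 ≤ L := by linarith
  have hLl : 2 * L ≤ l := by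
    have h1 : Real.log ((Z : ℝ) ^ 2) ≤ Real.log Y := Real.log_le_log (by positivity) (by exact_mod_cast hZ2)
    rw [Real.log_pow, ← hL, ← hl] at h1
    exact_mod_cast h1
  have hlL : l ≤ 3 * L := by
    have h1 : Real.log Y ≤ Real.log ((Z : ℝ) ^ 3) := Real.log_le_log hY0 (by exact_mod_cast hZ3)
    rw [Real.log_pow, ← hL, ← hl] at h1
    exact_mod_cast h1
  have hl0 : 0 < l := by linarith
  have hKL : (K : ℝ) ≤ C' * L := by
    calc (K : ℝ) ≤ C₀ * l := hKC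
      _ ≤ C₀ * (3 * L) := by gcongr
      _ = _ := by rw [hC']; ring
  -- `s` and `Q`
  obtain ⟨s, hs⟩ : ∃ s, s = 1 / 2 * Real.log L := ⟨_, rfl⟩
  have hs1 : s₁ ≤ s := by
    have := (Real.le_log_iff_exp_le hL0).2 hL2
    rw [hs]; linarith
  have hs2 : 1 ≤ s := by
    have := (Real.le_log_iff_exp_le hL0).2 hL3
    rw [hs]; linarith
  have hlogL : 0 ≤ Real.log L := Real.log_nonneg hL1'
  have hs0 : 0 ≤ s := by rw [hs]; positivity
  obtain ⟨Q, hQd⟩ : ∃ Q, Q = primorial ⌊s⌋₊ := ⟨_, rfl⟩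
  have hQ1 : 1 ≤ Q := by rw [hQd]; exact primorial_pos _
  have hQ0 : (0 : ℝ) < Q := by exact_mod_cast hQ1
  have hQsq : Squarefree Q := by rw [hQd]; exact squarefree_primorial _
  have hQs : ∀ p : ℕ, p.Prime → (p : ℝ) ≤ s → p ∣ Q := by
    rw [hQd]; exact prim_dvd s
  have hQL : (Q : ℝ) ≤ L := by
    have h1 : (Q : ℝ) ≤ Real.exp (7 / 10 * 1 * Real.log L) := by
      rw [hQd]; exact prim_exp 1 (Real.log L) s hs hs0
    refine h1.trans ?_
    calc Real.exp (7 / 10 * 1 * Real.log L) ≤ Real.exp (Real.log L) := by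
          apply Real.exp_le_exp.2; linarith
      _ = L := Real.exp_log hL0
  have hQK : Q ≤ K := by
    have : (Q : ℝ) ≤ K := by linarith
    exact_mod_cast this
  have hK1 : 1 ≤ K := hQ1.trans hQK
  have hKr : (0 : ℝ) < K := by exact_mod_cast hK1
  have hKL2 : (K : ℝ) ≤ L ^ 2 := by
    calc (K : ℝ) ≤ C' * L := hKL
      _ ≤ L * L := mul_le_mul_of_nonneg_right (by linarith) hL0.le
      _ = _ := by ring
  have hLZ : L ≤ Z := by
    have h1 : L ≤ L ^ 2 := le_self_pow₀ hL1' (by norm_num)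
    have h2 : (1 : ℝ) ≤ max 1 (18 / δ) := le_max_left _ _
    have h3 : L ^ 2 ≤ max 1 (18 / δ) * L ^ 2 := le_mul_of_one_le_left (by positivity) h2
    linarith
  have hQZ : Q ≤ Z := by
    have : (Q : ℝ) ≤ Z := hQL.trans hLZ
    exact_mod_cast this
  have hlogK : ((m : ℝ) + 1) ^ 2 * Real.log K ≤ A₃ * s := by
    have h1 : Real.log K ≤ 2 * Real.log L := by
      have : Real.log K ≤ Real.log (L ^ 2) := by
        apply Real.log_le_log hKr hKL2
      rwa [Real.log_pow] at this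
    calc ((m : ℝ) + 1) ^ 2 * Real.log K ≤ ((m : ℝ) + 1) ^ 2 * (2 * Real.log L) := by gcongr
      _ = A₃ * s := by rw [hA₃, hs]; push_cast; ring
  have hA₃s : (A₃ : ℝ) * s ≤ L ^ 2 := by
    have h1 : s ≤ L := by
      rw [hs]
      have := Real.log_le_sub_one_of_pos hL0
      linarith
    calc (A₃ : ℝ) * s ≤ L * L := mul_le_mul hL5 h1 hs0 hL0.le
      _ = _ := by ring
  have hZQY : Z * Q ≤ Y := (Nat.mul_le_mul_left Z hQZ).trans (by rw [← pow_two]; exact hZ2)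
  have hφ0 : (0 : ℝ) < Q.totient := by exact_mod_cast Nat.totient_pos.2 hQ1
  obtain ⟨w, hw⟩ : ∃ w, w = (Y : ℝ) / Q * ((Q : ℝ) / (Q.totient * L)) ^ (m + 1) := ⟨_, rfl⟩
  have hw0 : 0 < w := by rw [hw]; positivity
  -- the primes
  obtain ⟨S₁, hS₁⟩ : ∃ S₁, S₁ = S.filter (fun p => y + 1 < p ∧ Z < p) := ⟨_, rfl⟩
  have hS₁c : δ / 6 * (Y / L) ≤ S₁.card := by
    have h1 : S.card ≤ S₁.card + 3 * Z := by
      have h2 : S ⊆ S₁ ∪ (Ioc y (y + 1) ∪ Icc 1 Z) := by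
        intro p hp
        have h3 := hS p hp
        have h4 := h3.1.one_lt
        rw [mem_union, mem_union, hS₁, mem_filter, mem_Ioc, mem_Icc]
        by_cases h5 : y + 1 < p ∧ Z < p
        · left; exact ⟨hp, h5⟩
        · right; omega
      calc S.card ≤ _ := card_le_card h2
        _ ≤ S₁.card + ((Ioc y (y + 1)).card + (Icc 1 Z).card) := by
            refine (card_union_le _ _).trans ?_
            have := card_union_le (Ioc y (y + 1)) (Icc 1 Z)
            omega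
        _ ≤ _ := by rw [Nat.card_Ioc, Nat.card_Icc]; omega
    have h2 : (S.card : ℝ) ≤ S₁.card + 3 * Z := by exact_mod_cast h1
    have h3 : 3 * (Z : ℝ) ≤ δ / 6 * (Y / L) := by
      have h4 : (Z : ℝ) ^ 2 ≤ Y := by exact_mod_cast hZ2
      have h5 : 18 * L ≤ δ * Z := by
        have h6 : L ≤ L ^ 2 := le_self_pow₀ hL1' (by norm_num)
        have h7 : 18 / δ * L ≤ Z := by
          refine le_trans ?_ hLp
          have : 18 / δ ≤ max 1 (18 / δ) := le_max_right _ _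
          gcongr
        rw [div_mul_eq_mul_div, div_le_iff₀ hδ] at h7
        linarith
      rw [← mul_div_assoc, le_div_iff₀ hL0]
      calc 3 * (Z : ℝ) * L = Z * (18 * L) / 6 := by ring
        _ ≤ Z * (δ * Z) / 6 := by gcongr
        _ = δ / 6 * Z ^ 2 := by ring
        _ ≤ δ / 6 * Y := by gcongr
    have h4 : δ / 3 * (Y / L) ≤ δ * (Y / l) := by
      have : Y / (3 * L) ≤ Y / l := by gcongr
      calc δ / 3 * (Y / L) = δ * (Y / (3 * L)) := by field_simp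
        _ ≤ _ := by gcongr
    linarith
  have hS₁m : ∀ p ∈ S₁, p ∈ S ∧ y + 1 < p ∧ Z < p := by
    intro p hp
    rw [hS₁, mem_filter] at hp
    exact hp
  obtain ⟨Fh, hFh⟩ : ∃ Fh : (Fin m → ℕ) → Finset ℕ, Fh = fun h => S₁.filter (fun p => H p = h) := ⟨_, rfl⟩
  have hFm : ∀ h p, p ∈ Fh h ↔ p ∈ S₁ ∧ H p = h := by
    intro h p; rw [hFh]; simp only [mem_filter]
  have hprime : ∀ q : ℕ, q.Prime → Z < q → ∀ p : ℕ, p.Prime → p ∣ q → Z < p := by
    intro q hq hZq p hp hpq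
    rwa [(Nat.prime_dvd_prime_iff_eq hp hq).1 hpq]
  have hrough : ∀ h, ∀ p ∈ Fh h, ∀ i, (p + ext0 h i).Prime ∧ Z < p + ext0 h i := by
    intro h p hp i
    rw [hFm] at hp
    obtain ⟨h1, h2⟩ := hp
    have h3 := hS₁m p h1
    have h4 := hS p h3.1
    refine ⟨?_, by omega⟩
    refine Fin.cases ?_ (fun j => ?_) i
    · rw [ext0_zero, add_zero]; exact h4.1
    · rw [ext0_succ, ← h2]; exact h4.2.2.2.2.2 j
  -- the upper bound
  have hup : ∀ h ∈ box m K, ((Fh h).card : ℝ) ≤ C₁ * w * ((cls3 m Q h).card : ℝ) := by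
    intro h hh
    rcases (Fh h).eq_empty_or_nonempty with he | hne
    · rw [he, card_empty, Nat.cast_zero]; positivity
    obtain ⟨p₀, hp₀⟩ := hne
    have hinj : Function.Injective h := by
      rw [hFm] at hp₀
      rw [← hp₀.2]
      exact (hS p₀ (hS₁m p₀ hp₀.1).1).2.2.2.2.1
    have hmaps : ∀ p ∈ Fh h, p % Q ∈ cls3 m Q h := by
      intro p hp
      have hr := hrough h p hp
      have hcop : ∀ i, (p + ext0 h i).Coprime Q := by
        intro i
        rw [Nat.Prime.coprime_iff_not_dvd (hr i).1]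
        intro hd
        have := Nat.le_of_dvd (by omega) hd
        have := (hr i).2
        omega
      have hmod : ∀ t : ℕ, (p + t).Coprime Q → (p % Q + t).Coprime Q := by
        intro t ht
        have e1 : (p + t) ≡ (p % Q + t) [MOD Q] := by
          apply Nat.ModEq.add_right
          exact (Nat.mod_modEq p Q).symm
        have e2 := Nat.ModEq.gcd_eq e1
        unfold Nat.Coprime at ht ⊢
        rw [← e2]; exact ht
      unfold cls3
      rw [mem_filter, mem_range]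
      refine ⟨Nat.mod_lt _ hQ1, ?_, fun i => ?_⟩
      · have := hmod _ (hcop 0)
        rwa [ext0_zero, add_zero] at this
      · have := hmod _ (hcop i.succ)
        rwa [ext0_succ] at this
    have h1 : ((Fh h).card : ℝ) = ∑ b ∈ cls3 m Q h, (((Fh h).filter (fun p => p % Q = b)).card : ℝ) := by
      rw [card_eq_sum_card_fiberwise (f := fun p : ℕ => p % Q) hmaps]
      push_cast
      rfl
    rw [h1]
    obtain ⟨Δ, hΔ, hΔs, hΔp⟩ := single_pat m K 1 A₃ s h hh hK1 hinj hlogK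
    have h2 : ∀ b ∈ cls3 m Q h, (((Fh h).filter (fun p => p % Q = b)).card : ℝ) ≤ C₁ * w := by
      intro b hb
      have hbQ : b < Q := by
        unfold cls3 at hb
        rw [mem_filter, mem_range] at hb
        exact hb.1
      have hgt : ∀ p ∈ (Fh h).filter (fun p => p % Q = b), y + 1 < p ∧ p ≤ y + Y ∧ p % Q = b := by
        intro p hp
        rw [mem_filter, hFm] at hp
        exact ⟨(hS₁m p hp.1.1).2.1, (hS p (hS₁m p hp.1.1).1).2.2.1, hp.2⟩
      have h3 : (((Fh h).filter (fun p => p % Q = b)).image (fun p => p - 1)).card =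
          ((Fh h).filter (fun p => p % Q = b)).card := by
        apply card_image_of_injOn
        intro p hp p' hp' e
        have e1 := (hgt p hp).1
        have e2 := (hgt p' hp').1
        simp only at e
        omega
      rw [← h3]
      have h4 := hub Z Q Δ s hZZ1 hQ1 (by rw [pow_one]; exact hQZ) (Nat.pos_of_ne_zero hΔ)
        (by rw [← hL]; exact hΔs.trans hA₃s) hs1 hQs y Y (b + Q - 1)
        (fun i => 1 + ext0 h i) Δ hZQY (fun i => Nat.le_add_right 1 _)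
        hΔ hΔs (fun i j hij p _ _ hpd => ⟨hΔp i j hij p hpd, Or.inr (hΔp i j hij p hpd)⟩)
        (((Fh h).filter (fun p => p % Q = b)).image (fun p => p - 1)) (by
          intro x hx
          rw [mem_image] at hx
          obtain ⟨p, hp, rfl⟩ := hx
          obtain ⟨e1, e2, e3⟩ := hgt p hp
          unfold Pool.Agent.Y880.RS.cls
          rw [mem_filter, mem_Ioc]
          refine ⟨⟨by omega, by omega⟩, ?_⟩
          have e4 : p - 1 + 1 ≡ b + Q - 1 + 1 [MOD Q] := by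
            have e5 : p - 1 + 1 = p := by omega
            have e6 : b + Q - 1 + 1 = b + Q := by omega
            rw [e5, e6]
            unfold Nat.ModEq
            rw [Nat.add_mod_right, e3, Nat.mod_eq_of_lt hbQ]
          exact Nat.ModEq.add_right_cancel' 1 e4)
        (by
          intro x hx i q hq hqd
          rw [mem_image] at hx
          obtain ⟨p, hp, rfl⟩ := hx
          have e1 := hgt p hp
          have e2 : p - 1 + (1 + ext0 h i) = p + ext0 h i := by omega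
          rw [e2] at hqd
          have e3 := hrough h p (mem_filter.1 hp).1 i
          exact hprime _ e3.1 e3.2 q hq hqd)
      rw [← hL] at h4
      rw [hw]
      calc _ ≤ _ := h4
        _ = _ := by ring
    calc ∑ b ∈ cls3 m Q h, (((Fh h).filter (fun p => p % Q = b)).card : ℝ) ≤ ∑ _b ∈ cls3 m Q h, C₁ * w := sum_le_sum h2
      _ = _ := by rw [sum_const, nsmul_eq_mul]; ring
  -- the sum
  have hsum : (S₁.card : ℝ) = ∑ h ∈ box m K, ((Fh h).card : ℝ) := by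
    have h1 : S₁.card = ∑ h ∈ box m K, (Fh h).card := by
      rw [hFh]
      apply card_eq_sum_card_fiberwise
      intro p hp
      exact (hS p (hS₁m p hp).1).2.2.2.1
    rw [h1]
    push_cast
    rfl
  obtain ⟨Tot, hTot⟩ : ∃ Tot, Tot = δ / 6 * ((Y : ℝ) / L) := ⟨_, rfl⟩
  have hTot0 : 0 < Tot := by rw [hTot]; positivity
  obtain ⟨G₁, hG₁⟩ : ∃ G₁, G₁ = (box m K).filter (fun h => δ₁ * w * ((cls3 m Q h).card : ℝ) ≤ (Fh h).card ∧ (Fh h).Nonempty) :=
    ⟨_, rfl⟩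
  have hG₁m : ∀ h, h ∈ G₁ ↔ h ∈ box m K ∧ δ₁ * w * ((cls3 m Q h).card : ℝ) ≤ (Fh h).card ∧ (Fh h).Nonempty := by
    intro h; rw [hG₁, mem_filter]
  have hsc := sum_cls3 m Q K hQ1 hQK
  have hbad : δ₁ * w * (Q.totient * (2 * K / Q * Q.totient) ^ m) ≤ Tot / 2 := by
    rw [hδ₁, hw, hTot]
    exact bad_alg m Y L Q Q.totient K C' δ hY0 hL0 hQ0 hφ0 hKr (by linarith) hKL hδ
  have hhalf : Tot / 2 ≤ ∑ h ∈ G₁, ((Fh h).card : ℝ) := by
    have h1 : ∑ h ∈ box m K, ((Fh h).card : ℝ) ≤ ∑ h ∈ box m K, ((if h ∈ G₁ then ((Fh h).card : ℝ) else 0) +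
        δ₁ * w * ((cls3 m Q h).card : ℝ)) := by
      apply sum_le_sum
      intro h hh
      by_cases hg : h ∈ G₁
      · rw [if_pos hg]
        have : 0 ≤ δ₁ * w * ((cls3 m Q h).card : ℝ) := by positivity
        linarith
      · rw [if_neg hg, zero_add]
        rw [hG₁m] at hg
        by_contra hlt
        rw [not_le] at hlt
        apply hg
        refine ⟨hh, hlt.le, ?_⟩
        rw [← card_pos]
        have h2 : 0 ≤ δ₁ * w * ((cls3 m Q h).card : ℝ) := by positivity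
        have h3 : (0 : ℝ) < (Fh h).card := lt_of_le_of_lt h2 hlt
        exact_mod_cast h3
    rw [sum_add_distrib, ← mul_sum, ← sum_filter] at h1
    have h2 : (box m K).filter (fun h => h ∈ G₁) = G₁ := by
      ext h
      rw [mem_filter]
      exact ⟨fun h => h.2, fun h => ⟨((hG₁m _).1 h).1, h⟩⟩
    rw [h2] at h1
    have h3 : δ₁ * w * ∑ h ∈ box m K, ((cls3 m Q h).card : ℝ) ≤ Tot / 2 := by
      refine le_trans ?_ hbad
      apply mul_le_mul_of_nonneg_left hsc (by positivity)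
    have h4 : Tot ≤ ∑ h ∈ box m K, ((Fh h).card : ℝ) := by
      rw [← hsum, hTot]
      exact hS₁c
    linarith
  have hcauchy : (Tot / 2) ^ 2 ≤ (C₁ * w) ^ 2 * ((G₁.card : ℝ) * ((2 * K / Q : ℝ) ^ m * Wt m (ZMod Q))) := by
    have h1 : ∑ h ∈ G₁, ((Fh h).card : ℝ) ≤ C₁ * w * ∑ h ∈ G₁, ((cls3 m Q h).card : ℝ) := by
      rw [mul_sum]
      apply sum_le_sum
      intro h hh
      exact hup h ((hG₁m h).1 hh).1
    have h2 : (∑ h ∈ G₁, ((cls3 m Q h).card : ℝ)) ^ 2 ≤ G₁.card * ∑ h ∈ G₁, ((cls3 m Q h).card : ℝ) ^ 2 :=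
      sq_sum_le_card_mul_sum_sq
    have h3 : ∑ h ∈ G₁, ((cls3 m Q h).card : ℝ) ^ 2 ≤ (2 * K / Q : ℝ) ^ m * Wt m (ZMod Q) := by
      refine le_trans ?_ (sum_cls3_sq m Q K hQ1 hQK)
      apply sum_le_sum_of_subset_of_nonneg
      · intro h hh
        exact ((hG₁m h).1 hh).1
      · intro h _ _
        positivity
    calc (Tot / 2) ^ 2 ≤ (C₁ * w * ∑ h ∈ G₁, ((cls3 m Q h).card : ℝ)) ^ 2 := by
          apply pow_le_pow_left₀ (by positivity)
          exact hhalf.trans h1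
      _ = (C₁ * w) ^ 2 * (∑ h ∈ G₁, ((cls3 m Q h).card : ℝ)) ^ 2 := by ring
      _ ≤ (C₁ * w) ^ 2 * ((G₁.card : ℝ) * ((2 * K / Q : ℝ) ^ m * Wt m (ZMod Q))) := by
          gcongr
          refine h2.trans ?_
          gcongr
  have hG₁c : c₀ * l ^ m ≤ G₁.card := by
    rw [hTot, hw] at hcauchy
    have h1 := fin_alg m Y L Q Q.totient K C₁ C₂ C' δ G₁.card (Wt m (ZMod Q)) hY0 hL0 hQ0 hφ0 hKr hC₁ hC₂
      (by linarith) hKL (Nat.cast_nonneg _) (by rw [hQd]; exact hsec _) hcauchy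
    refine le_trans ?_ h1
    rw [hc₀]
    obtain ⟨c, hc⟩ : ∃ c, c = (δ / 12) ^ 2 / (C₁ ^ 2 * C₂ * (2 * C') ^ m) := ⟨_, rfl⟩
    have hc0 : 0 ≤ c := by rw [hc]; positivity
    rw [← hc]
    have h3 : l ^ m ≤ (3 * L) ^ m := pow_le_pow_left₀ hl0.le hlL m
    calc c / 3 ^ m * l ^ m ≤ c / 3 ^ m * (3 * L) ^ m := by gcongr
      _ = c * L ^ m := by rw [mul_pow]; field_simp
  -- the bad patterns
  have hW0 : 1 ≤ W0 Y := by
    unfold W0
    exact primorial_pos _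
  have hbc := bad_count m K (W0 Y) hW0 hK1
  obtain ⟨Bd, hBd⟩ : ∃ Bd, Bd = (box m K).filter (fun h => ∃ i j : Fin (m + 1), i ≠ j ∧
    (W0 Y : ℤ) ∣ (ext0 h i : ℤ) - (ext0 h j : ℤ)) := ⟨_, rfl⟩
  rw [← hBd] at hbc
  have hBc : (Bd.card : ℝ) ≤ c₀ / 2 * l ^ m := by
    refine hbc.trans ?_
    have h1 : 1 / (W0 Y : ℝ) ≤ ε₀ := by
      have h2 := hY₁ Y hYY1
      have h3 : 1 / ε₀ ≤ (W0 Y : ℝ) := by
        refine (Nat.le_ceil _).trans ?_
        have : ⌈1 / ε₀⌉₊ ≤ W0 Y := by omega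
        exact_mod_cast this
      rw [div_le_iff₀ hε₀0] at h3
      have : (0 : ℝ) < W0 Y := by exact_mod_cast hW0
      rw [div_le_iff₀ this]
      linarith
    have h2 : 1 / (K : ℝ) ≤ ε₀ := by
      have h3 : 1 / ε₀ ≤ (K : ℝ) := hYl.trans hKl
      rw [div_le_iff₀ hε₀0] at h3
      rw [div_le_iff₀ hKr]
      linarith
    have h3 : (K : ℝ) ^ m ≤ C₀ ^ m * l ^ m := by
      rw [← mul_pow]
      exact pow_le_pow_left₀ hKr.le hKC m
    calc ((m : ℝ) + 1) ^ 2 * ((K : ℝ) ^ m * (1 / (W0 Y : ℝ) + 1 / K)) ≤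
          ((m : ℝ) + 1) ^ 2 * ((C₀ ^ m * l ^ m) * (ε₀ + ε₀)) := by gcongr
      _ = c₀ / 2 * l ^ m := by
          rw [hε₀]
          field_simp
          ring
  refine ⟨G₁ \ Bd, fun h hh => ((hG₁m h).1 (Finset.mem_sdiff.1 hh).1).1, ?_, ?_⟩
  · have h1 : G₁.card ≤ (G₁ \ Bd).card + Bd.card := by
      have := card_le_card_sdiff_add_card (s := G₁) (t := Bd)
      omega
    have h2 : (G₁.card : ℝ) ≤ (G₁ \ Bd).card + Bd.card := by exact_mod_cast h1
    linarith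
  · intro h hh
    rw [Finset.mem_sdiff, hG₁m] at hh
    obtain ⟨⟨h1, h2, p₀, hp₀⟩, h3⟩ := hh
    have hinj : Function.Injective h := by
      have h4 := (hFm h p₀).1 hp₀
      rw [← h4.2]
      exact (hS p₀ (hS₁m p₀ h4.1).1).2.2.2.2.1
    refine ⟨?_, FP_sys h p₀ Z (hrough h p₀ hp₀) hZZ2, ?_⟩
    · intro i j hij hd
      apply h3
      rw [hBd, mem_filter]
      exact ⟨h1, i, j, hij, hd⟩
    · obtain ⟨Δ, hΔ, hΔs, hΔp⟩ := single_pat m K 1 A₃ s h h1 hK1 hinj hlogK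
      have hQY : ∀ p : ℕ, p.Prime → p ∣ Q → p ≤ Y := by
        intro p hp hd
        have e1 := Nat.le_of_dvd hQ1 hd
        have e2 : Z ≤ Y := by nlinarith
        omega
      have hVu := V_up (m + 1) A₃ (FP h) Q Y Δ s hs2 hQ1 hY2 hQY hQs hΔ hΔs (by
        intro p hp hpQ hpΔ
        apply FP_rt h hp
        intro i j hij hd
        apply hpΔ
        apply hΔp i j hij p
        rw [shift_eq]
        exact hd)
      rw [← hE₀, ← hl] at hVu
      have hsplit : V (FP h) 1 Y = dW (FP h) Q * V (FP h) Q Y := Pool.Agent.H534.UT.V_dW _ _ _ hQ1 hQY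
      have hcc := cls3_card h Q hQsq
      have hdW : dW (FP h) Q = (cls3 m Q h).card / Q := by
        rw [hcc]
        field_simp
      have h5 : (Y : ℝ) * V (FP h) 1 Y ≤ E₀ * (w * (cls3 m Q h).card) := by
        rw [hsplit, hdW, hw]
        have h6 : V (FP h) Q Y ≤ E₀ * ((Q : ℝ) / (Q.totient * L)) ^ (m + 1) := by
          refine hVu.trans ?_
          gcongr
          linarith
        calc (Y : ℝ) * (((cls3 m Q h).card : ℝ) / Q * V (FP h) Q Y) ≤
              (Y : ℝ) * (((cls3 m Q h).card : ℝ) / Q * (E₀ * ((Q : ℝ) / (Q.totient * L)) ^ (m + 1))) :=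
              mul_le_mul_of_nonneg_left (mul_le_mul_of_nonneg_left h6 (div_nonneg (Nat.cast_nonneg _)
                (Nat.cast_nonneg _))) (Nat.cast_nonneg _)
          _ = _ := by ring
      have h6 : ((Fh h).card : ℝ) ≤ ((S.filter (fun p => Z < p ∧ H p = h)).card : ℝ) := by
        apply Nat.cast_le.2
        apply card_le_card
        intro p hp
        rw [hFm] at hp
        have := hS₁m p hp.1
        rw [mem_filter]
        exact ⟨this.1, this.2.2, hp.2⟩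
      have h7 : δ₁ / E₀ * (E₀ * (w * (cls3 m Q h).card)) = δ₁ * w * (cls3 m Q h).card := by
        rw [← mul_assoc, div_mul_cancel₀ _ hE₀0.ne']
        ring
      exact (((mul_le_mul_of_nonneg_left h5 (div_nonneg hδ₁0.le hE₀0.le)).trans h7.le).trans h2).trans h6

end Pool.Agent.H534.NW
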