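import Pool.Agent.H534.NW.Arr3
import Pool.Graph.R_seed8.Y880.RS.P3f

/-!
# Arrays of consecutive primes at every narrow shape
-/

set_option autoImplicit false

open Finset Filter

namespace Pool.Agent.H534.NW

open Pool.Agent.H534.RS hiding majW classes engP
open Pool.Agent.H534.RT
open Pool.Agent.Y677.RSZ hiding Sys V_pos fac_pos V_lower
open Pool.Agent.TH423.SH (PS)
open Pool.Agent.Y880.RS (cls log_ev ub3)
open Pool.Agent.Y880.RS.P3
open Pool.Agent.Y848.UG (Zc mem_Zc)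

/-- the prime is large, so it is beyond the small primes -/
theorem FP_rough {m : ℕ} (h : Fin m → ℕ) (p₀ Y : ℕ) (hpr : ∀ i, (p₀ + ext0 h i).Prime ∧ Nat.sqrt Y < p₀ + ext0 h i)
    (hY3 : Y ≤ Nat.sqrt Y ^ 3) (q : ℕ) (hq : q.Prime) (hqY : (q : ℝ) ≤ (Y : ℝ) ^ (1 / 3 : ℝ)) :
    ¬ (q : ℤ) ∣ FP h (p₀ : ℤ) := by
  intro hd
  rw [FP_dvd h hq] at hd
  obtain ⟨i, hi⟩ := hd
  have h1 : q ∣ p₀ + ext0 h i := by exact_mod_cast hi
  obtain ⟨g1, g2⟩ := hpr i
  have h2 := (Nat.prime_dvd_prime_iff_eq hq g1).1 h1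
  have h3 : (Y : ℝ) ^ (1 / 3 : ℝ) ≤ Nat.sqrt Y := by
    calc (Y : ℝ) ^ (1 / 3 : ℝ) ≤ ((Nat.sqrt Y : ℝ) ^ 3) ^ (1 / 3 : ℝ) := by
          apply Real.rpow_le_rpow (Nat.cast_nonneg _) _ (by norm_num)
          exact_mod_cast hY3
      _ = (Nat.sqrt Y : ℝ) := by
          rw [← Real.rpow_natCast, ← Real.rpow_mul (Nat.cast_nonneg _)]
          norm_num
  have h4 : (q : ℝ) ≤ Nat.sqrt Y := hqY.trans h3
  have h5 : q ≤ Nat.sqrt Y := by exact_mod_cast h4
  omega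

open Classical in
theorem patN (k m A : ℕ) (hk : 1 ≤ k) (hA : 1 ≤ A) (δ C₀ : ℝ) (hδ : 0 < δ) (hC₀ : 1 ≤ C₀) :
    ∃ c₀ c σm : ℝ, 0 < c₀ ∧ 0 < c ∧ 0 < σm ∧ σm ≤ 1 / 2 ∧ ∀ σ : ℝ, 0 < σ → σ ≤ σm → ∃ L Y₀ : ℕ,
    ∀ y Y K : ℕ, Y₀ ≤ Y → y + Y ≤ Y ^ A → Real.log Y ≤ K →
    (K : ℝ) ≤ C₀ * Real.log Y → ∀ (S : Finset ℕ) (H : ℕ → Fin m → ℕ),
    (∀ p ∈ S, p.Prime ∧ y < p ∧ p ≤ y + Y ∧ H p ∈ box m K ∧ Function.Injective (H p) ∧ ∀ i, (p + H p i).Prime) →
    δ * (Y / Real.log Y) ≤ S.card →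
    ∃ G ⊆ box m K, c₀ * Real.log Y ^ m ≤ G.card ∧ ∀ h ∈ G, (S.filter (fun p => H p = h)).Nonempty ∧
      Shapes k (m + 1) c σ L Y (S.filter (fun p => H p = h)) := by
  obtain ⟨κ, c₀, hκ, hc₀, Y₁, hpat⟩ := patC m A hA δ C₀ hδ hC₀
  obtain ⟨v, hv, hVlow⟩ := V_low (m + 1)
  obtain ⟨g, hg⟩ : ∃ g, g = (m + 1) + 2 * ((m + 1) * (m + 1)) + (A + 1) * (m + 1) := ⟨_, rfl⟩
  obtain ⟨c, σm, hc, hσm, hσm2, heng⟩ := engW k g (1 / 3) κ hk (by norm_num) hκ
  refine ⟨c₀, min c (c * v ^ (k + 1)), σm, hc₀, lt_min hc (by positivity), hσm, hσm2, fun σ hσ hσσ => ?_⟩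
  have hσ2 : σ ≤ 1 / 2 := hσσ.trans hσm2
  obtain ⟨L, H₁, heng⟩ := heng σ hσ hσσ
  obtain ⟨H₂, hH₂⟩ := W0_dvd σ hσ2
  obtain ⟨H₃, hH₃⟩ := plog_ev 1 C₀
  obtain ⟨H₄, hH₄⟩ := zfacts2 (m + 1)
  obtain ⟨H₅, hH₅⟩ := log_ev 1
  refine ⟨L, Y₁ + H₁ + H₂ + H₃ + H₄ + H₅ + 16, ?_⟩
  intro y Y K hY hyY hKl hKC S H hS hSc
  obtain ⟨G, hGs, hGc, hG⟩ := hpat y Y K (by omega) hKl hKC S H hS hSc
  refine ⟨G, hGs, hGc, ?_⟩
  intro h hh
  obtain ⟨hdiv, hsys0, hcard⟩ := hG h hh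
  have hKY : K ≤ Y := by
    have h1 := hH₃ Y (by omega)
    rw [pow_one] at h1
    exact_mod_cast hKC.trans h1
  obtain ⟨-, -, -, hZ3⟩ := hH₄ Y (by omega)
  have hlog1 := hH₅ Y (by omega)
  have hlog : 0 < Real.log (Y : ℝ) := by linarith
  have hY0 : (0 : ℝ) < Y := by
    have : 0 < Y := by omega
    exact_mod_cast this
  have hbox := hGs hh
  have hext : ∀ i, ext0 h i ≤ Y := fun i => (ext0_le hbox i).trans hKY
  obtain ⟨S', hS'⟩ : ∃ S', S' = S.filter (fun p => Nat.sqrt Y < p ∧ H p = h) := ⟨_, rfl⟩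
  rw [← hS'] at hcard
  have hS'm : ∀ p, p ∈ S' ↔ p ∈ S ∧ Nat.sqrt Y < p ∧ H p = h := by
    intro p
    rw [hS', mem_filter]
  have hS'S : S' ⊆ S.filter (fun p => H p = h) := by
    intro p hp
    rw [hS'm] at hp
    rw [mem_filter]
    exact ⟨hp.1, hp.2.2⟩
  have hV0 : 0 < V (FP h) 1 Y := V_pos hsys0 1 Y
  have hS'I : S' ⊆ Ioc y (y + Y) := by
    intro p hp
    rw [hS'm] at hp
    rw [mem_Ioc]
    exact ⟨(hS p hp.1).2.1, (hS p hp.1).2.2.1⟩
  have hrough : ∀ p ∈ S', ∀ q : ℕ, q.Prime → (q : ℝ) ≤ (Y : ℝ) ^ (1 / 3 : ℝ) → ¬ (q : ℤ) ∣ FP h (p : ℤ) := by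
    intro p hp
    rw [hS'm] at hp
    apply FP_rough h p Y _ hZ3
    intro i
    refine ⟨?_, by omega⟩
    refine Fin.cases ?_ (fun j => ?_) i
    · rw [ext0_zero, add_zero]
      exact (hS p hp.1).1
    · rw [ext0_succ, ← hp.2.2]
      exact (hS p hp.1).2.2.2.2.2 j
  have hsize : ∀ n ∈ Ioc y (y + Y), FP h (n : ℤ) ≠ 0 ∧ |FP h (n : ℤ)| ≤ (Y : ℤ) ^ g := by
    intro n hn
    rw [mem_Ioc] at hn
    refine ⟨?_, ?_⟩
    · unfold FP FL
      rw [Finset.prod_ne_zero_iff]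
      intro j _
      have : (0 : ℤ) < (n : ℤ) := by exact_mod_cast (by omega : 0 < n)
      positivity
    · have h1 : FP h (n : ℤ) = ((∏ i : Fin (m + 1), (n + ext0 h i) : ℕ) : ℤ) := by
        unfold FP FL
        push_cast
        apply prod_congr rfl
        intro i _
        ring
      rw [h1, Nat.abs_cast]
      have h2 : ∏ i : Fin (m + 1), (n + ext0 h i) ≤ Y ^ g := by
        calc ∏ i : Fin (m + 1), (n + ext0 h i) ≤ ∏ _i : Fin (m + 1), Y ^ (A + 1) := by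
              apply Finset.prod_le_prod'
              intro i _
              have e1 := hext i
              have e2 : Y ≤ Y ^ A := Nat.le_self_pow (by omega) Y
              calc n + ext0 h i ≤ Y ^ A + Y ^ A := by omega
                _ = Y ^ A * 2 := by ring
                _ ≤ Y ^ A * Y := Nat.mul_le_mul_left _ (by omega)
                _ = Y ^ (A + 1) := (pow_succ _ _).symm
          _ = Y ^ ((A + 1) * (m + 1)) := by rw [prod_const, card_univ, Fintype.card_fin, ← pow_mul]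
          _ ≤ Y ^ g := by
              apply Nat.pow_le_pow_right (by omega)
              rw [hg]
              omega
      exact_mod_cast h2
  have hsys : ∀ sh : Fin k → ℕ, SysU g Y (WS σ sh Y) (FP h) := by
    intro sh
    apply sysU_lin g Y (WS σ sh Y) (Y ^ 2) (by omega) _ _ _ _
    · rw [← pow_mul]
      apply Nat.pow_le_pow_right (by omega)
      rw [hg]
      omega
    · intro p hp
      have h1 := hsys0.root p hp
      unfold FP at h1
      rw [FL_rt hp] at h1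
      exact h1
    · intro i j t ht1 htY htW h0
      push_cast at h0
      have h1 : (t : ℤ) = (ext0 h i : ℤ) - (ext0 h j : ℤ) := by linarith
      by_cases hij : i = j
      · rw [hij, sub_self] at h1
        omega
      · apply hdiv i j hij
        rw [← h1]
        exact_mod_cast (hH₂ Y (by omega) k sh).trans htW
    · intro i j t ht
      have e1 := hext i
      have e2 := hext j
      have h1 : (((1 : ℕ) : ℤ) * ((1 : ℕ) : ℤ) * t + ((1 : ℕ) : ℤ) * (ext0 h j : ℤ) - ((1 : ℕ) : ℤ) * (ext0 h i : ℤ)).natAbs ≤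
          2 * Y := by omega
      refine h1.trans ?_
      rw [pow_two]
      exact Nat.mul_le_mul_right _ (by omega)
  refine ⟨?_, ?_⟩
  · have h1 : (0 : ℝ) < S'.card := lt_of_lt_of_le (by positivity) hcard
    have h2 : 0 < S'.card := by exact_mod_cast h1
    exact (card_pos.1 h2).mono hS'S
  intro X sh hX hsh hsh1 hsh2
  obtain ⟨D', hD1, hD2⟩ := heng (FP h) y Y X S' sh (hsys sh) (by omega) hX hsize hS'I hrough hcard hsh hsh1 hsh2
  have hsub : D' ⊆ (Icc 1 X).filter (fun d =>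
      min c (c * v ^ (k + 1)) * (Y / Real.log Y ^ ((m + 1) * (k + 1))) ≤
        (((S.filter (fun p => H p = h)).filter (fun n => ∀ i, n + WS σ sh Y * d * sh i ∈ S.filter (fun p => H p = h))).card : ℝ)) := by
    intro d hd
    obtain ⟨h1, h2, h3⟩ := hD2 d hd
    rw [mem_filter, mem_Icc]
    refine ⟨⟨h1, h2⟩, ?_⟩
    have hsub2 : ((solN S' (WS σ sh Y) sh d).card : ℝ) ≤
        (((S.filter (fun p => H p = h)).filter (fun n => ∀ i, n + WS σ sh Y * d * sh i ∈ S.filter (fun p => H p = h))).card : ℝ) := by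
      have : solN S' (WS σ sh Y) sh d ⊆ (S.filter (fun p => H p = h)).filter
          (fun n => ∀ i, n + WS σ sh Y * d * sh i ∈ S.filter (fun p => H p = h)) := by
        unfold solN
        intro n hn
        rw [mem_filter] at hn
        rw [mem_filter]
        refine ⟨hS'S hn.1, fun l => ?_⟩
        have h5 := hS'S (hn.2 l)
        rwa [mul_right_comm] at h5
      exact_mod_cast card_le_card this
    refine le_trans ?_ (h3.trans hsub2)
    have h4 := hVlow (FP h) Y hsys0 (by omega)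
    have h5 : V (FP h) 1 Y = dW (FP h) (WS σ sh Y) * V (FP h) (WS σ sh Y) Y := by
      apply Pool.Agent.H534.UT.V_dW _ _ _ (WS_pos σ sh Y)
      intro p hp hpd
      have h6 := ((WS_dvd σ sh Y p hp).1 hpd).1
      have h7 : Real.log (Y : ℝ) ^ (1 - σ) ≤ Real.log Y := by
        calc Real.log (Y : ℝ) ^ (1 - σ) ≤ Real.log (Y : ℝ) ^ (1 : ℝ) := by
              apply Real.rpow_le_rpow_of_exponent_le (by linarith)
              linarith
          _ = _ := Real.rpow_one _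
      have h8 : (p : ℝ) ≤ Y := by
        have := Real.log_le_sub_one_of_pos hY0
        linarith
      exact_mod_cast h8
    have h6 : 0 < V (FP h) (WS σ sh Y) Y := V_pos hsys0 _ Y
    obtain ⟨h7, h8⟩ := dW_le_one hsys0 (WS σ sh Y)
    have h9 : (V (FP h) 1 Y) ^ (k + 1) ≤ dW (FP h) (WS σ sh Y) * V (FP h) (WS σ sh Y) Y ^ (k + 1) := by
      rw [h5, mul_pow]
      apply mul_le_mul_of_nonneg_right _ (by positivity)
      exact pow_le_of_le_one h7.le h8 (by omega)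
    calc min c (c * v ^ (k + 1)) * (Y / Real.log Y ^ ((m + 1) * (k + 1))) ≤
          c * v ^ (k + 1) * (Y / Real.log Y ^ ((m + 1) * (k + 1))) := by
            gcongr
            exact min_le_right _ _
      _ = c * (Y * (v / Real.log Y ^ (m + 1)) ^ (k + 1)) := by
          rw [div_pow, ← pow_mul]
          ring
      _ ≤ c * (Y * (V (FP h) 1 Y) ^ (k + 1)) := by gcongr
      _ ≤ c * (Y * (dW (FP h) (WS σ sh Y) * V (FP h) (WS σ sh Y) Y ^ (k + 1))) := by gcongr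
      _ = _ := by ring
  calc min c (c * v ^ (k + 1)) * (X : ℝ) ≤ c * X := by
        gcongr
        exact min_le_left _ _
    _ ≤ D'.card := hD1
    _ ≤ _ := by exact_mod_cast card_le_card hsub

open Classical in
/-- **Arrays of consecutive primes at every narrow shape, in dense sets of primes of short intervals.** -/
theorem arrW (k m A : ℕ) (hk : 1 ≤ k) (hA : 1 ≤ A) (δ : ℝ) (hδ : 0 < δ) :
    ∃ c₀ C c σm : ℝ, 0 < c₀ ∧ 0 < c ∧ 0 < σm ∧ σm ≤ 1 / 2 ∧ ∀ σ : ℝ, 0 < σ → σ ≤ σm → ∃ L Y₀ : ℕ,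
    ∀ y Y : ℕ, Y₀ ≤ Y → y + Y ≤ Y ^ A → ∀ S ⊆ Ioc y (y + Y),
    (∀ p ∈ S, p.Prime) → δ * (Y / Real.log Y) ≤ S.card →
    ∃ G : Finset (Fin m → ℕ), c₀ * Real.log Y ^ m ≤ G.card ∧ ∀ g ∈ G, (∀ i, 1 ≤ g i ∧ (g i : ℝ) ≤ C * Real.log Y) ∧
      Shapes k (m + 1) c σ L Y (S.filter (fun p => GapsAfter g p)) := by
  obtain ⟨C₀, hC₀⟩ : ∃ C₀ : ℝ, C₀ = 4 * m / δ + 2 := ⟨_, rfl⟩
  have hC₀2 : 2 ≤ C₀ := by
    have : 0 ≤ 4 * (m : ℝ) / δ := by positivity
    rw [hC₀]; linarith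
  obtain ⟨c₀, c, σm, hc₀, hc, hσm, hσm2, hpat⟩ := patN k m A hk hA (δ / 2) C₀ (by positivity) (by linarith)
  refine ⟨c₀, C₀, c, σm, hc₀, hc, hσm, hσm2, fun σ hσ hσσ => ?_⟩
  obtain ⟨L, Y₁, h1⟩ := hpat σ hσ hσσ
  obtain ⟨Y₂, hY₂⟩ := log_ev 1
  obtain ⟨Y₃, hY₃⟩ := plog_ev 1 (4 * m / δ)
  refine ⟨L, max Y₁ (max Y₂ (max Y₃ 3)), ?_⟩
  intro y Y hY hyY S hS hSp hSc
  have hY1 : Y₁ ≤ Y := (le_max_left _ _).trans hY
  have hY2 : Y₂ ≤ Y := ((le_max_left _ _).trans (le_max_right _ _)).trans hY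
  have hY3 : Y₃ ≤ Y := (((le_max_left _ _).trans (le_max_right _ _)).trans (le_max_right _ _)).trans hY
  have hY4 : 3 ≤ Y := (((le_max_right _ _).trans (le_max_right _ _)).trans (le_max_right _ _)).trans hY
  obtain ⟨l, hl⟩ : ∃ l, l = Real.log Y := ⟨_, rfl⟩
  have hl1 := hY₂ Y hY2
  have hlY := hY₃ Y hY3
  rw [pow_one] at hlY
  rw [← hl] at hl1 hlY hSc ⊢
  have hY0 : (0 : ℝ) < Y := by
    have : 0 < Y := by omega
    exact_mod_cast this
  obtain ⟨K, hK⟩ : ∃ K, K = ⌈(4 * m / δ + 1) * l⌉₊ := ⟨_, rfl⟩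
  have hKlo : (4 * m / δ + 1) * l ≤ K := by rw [hK]; exact Nat.le_ceil _
  have hKhi : (K : ℝ) ≤ C₀ * l := by
    have := (Nat.ceil_lt_add_one (show 0 ≤ (4 * m / δ + 1) * l by positivity)).le
    rw [← hK] at this
    calc (K : ℝ) ≤ (4 * m / δ + 1) * l + 1 := this
      _ ≤ (4 * m / δ + 1) * l + l := by linarith
      _ = _ := by rw [hC₀]; ring
  have hmδ : 0 ≤ 4 * (m : ℝ) / δ := by positivity
  have hKl : l ≤ K := by
    refine le_trans ?_ hKlo
    have : 0 ≤ 4 * (m : ℝ) / δ * l := by positivity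
    linarith
  have hK0 : (0 : ℝ) < K := by linarith
  obtain ⟨S', hS'⟩ : ∃ S', S' = S.filter (fun p => nx (Nat.count Nat.Prime p + m) ≤ p + K) := ⟨_, rfl⟩
  have hS'm : ∀ p, p ∈ S' ↔ p ∈ S ∧ nx (Nat.count Nat.Prime p + m) ≤ p + K := by
    intro p; rw [hS', mem_filter]
  have hcard : δ / 2 * (Y / l) ≤ S'.card := by
    have e1 := card_filter_add_card_filter_not (s := S) (fun p => nx (Nat.count Nat.Prime p + m) ≤ p + K)
    have e2 := few m y Y K (S.filter (fun p => ¬ nx (Nat.count Nat.Prime p + m) ≤ p + K)) (by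
      intro p hp
      rw [mem_filter] at hp
      have := mem_Ioc.1 (hS hp.1)
      exact ⟨hSp p hp.1, this.1, this.2, not_le.1 hp.2⟩)
    obtain ⟨E, hE⟩ : ∃ E : ℝ, E = (S.filter (fun p => ¬ nx (Nat.count Nat.Prime p + m) ≤ p + K)).card := ⟨_, rfl⟩
    rw [← hE] at e2
    have e3 : (S'.card : ℝ) + E = S.card := by rw [hE, hS']; exact_mod_cast e1
    have e4 : E ≤ δ / 2 * (Y / l) := by
      have f1 : (m : ℝ) * Y ≤ δ / 4 * (Y / l) * K := by
        calc (m : ℝ) * Y = δ / 4 * (Y / l) * (4 * m / δ * l) := by field_simp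
          _ ≤ δ / 4 * (Y / l) * K := by
              apply mul_le_mul_of_nonneg_left _ (by positivity)
              refine le_trans ?_ hKlo
              linarith
      have f2 : (m : ℝ) * K ≤ δ / 4 * (Y / l) * K := by
        apply mul_le_mul_of_nonneg_right _ hK0.le
        rw [← mul_div_assoc, le_div_iff₀ (by linarith)]
        have : 4 * (m : ℝ) / δ * l * δ ≤ Y * δ := by gcongr
        have e : 4 * (m : ℝ) / δ * l * δ = 4 * m * l := by field_simp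
        rw [e] at this
        linarith
      have f3 : E * K ≤ δ / 2 * (Y / l) * K := by
        calc E * K ≤ _ := e2
          _ ≤ δ / 4 * (Y / l) * K + δ / 4 * (Y / l) * K := add_le_add f1 f2
          _ = _ := by ring
      exact le_of_mul_le_mul_right f3 hK0
    have e5 : δ * (Y / l) = δ / 2 * (Y / l) + δ / 2 * (Y / l) := by ring
    linarith
  obtain ⟨G, hGs, hGc, hG⟩ := h1 y Y K hY1 hyY (by rw [← hl]; exact hKl) (by rw [← hl]; exact hKhi) S' (Hn m) (by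
    intro p hp
    rw [hS'm] at hp
    have hpp := hSp p hp.1
    have hpI := mem_Ioc.1 (hS hp.1)
    refine ⟨hpp, hpI.1, hpI.2, ?_, ?_, ?_⟩
    · rw [mem_box]
      intro i
      obtain ⟨e1, e2⟩ := Hn_spec hpp i
      have e3 : nx (Nat.count Nat.Prime p + i + 1) ≤ nx (Nat.count Nat.Prime p + m) :=
        nx_mono.monotone (by omega)
      omega
    · intro i j hij
      obtain ⟨_, e2⟩ := Hn_spec hpp i
      obtain ⟨_, e4⟩ := Hn_spec hpp j
      rw [hij] at e2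
      have e5 := nx_mono.injective (e2.symm.trans e4)
      exact Fin.ext (by omega)
    · intro i
      rw [(Hn_spec hpp i).2]
      exact nx_prime _) (by rw [← hl]; exact hcard)
  rw [← hl] at hGc
  have hrep : ∀ h ∈ G, ∃ p ∈ S', Hn m p = h := by
    intro h hh
    obtain ⟨a, ha⟩ := (hG h hh).1
    rw [mem_filter] at ha
    exact ⟨a, ha.1, ha.2⟩
  refine ⟨G.image gaps, ?_, ?_⟩
  · rw [card_image_of_injOn]
    · exact hGc
    · intro h hh h' hh' e
      obtain ⟨p, hp, rfl⟩ := hrep h hh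
      obtain ⟨q, hq, rfl⟩ := hrep h' hh'
      exact gaps_inj (hSp p ((hS'm p).1 hp).1) (hSp q ((hS'm q).1 hq).1) e
  · intro g hg
    rw [mem_image] at hg
    obtain ⟨h, hh, rfl⟩ := hg
    refine ⟨fun i => ?_, ?_⟩
    · obtain ⟨p, hp, rfl⟩ := hrep h hh
      have hpp := hSp p ((hS'm p).1 hp).1
      obtain ⟨_, e2, e3⟩ := gapsAfter_of (m := m) hpp
      refine ⟨e2 i, ?_⟩
      have e4 := ext0_le (hGs hh) i.succ
      have e5 := e3 i
      have e6 : gaps (Hn m p) i ≤ K := by omega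
      have e7 : (gaps (Hn m p) i : ℝ) ≤ K := by exact_mod_cast e6
      exact e7.trans hKhi
    · apply (hG h hh).2.mono hY4 le_rfl le_rfl
      intro p hp
      rw [mem_filter, hS'm] at hp
      obtain ⟨⟨hpS, _⟩, rfl⟩ := hp
      rw [mem_filter]
      exact ⟨hpS, (gapsAfter_of (hSp p hpS)).1⟩

end Pool.Agent.H534.NW
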