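import Pool.Agent.H534.NW.Idx

/-!
# Dilating the shapes by a constant factor
-/

set_option autoImplicit false

open Finset Filter

namespace Pool.Agent.H534.NW

/-- the modulus is the same for the shape `q b`, for large `H` -/
theorem WS_mul (σ : ℝ) (q : ℕ) (hq : 1 ≤ q) : ∃ H₀ : ℕ, ∀ H : ℕ, H₀ ≤ H →
    ∀ (r : ℕ) (b : Fin r → ℕ), WS σ (fun i => q * b i) H = WS σ b H := by
  have hNr : Tendsto (fun H : ℕ => (H : ℝ)) atTop atTop := tendsto_natCast_atTop_atTop
  have hl : Tendsto (fun H : ℕ => Real.log (H : ℝ)) atTop atTop := Real.tendsto_log_atTop.comp hNr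
  have hll : Tendsto (fun H : ℕ => Real.log (Real.log (H : ℝ))) atTop atTop := Real.tendsto_log_atTop.comp hl
  obtain ⟨H₀, hH₀⟩ := eventually_atTop.1 (hll.eventually_ge_atTop (q : ℝ))
  refine ⟨H₀, fun H hH r b => ?_⟩
  have h1 := hH₀ H hH
  have hdv : ∀ p : ℕ, p.Prime → (p ∣ WS σ (fun i => q * b i) H ↔ p ∣ WS σ b H) := by
    intro p hp
    rw [WS_dvd σ _ H p hp, WS_dvd σ b H p hp]
    by_cases hpq : p ∣ q
    · have h2 : (p : ℝ) ≤ Real.log (Real.log H) := by
        have h3 : p ≤ q := Nat.le_of_dvd hq hpq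
        have h4 : (p : ℝ) ≤ q := by exact_mod_cast h3
        linarith
      constructor
      · rintro ⟨h5, -⟩
        exact ⟨h5, Or.inl h2⟩
      · rintro ⟨h5, -⟩
        exact ⟨h5, Or.inl h2⟩
    · have hcop : Nat.gcd p q = 1 := (Nat.Prime.coprime_iff_not_dvd hp).2 hpq
      have hC : Cong (fun i => q * b i) p ↔ Cong b p := by
        unfold Cong
        constructor
        · rintro (⟨i, hi⟩ | ⟨i, j, hij, hm⟩)
          · left
            rcases (Nat.Prime.dvd_mul hp).1 hi with h | h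
            · exact absurd h hpq
            · exact ⟨i, h⟩
          · right
            exact ⟨i, j, hij, Nat.ModEq.cancel_left_of_coprime hcop hm⟩
        · rintro (⟨i, hi⟩ | ⟨i, j, hij, hm⟩)
          · left
            exact ⟨i, hi.mul_left _⟩
          · right
            exact ⟨i, j, hij, hm.mul_left _⟩
      constructor
      · rintro ⟨h5, h6⟩
        exact ⟨h5, h6.imp id hC.1⟩
      · rintro ⟨h5, h6⟩
        exact ⟨h5, h6.imp id hC.2⟩
  have hpf : (WS σ (fun i => q * b i) H).primeFactors = (WS σ b H).primeFactors := by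
    ext p
    rw [Nat.mem_primeFactors, Nat.mem_primeFactors]
    constructor
    · rintro ⟨h2, h3, -⟩
      exact ⟨h2, (hdv p h2).1 h3, (WS_pos σ b H).ne'⟩
    · rintro ⟨h2, h3, -⟩
      exact ⟨h2, (hdv p h2).2 h3, (WS_pos σ _ H).ne'⟩
  rw [← Nat.prod_primeFactors_of_squarefree (WS_sqf σ (fun i => q * b i) H), hpf,
    Nat.prod_primeFactors_of_squarefree (WS_sqf σ b H)]

open Classical in
/-- from a set `A'` of numbers `≡ ρ` modulo `q` to the set `A` of the quotients -/
theorem Shapes.quot (σ : ℝ) (q ρ : ℕ) (hq : 1 ≤ q) (k s : ℕ) (c : ℝ) (hc : 0 < c) (L : ℕ) :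
    ∃ H₀ : ℕ, ∀ (H : ℕ) (A A' : Finset ℕ), H₀ ≤ H → Shapes k s c σ L H A' →
    (∀ n ∈ A', n % q = ρ ∧ n / q ∈ A) → Shapes k s (c / (2 * q)) σ (L + 1) H A := by
  obtain ⟨H₁, hH₁⟩ := WS_mul σ q hq
  have hNr : Tendsto (fun H : ℕ => (H : ℝ)) atTop atTop := tendsto_natCast_atTop_atTop
  have hl : Tendsto (fun H : ℕ => Real.log (H : ℝ)) atTop atTop := Real.tendsto_log_atTop.comp hNr
  obtain ⟨H₂, hH₂⟩ := eventually_atTop.1 (hl.eventually_ge_atTop (2 * q : ℝ))
  refine ⟨max H₁ H₂, fun H A A' hH hS hA X b hX hb hb1 hb2 => ?_⟩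
  have hW := hH₁ H ((le_max_left _ _).trans hH) k b
  have hlq := hH₂ H ((le_max_right _ _).trans hH)
  have hq0 : (0 : ℝ) < q := by exact_mod_cast hq
  have hq1 : (1 : ℝ) ≤ q := by exact_mod_cast hq
  have hl1 : 1 ≤ Real.log (H : ℝ) := by linarith
  obtain ⟨X', hX'⟩ : ∃ X', X' = X / q := ⟨_, rfl⟩
  have hXl : 2 * q * Real.log H ^ L ≤ (X : ℝ) := by
    calc 2 * q * Real.log H ^ L ≤ Real.log H * Real.log H ^ L := by gcongr
      _ = Real.log H ^ (L + 1) := by ring
      _ ≤ X := hX
  have hlL : 1 ≤ Real.log (H : ℝ) ^ L := one_le_pow₀ hl1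
  have hX2 : (X : ℝ) / (2 * q) ≤ X' := by
    have h1 : (X : ℝ) < q * (X' + 1) := by
      have h2 := Nat.lt_mul_div_succ X (show 0 < q by omega)
      rw [← hX'] at h2
      exact_mod_cast h2
    have h3 : 2 * (q : ℝ) ≤ X := by nlinarith
    rw [div_le_iff₀ (by positivity)]
    nlinarith
  have hX3 : X' * q ≤ X := by
    rw [hX']
    exact Nat.div_mul_le_self X q
  have h1 := hS X' (fun i => q * b i) (by
      have h2 : Real.log (H : ℝ) ^ L ≤ X / (2 * q) := by
        rw [le_div_iff₀ (by positivity)]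
        linarith
      exact h2.trans hX2) (fun i j h => hb (Nat.eq_of_mul_eq_mul_left (by omega) h)) (fun i => by
      have := hb1 i
      exact Nat.mul_pos (by omega) (by omega)) (fun i => by
      rw [hW]
      refine le_trans ?_ (hb2 i)
      calc q * b i * WS σ b H * X' ^ 3 = b i * WS σ b H * (q * X' ^ 3) := by ring
        _ ≤ b i * WS σ b H * X ^ 3 := by
            apply Nat.mul_le_mul_left
            calc q * X' ^ 3 ≤ q ^ 3 * X' ^ 3 := Nat.mul_le_mul_right _ (Nat.le_self_pow (by norm_num) q)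
              _ = (X' * q) ^ 3 := by ring
              _ ≤ X ^ 3 := Nat.pow_le_pow_left hX3 3)
  rw [hW] at h1
  calc c / (2 * q) * (X : ℝ) = c * (X / (2 * q)) := by ring
    _ ≤ c * X' := by gcongr
    _ ≤ _ := h1
    _ ≤ _ := by
      apply Nat.cast_le.2
      apply card_le_card
      intro d hd
      rw [mem_filter, mem_Icc] at hd ⊢
      obtain ⟨⟨hd1, hd2⟩, hd3⟩ := hd
      refine ⟨⟨hd1, hd2.trans (le_trans (Nat.le_mul_of_pos_right X' (by omega)) hX3)⟩, ?_⟩
      have h4 : c / (2 * q) * (H / Real.log H ^ (s * (k + 1))) ≤ c * (H / Real.log H ^ (s * (k + 1))) := by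
        apply mul_le_mul_of_nonneg_right _ (by positivity)
        rw [div_le_iff₀ (by positivity)]
        nlinarith
      refine h4.trans (hd3.trans ?_)
      apply Nat.cast_le.2
      have hmem : ∀ n ∈ A'.filter (fun n => ∀ i, n + WS σ b H * d * (q * b i) ∈ A'), n ∈ A' ∧
          ∀ i, n + WS σ b H * d * (q * b i) ∈ A' := fun n hn => mem_filter.1 hn
      apply card_le_card_of_injOn (fun n => n / q)
      · intro n hn
        obtain ⟨n1, n2⟩ := hmem n (mem_coe.1 hn)
        rw [mem_coe, mem_filter]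
        refine ⟨(hA n n1).2, fun i => ?_⟩
        have h5 := (hA _ (n2 i)).2
        have h6 : (n + WS σ b H * d * (q * b i)) / q = n / q + WS σ b H * d * b i := by
          rw [show n + WS σ b H * d * (q * b i) = n + q * (WS σ b H * d * b i) by ring,
            Nat.add_mul_div_left _ _ (by omega)]
        rwa [h6] at h5
      · intro n hn n' hn' h
        have n1 := (hA n (hmem n (mem_coe.1 hn)).1).1
        have n2 := (hA n' (hmem n' (mem_coe.1 hn')).1).1
        simp only at h
        rw [← Nat.div_add_mod n q, ← Nat.div_add_mod n' q, h, n1, n2]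

end Pool.Agent.H534.NW
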