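import Pool.Agent.H534.UT.Art3
import Pool.Agent.H534.NW.Scale

/-!
# Dense sets of sifted primes in a fixed class contain every narrow shape
-/

set_option autoImplicit false

open Finset Filter Polynomial

namespace Pool.Agent.H534.NW

open Pool.Agent.H534.RS
open Pool.Agent.H534.UT (fA fA_eval sysA)
open Pool.Agent.W123.RU
open Pool.Agent.Y855 Pool.Agent.Q84.AR

open Classical in
/-- from a set `A'` to a set `A` of values of a linear form at the elements of `A'` -/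
theorem Shapes.lin (σ : ℝ) (q ρ : ℕ) (hq : 1 ≤ q) (k s : ℕ) (c : ℝ) (hc : 0 < c) (L : ℕ) :
    ∃ H₀ : ℕ, ∀ (H : ℕ) (A A' : Finset ℕ), H₀ ≤ H → Shapes k s c σ L H A' →
    (∀ n ∈ A', q * n + ρ ∈ A) → Shapes k s (c / (2 * q)) σ (L + 1) H A := by
  have hNr : Tendsto (fun H : ℕ => (H : ℝ)) atTop atTop := tendsto_natCast_atTop_atTop
  have hl : Tendsto (fun H : ℕ => Real.log (H : ℝ)) atTop atTop := Real.tendsto_log_atTop.comp hNr
  obtain ⟨H₂, hH₂⟩ := eventually_atTop.1 (hl.eventually_ge_atTop (2 * q : ℝ))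
  refine ⟨H₂, fun H A A' hH hS hA X b hX hb hb1 hb2 => ?_⟩
  have hlq := hH₂ H hH
  have hq0 : (0 : ℝ) < q := by exact_mod_cast hq
  have hq1 : (1 : ℝ) ≤ q := by exact_mod_cast hq
  have hl1 : 1 ≤ Real.log (H : ℝ) := by linarith
  obtain ⟨X', hX'⟩ : ∃ X', X' = X / q := ⟨_, rfl⟩
  have hXl : 2 * q * Real.log H ^ L ≤ (X : ℝ) := by
    calc 2 * q * Real.log H ^ L ≤ Real.log H * Real.log H ^ L := by gcongr
      _ = Real.log H ^ (L + 1) := by ring
      _ ≤ X := hX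
  have hlL : 1 ≤ Real.log (H : ℝ) ^ L := one_le_pow₀ hl1
  have hX2 : (X : ℝ) / (2 * q) ≤ X' := by
    have h1 : (X : ℝ) < q * (X' + 1) := by
      have h2 := Nat.lt_mul_div_succ X (show 0 < q by omega)
      rw [← hX'] at h2
      exact_mod_cast h2
    have h3 : 2 * (q : ℝ) ≤ X := by nlinarith
    rw [div_le_iff₀ (by positivity)]
    nlinarith
  have hX3 : X' * q ≤ X := by
    rw [hX']
    exact Nat.div_mul_le_self X q
  have hX4 : X' ≤ X := le_trans (Nat.le_mul_of_pos_right X' (by omega)) hX3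
  have h1 := hS X' b (by
      have h2 : Real.log (H : ℝ) ^ L ≤ X / (2 * q) := by
        rw [le_div_iff₀ (by positivity)]
        linarith
      exact h2.trans hX2) hb hb1 (fun i => by
      refine le_trans ?_ (hb2 i)
      exact Nat.mul_le_mul_left _ (Nat.pow_le_pow_left hX4 3))
  calc c / (2 * q) * (X : ℝ) = c * (X / (2 * q)) := by ring
    _ ≤ c * X' := by gcongr
    _ ≤ _ := h1
    _ ≤ _ := by
      apply Nat.cast_le.2
      apply card_le_card_of_injOn (fun d => d * q)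
      · intro d hd
        rw [mem_coe, mem_filter, mem_Icc] at hd
        rw [mem_coe, mem_filter, mem_Icc]
        obtain ⟨⟨hd1, hd2⟩, hd3⟩ := hd
        refine ⟨⟨Nat.mul_pos hd1 hq, (Nat.mul_le_mul_right _ hd2).trans hX3⟩, ?_⟩
        have h4 : c / (2 * q) * (H / Real.log H ^ (s * (k + 1))) ≤ c * (H / Real.log H ^ (s * (k + 1))) := by
          apply mul_le_mul_of_nonneg_right _ (by positivity)
          rw [div_le_iff₀ (by positivity)]
          nlinarith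
        refine h4.trans (hd3.trans ?_)
        apply Nat.cast_le.2
        apply card_le_card_of_injOn (fun n => q * n + ρ)
        · intro n hn
          rw [mem_coe, mem_filter] at hn
          rw [mem_coe, mem_filter]
          refine ⟨hA n hn.1, fun i => ?_⟩
          have h5 := hA _ (hn.2 i)
          have h6 : q * n + ρ + WS σ b H * (d * q) * b i = q * (n + WS σ b H * d * b i) + ρ := by ring
          rw [h6]
          exact h5
        · intro n _ n' _ hnn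
          have h7 : q * n = q * n' := by simpa using hnn
          exact Nat.eq_of_mul_eq_mul_left (by omega) h7
      · intro d _ d' _ hdd
        exact Nat.eq_of_mul_eq_mul_right (by omega) hdd

/-- the primes with the property `G` contain dense sets at infinitely many scales, which contain every narrow
shape, and so do their dense subsets -/
def ShPW (G : ℕ → Prop) : Prop := ∃ (𝒳 : Set ℕ) (T : ℕ → Finset ℕ) (c₀ : ℝ), 𝒳.Infinite ∧ 0 < c₀ ∧
  (∀ x, T x ⊆ Icc 1 x ∧ ∀ p ∈ T x, G p) ∧ (∀ x ∈ 𝒳, c₀ * (x / Real.log x ^ 2) ≤ (T x).card) ∧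
  ∀ (k : ℕ) (κ : ℝ), 1 ≤ k → 0 < κ → ∃ c σm : ℝ, 0 < c ∧ 0 < σm ∧ σm ≤ 1 / 2 ∧
    ∀ σ : ℝ, 0 < σ → σ ≤ σm → ∃ L : ℕ, ∀ᶠ x : ℕ in atTop, x ∈ 𝒳 →
    ∀ A ⊆ T x, κ * (x / Real.log x ^ 2) ≤ A.card → Shapes k 2 c σ L x A

theorem ShPW.mono {G G' : ℕ → Prop} (h : ShPW G) (hG : ∀ p, G p → G' p) : ShPW G' := by
  obtain ⟨𝒳, T, c₀, h1, h2, h3, h4, h5⟩ := h
  exact ⟨𝒳, T, c₀, h1, h2, fun x => ⟨(h3 x).1, fun p hp => hG p ((h3 x).2 p hp)⟩, h4, h5⟩

open Classical in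
/-- **Dense sets of sifted primes in a fixed class contain every narrow shape.** -/
theorem shPW_of (K : ℕ) (hK : 2 ≤ K) (W c W₂ e a : ℕ) (hW : 0 < W) (h2 : 2 ∣ W₂) (hWa : W = 2 ^ a * W₂)
    (hca : c = 2 ^ a * e + 1) (he : Odd e) (hc : c.Coprime W)
    (hcq : ∀ q ∈ W.primeFactors, 3 ≤ q → c % q ≠ 1) (G : ℕ → Prop) (κ₀ : ℝ) (hκ₀ : 0 < κ₀)
    (hfr : ∃ᶠ t : ℕ in atTop, κ₀ * ((2 : ℝ) ^ (K * t) / Real.log ((2 : ℝ) ^ (K * t)) ^ 2) ≤
      (((NS (2 ^ (K * t)) W c (OP (2 ^ t))).filter (fun p => G p)).card : ℝ)) : ShPW G := by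
  have hW2 : 2 ≤ W := by
    have h1 : 2 ∣ W := by rw [hWa]; exact h2.mul_left _
    exact Nat.le_of_dvd hW h1
  have hW0 : (0 : ℝ) < W := by exact_mod_cast hW
  have hK0 : (0 : ℝ) < K := by exact_mod_cast (show 0 < K by omega)
  have hlog2 : 0 < Real.log 2 := Real.log_pos (by norm_num)
  -- large `t`
  have hev : ∀ᶠ t : ℕ in atTop, 1 ≤ t ∧ c + W ≤ 2 ^ t ∧
      (2 : ℝ) ^ t ≤ κ₀ / 2 * ((2 : ℝ) ^ (K * t) / Real.log ((2 : ℝ) ^ (K * t)) ^ 2) := by
    have h3 : ∀ᶠ t : ℕ in atTop, (K * Real.log 2 * t) ^ 2 ≤ κ₀ / 2 * (2 : ℝ) ^ t := by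
      have h4 : Tendsto (fun t : ℕ => (t : ℝ) ^ 2 / (2 : ℝ) ^ t) atTop (nhds 0) := by
        have := tendsto_pow_const_div_const_pow_of_one_lt 2 (show (1 : ℝ) < 2 by norm_num)
        exact this
      have h5 : ∀ᶠ t : ℕ in atTop, (t : ℝ) ^ 2 / (2 : ℝ) ^ t ≤ κ₀ / 2 / (K * Real.log 2) ^ 2 :=
        h4.eventually (ge_mem_nhds (by positivity))
      filter_upwards [h5] with t ht
      rw [div_le_div_iff₀ (by positivity) (by positivity)] at ht
      calc (K * Real.log 2 * t) ^ 2 = (t : ℝ) ^ 2 * (K * Real.log 2) ^ 2 := by ring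
        _ ≤ _ := ht
    filter_upwards [eventually_ge_atTop 1, eventually_ge_atTop (c + W), h3] with t h4 h5 h7
    refine ⟨h4, h5.trans Nat.lt_two_pow_self.le, ?_⟩
    have ht0 : (0 : ℝ) < t := by exact_mod_cast h4
    have h9 : Real.log ((2 : ℝ) ^ (K * t)) = K * Real.log 2 * t := by
      rw [Real.log_pow]; push_cast; ring
    have h10 : (2 : ℝ) ^ t * 2 ^ t ≤ 2 ^ (K * t) := by
      rw [← pow_add]
      apply pow_le_pow_right₀ (by norm_num)
      nlinarith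
    rw [h9, ← mul_div_assoc, le_div_iff₀ (by positivity)]
    calc (2 : ℝ) ^ t * (K * Real.log 2 * t) ^ 2 ≤ 2 ^ t * (κ₀ / 2 * 2 ^ t) := by gcongr
      _ = κ₀ / 2 * (2 ^ t * 2 ^ t) := by ring
      _ ≤ _ := by gcongr
  obtain ⟨TT', hTT'⟩ : ∃ T : Set ℕ, T = {t : ℕ | (κ₀ * ((2 : ℝ) ^ (K * t) / Real.log ((2 : ℝ) ^ (K * t)) ^ 2) ≤
      (((NS (2 ^ (K * t)) W c (OP (2 ^ t))).filter (fun p => G p)).card : ℝ)) ∧ (1 ≤ t ∧ c + W ≤ 2 ^ t ∧
      (2 : ℝ) ^ t ≤ κ₀ / 2 * ((2 : ℝ) ^ (K * t) / Real.log ((2 : ℝ) ^ (K * t)) ^ 2))} := ⟨_, rfl⟩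
  have hTinf : TT'.Infinite := by
    rw [hTT']
    exact Nat.frequently_atTop_iff_infinite.1 (hfr.and_eventually hev)
  -- the set of the primes
  obtain ⟨S, hS⟩ : ∃ S : ℕ → ℕ → Finset ℕ, ∀ x t, S x t = ((NS x W c (OP (2 ^ t))).filter (fun p => G p)).filter
    (fun p => 2 ^ t < p) := ⟨_, fun _ _ => rfl⟩
  have hSm : ∀ x t, ∀ p ∈ S x t, 1 ≤ p ∧ p ≤ x ∧ p.Prime ∧ p ≡ c [MOD W] ∧ (∀ q ∈ OP (2 ^ t), ¬ q ∣ p - 1) ∧
      G p ∧ 2 ^ t < p := by
    intro x t p hp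
    rw [hS, mem_filter, mem_filter] at hp
    obtain ⟨⟨h1, h3⟩, h4⟩ := hp
    unfold NS at h1
    rw [mem_filter, mem_Icc] at h1
    exact ⟨h1.1.1, h1.1.2, h1.2.1, h1.2.2.1, h1.2.2.2, h3, h4⟩
  have htx : ∀ t : ℕ, Nat.log 2 (2 ^ (K * t)) / K = t := by
    intro t
    rw [Nat.log_pow (by norm_num), Nat.mul_div_cancel_left _ (by omega)]
  refine ⟨(fun t => 2 ^ (K * t)) '' TT', fun x => S x (Nat.log 2 x / K), κ₀ / 2, ?_, by positivity, ?_, ?_, ?_⟩
  · refine hTinf.image (fun t _ t' _ h => ?_)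
    have h1 : K * t = K * t' := Nat.pow_right_injective le_rfl h
    exact Nat.eq_of_mul_eq_mul_left (by omega) h1
  · intro x
    refine ⟨fun p hp => ?_, fun p hp => (hSm x _ p hp).2.2.2.2.2.1⟩
    have h1 := hSm x _ p hp
    rw [mem_Icc]
    exact ⟨h1.1, h1.2.1⟩
  · rintro x ⟨t, ht, rfl⟩
    rw [hTT'] at ht
    obtain ⟨h1, h3, h4, h5⟩ := ht
    simp only
    rw [htx t]
    push_cast
    have h6 : ((NS (2 ^ (K * t)) W c (OP (2 ^ t))).filter (fun p => G p)).card ≤ (S (2 ^ (K * t)) t).card + 2 ^ t := by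
      have h3 : (NS (2 ^ (K * t)) W c (OP (2 ^ t))).filter (fun p => G p) ⊆ S (2 ^ (K * t)) t ∪ Icc 1 (2 ^ t) := by
        intro p hp
        by_cases h : 2 ^ t < p
        · exact mem_union_left _ (by rw [hS]; exact mem_filter.2 ⟨hp, h⟩)
        · apply mem_union_right
          rw [mem_Icc]
          have h4 := (mem_filter.1 hp).1
          unfold NS at h4
          rw [mem_filter, mem_Icc] at h4
          exact ⟨h4.1.1, not_lt.1 h⟩
      refine (card_le_card h3).trans ((card_union_le _ _).trans ?_)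
      rw [Nat.card_Icc, Nat.add_sub_cancel]
    have h7 : (((NS (2 ^ (K * t)) W c (OP (2 ^ t))).filter (fun p => G p)).card : ℝ) ≤
        (S (2 ^ (K * t)) t).card + 2 ^ t := by
      exact_mod_cast h6
    linarith
  intro k κ hk hκ
  obtain ⟨c₀, σm, hc₀, hσm, hσm2, hpoly⟩ := polyW (fA W c W₂ e) (sysA W c W₂ e a hW h2 hWa hca he hc hcq) k 0
    (1 / K) κ hk (by positivity) hκ
  refine ⟨c₀ / (2 * W), σm, by positivity, hσm, hσm2, fun σ hσ hσσ => ?_⟩
  obtain ⟨L, H₀, hpoly⟩ := hpoly σ hσ hσσ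
  obtain ⟨H₁, hlin⟩ := Shapes.lin σ W c hW k 2 c₀ hc₀ L
  refine ⟨L + 1, ?_⟩
  filter_upwards [eventually_ge_atTop (H₀ + H₁)] with x hx hx𝒳 B hB hBc
  obtain ⟨t, ht, rfl⟩ := hx𝒳
  rw [hTT'] at ht
  obtain ⟨-, ht1, hcW, -⟩ := ht
  simp only at hB hx hBc ⊢
  rw [htx t] at hB
  obtain ⟨M, hM⟩ : ∃ M : ℕ, M = 2 ^ (K * t) := ⟨_, rfl⟩
  have hMr : (M : ℝ) = (2 : ℝ) ^ (K * t) := by rw [hM]; push_cast; rfl
  rw [← hM] at hB hx hBc ⊢
  -- the set of the `s`
  obtain ⟨A, hA⟩ : ∃ A : Finset ℕ, A = (Ioc 0 M).filter (fun s => W * s + c ∈ B) := ⟨_, rfl⟩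
  have hform : ∀ p ∈ B, ∃ s ∈ A, p = W * s + c := by
    intro p hp
    obtain ⟨h0, h1, h3, h4, h5, h6, h7⟩ := hSm M t p (hB hp)
    have hcp : c ≤ p := by omega
    obtain ⟨s, hs⟩ : W ∣ p - c := (Nat.modEq_iff_dvd' hcp).1 h4.symm
    have hps : p = W * s + c := by omega
    refine ⟨s, ?_, hps⟩
    rw [hA, mem_filter, mem_Ioc]
    refine ⟨⟨?_, ?_⟩, by rw [← hps]; exact hp⟩
    · by_contra h
      have : s = 0 := by omega
      rw [this, mul_zero, zero_add] at hps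
      omega
    · have h8 : s ≤ W * s := Nat.le_mul_of_pos_left _ hW
      omega
  have hcard : B.card ≤ A.card := by
    have h1 : B ⊆ A.image (fun s => W * s + c) := by
      intro p hp
      obtain ⟨s, hs, hps⟩ := hform p hp
      exact mem_image.2 ⟨s, hs, hps.symm⟩
    exact (card_le_card h1).trans card_image_le
  have hroot : (M : ℝ) ^ (1 / (K : ℝ)) = 2 ^ t := by
    rw [hMr, mul_comm K t, pow_mul, ← Real.rpow_natCast ((2 : ℝ) ^ t) K, ← Real.rpow_mul (by positivity),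
      mul_one_div_cancel hK0.ne', Real.rpow_one]
  -- roughness
  have hrough : ∀ n ∈ A, ∀ i, ∀ p : ℕ, p.Prime → (p : ℝ) ≤ (M : ℝ) ^ (1 / (K : ℝ)) →
      ¬ (p : ℤ) ∣ (fA W c W₂ e i).eval (n : ℤ) := by
    intro n hn i p hp hpx hd
    rw [hA, mem_filter] at hn
    obtain ⟨h0, h1, h3, h4, h5, h6, h7⟩ := hSm M t _ (hB hn.2)
    have hpt : p ≤ 2 ^ t := by
      rw [hroot] at hpx
      exact_mod_cast hpx
    rw [fA_eval] at hd
    cases i
    · simp only [Bool.false_eq_true, if_false] at hd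
      have h8 : p ∣ W * n + c := by exact_mod_cast hd
      have := (Nat.prime_dvd_prime_iff_eq hp h3).1 h8
      omega
    · simp only [if_true] at hd
      have h8 : p ∣ W₂ * n + e := by exact_mod_cast hd
      rcases Nat.lt_or_ge p 3 with h | h
      · have hp2 : p = 2 := by have := hp.two_le; omega
        rw [hp2] at h8
        have h9 : 2 ∣ e := (Nat.dvd_add_right (h2.mul_right n)).1 h8
        exact (Nat.not_even_iff_odd.2 he) (even_iff_two_dvd.2 h9)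
      · apply h5 p (mem_OP.2 ⟨hp, h, hpt⟩)
        have h9 : W * n + c - 1 = 2 ^ a * (W₂ * n + e) := by
          rw [hWa, hca]
          rw [← Nat.add_assoc, Nat.add_sub_cancel]
          ring
        rw [h9]
        exact h8.mul_left _
  have hfin := hpoly 0 M A (by omega) (by simp) (by rw [hA, zero_add]; exact filter_subset _ _) hrough (by
    rw [Fintype.card_bool]
    refine hBc.trans ?_
    exact_mod_cast hcard)
  rw [Fintype.card_bool] at hfin
  exact hlin M B A (by omega) hfin (fun n hn => by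
    rw [hA, mem_filter] at hn
    exact hn.2)

end Pool.Agent.H534.NW
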