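import Pool.Agent.H534.NW.Scale
import Pool.Agent.H534.UT.MissC

/-!
# Clusters of primes with rough companions, at every narrow shape: dense subsets
-/

set_option autoImplicit false

open Finset Filter Polynomial

namespace Pool.Agent.H534.NW

open Pool.Agent.W123.RU
open Pool.Agent.H534.UT (sysU PP six_dvd pair_mem mod6 member adm2 fM fM_eval sysM)
open Pool.Agent.TH882.DD Pool.Agent.TH882.AG Pool.Agent.TH882.UB Pool.Agent.TH882.HE
open Pool.Agent.H361R2.PP
open Pool.Agent.W70.HR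

/-- **Clusters at all the places of every narrow shape.** -/
theorem clusW (S : Finset ℤ) (hS : Adm S) (m : ℕ) : ∃ K : ℕ, 1 ≤ K ∧ ∃ δ : ℝ, 0 < δ ∧ δ ≤ 1 ∧
    ∃ Q : ℕ → Finset ℕ, (∀ X, Q X ∈ Pat S m K ∨ Q X = ∅) ∧ (∀ᶠ X in atTop, Q X ∈ Pat S m K) ∧
    ∀ (k : ℕ) (κ : ℝ), 1 ≤ k → 0 < κ → ∃ c σm : ℝ, 0 < c ∧ 0 < σm ∧ σm ≤ 1 / 2 ∧ ∀ σ : ℝ, 0 < σ → σ ≤ σm →
    ∃ L X₀ : ℕ, ∀ X : ℕ, X₀ ≤ X → ∀ A ⊆ PP X ((X : ℝ) ^ δ) (Up S (4 * (m + 1)) K) (Q X),
      κ * ((PP X ((X : ℝ) ^ δ) (Up S (4 * (m + 1)) K) (Q X)).card : ℝ) ≤ A.card →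
      Shapes k (Up S (4 * (m + 1)) K).card c σ L X A := by
  classical
  obtain ⟨K, hK, δ, hδ, hδ1, c₁, hc₁, X₁, hpop⟩ := popular S hS m
  obtain ⟨U, hUd⟩ : ∃ U, U = Up S (4 * (m + 1)) K := ⟨_, rfl⟩
  rw [← hUd] at hpop
  obtain ⟨c₂, hc₂, hV⟩ := mv
  obtain ⟨X₂, hV⟩ := hV δ hδ hδ1
  obtain ⟨X₃, hJ⟩ := JJ_size δ hδ hδ1 0 0 (by simp)
  have hsys : Poly.Sys (fun u : U => (X + C ((u : ℕ) : ℤ) : ℤ[X])) := by
    apply sysU
    intro p hp
    obtain ⟨b0, hb0⟩ := base_class S (4 * (m + 1)) K p hS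
    refine ⟨b0, fun u hu hd => ?_⟩
    have h1 := hb0 u (hUd ▸ hu)
    have h2 := Nat.dvd_gcd hd (hp.dvd_primorial_iff.2 le_rfl)
    rw [Nat.coprime_iff_gcd_eq_one] at h1
    rw [h1] at h2
    exact hp.one_lt.ne' (Nat.dvd_one.1 h2)
  have hUne : U.Nonempty := by
    rw [hUd]
    exact ⟨_, Hp_mem S (4 * (m + 1)) K ⟨0, by omega⟩ ⟨0, hK⟩⟩
  have hNe : Nonempty U := hUne.to_subtype
  choose! Q hQP hQ using hpop
  refine ⟨K, hK, δ / 4, by positivity, by linarith, fun X => if X₁ ≤ X then Q X else ∅, ?_, ?_, ?_⟩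
  · intro X
    by_cases h : X₁ ≤ X
    · left
      simp only [h, if_true]
      exact hQP X h
    · right
      simp only [h, if_false]
  · filter_upwards [eventually_ge_atTop X₁] with X h
    simp only [h, if_true]
    exact hQP X h
  · rw [← hUd]
    intro k κ hk hκ
    obtain ⟨c₃, σm, hc₃, hσm, hσm2, heng⟩ := polyW (fun u : U => (X + C ((u : ℕ) : ℤ) : ℤ[X])) hsys k 1 (δ / 4)
      (κ * (c₁ * (c₂ / δ) ^ U.card)) hk (by positivity) (by positivity)
    refine ⟨c₃, σm, hc₃, hσm, hσm2, fun σ hσ hσσ => ?_⟩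
    obtain ⟨L, X₄, heng⟩ := heng σ hσ hσσ
    refine ⟨L, max (max X₁ X₂) (max X₃ (max X₄ 3)), ?_⟩
    intro X hX A hA hAc
    have hX1 : X₁ ≤ X := (le_max_left _ _).trans ((le_max_left _ _).trans hX)
    have hX2 : X₂ ≤ X := (le_max_right _ _).trans ((le_max_left _ _).trans hX)
    have hX3 : X₃ ≤ X := (le_max_left _ _).trans ((le_max_right _ _).trans hX)
    have hX4 : X₄ ≤ X := (le_max_left _ _).trans ((le_max_right _ _).trans ((le_max_right _ _).trans hX))
    have hX5 : 3 ≤ X := (le_max_right _ _).trans ((le_max_right _ _).trans ((le_max_right _ _).trans hX))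
    have hXr : (3 : ℝ) ≤ X := by exact_mod_cast hX5
    have hX0 : (0 : ℝ) < X := by linarith
    have hlog : 0 < Real.log (X : ℝ) := Real.log_pos (by linarith)
    simp only [hX1, if_true] at hA hAc
    obtain ⟨-, -, -, hsz⟩ := hJ X hX3
    have hFF : c₂ / δ / Real.log X ≤ FF δ X := by
      have h1 := hV X hX2
      unfold FF
      rw [div_le_iff₀ hlog, div_le_iff₀ hδ]
      calc c₂ ≤ _ := h1
        _ = _ := by ring
    obtain ⟨A₀, hA₀⟩ : ∃ A₀, A₀ = AQ δ X (Hp S (4 * (m + 1)) K) U (Q X) := ⟨_, rfl⟩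
    have hAP : A₀ ⊆ PP X ((X : ℝ) ^ (δ / 4)) U (Q X) := by
      intro n hn
      rw [hA₀] at hn
      have hro := AQ_Ro hn
      unfold AQ at hn
      rw [mem_filter] at hn
      unfold PP
      rw [mem_filter]
      refine ⟨hn.1, hn.2.2.2, fun u hu p hp hpX => hro u hu p hp ?_⟩
      have h1 : (p : ℝ) < ((2 ^ 2 ^ JJ δ X : ℕ) : ℝ) := by
        refine lt_of_le_of_lt hpX (lt_of_lt_of_le ?_ hsz)
        exact Real.rpow_lt_rpow_of_exponent_lt (by linarith) (by linarith)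
      exact_mod_cast h1
    have hAI : A ⊆ Ioc (X - 1) (X - 1 + X) := by
      intro n hn
      have h1 := hA hn
      unfold PP at h1
      rw [mem_filter, mem_Ico] at h1
      rw [mem_Ioc]
      omega
    have hcards : (A₀.card : ℝ) ≤ (PP X ((X : ℝ) ^ (δ / 4)) U (Q X)).card := by
      exact_mod_cast card_le_card hAP
    have h := heng (X - 1) X A hX4 (by
        rw [pow_one]
        exact_mod_cast Nat.sub_le X 1) hAI
      (by
        intro n hn u p hp hpX hd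
        have h1 := hA hn
        unfold PP at h1
        rw [mem_filter] at h1
        rw [eval_add, eval_X, eval_C] at hd
        exact h1.2.2 u.1 u.2 p hp hpX (by exact_mod_cast hd))
      (by
        rw [Fintype.card_coe]
        refine le_trans ?_ hAc
        rw [mul_assoc]
        apply mul_le_mul_of_nonneg_left _ hκ.le
        refine le_trans ?_ hcards
        rw [hA₀]
        refine le_trans ?_ (hQ X hX1)
        calc c₁ * (c₂ / δ) ^ U.card * (X / Real.log X ^ U.card) = c₁ * (X * (c₂ / δ / Real.log X) ^ U.card) := by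
              rw [div_pow (c₂ / δ)]
              field_simp
          _ ≤ c₁ * (X * FF δ X ^ U.card) := by
              gcongr)
    rw [Fintype.card_coe] at h
    exact h

end Pool.Agent.H534.NW
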