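import Pool.Graph.R_seed8.X34.E.E8
import Pool.Graph.R_seed8.X34.E.E4
import Pool.Agent.H534.NW.Idx

/-!
# Two primes among 45 forms, at every narrow shape
-/

set_option autoImplicit false

open Finset Filter Polynomial

namespace Pool.Agent.H534.NW

open Pool.Agent.W123.RU
open Pool.Agent.X34.E (Adm Pt count_of dhl45R G45 G45_card G45_adm G45_le lift_class)

/-- the linear polynomials `X + s`, `s ∈ S` -/
theorem sysZ (S : Finset ℤ) (hS : Adm S) : Poly.Sys (fun s : S => (X + C (s : ℤ) : ℤ[X])) where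
  irr := fun s => by
    have h := irreducible_X_sub_C (-(s : ℤ))
    rwa [map_neg, sub_neg_eq_add] at h
  deg := fun s => by rw [natDegree_X_add_C]; exact one_pos
  lead := fun s => by rw [leadingCoeff_X_add_C]; exact one_pos
  inj := fun s t h => by
    simp only at h
    exact Subtype.ext (C_injective (add_left_cancel h))
  adm := fun p hp => by
    obtain ⟨r, hr⟩ := hS p hp
    have hp0 : (p : ℤ) ≠ 0 := by exact_mod_cast hp.ne_zero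
    refine ⟨(r % p).toNat, fun s hd => hr s.1 s.2 ?_⟩
    have h2 : ((r % p).toNat : ℤ) = r % p := Int.toNat_of_nonneg (Int.emod_nonneg _ hp0)
    rw [eval_add, eval_X, eval_C, h2, Int.emod_def] at hd
    have h4 : r + (s : ℤ) = r - p * (r / p) + s + p * (r / p) := by ring
    rw [h4]
    exact dvd_add hd (dvd_mul_right _ _)

/-- dense sets of integers with rough `n + s`, `s ∈ S` -/
theorem tupW (S : Finset ℤ) (hS : Adm S) (hne : S.Nonempty) (k g : ℕ) (η κ : ℝ) (hk : 1 ≤ k)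
    (hη : 0 < η) (hκ : 0 < κ) :
    ∃ c σm : ℝ, 0 < c ∧ 0 < σm ∧ σm ≤ 1 / 2 ∧ ∀ σ : ℝ, 0 < σ → σ ≤ σm → ∃ L H₀ : ℕ,
    ∀ (Y H : ℕ) (A : Finset ℕ), H₀ ≤ H → Y ≤ H ^ g → A ⊆ Ioc Y (Y + H) →
    (∀ n ∈ A, ∀ s ∈ S, ∀ p : ℕ, p.Prime → (p : ℝ) ≤ (H : ℝ) ^ η → ¬ (p : ℤ) ∣ (n : ℤ) + s) →
    κ * (H / Real.log H ^ S.card) ≤ A.card → Shapes k S.card c σ L H A := by
  have hNe : Nonempty S := hne.to_subtype
  obtain ⟨c, σm, hc, hσm, hσm2, h⟩ := polyW (fun s : S => (X + C (s : ℤ) : ℤ[X])) (sysZ S hS) k g η κ hk hη hκ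
  rw [Fintype.card_coe] at h
  refine ⟨c, σm, hc, hσm, hσm2, fun σ hσ hσσ => ?_⟩
  obtain ⟨L, H₀, h⟩ := h σ hσ hσσ
  refine ⟨L, H₀, fun Y H A hH hY hA hAr hAc => h Y H A hH hY hA ?_ hAc⟩
  intro n hn s p hp hpH hd
  rw [eval_add, eval_X, eval_C] at hd
  exact hAr n hn s.1 s.2 p hp hpH hd

open Classical in
/-- **Two primes among 45 translates of `n`, at every narrow shape.** -/
theorem dhlW : ∃ η : ℝ, 0 < η ∧ ∀ S : Finset ℤ, S.card = 45 → Adm S → ∀ (q : ℕ) (r : ℤ), 0 < q →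
    (∀ s ∈ S, IsCoprime (r + s) (q : ℤ)) → ∀ R : ℕ, ∃ P : ℕ → Finset ℤ,
    (∀ x, P x ⊆ S) ∧ (∀ᶠ x in atTop, 2 ≤ (P x).card) ∧ ∀ (k : ℕ) (κ : ℝ), 1 ≤ k → 0 < κ →
    ∃ c σm : ℝ, 0 < c ∧ 0 < σm ∧ σm ≤ 1 / 2 ∧ ∀ σ : ℝ, 0 < σ → σ ≤ σm → ∃ L x₀ : ℕ, ∀ x : ℕ, x₀ ≤ x →
    ∀ A ⊆ (Icc 1 x).filter (Pt q r S (P x) R ((x : ℝ) ^ η)),
      κ * (((Icc 1 x).filter (Pt q r S (P x) R ((x : ℝ) ^ η))).card : ℝ) ≤ A.card → Shapes k 45 c σ L x A := by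
  obtain ⟨η, hη, h⟩ := count_of dhl45R
  refine ⟨η, hη, fun S hS hadm q r hq hr R => ?_⟩
  obtain ⟨c₀, hc₀, hx⟩ := h S hS hadm q r hq hr R
  obtain ⟨x₁, hx₁⟩ := eventually_atTop.1 (tendsto_natCast_atTop_atTop.eventually hx)
  have hx₂ : ∀ x : ℕ, ∃ P : Finset ℤ, P ⊆ S ∧ (x₁ ≤ x → 2 ≤ P.card ∧ c₀ * (x : ℝ) / Real.log x ^ 45 ≤
      (((Icc 1 x).filter (fun n : ℕ => Pt q r S P R ((x : ℝ) ^ η) n)).card : ℝ)) := by
    intro x
    by_cases hxx : x₁ ≤ x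
    · obtain ⟨P, hP, hP2, hPc⟩ := hx₁ x hxx
      rw [Nat.floor_natCast] at hPc
      exact ⟨P, hP, fun _ => ⟨hP2, hPc⟩⟩
    · exact ⟨∅, empty_subset _, fun h => absurd h hxx⟩
  choose P hP hP2 using hx₂
  refine ⟨P, hP, ?_, ?_⟩
  · filter_upwards [eventually_ge_atTop x₁] with x hxx
    exact (hP2 x hxx).1
  intro k κ hk hκ
  have hne : S.Nonempty := by
    rw [← card_pos, hS]
    norm_num
  obtain ⟨c, σm, hc, hσm, hσm2, h2⟩ := tupW S hadm hne k 1 η (κ * c₀) hk hη (by positivity)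
  rw [hS] at h2
  refine ⟨c, σm, hc, hσm, hσm2, fun σ hσ hσσ => ?_⟩
  obtain ⟨L, H₀, h2⟩ := h2 σ hσ hσσ
  refine ⟨L, max x₁ H₀, fun x hxx A hA hAc => ?_⟩
  obtain ⟨-, hcount⟩ := hP2 x ((le_max_left _ _).trans hxx)
  refine h2 0 x A ((le_max_right _ _).trans hxx) (Nat.zero_le _) ?_ ?_ ?_
  · intro n hn
    have h3 := (mem_filter.1 (hA hn)).1
    rw [mem_Icc] at h3
    rw [mem_Ioc]
    omega
  · intro n hn s hs p hp hpx
    exact (mem_filter.1 (hA hn)).2.2.2 s hs p hp hpx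
  · calc κ * c₀ * (x / Real.log x ^ 45) = κ * (c₀ * x / Real.log x ^ 45) := by ring
      _ ≤ _ := by gcongr
      _ ≤ _ := hAc

end Pool.Agent.H534.NW
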