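import Pool.Agent.H534.NW.EngA

/-!
# The theorem for one shape, with the narrow modulus of the shape, part 2
-/

set_option autoImplicit false

open Finset

namespace Pool.Agent.H534.NW

open Pool.Agent.H602R3.DHJ
open Pool.Agent.TH423.SH (PS)
open Pool.Agent.Y727.PSP (sw sl Ind LF rp rp_pos rp_le rp_cast rp_of sum_rp LF_mono)
open Pool.Agent.Y677.RSZ hiding Sys V_pos fac_pos V_lower
open Pool.Agent.H534.RS hiding majW classes engP
open Pool.Agent.H534.RT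
open Pool.Agent.H534.NV (WN WN_le numG)

theorem card_irrel {α : Type} (s : Finset α) (P : α → Prop) (i₁ i₂ : DecidablePred P) :
    (@filter α P i₁ s).card = (@filter α P i₂ s).card := by
  have h : i₁ = i₂ := Subsingleton.elim _ _
  subst h
  rfl

open Classical in
theorem engW (r g : ℕ) (δ κ : ℝ) (hr : 1 ≤ r) (hδ : 0 < δ) (hκ : 0 < κ) :
    ∃ c σm : ℝ, 0 < c ∧ 0 < σm ∧ σm ≤ 1 / 2 ∧ ∀ σ : ℝ, 0 < σ → σ ≤ σm → ∃ Lx H₀ : ℕ,
    ∀ (F : ℤ → ℤ) (Y H X : ℕ) (A : Finset ℕ) (b : Fin r → ℕ), SysU g H (WS σ b H) F → H₀ ≤ H →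
    Real.log H ^ Lx ≤ X →
    (∀ n ∈ Ioc Y (Y + H), F (n : ℤ) ≠ 0 ∧ |F (n : ℤ)| ≤ (H : ℤ) ^ g) → A ⊆ Ioc Y (Y + H) →
    (∀ n ∈ A, ∀ p : ℕ, p.Prime → (p : ℝ) ≤ (H : ℝ) ^ δ → ¬ (p : ℤ) ∣ F (n : ℤ)) →
    κ * (H * V F 1 H) ≤ A.card → Function.Injective b → (∀ l, 1 ≤ b l) →
    (∀ l, b l * WS σ b H * X ^ 3 ≤ H) →
    ∃ D : Finset ℕ, c * X ≤ D.card ∧ ∀ d ∈ D, 1 ≤ d ∧ d ≤ X ∧
      c * (H * dW F (WS σ b H) * V F (WS σ b H) H ^ (r + 1)) ≤ ((solN A (WS σ b H) b d).card : ℝ) := by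
  have hrr : (1 : ℝ) ≤ r := by exact_mod_cast hr
  obtain ⟨M₁, hM₁⟩ : ∃ M₁ : ℕ, M₁ = Mr r + (r + 1) := ⟨_, rfl⟩
  obtain ⟨c, hc, hmaj⟩ := majW c1' Pool.Agent.Y328.RSZ.sel Pool.Agent.Y833.RSZ.CLS mer
    g M₁ δ hδ
  obtain ⟨κ₁, hκ₁d⟩ : ∃ κ₁ : ℝ, κ₁ = κ / 2 := ⟨_, rfl⟩
  have hκ₁ : 0 < κ₁ := by rw [hκ₁d]; positivity
  obtain ⟨δ₀, hδ₀d⟩ : ∃ δ₀ : ℝ, δ₀ = c * κ₁ / (8 * 4 ^ r) := ⟨_, rfl⟩
  have hδ₀ : 0 < δ₀ := by rw [hδ₀d]; positivity
  have hδ₀2 : 8 * 4 ^ r * δ₀ ≤ c * κ₁ := by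
    rw [hδ₀d]
    apply le_of_eq
    field_simp
  obtain ⟨cR, ηR, N₀, hcR, hηR, hRC⟩ := rcN r hr δ₀ hδ₀
  obtain ⟨η, hηd⟩ : ∃ η : ℝ, η = min ηR (δ₀ / 2) := ⟨_, rfl⟩
  have hη : 0 < η := by rw [hηd]; exact lt_min hηR (by positivity)
  have hηR' : η ≤ ηR := by rw [hηd]; exact min_le_left _ _
  have hηδ : η ≤ δ₀ / 2 := by rw [hηd]; exact min_le_right _ _
  obtain ⟨η', hη', hMK⟩ := mkr' r hr η hη
  obtain ⟨σm, hσm, hσm2, hmaj⟩ := hmaj (min η' 1) (lt_min hη' one_pos)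
  obtain ⟨c₂, hc₂d⟩ : ∃ c₂ : ℝ, c₂ = cR * δ₀ := ⟨_, rfl⟩
  have hc₂ : 0 < c₂ := by rw [hc₂d]; positivity
  obtain ⟨C₁, hC₁d⟩ : ∃ C₁ : ℝ, C₁ = 2 / c + κ := ⟨_, rfl⟩
  have hC₁ : 0 < C₁ := by rw [hC₁d]; positivity
  refine ⟨min (c₂ / 24) (c₂ * κ / (16 * C₁)), σm, by apply lt_min <;> positivity, hσm, hσm2, fun σ hσ hσσ => ?_⟩
  have hσ2 : σ ≤ 1 / 2 := hσσ.trans hσm2
  obtain ⟨B, H₁, hmaj⟩ := hmaj σ hσ hσσ
  obtain ⟨KV, hKV1, hKV⟩ := V_lower
  -- the numerical conditions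
  obtain ⟨Ax, hAx⟩ : ∃ Ax : ℕ, Ax = B * Mr r + B * (r + 1) + 1 := ⟨_, rfl⟩
  obtain ⟨L₁, l₀, hline⟩ := line_bad g σ hσ Ax
  obtain ⟨Lx, hLx⟩ : ∃ Lx : ℕ, Lx = B * (r + 1) + 2 * g + B * Mr r + 1 + (L₁ + 1) := ⟨_, rfl⟩
  obtain ⟨Cs, hCs⟩ : ∃ Cs : ℝ, Cs = (10 + 100 * r) + (10 + 100 * r) / κ₁ * KV ^ (2 * g) + 1 / η' + 64 / c₂ +
    4 * N₀ + Real.exp (2 * (g : ℝ) + 2) + 16 * ((r : ℝ) + 1) ^ 2 / c₂ + |l₀| + 256 := ⟨_, rfl⟩
  obtain ⟨Ha, hHa⟩ := numE 1 1 δ hδ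
  obtain ⟨Hb, hHb⟩ := WN_le σ (1 / 16) hσ (by norm_num)
  obtain ⟨Hf, hHf⟩ : ∃ Hf : ℕ, ∀ H : ℕ, Hf ≤ H → Cs ≤ Real.log H := by
    apply Filter.eventually_atTop.1
    have hlog : Filter.Tendsto (fun H : ℕ => Real.log H) Filter.atTop Filter.atTop :=
      Real.tendsto_log_atTop.comp tendsto_natCast_atTop_atTop
    exact hlog.eventually_ge_atTop _
  refine ⟨Lx, H₁ + Ha + Hb + Hf + 65536, ?_⟩
  intro F Y H X A b hF hH hX hsize hAsub hArough hAcard hb hb1 hbB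
  obtain ⟨hH16, hl1, ne⟩ := hHa H (by omega)
  have hW16' := hHb H (by omega)
  have nf := hHf H (by omega)
  obtain ⟨l, hl⟩ : ∃ l : ℝ, l = Real.log H := ⟨_, rfl⟩
  obtain ⟨x, hx⟩ : ∃ x : ℝ, x = (X : ℝ) := ⟨_, rfl⟩
  obtain ⟨W, hW⟩ : ∃ W : ℕ, W = WS σ b H := ⟨_, rfl⟩
  have hW16 : (W : ℝ) ≤ (H : ℝ) ^ (1 / 16 : ℝ) := by
    refine le_trans ?_ hW16'
    rw [hW]
    exact_mod_cast WS_le_WN σ b H
  rw [← hl] at ne nf hl1 hX
  rw [← hx] at hX ⊢
  rw [← hW] at hbB hF ⊢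
  have hl0 : 0 < l := by linarith
  have hH0 : (0 : ℝ) < H := by exact_mod_cast (show 0 < H by omega)
  have hH65 : (65536 : ℝ) ≤ H := by exact_mod_cast (show 65536 ≤ H by omega)
  have hnum : ∀ (D' : ℕ) (C' : ℝ), D' + 1 ≤ Lx → C' ≤ Cs → C' * l ^ D' ≤ x := by
    intro D' C' h1 h2
    calc C' * l ^ D' ≤ l * l ^ D' := by
          apply mul_le_mul_of_nonneg_right (h2.trans nf) (by positivity)
      _ = l ^ (D' + 1) := by ring
      _ ≤ l ^ Lx := pow_le_pow_right₀ hl1 h1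
      _ ≤ x := hX
  have hp1 : 0 ≤ (10 + 100 * (r : ℝ)) := by positivity
  have hp2 : 0 ≤ (10 + 100 * (r : ℝ)) / κ₁ * KV ^ (2 * g) := by positivity
  have hp3 : 0 ≤ 1 / η' := by positivity
  have hp4 : 0 ≤ 64 / c₂ := by positivity
  have hp5 : (0 : ℝ) ≤ 4 * N₀ := by positivity
  have hp6 : 0 ≤ Real.exp (2 * (g : ℝ) + 2) := by positivity
  have hp7 : 0 ≤ 16 * ((r : ℝ) + 1) ^ 2 / c₂ := by positivity
  have hp8 : 0 ≤ |l₀| := abs_nonneg _
  have na := hnum (B * (r + 1)) (10 + 100 * r) (by omega) (by rw [hCs]; linarith)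
  have nb := hnum (2 * g) ((10 + 100 * r) / κ₁ * KV ^ (2 * g)) (by omega) (by rw [hCs]; linarith)
  have nd := hnum (B * (r + 1)) (64 / c₂) (by omega) (by rw [hCs]; linarith)
  have nl := hnum L₁ 4 (by omega) (by rw [hCs]; linarith)
  have nη : 1 / η' ≤ l := by refine le_trans ?_ nf; rw [hCs]; linarith
  have nc2 : 16 * ((r : ℝ) + 1) ^ 2 / c₂ ≤ l := by refine le_trans ?_ nf; rw [hCs]; linarith
  have nl₀ : l₀ ≤ l := by
    refine (le_abs_self l₀).trans (le_trans ?_ nf)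
    rw [hCs]
    linarith
  have n256 : 256 ≤ l := by refine le_trans ?_ nf; rw [hCs]; linarith
  have ng := hnum 0 (4 * N₀) (by omega) (by rw [hCs]; linarith)
  rw [pow_zero, mul_one] at ng
  have hx0 : 0 < x := lt_of_lt_of_le (by positivity) hX
  have hWpos : 0 < W := by rw [hW]; exact WS_pos σ b H
  have hW0 : (0 : ℝ) < W := by exact_mod_cast hWpos
  have hW1 : (1 : ℝ) ≤ W := by exact_mod_cast hWpos
  have hbBr : ∀ l, (b l : ℝ) * W * x ^ 3 ≤ H := by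
    intro l
    rw [hx]
    exact_mod_cast hbB l
  have hWx : (W : ℝ) * x ^ 3 ≤ H := by
    have h1 := hbBr ⟨0, by omega⟩
    have h2 : (1 : ℝ) ≤ b ⟨0, by omega⟩ := by exact_mod_cast hb1 _
    have h3 : 0 ≤ (W : ℝ) * x ^ 3 := by positivity
    nlinarith
  obtain ⟨T, hT⟩ : ∃ T : ℝ, T = l ^ B := ⟨_, rfl⟩
  have hT1 : 1 ≤ T := by rw [hT]; exact one_le_pow₀ hl1
  have hTr : T ^ (r + 1) = l ^ (B * (r + 1)) := by rw [hT, ← pow_mul]
  have hTM : T ^ Mr r = l ^ (B * Mr r) := by rw [hT, ← pow_mul]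
  rw [← hTr] at na nd
  have hT1r : 1 ≤ T ^ (r + 1) := one_le_pow₀ hT1
  have hx110 : 110 ≤ x := by
    refine le_trans ?_ na
    nlinarith
  -- the prime `N`
  obtain ⟨N, hNp, hN12, hN1, hN2⟩ := exN 4 (x / 4) (by push_cast; linarith)
  have : NeZero N := ⟨hNp.ne_zero⟩
  have hNx : (N : ℝ) ≤ x := by linarith
  have hN0 : (0 : ℝ) < N := by exact_mod_cast hNp.pos
  have hNN₀ : N₀ ≤ N := by
    have : (N₀ : ℝ) ≤ N := by linarith
    exact_mod_cast this
  obtain ⟨N', hN'⟩ : ∃ N' : ℕ, N' = 1 + 2 * ((∑ l, b l) * N) := ⟨_, rfl⟩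
  have hN'1 : (∑ l, b l) * N ≤ N' := by omega
  have hN'r : (N' : ℝ) ≤ 1 + 2 * (r * (H / (W * x ^ 3)) * x) := by
    rw [hN']
    push_cast
    have h1 : ∑ l, (b l : ℝ) ≤ r * (H / (W * x ^ 3)) := by
      calc ∑ l, (b l : ℝ) ≤ ∑ _l : Fin r, H / (W * x ^ 3) := sum_le_sum fun l _ => by
            rw [le_div_iff₀ (by positivity)]
            have := hbBr l
            linarith
        _ = _ := by rw [sum_const, card_univ, Fintype.card_fin, nsmul_eq_mul]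
    gcongr
  have hF0 : Sys0 g F := hF.toSys0
  have hVpos : 0 < V F W H := V_pos hF0 W H
  have hWdvd : ∀ p : ℕ, p.Prime → (p ∣ W ↔ ((p : ℝ) ≤ l ^ (1 - σ) ∧ ((p : ℝ) ≤ Real.log l ∨ Cong b p))) := by
    intro p hp
    rw [hW, hl]
    exact WS_dvd σ b H p hp
  have hlogl : Real.log l ≤ l ^ (1 - σ) := by
    have h1 := Real.log_le_rpow_div hl0.le (show (0 : ℝ) < 1 / 4 by norm_num)
    have h2 : (4 : ℝ) ≤ l ^ (1 / 4 : ℝ) := by
      calc (4 : ℝ) = (256 : ℝ) ^ (1 / 4 : ℝ) := by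
            rw [show (256 : ℝ) = 4 ^ (4 : ℕ) by norm_num, ← Real.rpow_natCast, ← Real.rpow_mul (by norm_num)]
            norm_num
        _ ≤ _ := Real.rpow_le_rpow (by norm_num) n256 (by norm_num)
    have h3 : l ^ (1 / 4 : ℝ) * l ^ (1 / 4 : ℝ) = l ^ (1 / 2 : ℝ) := by
      rw [← Real.rpow_add hl0]
      norm_num
    have h4 : l ^ (1 / 4 : ℝ) / (1 / 4) ≤ l ^ (1 / 2 : ℝ) := by
      rw [← h3, div_le_iff₀ (by norm_num)]
      nlinarith
    refine (h1.trans h4).trans ?_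
    apply Real.rpow_le_rpow_of_exponent_le hl1
    linarith
  have hgl : 2 * (g : ℝ) + 2 ≤ Real.log l := by
    rw [Real.le_log_iff_exp_le hl0]
    refine le_trans ?_ nf
    rw [hCs]
    linarith
  have hWsm : ∀ p : ℕ, p.Prime → (p : ℝ) ≤ Real.log l → p ∣ W := by
    intro p hp hpl
    rw [hWdvd p hp]
    exact ⟨hpl.trans hlogl, Or.inl hpl⟩
  have hεl : l ^ (1 - σ) ≤ l := by
    calc l ^ (1 - σ) ≤ l ^ (1 : ℝ) := by
          apply Real.rpow_le_rpow_of_exponent_le hl1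
          linarith
      _ = l := Real.rpow_one l
  have hVlow : 1 / (KV * l) ^ (2 * g) ≤ V F W H := by
    rw [hl]
    apply hKV g F W H hF0 (by omega)
    intro p hp hpg
    apply hWsm p hp
    refine le_trans ?_ hgl
    exact_mod_cast hpg
  have hKVl : 1 ≤ (KV * l) ^ (2 * g) := by
    apply one_le_pow₀
    nlinarith
  obtain ⟨m1, m2, m3, m4, m5⟩ := numG x H W N' r (T ^ (r + 1)) ((KV * l) ^ (2 * g)) κ₁ (V F W H) hx0 hW1
    hW16 hWx hrr hN'r (Nat.cast_nonneg _) hT1r hKVl hκ₁ hVlow na (by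
      rw [mul_pow, ← mul_assoc]
      exact nb) hH65
  -- the windows
  have hHW : (H : ℝ) / W - 1 ≤ ((H / W : ℕ) : ℝ) := by
    have h1 := Nat.lt_div_mul_add (a := H) hWpos
    have h2 : (H : ℝ) < (H / W : ℕ) * W + W := by exact_mod_cast h1
    rw [sub_le_iff_le_add, div_le_iff₀ hW0]
    linarith
  have hHW2 : ((H / W : ℕ) : ℝ) ≤ H / W := Nat.cast_div_le
  have hHWpos : (0 : ℝ) < H / W := by positivity
  obtain ⟨L, hL⟩ : ∃ L : ℕ, L + N' + 1 = H / W := by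
    refine ⟨H / W - N' - 1, ?_⟩
    have h1 : (N' : ℝ) + 1 ≤ ((H / W : ℕ) : ℝ) := by linarith
    have h2 : N' + 1 ≤ H / W := by exact_mod_cast h1
    omega
  have hLreal : (L : ℝ) + N' + 1 = ((H / W : ℕ) : ℝ) := by exact_mod_cast hL
  have hLlow : (H : ℝ) / W / 2 ≤ L := by linarith
  have hN'0 := (Nat.cast_nonneg N' : (0 : ℝ) ≤ N')
  have hLup : (L : ℝ) ≤ H / W := by linarith
  have hL12 : (H : ℝ) ^ (1 / 2 : ℝ) ≤ L := by linarith
  have hL0 : (0 : ℝ) < L := by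
    have : 0 ≤ (H : ℝ) ^ (1 / 2 : ℝ) := by positivity
    linarith
  have hL1 : 1 ≤ L := by exact_mod_cast hL0
  obtain ⟨M₀, hM₀⟩ : ∃ M₀ : ℕ, M₀ = Y / W := ⟨_, rfl⟩
  -- the majorant
  obtain ⟨y₁, hy₁⟩ : ∃ y₁ : ℝ, y₁ = l ^ (1 - σ) := ⟨_, rfl⟩
  obtain ⟨ν, hν0, hνB, hνA, hνc⟩ := hmaj y₁ F Y H W N' hF (by omega) hsize hWpos (by omega)
    (by exact_mod_cast m1) (fun p hp hpl => hWsm p hp (by rw [hl]; exact hpl))
    (fun p hp hpl => by
      rw [← hl]
      exact ((hWdvd p hp).1 hpl).1.trans hεl) (by rw [← hl, hy₁])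
  rw [← hl, ← hT] at hνB
  have hA0 : 0 ∉ A := fun h => by
    have := hAsub h
    rw [mem_Ioc] at this
    omega
  have hνA1 : ∀ n ∈ A, c ≤ ν n * V F W H := fun n hn => (hνA n (hAsub hn) (hArough n hn)).1
  have hνA2 : ∀ n ∈ A, ν n * V F W H ≤ 1 := fun n hn => (hνA n (hAsub hn) (hArough n hn)).2
  have hνT : ∀ n ∈ A, ν n ≤ T := fun n hn => hνB n (hAsub hn)
  have hcor : ∀ b₀ < W, ∀ m ≤ M₁, ∀ t : Fin m → ℕ, (∀ i j, i ≠ j → Gd F W y₁ σ ((t i : ℤ) - t j)) → (∀ i, 1 ≤ t i ∧ t i ≤ N') →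
      |(∑ K ∈ Ioc M₀ (M₀ + L), ∏ i, ν (W * (K + t i) + b₀)) / L - 1| ≤ min η' 1 := by
    intro b₀ hb₀ m hm t ht ht2
    exact hνc m hm t ht ht2 b₀ M₀ L hL12 (fun K hK i => win Y H W b₀ M₀ L N' hWpos hb₀ hM₀ hL K hK (t i)
      (ht2 i).1 (ht2 i).2)
  have hcardI : (Ioc M₀ (M₀ + L)).card = L := by rw [Nat.card_Ioc]; omega
  have hWH : ∀ p : ℕ, p.Prime → p ∣ W → p ≤ H := by
    intro p hp hpW
    have h1 := ((hWdvd p hp).1 hpW).1.trans hεl
    have h2 : l ≤ H := by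
      rw [hl]
      linarith [Real.log_le_sub_one_of_pos hH0]
    exact_mod_cast h1.trans h2
  -- the classes
  have hclass := classes' hF0 W H (by rw [hW]; exact WS_sqf σ b H) hWH A κ C₁ hκ hC₁ (by omega)
    (by
      intro n hn p hp
      have hpp := Nat.prime_of_mem_primeFactors hp
      apply hArough n hn p hpp
      have h1 := ((hWdvd p hpp).1 (Nat.dvd_of_mem_primeFactors hp)).1
      rw [one_mul, pow_one] at ne
      linarith) hAcard
    (by
      intro b₀ hb₀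
      have h1 := cntK A Y H W b₀ M₀ L N' 1 hWpos hb₀ hAsub hM₀ hL (by omega)
      have h2 := hcor b₀ hb₀ 1 (by omega) (fun _ => 1) (fun i j hij => absurd (Subsingleton.elim i j) hij)
        (fun _ => ⟨le_rfl, by omega⟩)
      have h3 : ∑ K ∈ Ioc M₀ (M₀ + L), ν (W * (K + 1) + b₀) ≤ 2 * L := by
        have h4 := (abs_le.1 h2).2
        have h5 : min η' 1 ≤ 1 := min_le_right _ _
        have h6 : (∑ K ∈ Ioc M₀ (M₀ + L), ∏ i : Fin 1, ν (W * (K + (fun _ => 1 : Fin 1 → ℕ) i) + b₀)) / L ≤ 2 := by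
          linarith
        rw [div_le_iff₀ hL0] at h6
        simpa using h6
      have h4 : (((Ioc M₀ (M₀ + L)).filter (fun K => W * (K + 1) + b₀ ∈ A)).card : ℝ) * (c / V F W H) ≤ 2 * L := by
        refine le_trans ?_ h3
        calc (((Ioc M₀ (M₀ + L)).filter (fun K => W * (K + 1) + b₀ ∈ A)).card : ℝ) * (c / V F W H) =
              ∑ K ∈ (Ioc M₀ (M₀ + L)).filter (fun K => W * (K + 1) + b₀ ∈ A), c / V F W H := by
              rw [sum_const, nsmul_eq_mul]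
          _ ≤ ∑ K ∈ (Ioc M₀ (M₀ + L)).filter (fun K => W * (K + 1) + b₀ ∈ A), ν (W * (K + 1) + b₀) := by
              apply sum_le_sum
              intro K hK
              rw [mem_filter] at hK
              rw [div_le_iff₀ hVpos]
              exact hνA1 _ hK.2
          _ ≤ _ := sum_le_sum_of_subset_of_nonneg (filter_subset _ _) (fun _ _ _ => hν0 _)
      have h5 : (((Ioc M₀ (M₀ + L)).filter (fun K => W * (K + 1) + b₀ ∈ A)).card : ℝ) ≤ 2 / c * (H / W * V F W H) := by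
        rw [mul_div_assoc', div_le_iff₀ hVpos] at h4
        calc (((Ioc M₀ (M₀ + L)).filter (fun K => W * (K + 1) + b₀ ∈ A)).card : ℝ) =
              ((((Ioc M₀ (M₀ + L)).filter (fun K => W * (K + 1) + b₀ ∈ A)).card : ℝ) * c) / c := by field_simp
          _ ≤ (2 * L * V F W H) / c := by gcongr
          _ ≤ (2 * (H / W) * V F W H) / c := by gcongr
          _ = _ := by ring
      have h6 : (N' : ℝ) + 4 ≤ κ * (H / W * V F W H) := by
        rw [hκ₁d] at m4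
        have : 0 ≤ κ * (H / W * V F W H) := by positivity
        linarith
      rw [hC₁d, add_mul]
      linarith)
  obtain ⟨Bs, hBs⟩ : ∃ Bs : Finset ℕ, Bs = rich F W H A κ := ⟨_, rfl⟩
  rw [← hBs] at hclass
  have hdW : 0 < dW F W := by
    unfold dW
    apply prod_pos
    intro p hp
    exact Pool.Agent.Y814.RSZ.fac_pos _ _ (hF0.root p (Nat.prime_of_mem_primeFactors hp)).2
  have hBs0 : (0 : ℝ) < Bs.card := lt_of_lt_of_le (by positivity) hclass
  have hBsW : ∀ b₀ ∈ Bs, b₀ < W := by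
    intro b₀ hb₀
    rw [hBs] at hb₀
    unfold rich at hb₀
    rw [mem_filter, mem_range] at hb₀
    exact hb₀.1
  -- the lines
  obtain ⟨β, hβ⟩ : ∃ β : ℝ, β = 1 / l ^ Ax := ⟨_, rfl⟩
  have hβ0 : 0 ≤ β := by rw [hβ]; positivity
  have hNl : l ^ L₁ ≤ N := by linarith
  have hlineF : ∀ a c : ℤ, c ≠ 0 → (∀ p : ℕ, p.Prime → (p : ℤ) ∣ c → Cong b p) →
      (((Ioc 0 N).filter (fun x : ℕ => ¬ Gd F W y₁ σ (a + c * x))).card : ℝ) ≤ β * N := by
    intro a c hc hcc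
    refine (hline l nl₀ N hNl F hF0 W y₁ (by rw [hy₁]; exact hεl) hWsm a c hc ?_).trans (le_of_eq (by rw [hβ]; ring))
    intro p hp hpy hpW hpc
    apply hpW
    rw [hWdvd p hp]
    exact ⟨by rw [← hy₁]; exact hpy, Or.inr (hcc p hp hpc)⟩
  have hcc1 : ∀ i : Fin r, ∀ p : ℕ, (p : ℤ) ∣ (b i : ℤ) → Cong b p := fun i p h =>
    Or.inl ⟨i, by exact_mod_cast h⟩
  have hcc2 : ∀ i j : Fin r, i ≠ j → ∀ p : ℕ, (p : ℤ) ∣ (b i : ℤ) - b j → Cong b p := fun i j hij p h =>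
    Or.inr ⟨j, i, hij.symm, (Nat.modEq_iff_dvd).2 h⟩
  have hLH : LineH (Gd F W y₁ σ) b N β := by
    intro a c hc
    have h1 : (((Ioc 0 N).filter (fun x : ℕ => ¬ Gd F W y₁ σ (a + c * x))).card : ℝ) ≤ β * N := by
      rcases hc with ⟨l', rfl | ⟨m, hm, rfl⟩⟩
      · apply hlineF a _ (by have := hb1 l'; omega)
        intro p _ hd
        exact hcc1 l' p ((dvd_neg).1 hd)
      · apply hlineF a _ (by
          intro h
          exact hm (hb (by omega)))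
        intro p _ hd
        exact hcc2 m l' hm p hd
    intro inst
    refine le_trans (le_of_eq ?_) h1
    exact congrArg Nat.cast (card_irrel _ _ _ _)
  have hβT : T ^ Mr r * β ≤ η' := by
    rw [hβ, hTM, hAx]
    have h1 : l ^ (B * Mr r + B * (r + 1) + 1) = l ^ (B * Mr r) * (l ^ (B * (r + 1)) * l) := by
      rw [pow_succ, pow_add]
      ring
    rw [h1, mul_one_div, div_le_iff₀ (by positivity)]
    have h2 : 1 ≤ η' * l := by
      rw [div_le_iff₀ hη'] at nη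
      linarith
    have h3 : (1 : ℝ) ≤ l ^ (B * (r + 1)) := one_le_pow₀ hl1
    calc l ^ (B * Mr r) = 1 * (l ^ (B * Mr r) * 1) := by ring
      _ ≤ (η' * l) * (l ^ (B * Mr r) * l ^ (B * (r + 1))) := by gcongr
      _ = _ := by ring
  have hβT2 : 2 * ((r : ℝ) + 1) ^ 2 * β * T ^ (r + 1) ≤ c₂ / 8 := by
    rw [hβ, hTr, hAx]
    have h1 : l ^ (B * Mr r + B * (r + 1) + 1) = l ^ (B * (r + 1)) * (l ^ (B * Mr r) * l) := by
      rw [pow_succ, pow_add]
      ring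
    have h3 : (1 : ℝ) ≤ l ^ (B * Mr r) := one_le_pow₀ hl1
    rw [div_le_iff₀ hc₂] at nc2
    rw [h1]
    have hp : 0 < l ^ (B * (r + 1)) := by positivity
    have hq : 0 < l ^ (B * Mr r) := by positivity
    have e1 : 2 * ((r : ℝ) + 1) ^ 2 * (1 / (l ^ (B * (r + 1)) * (l ^ (B * Mr r) * l))) * l ^ (B * (r + 1)) =
        2 * ((r : ℝ) + 1) ^ 2 / (l ^ (B * Mr r) * l) := by
      field_simp
    rw [e1, div_le_iff₀ (by positivity)]
    calc 2 * ((r : ℝ) + 1) ^ 2 ≤ c₂ / 8 * (1 * l) := by linarith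
      _ ≤ c₂ / 8 * (l ^ (B * Mr r) * l) := by gcongr
  -- one class
  have hone : ∀ b₀ ∈ Bs, c₂ * L ≤ av (fun d : ZMod N => sg d * CC ν A W b₀ M₀ L N' b d.valMinAbs) := by
    intro b₀ hb₀
    have hb₀W := hBsW b₀ hb₀
    have hrich : κ₁ * (H / W * V F W H) ≤ ((A.filter (fun n => n % W = b₀)).card : ℝ) := by
      rw [hBs] at hb₀
      unfold rich at hb₀
      rw [mem_filter] at hb₀
      rw [hκ₁d]
      exact hb₀.2
    obtain ⟨h1, h2⟩ := hMK (Gd F W y₁ σ) N b β hβ0 hLH (Ioc M₀ (M₀ + L)) (fun K t => ν (W * (K + t) + b₀)) T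
      (by rw [← card_pos, hcardI]; omega) hT1 (fun K t => hν0 _)
      (by
        intro K hK t ht
        have := Po_bd hr b hb1 t ht
        exact hνB _ (win Y H W b₀ M₀ L N' hWpos hb₀W hM₀ hL K hK t this.1 (this.2.trans hN'1)))
      hβT
      (by
        intro m hm u hu huP
        rw [hcardI]
        refine (hcor b₀ hb₀W m (by omega) u hu (fun i => ?_)).trans (min_le_left _ _)
        have := Po_bd hr b hb1 _ (huP i)
        exact ⟨this.1, this.2.trans hN'1⟩)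
    rw [hcardI] at h1 h2
    rw [hc₂d]
    exact clsP r ν A Y H W b₀ M₀ L N' N b c (V F W H) κ₁ δ₀ η cR ηR hν0 hWpos hb₀W hAsub hM₀ hL hL1
      (by omega) hN'1 hVpos hc hκ₁ hνA1 hrich m4 hδ₀ hδ₀2 hηδ hηR' hcR
      (fun ν f hf hfb h3 h4 h5 => hRC N hNN₀ ν f hf hfb h3 h4 h5) h1 h2
  -- the differences
  obtain ⟨E, hE⟩ : ∃ E : Finset (ZMod N), E = univ.filter (fun d : ZMod N => d = 0 ∨ (0 < d.valMinAbs ∧
    ¬ ∀ a a' : Fin (r + 1), a ≠ a' → Gd F W y₁ σ (((bb b a : ℤ) - bb b a') * d.valMinAbs))) := ⟨_, rfl⟩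
  have hEc : (E.card : ℝ) ≤ 1 + ((r : ℝ) + 1) ^ 2 * (β * N) := by
    have hbbc : ∀ a a' : Fin (r + 1), a ≠ a' → ((bb b a : ℤ) - bb b a' ≠ 0 ∧
        ∀ p : ℕ, p.Prime → (p : ℤ) ∣ (bb b a : ℤ) - bb b a' → Cong b p) := by
      intro a a' h
      refine ⟨fun h0 => h (bb_inj b hb hb1 (by omega)), ?_⟩
      intro p _
      unfold bb
      induction a using Fin.cases with
      | zero =>
        induction a' using Fin.cases with
        | zero => exact absurd rfl h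
        | succ j =>
          simp only [Fin.cons_zero, Fin.cons_succ, Nat.cast_zero, zero_sub, dvd_neg]
          exact hcc1 j p
      | succ i =>
        induction a' using Fin.cases with
        | zero =>
          simp only [Fin.cons_zero, Fin.cons_succ, Nat.cast_zero, sub_zero]
          exact hcc1 i p
        | succ j =>
          simp only [Fin.cons_succ]
          exact hcc2 i j (fun hij => h (by rw [hij])) p
    have hsub : E.erase 0 ⊆ ((univ : Finset (Fin (r + 1))).offDiag).biUnion (fun q => univ.filter (fun d : ZMod N =>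
        0 < d.valMinAbs ∧ ¬ Gd F W y₁ σ (((bb b q.1 : ℤ) - bb b q.2) * d.valMinAbs))) := by
      intro d hd
      rw [mem_erase, hE, mem_filter] at hd
      obtain ⟨hd0, -, hd1⟩ := hd
      rcases hd1 with h | ⟨h1, h2⟩
      · exact absurd h hd0
      · simp only [not_forall] at h2
        obtain ⟨a, a', haa, h3⟩ := h2
        rw [mem_biUnion]
        refine ⟨(a, a'), ?_, mem_filter.2 ⟨mem_univ _, h1, h3⟩⟩
        rw [mem_offDiag]
        exact ⟨mem_univ _, mem_univ _, haa⟩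
    have hone' : ∀ q ∈ (univ : Finset (Fin (r + 1))).offDiag, ((univ.filter (fun d : ZMod N =>
        0 < d.valMinAbs ∧ ¬ Gd F W y₁ σ (((bb b q.1 : ℤ) - bb b q.2) * d.valMinAbs))).card : ℝ) ≤ β * N := by
      intro q hq
      rw [mem_offDiag] at hq
      obtain ⟨hc1, hc2⟩ := hbbc q.1 q.2 hq.2.2
      refine le_trans ?_ (hlineF 0 _ hc1 hc2)
      have hmaps : Set.MapsTo (fun d : ZMod N => d.valMinAbs.toNat)
          ((univ.filter (fun d : ZMod N =>
            0 < d.valMinAbs ∧ ¬ Gd F W y₁ σ (((bb b q.1 : ℤ) - bb b q.2) * d.valMinAbs)) : Finset (ZMod N)) : Set (ZMod N))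
          (((Ioc 0 N).filter (fun x : ℕ => ¬ Gd F W y₁ σ (0 + ((bb b q.1 : ℤ) - bb b q.2) * x)) : Finset ℕ) : Set ℕ) := by
        intro d hd
        rw [mem_coe, mem_filter] at hd
        obtain ⟨-, hd1, hd2⟩ := hd
        have h1 := ZMod.valMinAbs_mem_Ioc d
        rw [Set.mem_Ioc] at h1
        have h2 : ((d.valMinAbs.toNat : ℕ) : ℤ) = d.valMinAbs := Int.toNat_of_nonneg hd1.le
        have h3 : d.valMinAbs.toNat ∈
            (Ioc 0 N).filter (fun x : ℕ => ¬ Gd F W y₁ σ (0 + ((bb b q.1 : ℤ) - bb b q.2) * x)) := by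
          rw [mem_filter, mem_Ioc]
          refine ⟨by omega, ?_⟩
          rw [h2, zero_add]
          exact hd2
        exact mem_coe.2 h3
      have := card_le_card_of_injOn _ hmaps (by
        intro d hd d' hd' h
        rw [mem_coe, mem_filter] at hd hd'
        simp only at h
        apply ZMod.injective_valMinAbs
        omega)
      exact_mod_cast this
    have h1 : (E.card : ℝ) ≤ 1 + ((E.erase 0).card : ℝ) := by
      have := pred_card_le_card_erase (s := E) (a := (0 : ZMod N))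
      have h2 : (E.card : ℝ) ≤ (((E.erase 0).card + 1 : ℕ) : ℝ) := by
        have : E.card ≤ (E.erase 0).card + 1 := by omega
        exact_mod_cast this
      push_cast at h2
      linarith
    have h2 : ((E.erase 0).card : ℝ) ≤ ∑ q ∈ (univ : Finset (Fin (r + 1))).offDiag, ((univ.filter (fun d : ZMod N =>
        0 < d.valMinAbs ∧ ¬ Gd F W y₁ σ (((bb b q.1 : ℤ) - bb b q.2) * d.valMinAbs))).card : ℝ) := by
      exact_mod_cast (card_le_card hsub).trans card_biUnion_le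
    have h3 : ((univ : Finset (Fin (r + 1))).offDiag.card : ℝ) ≤ ((r : ℝ) + 1) ^ 2 := by
      have : (univ : Finset (Fin (r + 1))).offDiag.card ≤ (r + 1) ^ 2 := by
        rw [offDiag_card, card_univ, Fintype.card_fin, pow_two]
        exact Nat.sub_le _ _
      exact_mod_cast this
    have h4 : ((E.erase 0).card : ℝ) ≤ ((r : ℝ) + 1) ^ 2 * (β * N) := by
      refine h2.trans ((sum_le_sum hone').trans ?_)
      rw [sum_const, nsmul_eq_mul]
      gcongr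
    linarith
  have hfc := final_count' (N := N) (fun d : ZMod N => ∑ b₀ ∈ Bs, sg d * CC ν A W b₀ M₀ L N' b d.valMinAbs) E
    (L * Bs.card) c₂ (by positivity) hc₂
    (by
      have hT0 : 0 ≤ T ^ (r + 1) := by linarith
      have h1 : (N' : ℝ) ≤ L := by
        have : (N' : ℝ) * 1 ≤ N' * T ^ (r + 1) := by gcongr
        linarith
      calc ∑ d ∈ E, ∑ b₀ ∈ Bs, sg d * CC ν A W b₀ M₀ L N' b d.valMinAbs ≤
            ∑ d ∈ E, ∑ b₀ ∈ Bs, ((L : ℝ) + N') * T ^ (r + 1) :=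
            sum_le_sum fun d _ => sum_le_sum fun b₀ _ =>
              (mul_le_of_le_one_left (CC_nonneg ν hν0 A W b₀ M₀ L N' b _) (sg01 _).2).trans
              (CC_zero ν hν0 A W b₀ M₀ L N' b T (by linarith) hνT _)
        _ = E.card * (Bs.card * (((L : ℝ) + N') * T ^ (r + 1))) := by
            rw [sum_const, sum_const, nsmul_eq_mul, nsmul_eq_mul]
        _ ≤ (1 + ((r : ℝ) + 1) ^ 2 * (β * N)) * (Bs.card * (((L : ℝ) + L) * T ^ (r + 1))) := by gcongr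
        _ = Bs.card * L * (2 * T ^ (r + 1) + (2 * ((r : ℝ) + 1) ^ 2 * β * T ^ (r + 1)) * N) := by ring
        _ ≤ Bs.card * L * (c₂ / 8 * N + (c₂ / 8) * N) := by
            have h2 : 64 * T ^ (r + 1) ≤ c₂ * x := by
              rw [div_mul_eq_mul_div, div_le_iff₀ hc₂] at nd
              linarith
            have h3 : 2 * T ^ (r + 1) ≤ c₂ / 8 * N := by
              have : c₂ * (x / 4) ≤ c₂ * N := by gcongr
              linarith
            gcongr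
        _ = c₂ / 4 * (L * Bs.card) * N := by ring)
    (by
      intro d hd
      have hdN : |d.valMinAbs| ≤ N := by
        have := ZMod.valMinAbs_mem_Ioc d
        rw [Set.mem_Ioc] at this
        rw [abs_le]
        constructor <;> omega
      rw [hE, mem_filter, not_and, not_or] at hd
      obtain ⟨hd0, hd1⟩ := hd (mem_univ d)
      have hv0 : d.valMinAbs ≠ 0 := fun h => hd0 ((ZMod.valMinAbs_eq_zero d).1 h)
      rcases sg_eq d with h | h
      · simp only [h, zero_mul, sum_const_zero]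
        positivity
      · have hvp : 0 < d.valMinAbs := by
          have := h.2
          omega
        have hgd : ∀ a a' : Fin (r + 1), a ≠ a' → Gd F W y₁ σ (((bb b a : ℤ) - bb b a') * d.valMinAbs) := by
          by_contra hcon
          exact hd1 ⟨hvp, hcon⟩
        calc ∑ b₀ ∈ Bs, sg d * CC ν A W b₀ M₀ L N' b d.valMinAbs ≤ ∑ b₀ ∈ Bs, 3 * (L : ℝ) := by
              apply sum_le_sum
              intro b₀ hb₀
              refine (mul_le_of_le_one_left (CC_nonneg ν hν0 A W b₀ M₀ L N' b _) (sg01 _).2).trans ?_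
              have h1 := CC_upper' ν hν0 A W b₀ M₀ L N' N b hL1 (by omega) T (min η' 1) (by linarith) hνT
                (fun t ht ht2 => hcor b₀ (hBsW b₀ hb₀) (r + 1) (by omega) t ht ht2) d.valMinAbs hgd hdN
              have h2 : min η' 1 ≤ 1 := min_le_right _ _
              have h3 : (1 + min η' 1) * (L : ℝ) ≤ 2 * L := by gcongr; linarith
              linarith
          _ = 3 * (L * Bs.card) := by rw [sum_const, nsmul_eq_mul]; ring)
    (by
      rw [av_sum]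
      calc c₂ * (L * Bs.card) = ∑ b₀ ∈ Bs, c₂ * L := by rw [sum_const, nsmul_eq_mul]; ring
        _ ≤ _ := sum_le_sum hone)
  have hE0 : ∀ d : ZMod N, d ∉ E → d ≠ 0 := by
    intro d hd h0
    apply hd
    rw [hE, mem_filter]
    exact ⟨mem_univ _, Or.inl h0⟩
  have hpos : ∀ d : ZMod N, d ≠ 0 → c₂ / 4 * (L * Bs.card) ≤
      ∑ b₀ ∈ Bs, sg d * CC ν A W b₀ M₀ L N' b d.valMinAbs → 0 < d.valMinAbs ∧
      c₂ / 4 * (L * Bs.card) ≤ ∑ b₀ ∈ Bs, CC ν A W b₀ M₀ L N' b d.valMinAbs := by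
    intro d hd0 hd
    have hq : 0 < c₂ / 4 * (L * Bs.card) := by positivity
    rcases sg_eq d with h | h
    · simp only [h, zero_mul, sum_const_zero] at hd
      linarith
    · simp only [h.1, one_mul] at hd
      refine ⟨?_, hd⟩
      have : d.valMinAbs ≠ 0 := fun h => hd0 ((ZMod.valMinAbs_eq_zero d).1 h)
      omega
  refine ⟨(univ.filter (fun d : ZMod N => d ∉ E ∧ c₂ / 4 * (L * Bs.card) ≤
    ∑ b₀ ∈ Bs, sg d * CC ν A W b₀ M₀ L N' b d.valMinAbs)).image (fun d => d.valMinAbs.toNat), ?_, ?_⟩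
  · rw [card_image_of_injOn]
    · refine le_trans ?_ (hfc.trans (le_of_eq ?_))
      · calc min (c₂ / 24) (c₂ * κ / (16 * C₁)) * x ≤ c₂ / 24 * x := by
              gcongr
              exact min_le_left _ _
          _ = c₂ / 6 * (x / 4) := by ring
          _ ≤ _ := by gcongr
      · congr!
    · intro d hd d' hd' h
      rw [mem_coe, mem_filter] at hd hd'
      have h1 := (hpos d (hE0 d hd.2.1) hd.2.2).1
      have h2 := (hpos d' (hE0 d' hd'.2.1) hd'.2.2).1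
      simp only at h
      apply ZMod.injective_valMinAbs
      omega
  · intro e he
    rw [mem_image] at he
    obtain ⟨d, hd, rfl⟩ := he
    rw [mem_filter] at hd
    obtain ⟨_, hd0, hd2⟩ := hd
    obtain ⟨hd3, hd1⟩ := hpos d (hE0 d hd0) hd2
    have he : ((d.valMinAbs.toNat : ℕ) : ℤ) = d.valMinAbs := Int.toNat_of_nonneg hd3.le
    refine ⟨by omega, ?_, ?_⟩
    · have h1 := ZMod.valMinAbs_mem_Ioc d
      rw [Set.mem_Ioc] at h1
      have h2 : d.valMinAbs.toNat ≤ N := by omega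
      have h3 : ((d.valMinAbs.toNat : ℕ) : ℝ) ≤ N := by exact_mod_cast h2
      have h4 : ((d.valMinAbs.toNat : ℕ) : ℝ) ≤ (X : ℝ) := by
        rw [← hx]
        linarith
      exact_mod_cast h4
    · have h1 := sol_ge ν A W M₀ L N' b (V F W H) hVpos hA0 hνA2 hν0 Bs hBsW d.valMinAbs
      have h0 := sol_nat A W b d.valMinAbs.toNat
      rw [he] at h0
      have h0' : ((sol A W b d.valMinAbs).card : ℝ) ≤ ((solN A W b d.valMinAbs.toNat).card : ℝ) := by
        exact_mod_cast h0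
      refine le_trans ?_ (h1.trans h0')
      have h2 : c₂ * κ / (16 * C₁) * (H * dW F W) ≤ c₂ / 4 * (L * Bs.card) := by
        calc c₂ * κ / (16 * C₁) * (H * dW F W) = c₂ / 4 * ((H / W / 2) * (κ / (2 * C₁) * (W * dW F W))) := by
              field_simp
              ring
          _ ≤ c₂ / 4 * (L * Bs.card) := by gcongr
      calc min (c₂ / 24) (c₂ * κ / (16 * C₁)) * (H * dW F W * V F W H ^ (r + 1)) ≤
            c₂ * κ / (16 * C₁) * (H * dW F W * V F W H ^ (r + 1)) := by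
              gcongr
              exact min_le_right _ _
        _ = c₂ * κ / (16 * C₁) * (H * dW F W) * V F W H ^ (r + 1) := by ring
        _ ≤ (∑ b₀ ∈ Bs, CC ν A W b₀ M₀ L N' b d.valMinAbs) * V F W H ^ (r + 1) := by
              have := h2.trans hd1
              gcongr

end Pool.Agent.H534.NW
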