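import Pool.Agent.H534.RS.MKt

/-!
# The linear forms conditions, with correlations only at good positions
-/

set_option autoImplicit false

open Finset

namespace Pool.Agent.H534.NW

open Pool.Agent.H602R3.DHJ
open Pool.Agent.Y727.PSP (sw sl Ind LF rp rp_pos rp_le rp_cast rp_of)
open Pool.Agent.H534.RS

/-- few elements of a line are not good -/
def LineH (Gp : ℤ → Prop) {r : ℕ} (b : Fin r → ℕ) (N : ℕ) (β : ℝ) : Prop :=
  ∀ a c : ℤ, (∃ l, c = -(b l : ℤ) ∨ ∃ m, m ≠ l ∧ c = (b m : ℤ) - b l) →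
    ∀ [DecidablePred (fun x : ℕ => ¬ Gp (a + c * x))],
    (((Ioc 0 N).filter (fun x : ℕ => ¬ Gp (a + c * x))).card : ℝ) ≤ β * N

open Classical in
theorem line' {Gp : ℤ → Prop} {r N : ℕ} [NeZero N] (b : Fin r → ℕ) {β : ℝ} (hβ : 0 ≤ β) (hG : LineH Gp b N β)
    (v : Fin r × Option (Fin r)) (y : Fin r → ZMod N) (a : ℤ) :
    ((univ.filter (fun s : ZMod N => ¬ Gp (a - tau b (y + s • dir v)))).card : ℝ) ≤ 2 * β * N := by
  have hN0 : (0 : ℝ) ≤ N := Nat.cast_nonneg N
  obtain ⟨l, o⟩ := v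
  -- a class of `s` on which the position is linear
  have hcls : ∀ (P : ZMod N → Prop) (K₀ c : ℤ), (∃ l, c = -(b l : ℤ) ∨ ∃ m, m ≠ l ∧ c = (b m : ℤ) - b l) →
      (∀ s, P s → (a - tau b (y + s • dir (l, o)) : ℤ) = K₀ + c * (rp (y l + s) : ℕ)) →
      ∀ [DecidablePred (fun s : ZMod N => P s ∧ ¬ Gp (a - tau b (y + s • dir (l, o))))],
      ((univ.filter (fun s : ZMod N => P s ∧ ¬ Gp (a - tau b (y + s • dir (l, o))))).card : ℝ) ≤ β * N := by
    intro P K₀ c hc hP _
    refine le_trans ?_ (hG K₀ c hc)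
    have h1 : Set.MapsTo (fun s : ZMod N => rp (y l + s))
        ((univ.filter (fun s : ZMod N => P s ∧ ¬ Gp (a - tau b (y + s • dir (l, o)))) : Finset (ZMod N)) : Set (ZMod N))
        (((Ioc 0 N).filter (fun x : ℕ => ¬ Gp (K₀ + c * x)) : Finset ℕ) : Set ℕ) := by
      intro s hs
      rw [mem_coe, mem_filter] at hs
      rw [mem_coe, mem_filter, mem_Ioc]
      refine ⟨⟨rp_pos _, rp_le _⟩, ?_⟩
      rw [← hP s hs.2.1]
      exact hs.2.2
    have h2 := card_le_card_of_injOn _ h1 (by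
      intro s _ s' _ h
      exact add_left_cancel (rp_inj h))
    exact_mod_cast h2
  by_cases ho : o = none ∨ o = some l
  · have e0 : ∀ s : ZMod N, ∀ i, (y + s • (dir (l, o) : Fin r → ZMod N)) i = if i = l then y i + s else y i := by
      intro s i
      rw [Pi.add_apply, Pi.smul_apply, smul_eq_mul]
      unfold dir
      rcases ho with rfl | rfl
      · by_cases hi : i = l <;> simp [hi]
      · by_cases hi : i = l <;> simp [hi]
    have h1 := hcls (fun _ => True) (a - ∑ i ∈ univ.erase l, (b i : ℤ) * rp (y i)) (-(b l : ℤ)) ⟨l, Or.inl rfl⟩ (by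
      intro s _
      unfold tau
      simp only [e0]
      rw [← add_sum_erase _ _ (mem_univ l), if_pos rfl]
      have e1 : ∑ i ∈ univ.erase l, b i * rp (if i = l then y i + s else y i) =
          ∑ i ∈ univ.erase l, b i * rp (y i) := by
        apply sum_congr rfl
        intro i hi
        rw [if_neg (mem_erase.1 hi).1]
      rw [e1]
      push_cast
      ring)
    simp only [true_and] at h1
    have : 0 ≤ β * N := mul_nonneg hβ hN0
    linarith
  · push Not at ho
    obtain ⟨m, hm⟩ : ∃ m, o = some m := Option.ne_none_iff_exists'.1 ho.1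
    subst hm
    have hlm : m ≠ l := fun h => ho.2 (by rw [h])
    have e0 : ∀ s : ZMod N, ∀ i, (y + s • (dir (l, some m) : Fin r → ZMod N)) i = if i = l then y i + s else if i = m then y i - s else y i := by
      intro s i
      rw [Pi.add_apply, Pi.smul_apply, smul_eq_mul]
      unfold dir
      by_cases hi : i = l
      · simp [hi]
      · by_cases hi2 : i = m
        · subst hi2
          simp [hlm]
          ring
        · simp [hi, hi2]
    have e2 : ∀ s : ZMod N, tau b (y + s • dir (l, some m)) =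
        b l * rp (y l + s) + (b m * rp (y m - s) + ∑ i ∈ (univ.erase l).erase m, b i * rp (y i)) := by
      intro s
      unfold tau
      simp only [e0]
      rw [← add_sum_erase _ _ (mem_univ l), if_pos rfl, ← add_sum_erase _ _ (mem_erase.2 ⟨hlm, mem_univ m⟩),
        if_neg hlm, if_pos rfl]
      congr 2
      apply sum_congr rfl
      intro i hi
      rw [mem_erase, mem_erase] at hi
      rw [if_neg hi.2.1, if_neg hi.1]
    have h3 : ∀ s : ZMod N, rp (y l + s) + rp (y m - s) = rp (y l + y m) ∨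
        rp (y l + s) + rp (y m - s) = rp (y l + y m) + N := by
      intro s
      have := rp_add (y l + s) (y m - s)
      rwa [show y l + s + (y m - s) = y l + y m by ring] at this
    have hlin : ∀ C : ℕ, ((univ.filter (fun s : ZMod N => rp (y l + s) + rp (y m - s) = C ∧
        ¬ Gp (a - tau b (y + s • dir (l, some m))))).card : ℝ) ≤ β * N := by
      intro C
      apply hcls (fun s => rp (y l + s) + rp (y m - s) = C)
        (a - ∑ i ∈ (univ.erase l).erase m, (b i : ℤ) * rp (y i) - b m * C) ((b m : ℤ) - b l) ⟨l, Or.inr ⟨m, hlm, rfl⟩⟩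
      intro s hs
      rw [e2]
      have hs' : ((rp (y m - s) : ℕ) : ℤ) = C - rp (y l + s) := by
        have : ((rp (y l + s) + rp (y m - s) : ℕ) : ℤ) = C := by exact_mod_cast hs
        push_cast at this
        linarith
      push_cast
      rw [hs']
      ring
    have h1 := hlin (rp (y l + y m))
    have h2 := hlin (rp (y l + y m) + N)
    have hsub : univ.filter (fun s : ZMod N => ¬ Gp (a - tau b (y + s • dir (l, some m)))) ⊆
        univ.filter (fun s : ZMod N => rp (y l + s) + rp (y m - s) = rp (y l + y m) ∧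
          ¬ Gp (a - tau b (y + s • dir (l, some m)))) ∪
        univ.filter (fun s : ZMod N => rp (y l + s) + rp (y m - s) = rp (y l + y m) + N ∧
          ¬ Gp (a - tau b (y + s • dir (l, some m)))) := by
      intro s hs
      rw [mem_filter] at hs
      rw [mem_union, mem_filter, mem_filter]
      rcases h3 s with h | h
      · left; exact ⟨mem_univ _, h, hs.2⟩
      · right; exact ⟨mem_univ _, h, hs.2⟩
    have h4 := (card_le_card hsub).trans (card_union_le _ _)
    have h5 : ((univ.filter (fun s : ZMod N => ¬ Gp (a - tau b (y + s • dir (l, some m))))).card : ℝ) ≤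
        ((univ.filter (fun s : ZMod N => rp (y l + s) + rp (y m - s) = rp (y l + y m) ∧
          ¬ Gp (a - tau b (y + s • dir (l, some m))))).card : ℝ) +
        ((univ.filter (fun s : ZMod N => rp (y l + s) + rp (y m - s) = rp (y l + y m) + N ∧
          ¬ Gp (a - tau b (y + s • dir (l, some m))))).card : ℝ) := by
      exact_mod_cast h4
    linarith

open Classical in
theorem coll' {Gp : ℤ → Prop} {r N : ℕ} [NeZero N] (b : Fin r → ℕ) {β : ℝ} (hβ : 0 ≤ β) (hG : LineH Gp b N β)
    {Z : Type} [Fintype Z] (L L' : Z → Fin r → ZMod N) (h : Mov L L') :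
    ((univ.filter (fun z => ¬ Gp ((tau b (L z) : ℤ) - tau b (L' z)))).card : ℝ) ≤ 2 * β * Fintype.card Z := by
  obtain ⟨v, mv, h1, h2⟩ := h
  have hN0 : (0 : ℝ) < N := by
    have := Nat.pos_of_ne_zero (NeZero.ne N)
    exact_mod_cast this
  have e1 : ∀ s : ZMod N, (univ.filter (fun z => ¬ Gp ((tau b (L z) : ℤ) - tau b (L' z)))).card =
      (univ.filter (fun z => ¬ Gp ((tau b (L z) : ℤ) - tau b (L' z + s • dir v)))).card := by
    intro s
    symm
    apply card_bij (fun z _ => mv s z)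
    · intro z hz
      rw [mem_filter] at hz ⊢
      refine ⟨mem_univ _, ?_⟩
      rw [h1, h2]
      exact hz.2
    · intro z _ z' _ h
      exact (mv s).injective h
    · intro z hz
      refine ⟨(mv s).symm z, ?_, (mv s).apply_symm_apply z⟩
      rw [mem_filter] at hz ⊢
      refine ⟨mem_univ _, ?_⟩
      have h3 := h1 s ((mv s).symm z)
      have h4 := h2 s ((mv s).symm z)
      rw [(mv s).apply_symm_apply z] at h3 h4
      rw [← h3, ← h4]
      exact hz.2
  have e2 : (univ.filter (fun z => ¬ Gp ((tau b (L z) : ℤ) - tau b (L' z)))).card * N =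
      ∑ z : Z, (univ.filter (fun s : ZMod N => ¬ Gp ((tau b (L z) : ℤ) - tau b (L' z + s • dir v)))).card := by
    have e3 : (univ.filter (fun z => ¬ Gp ((tau b (L z) : ℤ) - tau b (L' z)))).card * N =
        ∑ s : ZMod N, (univ.filter (fun z => ¬ Gp ((tau b (L z) : ℤ) - tau b (L' z + s • dir v)))).card := by
      rw [← sum_congr rfl fun s _ => e1 s, sum_const, card_univ, ZMod.card, smul_eq_mul, mul_comm]
    rw [e3]
    simp only [card_filter]
    rw [sum_comm]
  have e4 : ((univ.filter (fun z => ¬ Gp ((tau b (L z) : ℤ) - tau b (L' z)))).card : ℝ) * N ≤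
      (2 * β * Fintype.card Z) * N := by
    calc ((univ.filter (fun z => ¬ Gp ((tau b (L z) : ℤ) - tau b (L' z)))).card : ℝ) * N =
        ∑ z : Z, ((univ.filter (fun s : ZMod N => ¬ Gp ((tau b (L z) : ℤ) - tau b (L' z + s • dir v)))).card : ℝ) := by
          exact_mod_cast e2
      _ ≤ ∑ _z : Z, 2 * β * N := sum_le_sum fun z _ => line' b hβ hG v (L' z) (tau b (L z))
      _ = _ := by rw [sum_const, card_univ, nsmul_eq_mul]; ring
  exact le_of_mul_le_mul_right e4 hN0

/-- the properties of the family of weights -/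
structure Mj' (Gp : ℤ → Prop) (g : ℕ → ℕ → ℝ) (S : Finset ℕ) (M : ℕ) (Po : Set ℕ) (η L : ℝ) : Prop where
  nonneg : ∀ K t, 0 ≤ g K t
  maj : ∀ (I : Type) [Fintype I], Fintype.card I ≤ M → ∀ u : I → ℕ, (∀ i j, i ≠ j → Gp ((u i : ℤ) - u j)) →
    (∀ i, u i ∈ Po) → |(∑ K ∈ S, ∏ i, g K (u i)) / S.card - 1| ≤ η
  bound : ∀ (I : Type) [Fintype I], Fintype.card I ≤ M → ∀ u : I → ℕ, (∀ i, u i ∈ Po) →
    ∀ K ∈ S, ∏ i, g K (u i) ≤ L

open Classical in
theorem card_badP' {Gp : ℤ → Prop} {I Z : Type} [Fintype I] [Fintype Z] (β : ℝ) (hβ : 0 ≤ β) (f : I → Z → ℕ)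
    (hf : ∀ i j, i ≠ j → ((univ.filter (fun z => ¬ Gp ((f i z : ℤ) - f j z))).card : ℝ) ≤ 2 * β * Fintype.card Z) :
    ((univ.filter (fun z => ¬ ∀ i j, i ≠ j → Gp ((f i z : ℤ) - f j z))).card : ℝ) ≤
      2 * (Fintype.card I : ℝ) ^ 2 * β * Fintype.card Z := by
  have h1 : (univ.filter (fun z => ¬ ∀ i j, i ≠ j → Gp ((f i z : ℤ) - f j z))) ⊆
      ((univ : Finset I).offDiag).biUnion fun p => univ.filter fun z => ¬ Gp ((f p.1 z : ℤ) - f p.2 z) := by
    intro z hz
    rw [mem_filter] at hz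
    have h2 := hz.2
    simp only [not_forall] at h2
    obtain ⟨i, j, hne, hij⟩ := h2
    rw [mem_biUnion]
    refine ⟨(i, j), by simpa using hne, ?_⟩
    rw [mem_filter]
    exact ⟨mem_univ _, hij⟩
  have h2 := (card_le_card h1).trans card_biUnion_le
  calc ((univ.filter (fun z => ¬ ∀ i j, i ≠ j → Gp ((f i z : ℤ) - f j z))).card : ℝ) ≤
        ∑ p ∈ (univ : Finset I).offDiag, ((univ.filter fun z => ¬ Gp ((f p.1 z : ℤ) - f p.2 z)).card : ℝ) := by
          exact_mod_cast h2
    _ ≤ ∑ p ∈ (univ : Finset I).offDiag, 2 * β * Fintype.card Z := by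
          apply sum_le_sum
          intro p hp
          exact hf p.1 p.2 (by simpa using hp)
    _ = ((univ : Finset I).offDiag.card : ℝ) * (2 * β * Fintype.card Z) := by rw [sum_const, nsmul_eq_mul]
    _ ≤ (Fintype.card I : ℝ) ^ 2 * (2 * β * Fintype.card Z) := by
          apply mul_le_mul_of_nonneg_right _ (by positivity)
          have : (univ : Finset I).offDiag.card ≤ Fintype.card I ^ 2 := by
            rw [offDiag_card, card_univ, pow_two]
            exact Nat.sub_le _ _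
          exact_mod_cast this
    _ = _ := by ring

open Classical in
theorem lemB' {Gp : ℤ → Prop} {g : ℕ → ℕ → ℝ} {S : Finset ℕ} {M : ℕ} {Po : Set ℕ} {η L : ℝ} {β : ℝ} (hβ : 0 ≤ β)
    (h : Mj' Gp g S M Po η L) (hL : 1 ≤ L) (hη : 0 ≤ η) (hX : S.Nonempty) {I Z : Type}
    [Fintype I] [Fintype Z] [Nonempty Z]
    (hI : Fintype.card I ≤ M) (f : I → Z → ℕ) (hfP : ∀ i z, f i z ∈ Po)
    (hf : ∀ i j, i ≠ j → ((univ.filter (fun z => ¬ Gp ((f i z : ℤ) - f j z))).card : ℝ) ≤ 2 * β * Fintype.card Z) :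
    |(∑ K ∈ S, av (fun z : Z => ∏ i, g K (f i z))) / S.card - 1| ≤
      η + 2 * (Fintype.card I : ℝ) ^ 2 * L * β := by
  have hX' : (0 : ℝ) < S.card := by exact_mod_cast hX.card_pos
  have hY : (0 : ℝ) < Fintype.card Z := by exact_mod_cast Fintype.card_pos
  set P : Z → ℝ := fun y => (∑ K ∈ S, ∏ i, g K (f i y)) / S.card - 1 with hP
  have h1 : (∑ K ∈ S, av (fun y : Z => ∏ i, g K (f i y))) / S.card - 1 = av P := by
    rw [hP, av_sub, av_const, ← av_sum]
    congr 1
    simp_rw [div_eq_inv_mul]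
    rw [av_mul]
  have hgood : ∀ y, (∀ i j, i ≠ j → Gp ((f i y : ℤ) - f j y)) → |P y| ≤ η := by
    intro y hy
    exact h.maj I hI (fun i => f i y) hy (fun i => hfP i y)
  have hbad : ∀ y, |P y| ≤ L := by
    intro y
    have h2 : 0 ≤ (∑ K ∈ S, ∏ i, g K (f i y)) / S.card :=
      div_nonneg (sum_nonneg fun K _ => prod_nonneg fun i _ => h.nonneg _ _) hX'.le
    have h3 : (∑ K ∈ S, ∏ i, g K (f i y)) / S.card ≤ L := by
      rw [div_le_iff₀ hX']
      calc ∑ K ∈ S, ∏ i, g K (f i y)
          ≤ ∑ K ∈ S, L :=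
            sum_le_sum fun K hK => h.bound I hI (fun i => f i y) (fun i => hfP i y) K hK
        _ = L * S.card := by rw [sum_const, nsmul_eq_mul, mul_comm]
    rw [abs_le]
    constructor <;> simp only [hP] <;> linarith
  rw [h1]
  refine (av_abs_le' P).trans ?_
  have h4 : av (fun y => |P y|) ≤ av (fun y => η +
      if ¬ (∀ i j, i ≠ j → Gp ((f i y : ℤ) - f j y)) then L else 0) := by
    apply av_mono
    intro y
    by_cases hy : ∀ i j, i ≠ j → Gp ((f i y : ℤ) - f j y)
    · rw [if_neg (not_not_intro hy)]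
      have := hgood y hy
      linarith
    · rw [if_pos hy]
      have := hbad y
      linarith
  refine h4.trans ?_
  rw [av_add, av_const]
  have h5 : av (fun y : Z => if ¬ (∀ i j, i ≠ j → Gp ((f i y : ℤ) - f j y)) then L else 0) =
      ((univ.filter (fun y => ¬ (∀ i j, i ≠ j → Gp ((f i y : ℤ) - f j y)))).card : ℝ) * L /
        Fintype.card Z := by
    unfold av
    rw [← sum_filter, sum_const, nsmul_eq_mul]
  rw [h5]
  have h6 := card_badP' β hβ f hf
  have h7 : ((univ.filter (fun y => ¬ (∀ i j, i ≠ j → Gp ((f i y : ℤ) - f j y)))).card : ℝ) * L /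
        Fintype.card Z ≤ 2 * (Fintype.card I : ℝ) ^ 2 * L * β := by
    rw [div_le_iff₀ hY]
    nlinarith
  linarith

open Classical in
theorem lemC' {Gp : ℤ → Prop} {r : ℕ} {b : Fin r → ℕ}
    {g : ℕ → ℕ → ℝ} {S : Finset ℕ} {M : ℕ} {η T : ℝ} {N : ℕ} [NeZero N] {β : ℝ} (hβ : 0 ≤ β) (hG : LineH Gp b N β)
    (h : Mj' Gp g S M (Po N b) η T) (hT : 1 ≤ T) (hη : 0 ≤ η) (hX : S.Nonempty) {I Z : Type}
    [Fintype I] [Fintype Z] [Nonempty Z]
    (hI : 2 * Fintype.card I ≤ M) (L : I → Z → Fin r → ZMod N) (hL : Fam L) :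
    ∑ K ∈ S, (av (fun z : Z => ∏ i, g K (tau b (L i z))) - 1) ^ 2 ≤
      (3 * η + 4 * (M : ℝ) ^ 2 * T * β) * S.card := by
  have hX' : (0 : ℝ) < S.card := by exact_mod_cast hX.card_pos
  have h1 := lemB' hβ h hT hη hX (by omega) (fun i z => tau b (L i z)) (fun i z => ⟨L i z, rfl⟩)
    (fun i j hij => coll' b hβ hG _ _ (hL.mov i j hij))
  -- the family on `Z × Z`
  let f : I ⊕ I → Z × Z → Fin r → ZMod N := Sum.elim (fun i z => L i z.1) (fun i z => L i z.2)
  have hf : ∀ i j, i ≠ j → Mov (f i) (f j) := by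
    rintro (i | i) (j | j) hij
    · exact Mov_fst (hL.mov i j (fun h => hij (by rw [h])))
    · exact Mov_cross (hL.mov1 j)
    · exact Mov_cross' (hL.mov1 j)
    · exact Mov_snd (hL.mov i j (fun h => hij (by rw [h])))
  have h2 := lemB' hβ h hT hη hX (by rw [Fintype.card_sum]; omega) (fun i z => tau b (f i z))
    (fun i z => ⟨f i z, rfl⟩) (fun i j hij => coll' b hβ hG _ _ (hf i j hij))
  have h3 : ∀ K, av (fun y : Z × Z => ∏ i, g K (tau b (f i y))) =
      (av (fun y : Z => ∏ i, g K (tau b (L i y)))) ^ 2 := by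
    intro K
    rw [av_prod]
    have h4 : ∀ x y : Z, ∏ i, g K (tau b (f i (x, y))) =
        (∏ i, g K (tau b (L i x))) * ∏ i, g K (tau b (L i y)) := by
      intro x y
      rw [Fintype.prod_sum_type]
      rfl
    simp_rw [h4]
    simp_rw [av_mul]
    have h5 : av (fun x : Z => (∏ i, g K (tau b (L i x))) *
        av (fun y : Z => ∏ i, g K (tau b (L i y)))) =
        av (fun x : Z => av (fun y : Z => ∏ i, g K (tau b (L i y))) *
          ∏ i, g K (tau b (L i x))) := by
      congr 1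
      funext x
      rw [mul_comm]
    rw [h5, av_mul, pow_two]
  simp_rw [h3] at h2
  rw [Fintype.card_sum] at h2
  set F : ℕ → ℝ := fun K => av (fun y : Z => ∏ i, g K (tau b (L i y))) with hF
  change |(∑ K ∈ S, F K) / S.card - 1| ≤ _ at h1
  change |(∑ K ∈ S, F K ^ 2) / S.card - 1| ≤ _ at h2
  change ∑ K ∈ S, (F K - 1) ^ 2 ≤ _
  have h6 : ∑ K ∈ S, (F K - 1) ^ 2 =
      (((∑ K ∈ S, F K ^ 2) / S.card - 1) - 2 * ((∑ K ∈ S, F K) / S.card - 1)) * S.card := by
    have h7 : ∑ K ∈ S, (F K - 1) ^ 2 =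
        ∑ K ∈ S, F K ^ 2 - 2 * ∑ K ∈ S, F K + S.card := by
      simp_rw [sub_sq]
      rw [sum_add_distrib, sum_sub_distrib, mul_sum]
      simp only [mul_one, one_pow, sum_const, nsmul_eq_mul]
    rw [h7]
    field_simp
    ring
  rw [h6]
  apply mul_le_mul_of_nonneg_right _ hX'.le
  have h8 := (abs_le.1 h1).1
  have h9 := (abs_le.1 h2).2
  have hm : (Fintype.card I : ℝ) * 2 ≤ M := by
    have : Fintype.card I * 2 ≤ M := by omega
    exact_mod_cast this
  have hm0 : (0 : ℝ) ≤ Fintype.card I := by positivity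
  have hLN : 0 ≤ T * β := by positivity
  have h10 : 2 * (Fintype.card I : ℝ) ^ 2 * T * β ≤ (M : ℝ) ^ 2 / 2 * (T * β) := by
    rw [mul_assoc]
    apply mul_le_mul_of_nonneg_right _ hLN
    nlinarith
  have h11 : 2 * ((Fintype.card I + Fintype.card I : ℕ) : ℝ) ^ 2 * T * β ≤ 2 * (M : ℝ) ^ 2 * (T * β) := by
    rw [mul_assoc]
    apply mul_le_mul_of_nonneg_right _ hLN
    push_cast
    nlinarith
  have h12 : 4 * (M : ℝ) ^ 2 * T * β = 4 * ((M : ℝ) ^ 2 * (T * β)) := by ring
  rw [h12]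
  have h13 : 0 ≤ (M : ℝ) ^ 2 * (T * β) := by positivity
  linarith

open Classical in
/-- the number of the bad members for one system -/
theorem badK' {Gp : ℤ → Prop} {r : ℕ} {b : Fin r → ℕ}
    {g : ℕ → ℕ → ℝ} {S : Finset ℕ} {M : ℕ} {η T : ℝ} {N : ℕ} [NeZero N] {β : ℝ} (hβ : 0 ≤ β) (hG : LineH Gp b N β)
    (h : Mj' Gp g S M (Po N b) η T) (hT : 1 ≤ T) (hη : 0 ≤ η) (hX : S.Nonempty) {I Z : Type}
    [Fintype I] [Fintype Z] [Nonempty Z]
    (hI : 2 * Fintype.card I ≤ M) (L : I → Z → Fin r → ZMod N) (hL : Fam L) (ε : ℝ) (hε : 0 < ε) :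
    ((S.filter (fun K => ε < |av (fun z : Z => ∏ i, g K (tau b (L i z))) - 1|)).card : ℝ) * ε ^ 2 ≤
      (3 * η + 4 * (M : ℝ) ^ 2 * T * β) * S.card := by
  refine le_trans ?_ (lemC' hβ hG h hT hη hX hI L hL)
  set bad := S.filter (fun K => ε < |av (fun z : Z => ∏ i, g K (tau b (L i z))) - 1|) with hbad
  calc (bad.card : ℝ) * ε ^ 2 = ∑ K ∈ bad, ε ^ 2 := by
        rw [sum_const, nsmul_eq_mul]
    _ ≤ ∑ K ∈ bad, (av (fun z : Z => ∏ i, g K (tau b (L i z))) - 1) ^ 2 := by
        apply sum_le_sum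
        intro K hK
        rw [hbad, mem_filter] at hK
        rw [← sq_abs (av _ - 1)]
        exact pow_le_pow_left₀ hε.le hK.2.le 2
    _ ≤ _ := sum_le_sum_of_subset_of_nonneg (filter_subset _ _)
        (fun K _ _ => sq_nonneg _)

open Classical in
theorem mkr' (r : ℕ) (hr : 1 ≤ r) (η : ℝ) (hη : 0 < η) : ∃ η' : ℝ, 0 < η' ∧
    ∀ (Gp : ℤ → Prop) (N : ℕ) [NeZero N] (b : Fin r → ℕ) (β : ℝ), 0 ≤ β → LineH Gp b N β →
    ∀ (S : Finset ℕ) (g : ℕ → ℕ → ℝ) (T : ℝ), S.Nonempty → 1 ≤ T → (∀ K t, 0 ≤ g K t) →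
    (∀ K ∈ S, ∀ t ∈ Po N b, g K t ≤ T) → T ^ Mr r * β ≤ η' →
    (∀ m ≤ Mr r, ∀ u : Fin m → ℕ, (∀ i j, i ≠ j → Gp ((u i : ℤ) - u j)) → (∀ i, u i ∈ Po N b) →
      |(∑ K ∈ S, ∏ i, g K (u i)) / S.card - 1| ≤ η') →
    ∑ K ∈ S, |av (fun y : Fin r → ZMod N => g K (tau b y)) - 1| ≤ η * S.card ∧
    ((S.filter (fun K => ¬ (LF (fun (j : Option (Fin r)) (x : Option (Fin r) → ZMod N) =>
      g K (tau b (P j x))) η ∧ BX (fun y : Fin r → ZMod N => g K (tau b y)) η))).card : ℝ) ≤ η * S.card := by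
  obtain ⟨M, hM'⟩ : ∃ M : ℕ, M = Mr r := ⟨_, rfl⟩
  have hM : M = 2 * (Fintype.card (Option (Fin r) × Finset (Option (Fin r))) +
    Fintype.card (Finset (Fin r × Option (Fin r))) + 1) := hM'
  rw [← hM']
  obtain ⟨Q, hQ⟩ : ∃ Q : ℕ, Q = Fintype.card (Finset (Option (Fin r) × Finset (Option (Fin r)))) +
    Fintype.card (Finset (Finset (Fin r × Option (Fin r)))) := ⟨_, rfl⟩
  have hQ0 : 0 < Q := by
    rw [hQ]
    have : 0 < Fintype.card (Finset (Option (Fin r) × Finset (Option (Fin r)))) := Fintype.card_pos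
    omega
  have hQr : (0 : ℝ) < Q := by exact_mod_cast hQ0
  obtain ⟨m₀, hm₀⟩ : ∃ m₀ : ℝ, m₀ = min (η ^ 2) (η ^ 3 / Q) := ⟨_, rfl⟩
  have hm₀' : 0 < m₀ := by rw [hm₀]; exact lt_min (by positivity) (by positivity)
  have hd : (0 : ℝ) < 3 + 4 * (M : ℝ) ^ 2 := by positivity
  obtain ⟨η', hη'⟩ : ∃ η' : ℝ, η' = m₀ / (3 + 4 * (M : ℝ) ^ 2) := ⟨_, rfl⟩
  have hη'0 : 0 < η' := by rw [hη']; positivity
  refine ⟨η', hη'0, ?_⟩
  intro Gp N _ b β hβ hG S g T hS hT hg0 hgT hTN hcor
  have hX' : (0 : ℝ) < S.card := by exact_mod_cast hS.card_pos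
  have hMj : Mj' Gp g S M (Po N b) η' (T ^ M) := by
    refine ⟨hg0, ?_, ?_⟩
    · intro I _ hI u hu huP
      have e : I ≃ Fin (Fintype.card I) := Fintype.equivFin I
      have h1 := hcor (Fintype.card I) hI (u ∘ e.symm)
        (fun i j hij => hu _ _ (fun h => hij (e.symm.injective h))) (fun i => huP _)
      have h2 : ∀ K, ∏ i, g K ((u ∘ e.symm) i) = ∏ i, g K (u i) := by
        intro K
        exact Equiv.prod_comp e.symm (fun i => g K (u i))
      simp_rw [h2] at h1
      exact h1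
    · intro I _ hI u huP K hK
      calc ∏ i, g K (u i) ≤ ∏ _i : I, T :=
            prod_le_prod (fun i _ => hg0 _ _) (fun i _ => hgT K hK _ (huP i))
        _ = T ^ Fintype.card I := by rw [prod_const, card_univ]
        _ ≤ T ^ M := pow_le_pow_right₀ hT hI
  have hδ : 3 * η' + 4 * (M : ℝ) ^ 2 * T ^ M * β ≤ m₀ := by
    have h1 : 4 * (M : ℝ) ^ 2 * T ^ M * β ≤ 4 * (M : ℝ) ^ 2 * η' := by
      rw [mul_assoc]
      exact mul_le_mul_of_nonneg_left hTN (by positivity)
    have h2 : (3 + 4 * (M : ℝ) ^ 2) * η' = m₀ := by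
      rw [hη']
      field_simp
    calc 3 * η' + 4 * (M : ℝ) ^ 2 * T ^ M * β ≤ 3 * η' + 4 * (M : ℝ) ^ 2 * η' := by linarith
      _ = (3 + 4 * (M : ℝ) ^ 2) * η' := by ring
      _ = m₀ := h2
  have hT1 : 1 ≤ T ^ M := one_le_pow₀ hT
  constructor
  · have h3 := lemC' hβ hG hMj hT1 hη'0.le hS (I := Unit) (by rw [Fintype.card_unit]; omega)
      (fun _ (z : Fin r → ZMod N) => z) (fam_one r N hr)
    have h4 : ∀ K, av (fun y : Fin r → ZMod N => ∏ _i : Unit, g K (tau b y)) =
        av (fun y : Fin r → ZMod N => g K (tau b y)) := by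
      intro K
      congr 1
      funext y
      simp
    simp_rw [h4] at h3
    have h5 : ∀ K ∈ S, |av (fun y : Fin r → ZMod N => g K (tau b y)) - 1| ≤
        η / 2 + (av (fun y : Fin r → ZMod N => g K (tau b y)) - 1) ^ 2 / (2 * η) := by
      intro K _
      generalize av (fun y : Fin r → ZMod N => g K (tau b y)) - 1 = x
      have h6 : η / 2 + x ^ 2 / (2 * η) = (η ^ 2 + x ^ 2) / (2 * η) := by
        field_simp
      rw [h6, le_div_iff₀ (by positivity)]
      nlinarith [sq_nonneg (|x| - η), sq_abs x]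
    refine (sum_le_sum h5).trans ?_
    rw [sum_add_distrib, sum_const, nsmul_eq_mul, ← sum_div]
    have h6 : (∑ K ∈ S, (av (fun y : Fin r → ZMod N => g K (tau b y)) - 1) ^ 2) / (2 * η) ≤ η / 2 * S.card := by
      rw [div_le_iff₀ (by positivity)]
      calc ∑ K ∈ S, (av (fun y : Fin r → ZMod N => g K (tau b y)) - 1) ^ 2
          ≤ (3 * η' + 4 * (M : ℝ) ^ 2 * T ^ M * β) * S.card := h3
        _ ≤ η ^ 2 * S.card := mul_le_mul_of_nonneg_right (hδ.trans (by rw [hm₀]; exact min_le_left _ _)) hX'.le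
        _ = η / 2 * S.card * (2 * η) := by ring
    linarith
  · -- the exceptional sets
    obtain ⟨TT, hTT⟩ : ∃ TT : Finset (Finset (Option (Fin r) × Finset (Option (Fin r)))),
      TT = univ.filter (fun T => ∀ t ∈ T, t.1 ∉ t.2) := ⟨_, rfl⟩
    let bad1 : Finset (Option (Fin r) × Finset (Option (Fin r))) → Finset ℕ := fun T =>
      S.filter (fun K => η < |av (fun z : Option (Fin r) → ZMod N × ZMod N =>
        ∏ t : T, g K (tau b (P t.1.1 (sl t.1.2 z)))) - 1|)
    let bad2 : Finset (Finset (Fin r × Option (Fin r))) → Finset ℕ := fun S' =>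
      S.filter (fun K => η < |av (fun z : (Fin r × Option (Fin r)) → ZMod N × ZMod N =>
        ∏ t : S', g K (tau b (Th r N (sl t.1 z)))) - 1|)
    have hsub : S.filter (fun K => ¬ (LF (fun (j : Option (Fin r)) (x : Option (Fin r) → ZMod N) =>
        g K (tau b (P j x))) η ∧ BX (fun y : Fin r → ZMod N => g K (tau b y)) η)) ⊆
        TT.biUnion bad1 ∪ (univ : Finset (Finset (Finset (Fin r × Option (Fin r))))).biUnion bad2 := by
      intro K hK
      rw [mem_filter] at hK
      have h3 := hK.2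
      rw [not_and_or] at h3
      rw [mem_union, mem_biUnion, mem_biUnion]
      rcases h3 with h3 | h3
      · left
        unfold LF at h3
        push Not at h3
        obtain ⟨T, hT, h4⟩ := h3
        refine ⟨T, by rw [hTT, mem_filter]; exact ⟨mem_univ _, hT⟩, ?_⟩
        rw [mem_filter]
        refine ⟨hK.1, ?_⟩
        have e : (fun z : Option (Fin r) → ZMod N × ZMod N => ∏ t : T, g K (tau b (P t.1.1 (sl t.1.2 z)))) =
            fun z => ∏ t ∈ T, g K (tau b (P t.1 (sl t.2 z))) := by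
          funext z
          exact prod_coe_sort T (fun t => g K (tau b (P t.1 (sl t.2 z))))
        rw [e]
        exact h4
      · right
        unfold BX at h3
        push Not at h3
        obtain ⟨S', h4⟩ := h3
        refine ⟨S', mem_univ _, ?_⟩
        rw [mem_filter]
        refine ⟨hK.1, ?_⟩
        have e : (fun z : (Fin r × Option (Fin r)) → ZMod N × ZMod N => ∏ t : S', g K (tau b (Th r N (sl t.1 z)))) =
            fun z => ∏ t ∈ S', g K (tau b (Th r N (sl t z))) := by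
          funext z
          exact prod_coe_sort S' (fun t => g K (tau b (Th r N (sl t z))))
        rw [e]
        exact h4
    have hfin : ∀ x : ℝ, x * η ^ 2 ≤ (3 * η' + 4 * (M : ℝ) ^ 2 * T ^ M * β) * S.card → x * Q ≤ η * S.card := by
      intro x hx
      have h6 : x * Q * η ^ 2 ≤ η * S.card * η ^ 2 := by
        calc x * Q * η ^ 2 = Q * (x * η ^ 2) := by ring
          _ ≤ Q * ((3 * η' + 4 * (M : ℝ) ^ 2 * T ^ M * β) * S.card) :=
              mul_le_mul_of_nonneg_left hx (by positivity)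
          _ ≤ Q * ((η ^ 3 / Q) * S.card) := by
              have := hδ.trans (le_of_eq hm₀ |>.trans (min_le_right _ _))
              gcongr
          _ = η * S.card * η ^ 2 := by
              field_simp
      exact le_of_mul_le_mul_right h6 (by positivity)
    have hone1 : ∀ T ∈ TT, ((bad1 T).card : ℝ) * Q ≤ η * S.card := by
      intro T hT
      rw [hTT, mem_filter] at hT
      apply hfin
      have hcT : Fintype.card T ≤ Fintype.card (Option (Fin r) × Finset (Option (Fin r))) := by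
        rw [Fintype.card_coe]
        exact card_le_univ _
      exact badK' hβ hG hMj hT1 hη'0.le hS (I := T) (by rw [hM]; omega)
        (fun (t : T) (z : Option (Fin r) → ZMod N × ZMod N) => P t.1.1 (sl t.1.2 z))
        (fam_corner r N hr T hT.2) η hη
    have hone2 : ∀ S' ∈ (univ : Finset (Finset (Finset (Fin r × Option (Fin r))))),
        ((bad2 S').card : ℝ) * Q ≤ η * S.card := by
      intro S' _
      apply hfin
      have hcT : Fintype.card S' ≤ Fintype.card (Finset (Fin r × Option (Fin r))) := by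
        rw [Fintype.card_coe]
        exact card_le_univ _
      exact badK' hβ hG hMj hT1 hη'0.le hS (I := S') (by rw [hM]; omega)
        (fun (t : S') (z : (Fin r × Option (Fin r)) → ZMod N × ZMod N) => Th r N (sl t.1 z))
        (fam_box r N hr S') η hη
    have h7 : ((S.filter (fun K => ¬ (LF (fun (j : Option (Fin r)) (x : Option (Fin r) → ZMod N) =>
        g K (tau b (P j x))) η ∧ BX (fun y : Fin r → ZMod N => g K (tau b y)) η))).card : ℝ) ≤
        ∑ T ∈ TT, ((bad1 T).card : ℝ) + ∑ S' ∈ (univ : Finset (Finset (Finset (Fin r × Option (Fin r))))),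
          ((bad2 S').card : ℝ) := by
      have := (card_le_card hsub).trans ((card_union_le _ _).trans (add_le_add card_biUnion_le card_biUnion_le))
      exact_mod_cast this
    have h8 : (∑ T ∈ TT, ((bad1 T).card : ℝ) + ∑ S' ∈ (univ : Finset (Finset (Finset (Fin r × Option (Fin r))))),
          ((bad2 S').card : ℝ)) * Q ≤ η * S.card * Q := by
      rw [add_mul, sum_mul, sum_mul]
      refine (add_le_add (sum_le_sum hone1) (sum_le_sum hone2)).trans ?_
      rw [sum_const, sum_const, nsmul_eq_mul, nsmul_eq_mul, ← add_mul, mul_comm (η * _)]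
      apply mul_le_mul_of_nonneg_right _ (by positivity)
      have h9 : TT.card ≤ Fintype.card (Finset (Option (Fin r) × Finset (Option (Fin r)))) := card_le_univ _
      have h10 : TT.card + (univ : Finset (Finset (Finset (Fin r × Option (Fin r))))).card ≤ Q := by
        rw [hQ, card_univ]
        omega
      exact_mod_cast h10
    exact h7.trans (le_of_mul_le_mul_right h8 hQr)

end Pool.Agent.H534.NW
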