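import Pool.Agent.H534.NW.Maj
import Pool.Agent.H534.NW.MK

/-!
# The theorem for one shape, with the narrow modulus of the shape
-/

set_option autoImplicit false

open Finset

namespace Pool.Agent.H534.NW

open Pool.Agent.H602R3.DHJ
open Pool.Agent.TH423.SH (PS)
open Pool.Agent.Y727.PSP (sw sl Ind LF rp rp_pos rp_le rp_cast rp_of sum_rp LF_mono)
open Pool.Agent.Y677.RSZ hiding Sys V_pos fac_pos V_lower
open Pool.Agent.H534.RS hiding majW classes engP
open Pool.Agent.H534.RT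
open Pool.Agent.H534.NV (WN WN_le numG)

/-- two of the numbers `0, b_1, ..., b_r` are congruent modulo `p` -/
def Cong {r : ℕ} (b : Fin r → ℕ) (p : ℕ) : Prop := (∃ i, p ∣ b i) ∨ ∃ i j, i ≠ j ∧ b i ≡ b j [MOD p]

open Classical in
/-- the modulus of the shape: the product of the primes `p ≤ (log H)^(1-σ)` with `p ≤ log log H` or such that two of
the numbers `0, b_1, ..., b_r` are congruent modulo `p` -/
noncomputable def WS (σ : ℝ) {r : ℕ} (b : Fin r → ℕ) (H : ℕ) : ℕ :=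
  ∏ p ∈ (Icc 1 ⌊Real.log H ^ (1 - σ)⌋₊).filter
    (fun p : ℕ => p.Prime ∧ ((p : ℝ) ≤ Real.log (Real.log H) ∨ Cong b p)), p

theorem WS_pos (σ : ℝ) {r : ℕ} (b : Fin r → ℕ) (H : ℕ) : 0 < WS σ b H := by
  classical
  unfold WS
  apply prod_pos
  intro p hp
  rw [mem_filter] at hp
  exact hp.2.1.pos

theorem WS_dvd (σ : ℝ) {r : ℕ} (b : Fin r → ℕ) (H : ℕ) (p : ℕ) (hp : p.Prime) : p ∣ WS σ b H ↔
    ((p : ℝ) ≤ Real.log H ^ (1 - σ) ∧ ((p : ℝ) ≤ Real.log (Real.log H) ∨ Cong b p)) := by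
  classical
  unfold WS
  rw [hp.prime.dvd_finsetProd_iff]
  constructor
  · rintro ⟨q, hq, hpq⟩
    rw [mem_filter, mem_Icc] at hq
    have e := (Nat.prime_dvd_prime_iff_eq hp hq.2.1).1 hpq
    subst e
    exact ⟨(Nat.le_floor_iff (Real.rpow_nonneg (Real.log_natCast_nonneg H) _)).1 hq.1.2, hq.2.2⟩
  · rintro ⟨h1, h2⟩
    refine ⟨p, ?_, dvd_rfl⟩
    rw [mem_filter, mem_Icc]
    exact ⟨⟨hp.pos, (Nat.le_floor_iff (Real.rpow_nonneg (Real.log_natCast_nonneg H) _)).2 h1⟩, hp, h2⟩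

theorem WS_sqf (σ : ℝ) {r : ℕ} (b : Fin r → ℕ) (H : ℕ) : Squarefree (WS σ b H) := by
  classical
  unfold WS
  exact Finset.squarefree_prod_of_pairwise_isCoprime (by
    intro a ha b hb hab
    rw [mem_coe, mem_filter] at ha hb
    exact Nat.coprime_iff_isRelPrime.1 ((Nat.coprime_primes ha.2.1 hb.2.1).2 hab)) (by
    intro p hp
    rw [mem_filter] at hp
    exact hp.2.1.prime.squarefree)

theorem WS_le_WN (σ : ℝ) {r : ℕ} (b : Fin r → ℕ) (H : ℕ) : WS σ b H ≤ WN σ H := by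
  classical
  unfold WS WN primorial
  apply prod_le_prod_of_subset_of_one_le'
  · intro p hp
    rw [mem_filter, mem_Icc] at hp
    rw [mem_filter, mem_range]
    exact ⟨by omega, hp.2.1⟩
  · intro p hp _
    exact (mem_filter.1 hp).2.one_lt.le

theorem CC_upper' {Gp : ℤ → Prop} (ν : ℕ → ℝ) (hν : ∀ n, 0 ≤ ν n) (A : Finset ℕ) (W b₀ M₀ L N' N : ℕ) {r : ℕ} (b : Fin r → ℕ)
    (hL1 : 1 ≤ L) (hN' : 1 + 2 * ((∑ l, b l) * N) ≤ N')
    (T η : ℝ) (hT : 0 ≤ T) (hA : ∀ n ∈ A, ν n ≤ T)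
    (hcor : ∀ t : Fin (r + 1) → ℕ, (∀ i j, i ≠ j → Gp ((t i : ℤ) - t j)) → (∀ i, 1 ≤ t i ∧ t i ≤ N') →
      |(∑ K ∈ Ioc M₀ (M₀ + L), ∏ i, ν (W * (K + t i) + b₀)) / L - 1| ≤ η)
    (e : ℤ) (he : ∀ a a', a ≠ a' → Gp (((bb b a : ℤ) - bb b a') * e)) (he2 : |e| ≤ N) :
    CC ν A W b₀ M₀ L N' b e ≤ (1 + η) * L + N' * T ^ (r + 1) := by
  have hL0 : (0 : ℝ) < L := by exact_mod_cast hL1
  obtain ⟨B, hB⟩ : ∃ B : ℕ, B = (∑ l, b l) * N := ⟨_, rfl⟩
  rw [← hB] at hN'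
  obtain ⟨s, hs⟩ : ∃ s : ℕ, s = 1 + B := ⟨_, rfl⟩
  have hbe : ∀ a, |(bb b a : ℤ) * e| ≤ B := by
    intro a
    rw [abs_mul, hB]
    have h1 : |(bb b a : ℤ)| ≤ ((∑ l, b l : ℕ) : ℤ) := by
      rw [Nat.abs_cast]
      exact_mod_cast bb_le b a
    push_cast at h1 ⊢
    exact mul_le_mul h1 he2 (abs_nonneg _) (by positivity)
  have ht1 : ∀ a, ((((bb b a : ℤ) * e + s).toNat : ℕ) : ℤ) = (bb b a : ℤ) * e + s := by
    intro a
    apply Int.toNat_of_nonneg
    have := (abs_le.1 (hbe a)).1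
    omega
  have hc := hcor (fun a => ((bb b a : ℤ) * e + s).toNat) (by
      intro a a' h
      rw [ht1 a, ht1 a']
      have e1 : (bb b a : ℤ) * e + s - ((bb b a' : ℤ) * e + s) = ((bb b a : ℤ) - bb b a') * e := by ring
      rw [e1]
      exact he a a' h) (by
    intro a
    have h1 := ht1 a
    have h2 := abs_le.1 (hbe a)
    beta_reduce
    constructor <;> omega)
  have hc2 : ∑ K ∈ Ioc M₀ (M₀ + L), ∏ i, ν (W * (K + ((bb b i : ℤ) * e + s).toNat) + b₀) ≤ (1 + η) * L := by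
    have h1 := (abs_le.1 hc).2
    have h2 : (∑ K ∈ Ioc M₀ (M₀ + L), ∏ i, ν (W * (K + ((bb b i : ℤ) * e + s).toNat) + b₀)) / L ≤ 1 + η := by
      linarith
    rwa [div_le_iff₀ hL0] at h2
  unfold CC
  have hsub : Ioc (M₀ + s) (M₀ + s + L) ⊆ Ioc M₀ (M₀ + L + N') := by
    intro m hm
    rw [mem_Ioc] at hm ⊢
    omega
  rw [← sum_sdiff hsub, add_comm]
  apply add_le_add
  · refine le_trans ?_ hc2
    rw [show M₀ + s + L = M₀ + L + s by ring, ← Finset.map_add_right_Ioc, sum_map]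
    apply sum_le_sum
    intro K _
    apply prod_le_prod
    · intro _ _
      exact GG_nonneg ν hν A W b₀ _
    · intro a _
      have e1 : (W : ℤ) * ((((addRightEmbedding s) K : ℕ) : ℤ) + bb b a * e) + b₀ =
          ((W * (K + ((bb b a : ℤ) * e + s).toNat) + b₀ : ℕ) : ℤ) := by
        push_cast
        rw [ht1 a]
        simp only [addRightEmbedding_apply]
        push_cast
        ring
      unfold GG
      rw [e1, Int.toNat_natCast]
      split_ifs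
      · exact le_rfl
      · exact hν _
  · calc ∑ m ∈ Ioc M₀ (M₀ + L + N') \ Ioc (M₀ + s) (M₀ + s + L), ∏ a : Fin (r + 1), GG ν A W b₀ ((m : ℤ) + bb b a * e) ≤
      ∑ m ∈ Ioc M₀ (M₀ + L + N') \ Ioc (M₀ + s) (M₀ + s + L), T ^ (r + 1) := by
          apply sum_le_sum
          intro m _
          calc ∏ a : Fin (r + 1), GG ν A W b₀ ((m : ℤ) + bb b a * e) ≤ ∏ _a : Fin (r + 1), T :=
                prod_le_prod (fun _ _ => GG_nonneg ν hν A W b₀ _) (fun _ _ => GG_le ν A W b₀ _ T hT hA)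
            _ = _ := by rw [prod_const, card_univ, Fintype.card_fin]
    _ = _ := by
        rw [sum_const, nsmul_eq_mul, card_sdiff_of_subset hsub, Nat.card_Ioc, Nat.card_Ioc]
        have : M₀ + L + N' - M₀ - (M₀ + s + L - (M₀ + s)) = N' := by omega
        rw [this]

open Classical in
/-- the counting of the good differences -/
theorem final_count' {N : ℕ} [NeZero N] (f : ZMod N → ℝ) (E : Finset (ZMod N)) (L c₂ : ℝ) (hL : 0 < L) (hc₂ : 0 < c₂)
    (hE : ∑ d ∈ E, f d ≤ c₂ / 4 * L * N) (hup : ∀ d, d ∉ E → f d ≤ 3 * L)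
    (hlow : c₂ * L ≤ av f) :
    c₂ / 6 * N ≤ ((univ.filter (fun d : ZMod N => d ∉ E ∧ c₂ / 4 * L ≤ f d)).card : ℝ) := by
  have hN0 : (0 : ℝ) < N := by
    have := Nat.pos_of_ne_zero (NeZero.ne N)
    exact_mod_cast this
  unfold av at hlow
  rw [ZMod.card, le_div_iff₀ hN0] at hlow
  have h1 : ∑ d : ZMod N, f d ≤ ∑ d ∈ E, f d +
      ∑ d : ZMod N, ((if d ∉ E ∧ c₂ / 4 * L ≤ f d then 3 * L else 0) + c₂ / 4 * L) := by
    rw [← sum_sdiff (subset_univ E), add_comm]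
    apply add_le_add le_rfl
    refine (sum_le_sum (g := fun d => ((if d ∉ E ∧ c₂ / 4 * L ≤ f d then 3 * L else 0) + c₂ / 4 * L)) ?_).trans
      (sum_le_sum_of_subset_of_nonneg sdiff_subset ?_)
    · intro d hd
      rw [mem_sdiff] at hd
      beta_reduce
      by_cases h : c₂ / 4 * L ≤ f d
      · rw [if_pos ⟨hd.2, h⟩]
        have := hup d hd.2
        have : 0 ≤ c₂ / 4 * L := by positivity
        linarith
      · rw [if_neg (fun h2 => h h2.2), zero_add]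
        exact (not_le.1 h).le
    · intro d _ _
      split_ifs <;> positivity
  rw [sum_add_distrib, ← sum_filter, sum_const, sum_const, nsmul_eq_mul, nsmul_eq_mul, card_univ, ZMod.card] at h1
  have h2 : c₂ / 2 * L * N ≤ ((univ.filter (fun d : ZMod N => d ∉ E ∧ c₂ / 4 * L ≤ f d)).card : ℝ) * (3 * L) := by
    linarith
  have h3 : (c₂ / 6 * N) * (3 * L) ≤ ((univ.filter (fun d : ZMod N => d ∉ E ∧ c₂ / 4 * L ≤ f d)).card : ℝ) * (3 * L) := by
    linarith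
  exact le_of_mul_le_mul_right h3 (by positivity)

end Pool.Agent.H534.NW
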