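import Pool.Agent.H534.NW.Arr1
import Pool.Agent.H534.NW.Idx

/-!
# The theorem for one shape in the form of the counting property
-/

set_option autoImplicit false

open Finset Filter

namespace Pool.Agent.H534.NW

open Pool.Agent.H534.RS hiding majW classes engP
open Pool.Agent.H534.RT
open Pool.Agent.Y677.RSZ hiding Sys V_pos fac_pos V_lower

open Classical in
/-- **Dense subsets of the arguments with rough values contain every narrow shape.** -/
theorem engS (k g s : ℕ) (δ κ : ℝ) (hk : 1 ≤ k) (hδ : 0 < δ) (hκ : 0 < κ) :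
    ∃ c σm : ℝ, 0 < c ∧ 0 < σm ∧ σm ≤ 1 / 2 ∧ ∀ σ : ℝ, 0 < σ → σ ≤ σm → ∃ L H₀ : ℕ,
    ∀ (F : ℤ → ℤ) (Y H : ℕ) (A : Finset ℕ), (∀ b : Fin k → ℕ, SysU g H (WS σ b H) F) → Sys0 s F → H₀ ≤ H →
    (∀ n ∈ Ioc Y (Y + H), F (n : ℤ) ≠ 0 ∧ |F (n : ℤ)| ≤ (H : ℤ) ^ g) → A ⊆ Ioc Y (Y + H) →
    (∀ n ∈ A, ∀ p : ℕ, p.Prime → (p : ℝ) ≤ (H : ℝ) ^ δ → ¬ (p : ℤ) ∣ F (n : ℤ)) →
    κ * (H * V F 1 H) ≤ A.card → Shapes k s c σ L H A := by
  obtain ⟨v, hv, hVlow⟩ := V_low s
  obtain ⟨c, σm, hc, hσm, hσm2, heng⟩ := engW k g δ κ hk hδ hκ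
  refine ⟨min c (c * v ^ (k + 1)), σm, lt_min hc (by positivity), hσm, hσm2, fun σ hσ hσσ => ?_⟩
  obtain ⟨L, H₁, heng⟩ := heng σ hσ hσσ
  refine ⟨L, H₁ + 3, ?_⟩
  intro F Y H A hsys hsys0 hH hsize hA hrough hcard X sh hX hsh hsh1 hsh2
  have hH0 : (0 : ℝ) < H := by
    have : 0 < H := by omega
    exact_mod_cast this
  have hlog1 : 1 ≤ Real.log (H : ℝ) := by
    rw [Real.le_log_iff_exp_le hH0]
    have h1 := Real.exp_one_lt_d9
    have h2 : (3 : ℝ) ≤ H := by
      have : 3 ≤ H := by omega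
      exact_mod_cast this
    linarith
  have hlog : 0 < Real.log (H : ℝ) := by linarith
  have hV0 : 0 < V F 1 H := V_pos hsys0 1 H
  obtain ⟨D', hD1, hD2⟩ := heng F Y H X A sh (hsys sh) (by omega) hX hsize hA hrough hcard hsh hsh1 hsh2
  have hsub : D' ⊆ (Icc 1 X).filter (fun d =>
      min c (c * v ^ (k + 1)) * (H / Real.log H ^ (s * (k + 1))) ≤
        ((A.filter (fun n => ∀ i, n + WS σ sh H * d * sh i ∈ A)).card : ℝ)) := by
    intro d hd
    obtain ⟨h1, h2, h3⟩ := hD2 d hd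
    rw [mem_filter, mem_Icc]
    refine ⟨⟨h1, h2⟩, ?_⟩
    have hsub2 : ((solN A (WS σ sh H) sh d).card : ℝ) ≤
        ((A.filter (fun n => ∀ i, n + WS σ sh H * d * sh i ∈ A)).card : ℝ) := by
      have : solN A (WS σ sh H) sh d ⊆ A.filter (fun n => ∀ i, n + WS σ sh H * d * sh i ∈ A) := by
        unfold solN
        intro n hn
        rw [mem_filter] at hn
        rw [mem_filter]
        refine ⟨hn.1, fun l => ?_⟩
        have h5 := hn.2 l
        rwa [mul_right_comm] at h5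
      exact_mod_cast card_le_card this
    refine le_trans ?_ (h3.trans hsub2)
    have h4 := hVlow F H hsys0 (by omega)
    have h5 : V F 1 H = dW F (WS σ sh H) * V F (WS σ sh H) H := by
      apply Pool.Agent.H534.UT.V_dW _ _ _ (WS_pos σ sh H)
      intro p hp hpd
      have h6 := ((WS_dvd σ sh H p hp).1 hpd).1
      have h7 : Real.log (H : ℝ) ^ (1 - σ) ≤ Real.log H := by
        calc Real.log (H : ℝ) ^ (1 - σ) ≤ Real.log (H : ℝ) ^ (1 : ℝ) := by
              apply Real.rpow_le_rpow_of_exponent_le (by linarith)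
              linarith
          _ = _ := Real.rpow_one _
      have h8 : (p : ℝ) ≤ H := by
        have := Real.log_le_sub_one_of_pos hH0
        linarith
      exact_mod_cast h8
    have h6 : 0 < V F (WS σ sh H) H := V_pos hsys0 _ H
    obtain ⟨h7, h8⟩ := dW_le_one hsys0 (WS σ sh H)
    have h9 : (V F 1 H) ^ (k + 1) ≤ dW F (WS σ sh H) * V F (WS σ sh H) H ^ (k + 1) := by
      rw [h5, mul_pow]
      apply mul_le_mul_of_nonneg_right _ (by positivity)
      exact pow_le_of_le_one h7.le h8 (by omega)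
    calc min c (c * v ^ (k + 1)) * (H / Real.log H ^ (s * (k + 1))) ≤
          c * v ^ (k + 1) * (H / Real.log H ^ (s * (k + 1))) := by
            gcongr
            exact min_le_right _ _
      _ = c * (H * (v / Real.log H ^ s) ^ (k + 1)) := by
          rw [div_pow, ← pow_mul]
          ring
      _ ≤ c * (H * (V F 1 H) ^ (k + 1)) := by gcongr
      _ ≤ c * (H * (dW F (WS σ sh H) * V F (WS σ sh H) H ^ (k + 1))) := by gcongr
      _ = _ := by ring
  calc min c (c * v ^ (k + 1)) * (X : ℝ) ≤ c * X := by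
        gcongr
        exact min_le_left _ _
    _ ≤ D'.card := hD1
    _ ≤ _ := by exact_mod_cast card_le_card hsub

end Pool.Agent.H534.NW
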