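import Pool.Agent.H534.NW.Poly
import Pool.Agent.H534.RT.Exp2

/-!
# Primes at which a second polynomial has an explicit number of prime factors: every narrow shape
-/

set_option autoImplicit false

open Finset Filter Polynomial

namespace Pool.Agent.H534.NW

open Pool.Agent.TH977.PW (N)
open Pool.Agent.H534.RS Pool.Agent.H534.UT Pool.Agent.H534.RT
open Pool.Agent.Y677.KP (sys_two two)
open Pool.Agent.W123.RU
open Pool.Agent.W123.RU.Poly (Sys)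

open Classical in
/-- the dense sets for a polynomial and `X` -/
theorem twoN (f : ℤ[X]) (hs : Sys (two f)) (k g : ℕ) (η κ : ℝ)
    (hk : 1 ≤ k) (hη : 0 < η) (hκ : 0 < κ) :
    ∃ c σm : ℝ, 0 < c ∧ 0 < σm ∧ σm ≤ 1 / 2 ∧ ∀ σ : ℝ, 0 < σ → σ ≤ σm → ∃ L H₀ : ℕ,
    ∀ (Y H : ℕ) (A : Finset ℕ), H₀ ≤ H → Y ≤ H ^ g → A ⊆ Ioc Y (Y + H) →
    (∀ n ∈ A, ∀ p : ℕ, p.Prime → (p : ℝ) ≤ (H : ℝ) ^ η → ¬ p ∣ n ∧ ¬ (p : ℤ) ∣ f.eval (n : ℤ)) →
    κ * (H / Real.log H ^ 2) ≤ A.card → Shapes k 2 c σ L H A := by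
  obtain ⟨c, σm, hc, hσm, hσm2, h⟩ := polyW (two f) hs k g η κ hk hη hκ
  rw [Fintype.card_fin] at h
  refine ⟨c, σm, hc, hσm, hσm2, fun σ hσ hσσ => ?_⟩
  obtain ⟨L, H₀, h⟩ := h σ hσ hσσ
  refine ⟨L, H₀, fun Y H A hH hY hA hAr hAc => ?_⟩
  refine h Y H A hH hY hA ?_ hAc
  intro n hn i p hp hpH hd
  obtain ⟨h1, h2⟩ := hAr n hn p hp hpH
  fin_cases i
  · apply h1
    have : (two f ((fun i => i) 0)).eval (n : ℤ) = n := by
      show (X : ℤ[X]).eval (n : ℤ) = n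
      rw [eval_X]
    have hd' : (p : ℤ) ∣ (n : ℤ) := by
      rw [← this]
      exact hd
    exact Int.natCast_dvd_natCast.1 hd'
  · exact h2 hd

open Classical in
/-- primes at which the second value has few prime factors -/
theorem expN (f : ℤ[X]) (hs : Sys (two f)) (P : Set ℕ) (s : ℝ) (hs1 : 1 ≤ s)
    (hP : ∀ m ∈ P, m.Prime ∧ ∀ q : ℕ, q.Prime → (q : ℤ) ∣ f.eval (m : ℤ) → (m : ℝ) ^ (1 / s) < (q : ℝ))
    (κ : ℝ) (hκ : 0 < κ) (hN : ∀ᶠ X : ℕ in atTop, κ * X / Real.log X ^ 2 ≤ N P X (2 * X))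
    (k : ℕ) (hk : 1 ≤ k) :
    ∃ c σm : ℝ, 0 < c ∧ 0 < σm ∧ σm ≤ 1 / 2 ∧ ∀ σ : ℝ, 0 < σ → σ ≤ σm → ∃ L : ℕ, ∀ᶠ x : ℕ in atTop,
      Shapes k 2 c σ L x ((Ioc x (2 * x)).filter (fun n => n ∈ P)) := by
  have hs0 : 0 < s := by linarith
  obtain ⟨c, σm, hc, hσm, hσm2, h⟩ := twoN f hs k 1 (1 / s) κ hk (by positivity) hκ
  refine ⟨c, σm, hc, hσm, hσm2, fun σ hσ hσσ => ?_⟩
  obtain ⟨L, H₀, hD⟩ := h σ hσ hσσ
  refine ⟨L, ?_⟩
  filter_upwards [hN, eventually_ge_atTop (max H₀ 2)] with x h1 h2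
  have hx2 : 2 ≤ x := (le_max_right _ _).trans h2
  have hxr : (1 : ℝ) < x := by exact_mod_cast (by omega : 1 < x)
  refine hD x x _ ((le_max_left _ _).trans h2) (by rw [pow_one]) ?_ ?_ ?_
  · rw [← two_mul]
    exact filter_subset _ _
  · intro m hm p hp hpx
    rw [mem_filter, mem_Ioc] at hm
    obtain ⟨⟨hm1, hm2⟩, hmP⟩ := hm
    obtain ⟨h3, h4⟩ := hP m hmP
    have hmr : (x : ℝ) < m := by exact_mod_cast hm1
    constructor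
    · intro hd
      have h5 := (Nat.prime_dvd_prime_iff_eq hp h3).1 hd
      have h6 : (x : ℝ) < p := by
        rw [h5]
        exact hmr
      have h7 : (x : ℝ) ^ (1 / s) ≤ x := by
        nth_rewrite 2 [← Real.rpow_one (x : ℝ)]
        exact Real.rpow_le_rpow_of_exponent_le hxr.le (by rw [div_le_one hs0]; exact hs1)
      linarith
    · intro hd
      have h8 := h4 p hp hd
      have h9 : (x : ℝ) ^ (1 / s) ≤ (m : ℝ) ^ (1 / s) :=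
        Real.rpow_le_rpow (by linarith) hmr.le (by positivity)
      linarith
  · rw [← mul_div_assoc]
    refine h1.trans ?_
    unfold Pool.Agent.TH977.PW.N
    apply Nat.cast_le.2
    apply card_le_card
    intro n hn
    rw [mem_filter] at hn
    exact mem_filter.2 hn

open Pool.Agent.TH464.PW (quad quad_eval quad_deg quad_lead quad_irr)
open Pool.Agent.W182.PW (lin lin_eval lin_irr lin_deg lin_lead lin_ne_X)

open Classical in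
/-- a linear form at primes: at most three prime factors, every narrow shape -/
theorem linN3 (a : ℕ) (b : ℤ) (ha : 0 < a) (hab : IsCoprime (a : ℤ) b) (hX : ¬ (a = 1 ∧ b = 0))
    (hpos : -2 * (a : ℤ) ≤ b)
    (hadm : ∀ p : ℕ, p.Prime → ∃ m : ℕ, ¬ p ∣ m ∧ ¬ (p : ℤ) ∣ a * (m : ℤ) + b)
    (v : ℕ → ℕ) (hv : ∀ m : ℕ, 2 ≤ m → (a : ℤ) * m + b = v m) (k : ℕ) (hk : 1 ≤ k) :
    ∃ c σm : ℝ, 0 < c ∧ 0 < σm ∧ σm ≤ 1 / 2 ∧ ∀ σ : ℝ, 0 < σ → σ ≤ σm → ∃ L : ℕ, ∀ᶠ x : ℕ in atTop,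
      Shapes k 2 c σ L x ((Ioc x (2 * x)).filter (EP v 3 5 x)) := by
  obtain ⟨κ, hκ, hN⟩ := cntL a b ha hab hX hpos hadm
  have hs := sys_two (lin a b) (lin_irr a b ha hab) (lin_deg a b ha) (lin_lead a b ha)
    (lin_ne_X hX).symm
    (fun p hp => by
      obtain ⟨m, h1, h2⟩ := hadm p hp
      exact ⟨m, h1, by rwa [lin_eval]⟩)
  have hTL : ∀ m ∈ TL a b, m.Prime ∧ (v m).primeFactorsList.length ≤ 3 ∧
      ∀ q : ℕ, q.Prime → q ∣ v m → (m : ℝ) ^ (1 / (5 : ℝ)) < (q : ℝ) := by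
    intro m hm
    obtain ⟨h1, h2, h3⟩ := hm
    have e : ((a : ℤ) * m + b).toNat = v m := by rw [hv m h1.two_le, Int.toNat_natCast]
    rw [e] at h2 h3
    exact ⟨h1, h3, h2⟩
  obtain ⟨c, σm, hc, hσm, hσm2, h⟩ := expN (lin a b) hs (TL a b) 5 (by norm_num) (fun m hm => ⟨(hTL m hm).1, fun q hq hd => by
    refine (hTL m hm).2.2 q hq ?_
    rw [lin_eval, hv m (hTL m hm).1.two_le, Int.natCast_dvd_natCast] at hd
    exact hd⟩) κ hκ hN k hk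
  refine ⟨c, σm, hc, hσm, hσm2, fun σ hσ hσσ => ?_⟩
  obtain ⟨L, h⟩ := h σ hσ hσσ
  refine ⟨L, ?_⟩
  filter_upwards [h, eventually_ge_atTop 3] with x hx hx3
  refine hx.mono hx3 le_rfl le_rfl (fun n hn => ?_)
  rw [mem_filter] at hn ⊢
  obtain ⟨h1, h2, h3⟩ := hTL n hn.2
  refine ⟨hn.1, h1, h2, fun q hq hd => lt_of_le_of_lt ?_ (h3 q hq hd)⟩
  exact Real.rpow_le_rpow (by positivity) (by exact_mod_cast (mem_Ioc.1 hn.1).1.le) (by norm_num)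

open Classical in
/-- a quadratic polynomial at primes: at most five prime factors, every narrow shape -/
theorem quadN5 (a b c : ℤ) (ha : 0 < a)
    (hg : ∀ p : ℕ, p.Prime → ¬ ((p : ℤ) ∣ a ∧ (p : ℤ) ∣ b ∧ (p : ℤ) ∣ c))
    (hD : ¬ IsSquare (b ^ 2 - 4 * a * c))
    (hpos : ∀ m : ℕ, 2 ≤ m → 0 ≤ a * (m : ℤ) ^ 2 + b * m + c)
    (hadm : ∀ p : ℕ, p.Prime → ∃ m : ℕ, ¬ p ∣ m ∧ ¬ (p : ℤ) ∣ a * (m : ℤ) ^ 2 + b * m + c)
    (v : ℕ → ℕ) (hv : ∀ m : ℕ, 2 ≤ m → a * (m : ℤ) ^ 2 + b * m + c = v m) (k : ℕ) (hk : 1 ≤ k) :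
    ∃ c σm : ℝ, 0 < c ∧ 0 < σm ∧ σm ≤ 1 / 2 ∧ ∀ σ : ℝ, 0 < σ → σ ≤ σm → ∃ L : ℕ, ∀ᶠ x : ℕ in atTop,
      Shapes k 2 c σ L x ((Ioc x (2 * x)).filter (EP v 5 7 x)) := by
  obtain ⟨κ, hκ, hN⟩ := cntQ a b c ha hg hD hpos hadm
  have hX : (X : ℤ[X]) ≠ quad a b c := by
    intro h
    have h2 := congrArg natDegree h
    rw [quad_deg a b c ha.ne', natDegree_X] at h2
    omega
  have hs := sys_two (quad a b c) (quad_irr a b c ha.ne' hg hD)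
    (by rw [quad_deg a b c ha.ne']; norm_num) (by rw [quad_lead a b c ha.ne']; exact ha) hX
    (fun p hp => by
      obtain ⟨m, h1, h2⟩ := hadm p hp
      exact ⟨m, h1, by rwa [quad_eval]⟩)
  have hTQ : ∀ m ∈ TQ a b c, m.Prime ∧ (v m).primeFactorsList.length ≤ 5 ∧
      ∀ q : ℕ, q.Prime → q ∣ v m → (m : ℝ) ^ (1 / (7 : ℝ)) < (q : ℝ) := by
    intro m hm
    obtain ⟨h1, h2, h3⟩ := hm
    have e : (a * (m : ℤ) ^ 2 + b * m + c).toNat = v m := by rw [hv m h1.two_le, Int.toNat_natCast]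
    rw [e] at h2 h3
    exact ⟨h1, h3, h2⟩
  obtain ⟨c', σm, hc, hσm, hσm2, h⟩ := expN (quad a b c) hs (TQ a b c) 7 (by norm_num) (fun m hm => ⟨(hTQ m hm).1, fun q hq hd => by
    refine (hTQ m hm).2.2 q hq ?_
    rw [quad_eval, hv m (hTQ m hm).1.two_le, Int.natCast_dvd_natCast] at hd
    exact hd⟩) κ hκ hN k hk
  refine ⟨c', σm, hc, hσm, hσm2, fun σ hσ hσσ => ?_⟩
  obtain ⟨L, h⟩ := h σ hσ hσσ
  refine ⟨L, ?_⟩
  filter_upwards [h, eventually_ge_atTop 3] with x hx hx3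
  refine hx.mono hx3 le_rfl le_rfl (fun n hn => ?_)
  rw [mem_filter] at hn ⊢
  obtain ⟨h1, h2, h3⟩ := hTQ n hn.2
  refine ⟨hn.1, h1, h2, fun q hq hd => lt_of_le_of_lt ?_ (h3 q hq hd)⟩
  exact Real.rpow_le_rpow (by positivity) (by exact_mod_cast (mem_Ioc.1 hn.1).1.le) (by norm_num)

end Pool.Agent.H534.NW
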