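import Pool.Agent.H534.NW.LinW

/-!
# Uniform systems of polynomials at every narrow shape
-/

set_option autoImplicit false

open Finset Filter Polynomial

namespace Pool.Agent.H534.NW

open Pool.Agent.H534.RS hiding majW classes engP
open Pool.Agent.H534.RT
open Pool.Agent.Y677.RSZ hiding Sys V_pos fac_pos V_lower
open Pool.Agent.W123.RP Pool.Agent.H373R2.T7 Pool.Agent.W123.RU Pool.Agent.W123.RU.Poly
open Pool.Agent.Y879.GL (US us_adm us_perB)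

open Classical in
/-- **Dense sets, uniformly in the system.** -/
theorem genAW (s D E k : ℕ) (η κ : ℝ) (hk : 1 ≤ k) (hE : 1 ≤ E) (hη : 0 < η) (hκ : 0 < κ) :
    ∃ c σm : ℝ, 0 < c ∧ 0 < σm ∧ σm ≤ 1 / 2 ∧ ∀ σ : ℝ, 0 < σ → σ ≤ σm → ∃ L H₀ : ℕ,
    ∀ (H Y : ℕ) (f : Fin s → ℤ[X]) (A : Finset ℕ), H₀ ≤ H → US s D ((H : ℝ) ^ E) 0 f →
    (∀ b : Fin k → ℕ, NT (WS σ b H) H f) → Y ≤ H ^ E →
    (∀ n ∈ Ioc Y (Y + H), ∀ i, (f i).eval (n : ℤ) ≠ 0) → A ⊆ Ioc Y (Y + H) →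
    (∀ n ∈ A, ∀ i, ∀ p : ℕ, p.Prime → (p : ℝ) ≤ (H : ℝ) ^ η → ¬ (p : ℤ) ∣ (f i).eval (n : ℤ)) →
    κ * (H * Vq (Poly.Q f) H) ≤ A.card → ShapesV k (Vq (Poly.Q f) H) c σ L H A := by
  obtain ⟨c, σm, hc, hσm, hσm2, heng⟩ := engV k (gE s D E) (s * D + 1) η κ hk hη hκ
  refine ⟨c, σm, hc, hσm, hσm2, fun σ hσ hσσ => ?_⟩
  obtain ⟨L, H₁, heng⟩ := heng σ hσ hσσ
  refine ⟨L, max H₁ ((2 * D).factorial + (D + 1) * 2 ^ D + 1), fun H Y f A hH hf hNT hY hne hA hAr hAc => ?_⟩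
  have hH1 : H₁ ≤ H := (le_max_left _ _).trans hH
  have hH3 : (2 * D).factorial + (D + 1) * 2 ^ D + 1 ≤ H := (le_max_right _ _).trans hH
  have hVF : ∀ z, V (fun n => (∏ i, f i).eval n) 1 z = Vq (Poly.Q f) z := fun z => V_eq f z
  rw [← hVF H] at hAc ⊢
  refine heng (fun n => (∏ i, f i).eval n) Y H A (fun sh => sysU_of_us D E H _ hH3 f hf (hNT sh)) (sys0_of_us hf)
    hH1 ?_ hA ?_ hAc
  · intro n hn
    refine ⟨?_, ?_⟩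
    · show (∏ i, f i).eval (n : ℤ) ≠ 0
      rw [eval_prod]
      exact Finset.prod_ne_zero_iff.2 fun i _ => hne n hn i
    · apply size_of_us D E H hE hH3 f hf
      rw [mem_Ioc] at hn
      have h1 : ((n : ℤ) : ℝ) = (n : ℝ) := Int.cast_natCast n
      rw [h1, abs_of_nonneg (Nat.cast_nonneg n)]
      have h2 : (n : ℝ) ≤ ((Y + H : ℕ) : ℝ) := by exact_mod_cast hn.2
      push_cast at h2
      have h3 : (Y : ℝ) ≤ (H : ℝ) ^ E := by exact_mod_cast hY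
      linarith
  · intro n hn p hp hpH hd
    obtain ⟨i, hi⟩ := (prod_dvd_iff f p hp n).1 hd
    exact hAr n hn i p hp hpH hi

open Classical in
/-- **A prime and almost primes, uniformly in the system.** -/
theorem genBW (s D E : ℕ) (hE : 1 ≤ E) : ∃ r₀ : ℕ, 2 ≤ r₀ ∧ ∀ r : ℕ, r₀ ≤ r → ∀ (k : ℕ) (κ' : ℝ), 1 ≤ k → 0 < κ' →
    ∃ c σm : ℝ, 0 < c ∧ 0 < σm ∧ σm ≤ 1 / 2 ∧ ∀ σ : ℝ, 0 < σ → σ ≤ σm → ∃ L : ℕ, ∀ᶠ x : ℕ in atTop,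
    ∀ f : Fin s → ℤ[X], US s D ((x : ℝ) ^ E) 0 f → (∃ i, ∀ n : ℕ, (f i).eval (n : ℤ) = n) →
    (∀ b : Fin k → ℕ, NT (WS σ b x) x f) → (∀ n ∈ Ioc x (x + x), ∀ i, (f i).eval (n : ℤ) ≠ 0) →
    ∀ Q : Finset ℕ, (∀ p ∈ Ioc x (2 * x), p.Prime →
      (∀ i, ∀ q : ℕ, q.Prime → (q : ℝ) ≤ (x : ℝ) ^ (1 / (r : ℝ)) → ¬ (q : ℤ) ∣ (f i).eval (p : ℤ)) → p ∈ Q) →
    (∀ n ∈ Q, n ∈ Ioc x (2 * x) ∧
      ∀ i, ∀ q : ℕ, q.Prime → (q : ℝ) ≤ (x : ℝ) ^ (1 / (r : ℝ)) → ¬ (q : ℤ) ∣ (f i).eval (n : ℤ)) →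
    ∀ A ⊆ Q, κ' * Q.card ≤ A.card → ShapesV k (Vq (Poly.Q f) x) c σ L x A := by
  obtain ⟨r₀, hr₀, hm⟩ := genP s D E
  refine ⟨r₀, hr₀, fun r hr k κ' hk hκ' => ?_⟩
  obtain ⟨κ, hκ, hκx⟩ := hm r hr
  have hr0 : (0 : ℝ) < r := by exact_mod_cast (by omega : 0 < r)
  obtain ⟨c, σm, hc, hσm, hσm2, hA⟩ := genAW s D E k (1 / r) (κ' * κ) hk hE (by positivity) (by positivity)
  refine ⟨c, σm, hc, hσm, hσm2, fun σ hσ hσσ => ?_⟩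
  obtain ⟨L, H₀, hA⟩ := hA σ hσ hσσ
  refine ⟨L, ?_⟩
  filter_upwards [hκx, eventually_ge_atTop (max H₀ 1)] with x h1 h2 f hf hbase hNT hne Q hPQ hQ A hAQ hAc
  have hx1 : 1 ≤ x := (le_max_right _ _).trans h2
  refine hA x x f A ((le_max_left _ _).trans h2) hf hNT
    (by nth_rewrite 1 [← pow_one x]; exact Nat.pow_le_pow_right hx1 hE) hne ?_ ?_ ?_
  · intro n hn
    rw [← two_mul]
    exact (hQ n (hAQ hn)).1
  · intro n hn i p hp hpx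
    exact (hQ n (hAQ hn)).2 i p hp hpx
  · refine le_trans ?_ hAc
    rw [mul_assoc]
    refine mul_le_mul_of_nonneg_left ((h1 f hf hbase).trans ?_) hκ'.le
    apply Nat.cast_le.2
    apply card_le_card
    intro p hp
    rw [mem_filter] at hp
    exact hPQ p hp.1 hp.2.1 hp.2.2

end Pool.Agent.H534.NW
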