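import Pool.Agent.H534.NW.LinW
import Pool.Agent.H534.RT.GoldS

/-!
# Goldbach pairs at every narrow shape, uniformly in the even number
-/

set_option autoImplicit false

open Finset Filter Polynomial

namespace Pool.Agent.H534.NW

open Pool.Agent.H534.RS hiding majW classes engP
open Pool.Agent.H534.RT
open Pool.Agent.Y677.RSZ hiding Sys V_pos fac_pos V_lower
open Pool.Agent.W123.RP Pool.Agent.H373R2.T7 Pool.Agent.W123.RU Pool.Agent.W123.RU.Poly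
open Pool.Agent.Y879.GL (US us_adm us_perB lf lf_eval us_lf lf_assoc)
open Pool.Agent.Q236.GW (gl gl_us gl_V gl_Q SG VG VG_formula SG_formula Cz Cz_low Cz_anti C2 C2_low VGX_order)

open Classical in
theorem ShapesV.mono {k L L' H : ℕ} {c c' σ v v' : ℝ} {A A' : Finset ℕ} (h : ShapesV k v c σ L H A) (hH : 3 ≤ H)
    (hc : c' ≤ c) (hv : c' * v' ^ (k + 1) ≤ c * v ^ (k + 1)) (hL : L ≤ L') (hA : A ⊆ A') :
    ShapesV k v' c' σ L' H A' := by
  intro X b hX hb hb1 hb2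
  have hl1 : 1 ≤ Real.log (H : ℝ) := by
    rw [Real.le_log_iff_exp_le (by positivity)]
    have h1 := Real.exp_one_lt_d9
    have h2 : (3 : ℝ) ≤ H := by exact_mod_cast hH
    linarith
  have h1 := h X b ((pow_le_pow_right₀ hl1 hL).trans hX) hb hb1 hb2
  calc c' * (X : ℝ) ≤ c * X := by gcongr
    _ ≤ _ := h1
    _ ≤ _ := by
      apply Nat.cast_le.2
      apply card_le_card
      intro d hd
      rw [mem_filter] at hd ⊢
      refine ⟨hd.1, le_trans ?_ (hd.2.trans ?_)⟩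
      · have : (H : ℝ) * (c' * v' ^ (k + 1)) ≤ H * (c * v ^ (k + 1)) := by gcongr
        linarith
      · apply Nat.cast_le.2
        apply card_le_card
        intro n hn
        rw [mem_filter] at hn ⊢
        exact ⟨hA hn.1, fun i => hA (hn.2 i)⟩

open Classical in
/-- translation -/
theorem ShapesV.shift {k L H : ℕ} {c σ v : ℝ} {A : Finset ℕ} (u : ℕ)
    (h : ShapesV k v c σ L H (A.image (fun n => n + u))) : ShapesV k v c σ L H A := by
  intro X b hX hb hb1 hb2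
  refine (h X b hX hb hb1 hb2).trans ?_
  have hmem : ∀ n : ℕ, n + u ∈ A.image (fun n => n + u) ↔ n ∈ A := by
    intro n
    rw [mem_image]
    constructor
    · rintro ⟨m, hm, hmn⟩
      have : m = n := by omega
      rwa [← this]
    · intro hn
      exact ⟨n, hn, rfl⟩
  apply Nat.cast_le.2
  apply card_le_card
  intro d hd
  rw [mem_filter] at hd ⊢
  refine ⟨hd.1, hd.2.trans ?_⟩
  apply Nat.cast_le.2
  have hinj : Set.InjOn (fun n : ℕ => n + u) (A.filter (fun n => ∀ i, n + WS σ b H * d * b i ∈ A)) := by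
    intro a _ b _ hab
    simp only at hab
    omega
  rw [← card_image_of_injOn hinj]
  apply card_le_card
  intro n hn
  rw [mem_filter] at hn
  obtain ⟨h1, h2⟩ := hn
  obtain ⟨m, hm, rfl⟩ := mem_image.1 h1
  refine mem_image.2 ⟨m, mem_filter.2 ⟨hm, fun i => ?_⟩, rfl⟩
  have h3 := h2 i
  rw [← hmem]
  have e : m + WS σ b H * d * b i + u = m + u + WS σ b H * d * b i := by ring
  rw [e]
  exact h3

open Classical in
/-- **Every narrow shape, uniformly in the pair.** -/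
theorem pairPW (E r : ℕ) (hE : 1 ≤ E) (hr : 1 ≤ r) (δ κ : ℝ) (hδ : 0 < δ) (hκ : 0 < κ) :
    ∃ c σm : ℝ, 0 < c ∧ 0 < σm ∧ σm ≤ 1 / 2 ∧ ∀ σ : ℝ, 0 < σ → σ ≤ σm → ∃ L H₀ : ℕ,
    ∀ H : ℕ, H₀ ≤ H → ∀ a d : ℤ, IsCoprime a d → Even (a * d) → a ≠ 0 → d ≠ 0 →
    |(a : ℝ)| ≤ (H : ℝ) ^ E → |(d : ℝ)| ≤ (H : ℝ) ^ E → (d = 1 ∨ d = -1 → (H : ℝ) < |(a : ℝ)|) →
    ∀ (Y : ℕ) (A : Finset ℕ), (Y : ℝ) ≤ (H : ℝ) ^ E →
    (∀ n ∈ Ioc Y (Y + H), a + d * (n : ℤ) ≠ 0) → A ⊆ Ioc Y (Y + H) →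
    (∀ n ∈ A, ∀ p : ℕ, p.Prime → (p : ℝ) ≤ (H : ℝ) ^ δ → ¬ (p : ℤ) ∣ (n : ℤ) * (a + d * n)) →
    κ * (SG (a * d).natAbs * (H / Real.log H ^ 2)) ≤ A.card →
    ShapesV r (SG (a * d).natAbs / Real.log H ^ 2) c σ L H A := by
  obtain ⟨c₁, c₂, hc₁, hc₂, hord⟩ := VGX_order E
  obtain ⟨c, σm, hc, hσm, hσm2, heng⟩ := engV r (gE 2 1 E) (2 * 1 + 1) δ (κ / c₂) hr hδ (by positivity)
  refine ⟨min c (c * c₁ ^ (r + 1)), σm, lt_min hc (by positivity), hσm, hσm2, fun σ hσ hσσ => ?_⟩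
  obtain ⟨L, H₁, heng⟩ := heng σ hσ hσσ
  obtain ⟨H₃, hH₃⟩ := eventually_atTop.1 hord
  refine ⟨L, max (max H₁ 3) H₃ + ((2 * 1).factorial + (1 + 1) * 2 ^ 1 + 1), ?_⟩
  intro H hH a d had hev ha hd haH hdH hU Y A hY hne hA hAr hAc
  have hH' : max (max H₁ 3) H₃ ≤ H := by omega
  have hH4 : (2 * 1).factorial + (1 + 1) * 2 ^ 1 + 1 ≤ H := by omega
  have hH1 : H₁ ≤ H := ((le_max_left _ _).trans (le_max_left _ _)).trans hH'
  have hH2 : 3 ≤ H := ((le_max_right _ _).trans (le_max_left _ _)).trans hH'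
  have hH3 : H₃ ≤ H := (le_max_right _ _).trans hH'
  have hH16 : (3 : ℝ) ≤ H := by exact_mod_cast hH2
  have hH0 : (0 : ℝ) < H := by linarith
  have hlog : 0 < Real.log (H : ℝ) := Real.log_pos (by linarith)
  have haE : |(a : ℝ)| ≤ (H : ℝ) ^ (E : ℝ) := by rw [Real.rpow_natCast]; exact haH
  have hdE : |(d : ℝ)| ≤ (H : ℝ) ^ (E : ℝ) := by rw [Real.rpow_natCast]; exact hdH
  obtain ⟨o1, o2⟩ := hH₃ H hH3 a d had hev ha hd haE hdE
  have hus : US 2 1 ((H : ℝ) ^ E) H (gl a d) := gl_us a d hd had hev _ _ (one_le_pow₀ (by linarith)) haH hdH hU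
  have hus0 : US 2 1 ((H : ℝ) ^ E) 0 (gl a d) := gl_us a d hd had hev _ 0 (one_le_pow₀ (by linarith)) haH hdH
    (fun h => lt_trans hH0 (hU h))
  have hNT : ∀ W : ℕ, NT W H (gl a d) := fun W i j t ht1 htH _ => hus.tr i j t ht1 (by exact_mod_cast htH)
  have hVF : ∀ z, V (fun n => (∏ i, gl a d i).eval n) 1 z = Vq (Poly.Q (gl a d)) z := fun z => V_eq _ z
  have h1 := heng (fun n => (∏ i, gl a d i).eval n) Y H A (fun sh => sysU_of_us 1 E H _ hH4 (gl a d) hus0 (hNT _))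
    (sys0_of_us hus0) hH1
    (by
      intro n hn
      refine ⟨?_, ?_⟩
      · show (∏ i, gl a d i).eval (n : ℤ) ≠ 0
        rw [eval_prod]
        exact Finset.prod_ne_zero_iff.2 fun i _ => gl_ne a d n (by have := mem_Ioc.1 hn; omega) (hne n hn) i
      · apply size_of_us 1 E H hE hH4 (gl a d) hus0
        rw [mem_Ioc] at hn
        have h1 : ((n : ℤ) : ℝ) = (n : ℝ) := Int.cast_natCast n
        rw [h1, abs_of_nonneg (Nat.cast_nonneg n)]
        have h2 : (n : ℝ) ≤ ((Y + H : ℕ) : ℝ) := by exact_mod_cast hn.2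
        push_cast at h2
        linarith)
    hA
    (by
      intro n hn p hp hpH hdv
      obtain ⟨i, hi⟩ := (prod_dvd_iff (gl a d) p hp n).1 hdv
      exact hAr n hn p hp hpH (gl_dvd a d p n i hi))
    (by
      rw [hVF]
      refine le_trans ?_ hAc
      calc κ / c₂ * (H * Vq (Poly.Q (gl a d)) H) ≤ κ / c₂ * (H * (c₂ * (SG (a * d).natAbs / Real.log H ^ 2))) := by gcongr
        _ = _ := by field_simp)
  rw [hVF] at h1
  have hS0 : 0 < SG (a * d).natAbs := Pool.Agent.Q236.GW.SG_pos _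
  refine h1.mono hH2 (min_le_left _ _) ?_ le_rfl (Subset.refl _)
  have hpos : 0 ≤ SG (a * d).natAbs / Real.log (H : ℝ) ^ 2 := by positivity
  calc min c (c * c₁ ^ (r + 1)) * (SG (a * d).natAbs / Real.log H ^ 2) ^ (r + 1) ≤
      c * c₁ ^ (r + 1) * (SG (a * d).natAbs / Real.log H ^ 2) ^ (r + 1) := by
        gcongr
        exact min_le_right _ _
    _ = c * (c₁ * (SG (a * d).natAbs / Real.log H ^ 2)) ^ (r + 1) := by rw [mul_pow c₁]; ring
    _ ≤ _ := by gcongr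

open Classical in
/-- **Goldbach pairs: relatively dense sets.** -/
theorem goldAW (k E : ℕ) (η κ : ℝ) (hk : 1 ≤ k) (hE : 1 ≤ E) (hη : 0 < η) (hκ : 0 < κ) :
    ∃ c σm : ℝ, 0 < c ∧ 0 < σm ∧ σm ≤ 1 / 2 ∧ ∀ σ : ℝ, 0 < σ → σ ≤ σm → ∃ L H₀ : ℕ,
    ∀ (N Y H : ℕ) (A : Finset ℕ), H₀ ≤ H → Even N → Y + H < N → N ≤ H ^ E →
    A ⊆ Ioc Y (Y + H) →
    (∀ n ∈ A, ∀ p : ℕ, p.Prime → (p : ℝ) ≤ (H : ℝ) ^ η → ¬ p ∣ n ∧ ¬ p ∣ N - n) →
    κ * (SG N * (H / Real.log H ^ 2)) ≤ A.card → ShapesV k (SG N / Real.log H ^ 2) c σ L H A := by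
  obtain ⟨c, σm, hc, hσm, hσm2, h⟩ := pairPW E k hE hk η κ hη hκ
  refine ⟨c, σm, hc, hσm, hσm2, fun σ hσ hσσ => ?_⟩
  obtain ⟨L, H₀, h⟩ := h σ hσ hσσ
  refine ⟨L, max H₀ 2, fun N Y H A hH hN hYN hNE hA hAr hAc => ?_⟩
  have hH0 : H₀ ≤ H := (le_max_left _ _).trans hH
  have hH2 : 2 ≤ H := (le_max_right _ _).trans hH
  have hHr : (1 : ℝ) < H := by exact_mod_cast (by omega : 1 < H)
  have hab : ((N : ℤ) * (-1)).natAbs = N := by simp
  have h1 := h H hH0 (N : ℤ) (-1) isCoprime_one_right.neg_right (by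
      obtain ⟨w, hw⟩ := hN
      exact ⟨-w, by rw [hw]; push_cast; ring⟩) (by omega) (by norm_num)
    (by
      rw [Int.cast_natCast, abs_of_nonneg (Nat.cast_nonneg _)]
      exact_mod_cast hNE)
    (by
      simp only [Int.cast_neg, Int.cast_one, abs_neg, abs_one]
      exact one_le_pow₀ hHr.le)
    (fun _ => by
      rw [Int.cast_natCast, abs_of_nonneg (Nat.cast_nonneg _)]
      exact_mod_cast (by omega : H < N))
    Y A (by
      have : Y ≤ H ^ E := by omega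
      exact_mod_cast this)
    (fun n hn => by have := mem_Ioc.1 hn; omega) hA
    (fun n hn p hp hpH hd => by
      obtain ⟨h1, h2⟩ := hAr n hn p hp hpH
      have hn' := mem_Ioc.1 (hA hn)
      rcases (Nat.prime_iff_prime_int.1 hp).dvd_or_dvd hd with h3 | h3
      · exact h1 (by exact_mod_cast h3)
      · apply h2
        have : ((N - n : ℕ) : ℤ) = (N : ℤ) + -1 * (n : ℤ) := by
          rw [Nat.cast_sub (by omega)]; ring
        rw [← this] at h3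
        exact_mod_cast h3)
    (by rw [hab]; exact hAc)
  rw [hab] at h1
  exact h1

open Classical in
/-- **Goldbach pairs: a prime and an almost prime.** -/
theorem goldBW (E : ℕ) (hE : 1 ≤ E) : ∃ r₀ : ℕ, 2 ≤ r₀ ∧ ∀ r : ℕ, r₀ ≤ r → ∀ (k : ℕ) (κ' : ℝ), 1 ≤ k → 0 < κ' →
    ∃ c σm : ℝ, 0 < c ∧ 0 < σm ∧ σm ≤ 1 / 2 ∧ ∀ σ : ℝ, 0 < σ → σ ≤ σm → ∃ L : ℕ, ∀ᶠ x : ℕ in atTop,
    ∀ N : ℕ, Even N → 2 * x < N → N ≤ x ^ E →
    ∀ A ⊆ GP N x r, κ' * (GP N x r).card ≤ A.card → ShapesV k (SG N / Real.log x ^ 2) c σ L x A := by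
  obtain ⟨r₀, hr₀, hm⟩ := gp_many E hE
  refine ⟨r₀, hr₀, fun r hr k κ' hk hκ' => ?_⟩
  obtain ⟨κ, hκ, hκx⟩ := hm r hr
  have hr0 : (0 : ℝ) < r := by exact_mod_cast (by omega : 0 < r)
  obtain ⟨c, σm, hc, hσm, hσm2, h⟩ := goldAW k E (1 / r) (κ' * κ) hk hE (by positivity) (by positivity)
  refine ⟨c, σm, hc, hσm, hσm2, fun σ hσ hσσ => ?_⟩
  obtain ⟨L, H₀, h⟩ := h σ hσ hσσ
  refine ⟨L, ?_⟩
  filter_upwards [hκx, eventually_ge_atTop (max H₀ 1)] with x h1 h2 N hN hxN hNE A hA hAc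
  have hx1 : 1 ≤ x := (le_max_right _ _).trans h2
  refine h N x x A ((le_max_left _ _).trans h2) hN (by omega) hNE ?_ ?_ ?_
  · rw [← two_mul]
    exact hA.trans (filter_subset _ _)
  · intro m hm' p hp hpx
    have hm := hA hm'
    unfold GP at hm
    rw [mem_filter, mem_Ioc] at hm
    obtain ⟨⟨hm1, hm2⟩, h3, h4⟩ := hm
    constructor
    · intro hd
      have h5 := (Nat.prime_dvd_prime_iff_eq hp h3).1 hd
      have h6 : (x : ℝ) < p := by
        rw [h5]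
        exact_mod_cast hm1
      have h7 : (x : ℝ) ^ (1 / (r : ℝ)) ≤ x := by
        nth_rewrite 2 [← Real.rpow_one (x : ℝ)]
        apply Real.rpow_le_rpow_of_exponent_le (by exact_mod_cast hx1)
        rw [div_le_one hr0]
        have : 1 ≤ r := by omega
        exact_mod_cast this
      linarith
    · intro hd
      have := h4 p hp hd
      linarith
  · refine le_trans ?_ hAc
    rw [mul_assoc]
    exact mul_le_mul_of_nonneg_left (h1 N hN hxN hNE) hκ'.le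

open Classical in
/-- **Goldbach pairs of almost primes in all intervals.** -/
theorem goldSW : ∃ r₀ : ℕ, 2 ≤ r₀ ∧ ∀ r : ℕ, r₀ ≤ r → ∀ (k E : ℕ) (κ' : ℝ), 1 ≤ k → 1 ≤ E → 0 < κ' →
    ∃ c σm : ℝ, 0 < c ∧ 0 < σm ∧ σm ≤ 1 / 2 ∧ ∀ σ : ℝ, 0 < σ → σ ≤ σm → ∃ L : ℕ, ∀ᶠ H : ℕ in atTop,
    ∀ N Y : ℕ, Even N → H ≤ Y → Y + H < N → N ≤ H ^ E →
    ∀ A ⊆ GS N Y H r, κ' * (GS N Y H r).card ≤ A.card → ShapesV k (SG N / Real.log H ^ 2) c σ L H A := by
  obtain ⟨r₀, hr₀, hm⟩ := genS 2 1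
  refine ⟨r₀, hr₀, fun r hr k E κ' hk hE hκ' => ?_⟩
  have hr0 : (0 : ℝ) < r := by exact_mod_cast (by omega : 0 < r)
  obtain ⟨c₁, c₂, hc₁, hc₂, hord⟩ := VGX_order E
  obtain ⟨c, σm, hc, hσm, hσm2, hA⟩ := goldAW k E (1 / r) (κ' * (1 / 2 * c₁)) hk hE (by positivity) (by positivity)
  refine ⟨c, σm, hc, hσm, hσm2, fun σ hσ hσσ => ?_⟩
  obtain ⟨L, H₀, hA⟩ := hA σ hσ hσσ
  refine ⟨L, ?_⟩
  filter_upwards [hm r hr, hord, eventually_ge_atTop (max H₀ 2)] with H h1 h2 h3 N Y hN hHY hYN hNE A hAs hAc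
  have hH0 : H₀ ≤ H := (le_max_left _ _).trans h3
  have hH2 : 2 ≤ H := (le_max_right _ _).trans h3
  have hHr : (1 : ℝ) < H := by exact_mod_cast (by omega : 1 < H)
  have hab : ((N : ℤ) * (-1)).natAbs = N := by simp
  have hcop : IsCoprime (N : ℤ) (-1) := isCoprime_one_right.neg_right
  have hev : Even ((N : ℤ) * (-1)) := by
    obtain ⟨w, hw⟩ := hN
    exact ⟨-w, by rw [hw]; push_cast; ring⟩
  have hNR : |((N : ℤ) : ℝ)| ≤ (H : ℝ) ^ E := by
    rw [Int.cast_natCast, abs_of_nonneg (Nat.cast_nonneg _)]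
    exact_mod_cast hNE
  have h1R : |((-1 : ℤ) : ℝ)| ≤ (H : ℝ) ^ E := by
    simp only [Int.cast_neg, Int.cast_one, abs_neg, abs_one]
    exact one_le_pow₀ hHr.le
  have hus0 : US 2 1 ((H : ℝ) ^ E) 0 (gl (N : ℤ) (-1)) :=
    gl_us (N : ℤ) (-1) (by norm_num) hcop hev _ 0 (one_le_pow₀ hHr.le) hNR h1R
      (fun _ => by
        rw [Int.cast_natCast, abs_of_nonneg (Nat.cast_nonneg _)]
        exact_mod_cast (by omega : 0 < N))
  obtain ⟨o1, -⟩ := h2 (N : ℤ) (-1) hcop hev (by omega) (by norm_num)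
    (by rw [Real.rpow_natCast]; exact hNR) (by rw [Real.rpow_natCast]; exact h1R)
  rw [hab] at o1
  have h4 := h1 ((H : ℝ) ^ E) Y hHY (gl (N : ℤ) (-1)) hus0
  refine hA N Y H A hH0 hN hYN hNE (hAs.trans (filter_subset _ _)) ?_ ?_
  · intro n hn' p hp hpH
    have hn := hAs hn'
    unfold GS at hn
    rw [mem_filter] at hn
    constructor
    · intro hd
      have := hn.2 p hp (Or.inl hd)
      linarith
    · intro hd
      have := hn.2 p hp (Or.inr hd)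
      linarith
  · have h5 : 1 / 2 * c₁ * (SG N * (H / Real.log H ^ 2)) ≤ 1 / 2 * (H * Vq (Poly.Q (gl (N : ℤ) (-1))) H) := by
      calc 1 / 2 * c₁ * (SG N * (H / Real.log H ^ 2)) = 1 / 2 * (H * (c₁ * (SG N / Real.log H ^ 2))) := by ring
        _ ≤ _ := by gcongr
    refine le_trans ?_ hAc
    rw [mul_assoc]
    refine mul_le_mul_of_nonneg_left (h5.trans (h4.trans ?_)) hκ'.le
    apply Nat.cast_le.2
    unfold GS
    apply card_le_card
    intro n hn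
    rw [mem_filter] at hn ⊢
    refine ⟨hn.1, fun q hq hd => ?_⟩
    by_contra hcon
    rw [not_lt] at hcon
    have hn1 := mem_Ioc.1 hn.1
    rcases hd with hd | hd
    · apply hn.2 0 q hq hcon
      unfold gl Pool.Agent.Q236.GW.lfs
      rw [lf_eval]
      simp
      exact_mod_cast hd
    · apply hn.2 1 q hq hcon
      unfold gl Pool.Agent.Q236.GW.lfs
      rw [lf_eval]
      simp
      have h6 : ((N - n : ℕ) : ℤ) = -(n : ℤ) + N := by
        rw [Nat.cast_sub (by omega)]; ring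
      rw [← h6]
      exact_mod_cast hd

open Pool.Agent.Y848.UG (gb sys_gold)

open Classical in
/-- **Strings of primes `p` with `N - p` almost prime.** -/
theorem goldCW (m : ℕ) : ∃ η : ℝ, 0 < η ∧ ∃ B K : ℕ, ∀ (k E : ℕ) (κ : ℝ), 1 ≤ k → 0 < κ →
    ∃ c σm : ℝ, 0 < c ∧ 0 < σm ∧ σm ≤ 1 / 2 ∧ ∀ σ : ℝ, 0 < σ → σ ≤ σm → ∃ Lx x₀ : ℕ,
    ∀ x : ℕ, x₀ ≤ x → ∀ (N : ℕ) (L : ℕ), Even N → 2 * x < N → N ≤ x ^ E →
      K ≤ L → (L : ℝ) ≤ Real.log x / Real.log (Real.log x) ^ 2 →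
      ∃ P S : Finset ℕ, P ⊆ Icc 1 K ∧ m ≤ P.card ∧ S ⊆ Ioc (x / 2) (x / 2 + x) ∧
      (∀ n ∈ S, (∀ t : ℕ, 1 ≤ t → t ≤ L → ((n + t).Prime ↔ t ∈ P)) ∧
          ∀ t ∈ P, (n + t).Prime ∧ ∀ q : ℕ, q.Prime → q ∣ N - (n + t) → (x : ℝ) ^ η < q) ∧
      ∀ S' ⊆ S, κ * S.card ≤ S'.card → Shapes k B c σ Lx x S' := by
  obtain ⟨η, hη, B, K, h⟩ := cluN m 1
  refine ⟨η, hη, B, K, fun k E κ hk hκ => ?_⟩
  obtain ⟨c, σm, hc, hσm, hσm2, h1⟩ := h k E 0 κ hk hκ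
  refine ⟨c, σm, hc, hσm, hσm2, fun σ hσ hσσ => ?_⟩
  obtain ⟨Lx, x₀, h1⟩ := h1 σ hσ hσσ
  refine ⟨Lx, max x₀ (2 * K + 2), fun x hx N L hN hxN hNE hKL hL => ?_⟩
  have hx0 : x₀ ≤ x := (le_max_left _ _).trans hx
  have hxK : 2 * K + 2 ≤ x := (le_max_right _ _).trans hx
  have hxr : (1 : ℝ) < x := by exact_mod_cast (by omega : 1 < x)
  have hg0 : gb N 0 = -(N : ℤ) := rfl
  have hg1 : gb N 1 = 0 := rfl
  obtain ⟨P, S, hP1, hP2, hS1, hS2, hsh⟩ := h1 x hx0 (fun _ => 1) (gb N) L (sys_gold hN (by omega))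
    (fun l _ => by
      push_cast
      exact one_le_pow₀ hxr.le)
    (fun l hl => by
      interval_cases l
      · rw [hg0]
        push_cast
        rw [abs_neg, abs_of_nonneg (Nat.cast_nonneg _)]
        exact_mod_cast hNE
      · rw [hg1]
        simp)
    hKL hL
    (Or.inr (fun l hl _ => by
      interval_cases l
      left
      rw [hg0]
      push_cast
      omega))
    (fun l hl n hn1 hn2 => by
      interval_cases l
      · rw [hg0]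
        push_cast
        omega
      · rw [hg1]
        push_cast
        omega)
    (fun l hl l' hl' hne s t ht1 htx htW hst hts => by
      have : (l = 0 ∧ l' = 1) ∨ (l = 1 ∧ l' = 0) := by omega
      rcases this with ⟨rfl, rfl⟩ | ⟨rfl, rfl⟩
      · rw [hg0, hg1]
        push_cast
        omega
      · rw [hg0, hg1]
        push_cast
        omega)
  refine ⟨P, S, hP1, hP2, hS1, fun n hn => ?_, hsh⟩
  obtain ⟨h7, h8⟩ := hS2 n hn
  refine ⟨h7, fun t ht => ?_⟩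
  obtain ⟨h9, h10⟩ := h8 t ht
  refine ⟨h9, fun q hq hd => ?_⟩
  apply h10 0 one_pos q hq
  rw [hg0]
  have htK := (mem_Icc.1 (hP1 ht)).2
  have h6 := mem_Ioc.1 (hS1 hn)
  have h11 : n + t ≤ N := by omega
  have h12 : ((N - (n + t) : ℕ) : ℤ) =
      -(((1 : ℕ) : ℤ) * ((n + t : ℕ) : ℤ) + -(N : ℤ)) := by
    rw [Nat.cast_sub h11]
    push_cast
    ring
  have h13 : (q : ℤ) ∣ ((N - (n + t) : ℕ) : ℤ) := Int.natCast_dvd_natCast.2 hd
  rw [h12] at h13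
  exact (dvd_neg.1 h13)

end Pool.Agent.H534.NW
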