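import Mathlib

/-!
# Large deviations of the sums of `1 / p` over the primes for which `x` lies in bad classes
-/

set_option autoImplicit false

open Finset

namespace Pool.Agent.H534.NW

/-- the number of the elements of an interval in a class -/
theorem cls_le (N m r : ℕ) :
    (((Ioc 0 N).filter (fun x => x ≡ r [MOD m])).card : ℝ) ≤ N / m + 1 := by
  have h1 : ((Ioc 0 N).filter (fun x => x ≡ r [MOD m])).card ≤ N / m + 1 := by
    have h2 : Set.MapsTo (fun x => x / m) (((Ioc 0 N).filter (fun x => x ≡ r [MOD m]) : Finset ℕ) : Set ℕ)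
        ((range (N / m + 1) : Finset ℕ) : Set ℕ) := by
      intro x hx
      rw [mem_coe, mem_filter, mem_Ioc] at hx
      rw [mem_coe, mem_range]
      have := Nat.div_le_div_right (c := m) hx.1.2
      show x / m < _
      omega
    have h3 := card_le_card_of_injOn _ h2 (by
      intro x hx x' hx' h
      rw [mem_coe, mem_filter] at hx hx'
      have e1 : x % m = x' % m := hx.2.trans hx'.2.symm
      have e2 : x / m = x' / m := h
      rw [← Nat.div_add_mod x m, ← Nat.div_add_mod x' m, e1, e2])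
    rwa [card_range] at h3
  have h4 : ((N / m : ℕ) : ℝ) ≤ N / m := Nat.cast_div_le
  have h5 : (((Ioc 0 N).filter (fun x => x ≡ r [MOD m])).card : ℝ) ≤ ((N / m + 1 : ℕ) : ℝ) := by exact_mod_cast h1
  push_cast at h5
  linarith

/-- the number of the elements of an interval in given classes modulo several primes -/
theorem crt_count (N G : ℕ) (Ω : ℕ → Finset ℕ) (Q : Finset ℕ) :
    (∀ p ∈ Q, p.Prime ∧ (Ω p).card ≤ G) → ∀ m r : ℕ, 0 < m → (∀ p ∈ Q, ¬ p ∣ m) →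
    (((Ioc 0 N).filter (fun x => x ≡ r [MOD m] ∧ ∀ p ∈ Q, x % p ∈ Ω p)).card : ℝ) ≤
      (G : ℝ) ^ Q.card * (N / (m * ∏ p ∈ Q, (p : ℝ)) + 1) := by
  classical
  induction Q using Finset.induction with
  | empty =>
    intro _ m r hm _
    simp only [notMem_empty, false_imp_iff, implies_true, and_true, card_empty, pow_zero, one_mul, prod_empty, mul_one]
    exact cls_le N m r
  | insert p Q hpQ ih =>
    intro hQ m r hm hmQ
    have hp : p.Prime := (hQ p (mem_insert_self _ _)).1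
    have hG : (Ω p).card ≤ G := (hQ p (mem_insert_self _ _)).2
    have hQ' : ∀ q ∈ Q, q.Prime ∧ (Ω q).card ≤ G := fun q hq => hQ q (mem_insert_of_mem hq)
    have hpm : ¬ p ∣ m := hmQ p (mem_insert_self _ _)
    have hcop : Nat.Coprime m p := ((Nat.Prime.coprime_iff_not_dvd hp).2 hpm).symm
    have hmp : 0 < m * p := Nat.mul_pos hm hp.pos
    have hnd : ∀ q ∈ Q, ¬ q ∣ m * p := by
      intro q hq hd
      rcases (hQ' q hq).1.dvd_mul.1 hd with h | h
      · exact hmQ q (mem_insert_of_mem hq) h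
      · have := (Nat.prime_dvd_prime_iff_eq (hQ' q hq).1 hp).1 h
        exact hpQ (this ▸ hq)
    have hsub : (Ioc 0 N).filter (fun x => x ≡ r [MOD m] ∧ ∀ q ∈ insert p Q, x % q ∈ Ω q) ⊆
        (Ω p).biUnion (fun w => (Ioc 0 N).filter (fun x => x ≡ (Nat.chineseRemainder hcop r w : ℕ) [MOD m * p] ∧
          ∀ q ∈ Q, x % q ∈ Ω q)) := by
      intro x hx
      rw [mem_filter] at hx
      obtain ⟨hx1, hx2, hx3⟩ := hx
      rw [mem_biUnion]
      refine ⟨x % p, hx3 p (mem_insert_self _ _), mem_filter.2 ⟨hx1, ?_, fun q hq => hx3 q (mem_insert_of_mem hq)⟩⟩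
      rw [← Nat.modEq_and_modEq_iff_modEq_mul hcop]
      have h1 := (Nat.chineseRemainder hcop r (x % p)).2
      refine ⟨hx2.trans h1.1.symm, ?_⟩
      exact (Nat.mod_modEq x p).symm.trans h1.2.symm
    have h1 : (((Ioc 0 N).filter (fun x => x ≡ r [MOD m] ∧ ∀ q ∈ insert p Q, x % q ∈ Ω q)).card : ℝ) ≤
        ∑ w ∈ Ω p, (((Ioc 0 N).filter (fun x => x ≡ (Nat.chineseRemainder hcop r w : ℕ) [MOD m * p] ∧
          ∀ q ∈ Q, x % q ∈ Ω q)).card : ℝ) := by
      exact_mod_cast (card_le_card hsub).trans card_biUnion_le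
    refine h1.trans ?_
    have hpos : (0 : ℝ) < ∏ q ∈ Q, (q : ℝ) := prod_pos fun q hq => by exact_mod_cast (hQ' q hq).1.pos
    have hp0 : (0 : ℝ) < p := by exact_mod_cast hp.pos
    have hm0 : (0 : ℝ) < m := by exact_mod_cast hm
    calc ∑ w ∈ Ω p, (((Ioc 0 N).filter (fun x => x ≡ (Nat.chineseRemainder hcop r w : ℕ) [MOD m * p] ∧
          ∀ q ∈ Q, x % q ∈ Ω q)).card : ℝ) ≤
          ∑ _w ∈ Ω p, (G : ℝ) ^ Q.card * (N / (((m * p : ℕ) : ℝ) * ∏ q ∈ Q, (q : ℝ)) + 1) :=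
          sum_le_sum fun w _ => ih hQ' (m * p) _ hmp hnd
      _ = ((Ω p).card : ℝ) * ((G : ℝ) ^ Q.card * (N / (((m * p : ℕ) : ℝ) * ∏ q ∈ Q, (q : ℝ)) + 1)) := by
          rw [sum_const, nsmul_eq_mul]
      _ ≤ (G : ℝ) * ((G : ℝ) ^ Q.card * (N / (((m * p : ℕ) : ℝ) * ∏ q ∈ Q, (q : ℝ)) + 1)) := by
          have : ((Ω p).card : ℝ) ≤ G := by exact_mod_cast hG
          gcongr
      _ = _ := by
          rw [card_insert_of_notMem hpQ, prod_insert hpQ]
          push_cast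
          rw [pow_succ]
          ring_nf

/-- one block of primes -/
theorem block (N G : ℕ) (Ω : ℕ → Finset ℕ) (Pj : Finset ℕ) (j q M : ℕ) (hN : 1 ≤ N)
    (hP : ∀ p ∈ Pj, p.Prime ∧ (Ω p).card ≤ G ∧ Nat.log 2 p = j) (hqM : 2 * q ≤ M) (hqN : (2 ^ (j + 1)) ^ q ≤ N) :
    (((Ioc 0 N).filter (fun x => M ≤ (Pj.filter (fun p => x % p ∈ Ω p)).card)).card : ℝ) * (M : ℝ) ^ q ≤
      2 * N * (2 * G) ^ q := by
  classical
  have hj : ∀ p ∈ Pj, 2 ^ j ≤ p ∧ p < 2 ^ (j + 1) := by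
    intro p hp
    obtain ⟨hp1, -, hp2⟩ := hP p hp
    constructor
    · rw [← hp2]
      exact Nat.pow_log_le_self 2 hp1.ne_zero
    · rw [← hp2]
      exact Nat.lt_pow_succ_log_self (by norm_num) p
  have hcard : Pj.card ≤ 2 ^ j := by
    have h1 : Pj ⊆ Ico (2 ^ j) (2 ^ (j + 1)) := fun p hp => mem_Ico.2 (hj p hp)
    refine (card_le_card h1).trans (le_of_eq ?_)
    rw [Nat.card_Ico, pow_succ]
    omega
  have hN0 : (0 : ℝ) < N := by exact_mod_cast hN
  -- the count of one set of primes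
  have hone : ∀ Q ∈ powersetCard q Pj, (((Ioc 0 N).filter (fun x => ∀ p ∈ Q, x % p ∈ Ω p)).card : ℝ) ≤
      2 * (G : ℝ) ^ q * N / (2 ^ j) ^ q := by
    intro Q hQ
    rw [mem_powersetCard] at hQ
    have h1 := crt_count N G Ω Q (fun p hp => ⟨(hP p (hQ.1 hp)).1, (hP p (hQ.1 hp)).2.1⟩) 1 0 one_pos
      (fun p hp hd => (hP p (hQ.1 hp)).1.one_lt.ne' (Nat.dvd_one.1 hd))
    have e1 : (Ioc 0 N).filter (fun x => x ≡ 0 [MOD 1] ∧ ∀ p ∈ Q, x % p ∈ Ω p) =
        (Ioc 0 N).filter (fun x => ∀ p ∈ Q, x % p ∈ Ω p) := by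
      apply filter_congr
      intro x _
      simp [Nat.modEq_one]
    rw [e1, hQ.2] at h1
    refine h1.trans ?_
    push_cast
    rw [one_mul]
    have h2 : ((2 : ℝ) ^ j) ^ q ≤ ∏ p ∈ Q, (p : ℝ) := by
      rw [← hQ.2, ← prod_const]
      apply prod_le_prod
      · intro _ _; positivity
      · intro p hp
        exact_mod_cast (hj p (hQ.1 hp)).1
    have h3 : ∏ p ∈ Q, (p : ℝ) ≤ N := by
      have : ∏ p ∈ Q, (p : ℝ) ≤ ((2 : ℝ) ^ (j + 1)) ^ q := by
        rw [← hQ.2, ← prod_const]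
        apply prod_le_prod
        · intro _ _; positivity
        · intro p hp
          exact_mod_cast (hj p (hQ.1 hp)).2.le
      exact this.trans (by exact_mod_cast hqN)
    have h4 : (0 : ℝ) < ∏ p ∈ Q, (p : ℝ) := prod_pos fun p hp => by exact_mod_cast (hP p (hQ.1 hp)).1.pos
    have h5 : (1 : ℝ) ≤ N / ∏ p ∈ Q, (p : ℝ) := by
      rw [le_div_iff₀ h4]
      linarith
    have h6 : (N : ℝ) / ∏ p ∈ Q, (p : ℝ) ≤ N / (2 ^ j) ^ q := by gcongr
    calc (G : ℝ) ^ q * (N / ∏ p ∈ Q, (p : ℝ) + 1) ≤ (G : ℝ) ^ q * (N / (2 ^ j) ^ q + N / (2 ^ j) ^ q) := by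
          gcongr
          linarith
      _ = _ := by ring
  -- double counting
  have hdc : (∑ x ∈ Ioc 0 N, ((Pj.filter (fun p => x % p ∈ Ω p)).card.choose q : ℝ)) =
      ∑ Q ∈ powersetCard q Pj, (((Ioc 0 N).filter (fun x => ∀ p ∈ Q, x % p ∈ Ω p)).card : ℝ) := by
    have h1 : ∀ x ∈ Ioc 0 N, ((Pj.filter (fun p => x % p ∈ Ω p)).card.choose q : ℝ) =
        ∑ Q ∈ powersetCard q Pj, if (∀ p ∈ Q, x % p ∈ Ω p) then (1 : ℝ) else 0 := by
      intro x _
      rw [← sum_filter, sum_const, nsmul_eq_mul, mul_one, ← card_powersetCard]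
      congr 2
      ext Q
      rw [mem_filter, mem_powersetCard, mem_powersetCard]
      constructor
      · rintro ⟨h1, h2⟩
        exact ⟨⟨h1.trans (filter_subset _ _), h2⟩, fun p hp => (mem_filter.1 (h1 hp)).2⟩
      · rintro ⟨⟨h1, h2⟩, h3⟩
        exact ⟨fun p hp => mem_filter.2 ⟨h1 hp, h3 p hp⟩, h2⟩
    rw [sum_congr rfl h1, sum_comm]
    apply sum_congr rfl
    intro Q _
    rw [← sum_filter, sum_const, nsmul_eq_mul, mul_one]
  have hup : (∑ x ∈ Ioc 0 N, ((Pj.filter (fun p => x % p ∈ Ω p)).card.choose q : ℝ)) ≤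
      (Pj.card.choose q : ℝ) * (2 * (G : ℝ) ^ q * N / (2 ^ j) ^ q) := by
    rw [hdc]
    refine (sum_le_sum hone).trans (le_of_eq ?_)
    rw [sum_const, nsmul_eq_mul, card_powersetCard]
  have hlow : (((Ioc 0 N).filter (fun x => M ≤ (Pj.filter (fun p => x % p ∈ Ω p)).card)).card : ℝ) * (M.choose q : ℝ) ≤
      ∑ x ∈ Ioc 0 N, ((Pj.filter (fun p => x % p ∈ Ω p)).card.choose q : ℝ) := by
    rw [← nsmul_eq_mul, ← sum_const]
    refine (sum_le_sum (fun x hx => ?_)).trans (sum_le_sum_of_subset_of_nonneg (filter_subset _ _)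
      (fun _ _ _ => Nat.cast_nonneg _))
    rw [mem_filter] at hx
    exact_mod_cast Nat.choose_le_choose q hx.2
  obtain ⟨B, hB⟩ : ∃ B : ℝ, B = (((Ioc 0 N).filter (fun x => M ≤ (Pj.filter (fun p => x % p ∈ Ω p)).card)).card : ℝ) :=
    ⟨_, rfl⟩
  rw [← hB] at hlow ⊢
  have hB0 : 0 ≤ B := by rw [hB]; exact Nat.cast_nonneg _
  have hch1 : ((M : ℝ) / 2) ^ q ≤ (M.choose q : ℝ) * q.factorial := by
    have h1 : (M + 1 - q) ^ q ≤ M.descFactorial q := Nat.pow_sub_le_descFactorial M q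
    have h2 : M.descFactorial q = q.factorial * M.choose q := Nat.descFactorial_eq_factorial_mul_choose M q
    have h3 : (M : ℝ) / 2 ≤ ((M + 1 - q : ℕ) : ℝ) := by
      rw [Nat.cast_sub (by omega)]
      push_cast
      have : (2 : ℝ) * q ≤ M := by exact_mod_cast hqM
      linarith
    calc ((M : ℝ) / 2) ^ q ≤ ((M + 1 - q : ℕ) : ℝ) ^ q := by gcongr
      _ ≤ ((M.descFactorial q : ℕ) : ℝ) := by exact_mod_cast h1
      _ = _ := by rw [h2]; push_cast; ring
  have hch2 : (Pj.card.choose q : ℝ) * q.factorial ≤ ((2 : ℝ) ^ j) ^ q := by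
    have h1 : Pj.card.descFactorial q ≤ Pj.card ^ q := Nat.descFactorial_le_pow _ _
    have h2 : Pj.card.descFactorial q = q.factorial * Pj.card.choose q := Nat.descFactorial_eq_factorial_mul_choose _ q
    calc (Pj.card.choose q : ℝ) * q.factorial = ((Pj.card.descFactorial q : ℕ) : ℝ) := by
          rw [h2]; push_cast; ring
      _ ≤ ((Pj.card ^ q : ℕ) : ℝ) := by exact_mod_cast h1
      _ ≤ _ := by
          push_cast
          have : (Pj.card : ℝ) ≤ 2 ^ j := by exact_mod_cast hcard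
          gcongr
  have hqf : (0 : ℝ) < q.factorial := by exact_mod_cast q.factorial_pos
  have h2j : (0 : ℝ) < ((2 : ℝ) ^ j) ^ q := by positivity
  have hfin : B * ((M : ℝ) / 2) ^ q ≤ 2 * (G : ℝ) ^ q * N := by
    calc B * ((M : ℝ) / 2) ^ q ≤ B * ((M.choose q : ℝ) * q.factorial) := by gcongr
      _ = (B * (M.choose q : ℝ)) * q.factorial := by ring
      _ ≤ ((Pj.card.choose q : ℝ) * (2 * (G : ℝ) ^ q * N / (2 ^ j) ^ q)) * q.factorial :=
          mul_le_mul_of_nonneg_right (hlow.trans hup) hqf.le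
      _ = ((Pj.card.choose q : ℝ) * q.factorial) * (2 * (G : ℝ) ^ q * N / (2 ^ j) ^ q) := by ring
      _ ≤ ((2 : ℝ) ^ j) ^ q * (2 * (G : ℝ) ^ q * N / (2 ^ j) ^ q) := by gcongr
      _ = _ := by field_simp
  rw [div_pow, mul_div_assoc', div_le_iff₀ (by positivity)] at hfin
  calc B * (M : ℝ) ^ q ≤ 2 * (G : ℝ) ^ q * N * 2 ^ q := hfin
    _ = _ := by rw [mul_pow]; ring

theorem geo_le (n : ℕ) : ∑ i ∈ range n, ((3 : ℝ) / 4) ^ i ≤ 4 := by
  rw [geom_sum_eq (by norm_num)]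
  have : (0 : ℝ) < (3 / 4) ^ n := by positivity
  rw [div_le_iff_of_neg (by norm_num)]
  linarith

/-- **Large deviations.** -/
theorem ld (G : ℕ) (hG : 1 ≤ G) (η : ℝ) (hη : 0 < η) (A : ℕ) : ∃ L₁ : ℕ, ∃ l₀ : ℝ, 1 ≤ l₀ ∧ ∀ l : ℝ, l₀ ≤ l →
    ∀ N : ℕ, l ^ L₁ ≤ N → ∀ (Pr : Finset ℕ) (Ω : ℕ → Finset ℕ),
    (∀ p ∈ Pr, p.Prime ∧ Real.log l < p ∧ (p : ℝ) ≤ l ∧ (Ω p).card ≤ G) →
    (((Ioc 0 N).filter (fun x => η < ∑ p ∈ Pr.filter (fun p => x % p ∈ Ω p), (1 : ℝ) / p)).card : ℝ) ≤ N / l ^ A := by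
  classical
  obtain ⟨L₁, hL₁⟩ : ∃ L₁ : ℕ, L₁ = 3 * A + 8 := ⟨_, rfl⟩
  obtain ⟨K, hK⟩ : ∃ K : ℕ, K = ⌈16 * L₁ / η⌉₊ := ⟨_, rfl⟩
  obtain ⟨Λ, hΛ⟩ : ∃ Λ : ℝ, Λ = 2 ^ K + 4 * (8 * G / η) ^ 2 + 8 := ⟨_, rfl⟩
  have hG0 : (1 : ℝ) ≤ G := by exact_mod_cast hG
  have hKη : 16 * L₁ / η ≤ K := by rw [hK]; exact Nat.le_ceil _
  have h2K : (1 : ℝ) ≤ 2 ^ K := one_le_pow₀ (by norm_num)
  have hGη : 0 ≤ 4 * (8 * (G : ℝ) / η) ^ 2 := by positivity
  refine ⟨L₁, Real.exp Λ, Real.one_le_exp (by rw [hΛ]; positivity), ?_⟩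
  intro l hl N hN Pr Ω hPr
  have hl0 : 0 < l := lt_of_lt_of_le (Real.exp_pos _) hl
  obtain ⟨y, hy⟩ : ∃ y : ℝ, y = Real.log l := ⟨_, rfl⟩
  rw [← hy] at hPr
  have hyΛ : Λ ≤ y := by
    rw [hy, Real.le_log_iff_exp_le hl0]
    exact hl
  have hy8 : 8 ≤ y := by rw [hΛ] at hyΛ; linarith
  have hy2K : (2 : ℝ) ^ K ≤ y := by rw [hΛ] at hyΛ; linarith
  have hyG : 4 * (8 * (G : ℝ) / η) ^ 2 ≤ y := by rw [hΛ] at hyΛ; linarith
  have hly : Real.exp y = l := by rw [hy, Real.exp_log hl0]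
  have hyl : y ≤ l := by
    rw [← hly]
    linarith [Real.add_one_le_exp y]
  have hl1 : 1 ≤ l := by linarith
  have hL8 : (8 : ℝ) ≤ L₁ := by
    rw [hL₁]
    push_cast
    have := (Nat.cast_nonneg A : (0 : ℝ) ≤ A)
    linarith
  have hlog2 : 0.6931471803 < Real.log 2 := Real.log_two_gt_d9
  have hlog2' : Real.log 2 < 0.6931471808 := Real.log_two_lt_d9
  have hN0 : (0 : ℝ) < N := lt_of_lt_of_le (by positivity) hN
  have hN1 : 1 ≤ N := by exact_mod_cast hN0
  -- the first block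
  obtain ⟨j0, hj0⟩ : ∃ j0 : ℕ, j0 = Nat.log 2 ⌊y⌋₊ := ⟨_, rfl⟩
  have hfy : ⌊y⌋₊ ≠ 0 := by
    have : 1 ≤ ⌊y⌋₊ := Nat.le_floor (by push_cast; linarith)
    omega
  have hKj : K ≤ j0 := by
    rw [hj0]
    apply Nat.le_log_of_pow_le (by norm_num)
    apply Nat.le_floor
    push_cast
    exact hy2K
  have h2j0 : y / 2 ≤ 2 ^ j0 := by
    have h1 : ⌊y⌋₊ < 2 ^ (j0 + 1) := by
      rw [hj0]
      exact Nat.lt_pow_succ_log_self (by norm_num) _
    have h2 : y < (⌊y⌋₊ : ℝ) + 1 := Nat.lt_floor_add_one y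
    have h3 : ((⌊y⌋₊ + 1 : ℕ) : ℝ) ≤ ((2 ^ (j0 + 1) : ℕ) : ℝ) := by exact_mod_cast h1
    push_cast at h3
    rw [pow_succ] at h3
    linarith
  have hj0L : 16 * L₁ / η ≤ (j0 : ℝ) + 1 := by
    have : (K : ℝ) ≤ j0 := by exact_mod_cast hKj
    linarith
  obtain ⟨J, hJ⟩ : ∃ J : ℕ, J = ⌊2 * y⌋₊ := ⟨_, rfl⟩
  have hJy : (J : ℝ) ≤ 2 * y := by rw [hJ]; exact Nat.floor_le (by linarith)
  have hPj : ∀ p ∈ Pr, Nat.log 2 p ∈ Ico j0 J := by
    intro p hp
    obtain ⟨h1, h2, h3, -⟩ := hPr p hp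
    rw [mem_Ico]
    constructor
    · rw [hj0]
      apply Nat.log_mono_right
      have : (⌊y⌋₊ : ℝ) ≤ y := Nat.floor_le (by linarith)
      have h4 : (⌊y⌋₊ : ℝ) ≤ p := by linarith
      exact_mod_cast h4
    · have h4 : (2 : ℝ) ^ (Nat.log 2 p) ≤ p := by
        exact_mod_cast Nat.pow_log_le_self 2 h1.ne_zero
      have h5 := Real.log_le_log (by positivity) (h4.trans h3)
      rw [Real.log_pow, ← hy] at h5
      have h6 : ((Nat.log 2 p + 1 : ℕ) : ℝ) ≤ 2 * y := by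
        push_cast
        have h7 : (0 : ℝ) ≤ Nat.log 2 p := Nat.cast_nonneg _
        nlinarith
      have h8 : Nat.log 2 p + 1 ≤ J := by
        rw [hJ]
        exact Nat.le_floor h6
      omega
  -- the thresholds
  obtain ⟨e, he⟩ : ∃ e : ℕ → ℝ, e = fun j => η / 4 * (3 / 4) ^ (j - j0) := ⟨_, rfl⟩
  obtain ⟨M, hM⟩ : ∃ M : ℕ → ℕ, M = fun j => ⌈e j * 2 ^ j⌉₊ := ⟨_, rfl⟩
  obtain ⟨q, hq⟩ : ∃ q : ℕ → ℕ, q = fun j : ℕ => ⌊(L₁ : ℝ) * y / ((j : ℝ) + 1)⌋₊ := ⟨_, rfl⟩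
  have hsub : (Ioc 0 N).filter (fun x => η < ∑ p ∈ Pr.filter (fun p => x % p ∈ Ω p), (1 : ℝ) / p) ⊆
      (Ico j0 J).biUnion (fun j => (Ioc 0 N).filter (fun x =>
        M j ≤ ((Pr.filter (fun p => Nat.log 2 p = j)).filter (fun p => x % p ∈ Ω p)).card)) := by
    intro x hx
    rw [mem_filter] at hx
    by_contra hcon
    have h1 : ∀ j ∈ Ico j0 J, (((Pr.filter (fun p => Nat.log 2 p = j)).filter (fun p => x % p ∈ Ω p)).card : ℝ) <
        e j * 2 ^ j := by
      intro j hj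
      have h2 : ¬ M j ≤ ((Pr.filter (fun p => Nat.log 2 p = j)).filter (fun p => x % p ∈ Ω p)).card := by
        intro h
        apply hcon
        rw [mem_biUnion]
        exact ⟨j, hj, mem_filter.2 ⟨hx.1, h⟩⟩
      rw [not_le, hM] at h2
      exact Nat.lt_ceil.1 h2
    have hmaps : ∀ p ∈ Pr.filter (fun p => x % p ∈ Ω p), Nat.log 2 p ∈ Ico j0 J := fun p hp => hPj p (mem_filter.1 hp).1
    have h3 : ∑ p ∈ Pr.filter (fun p => x % p ∈ Ω p), (1 : ℝ) / p ≤ η := by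
      rw [← sum_fiberwise_of_maps_to hmaps]
      calc ∑ j ∈ Ico j0 J, ∑ p ∈ (Pr.filter (fun p => x % p ∈ Ω p)) with Nat.log 2 p = j, (1 : ℝ) / p ≤
            ∑ j ∈ Ico j0 J, e j := by
            apply sum_le_sum
            intro j hj
            have h4 : (Pr.filter (fun p => x % p ∈ Ω p)).filter (fun p => Nat.log 2 p = j) =
                (Pr.filter (fun p => Nat.log 2 p = j)).filter (fun p => x % p ∈ Ω p) := filter_comm _ _ _
            rw [h4]
            have h5 : ∀ p ∈ (Pr.filter (fun p => Nat.log 2 p = j)).filter (fun p => x % p ∈ Ω p),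
                (1 : ℝ) / p ≤ 1 / 2 ^ j := by
              intro p hp
              rw [mem_filter, mem_filter] at hp
              apply one_div_le_one_div_of_le (by positivity)
              rw [← hp.1.2]
              exact_mod_cast Nat.pow_log_le_self 2 (hPr p hp.1.1).1.ne_zero
            refine (sum_le_sum h5).trans ?_
            rw [sum_const, nsmul_eq_mul, mul_one_div, div_le_iff₀ (by positivity)]
            exact (h1 j hj).le
        _ = ∑ i ∈ range (J - j0), η / 4 * (3 / 4) ^ i := by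
            rw [sum_Ico_eq_sum_range]
            apply sum_congr rfl
            intro i _
            rw [he]
            simp
        _ = η / 4 * ∑ i ∈ range (J - j0), ((3 : ℝ) / 4) ^ i := by rw [mul_sum]
        _ ≤ η / 4 * 4 := by
            apply mul_le_mul_of_nonneg_left (geo_le _) (by positivity)
        _ = η := by ring
    linarith [hx.2]
  -- one block
  have hone : ∀ j ∈ Ico j0 J, (((Ioc 0 N).filter (fun x =>
        M j ≤ ((Pr.filter (fun p => Nat.log 2 p = j)).filter (fun p => x % p ∈ Ω p)).card)).card : ℝ) ≤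
        2 * N / l ^ (A + 2) := by
    intro j hj
    rw [mem_Ico] at hj
    have hj1 : (0 : ℝ) < (j : ℝ) + 1 := by positivity
    have hj0j : (j0 : ℝ) ≤ j := by exact_mod_cast hj.1
    have hjy : (j : ℝ) + 1 ≤ 2 * y := by
      have : ((j + 1 : ℕ) : ℝ) ≤ J := by exact_mod_cast hj.2
      push_cast at this
      linarith
    have hqle : (q j : ℝ) ≤ L₁ * y / (j + 1) := by
      rw [hq]
      exact Nat.floor_le (by positivity)
    have hqge : L₁ * y / (j + 1) < (q j : ℝ) + 1 := by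
      rw [hq]
      exact Nat.lt_floor_add_one _
    have hMge : e j * 2 ^ j ≤ M j := by
      rw [hM]
      exact Nat.le_ceil _
    have he2 : e j * 2 ^ j = η / 4 * 2 ^ j0 * (3 / 2) ^ (j - j0) := by
      rw [he]
      have h1 : (2 : ℝ) ^ j = 2 ^ j0 * 2 ^ (j - j0) := by
        rw [← pow_add]
        congr 1
        omega
      have h2 : ((3 : ℝ) / 4) ^ (j - j0) * 2 ^ (j - j0) = (3 / 2) ^ (j - j0) := by
        rw [← mul_pow]
        norm_num
      beta_reduce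
      rw [h1, ← h2]
      ring
    have h32 : (1 : ℝ) ≤ (3 / 2) ^ (j - j0) := one_le_pow₀ (by norm_num)
    have hMy : η * y / 8 ≤ M j := by
      refine le_trans ?_ hMge
      rw [he2]
      calc η * y / 8 = η / 4 * (y / 2) * 1 := by ring
        _ ≤ η / 4 * 2 ^ j0 * (3 / 2) ^ (j - j0) := by gcongr
    have hqM : 2 * q j ≤ M j := by
      have h1 : L₁ * y / (j + 1 : ℝ) ≤ η * y / 16 := by
        rw [div_le_iff₀ hj1]
        have h2 : 16 * L₁ ≤ ((j : ℝ) + 1) * η := by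
          rw [div_le_iff₀ hη] at hj0L
          have : ((j0 : ℝ) + 1) * η ≤ ((j : ℝ) + 1) * η := by gcongr
          linarith
        nlinarith
      have h3 : (2 : ℝ) * q j ≤ M j := by linarith
      exact_mod_cast h3
    have hqN : (2 ^ (j + 1)) ^ q j ≤ N := by
      have h1 : ((2 : ℝ) ^ (j + 1)) ^ q j ≤ N := by
        refine le_trans ?_ hN
        rw [← pow_mul, ← Real.exp_log (show (0 : ℝ) < 2 ^ ((j + 1) * q j) by positivity), Real.log_pow, ← hly,
          ← Real.exp_nat_mul]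
        apply Real.exp_le_exp.2
        push_cast
        have h2 : ((j : ℝ) + 1) * q j ≤ L₁ * y := by
          rw [le_div_iff₀ hj1] at hqle
          linarith
        have h3 : 0 ≤ ((j : ℝ) + 1) * q j := by positivity
        nlinarith
      exact_mod_cast h1
    have hb := block N G Ω (Pr.filter (fun p => Nat.log 2 p = j)) j (q j) (M j) hN1 (by
      intro p hp
      rw [mem_filter] at hp
      exact ⟨(hPr p hp.1).1, (hPr p hp.1).2.2.2, hp.2⟩) hqM hqN
    obtain ⟨B, hB⟩ : ∃ B : ℝ, B = (((Ioc 0 N).filter (fun x =>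
        M j ≤ ((Pr.filter (fun p => Nat.log 2 p = j)).filter (fun p => x % p ∈ Ω p)).card)).card : ℝ) := ⟨_, rfl⟩
    rw [← hB] at hb ⊢
    have hB0 : 0 ≤ B := by rw [hB]; exact Nat.cast_nonneg _
    -- `M ≥ 2 G √2 ^ (j + 1)`
    obtain ⟨w, hw⟩ : ∃ w : ℝ, w = Real.sqrt 2 := ⟨_, rfl⟩
    have hw2 : w ^ 2 = 2 := by rw [hw]; exact Real.sq_sqrt (by norm_num)
    have hw0 : 0 < w := by rw [hw]; exact Real.sqrt_pos.2 (by norm_num)
    have hw32 : w ≤ 3 / 2 := by nlinarith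
    have hMw : 2 * G * w ^ (j + 1) ≤ M j := by
      refine le_trans ?_ hMge
      rw [he2]
      have h1 : w ^ (j + 1) = w ^ (j0 + 1) * w ^ (j - j0) := by
        rw [← pow_add]
        congr 1
        omega
      have h2 : w ^ (j - j0) ≤ (3 / 2) ^ (j - j0) := by gcongr
      have h3 : 2 * G * w ^ (j0 + 1) ≤ η / 4 * 2 ^ j0 := by
        have h4 : (2 : ℝ) ^ j0 = w ^ j0 * w ^ j0 := by
          rw [← hw2, ← pow_mul, ← pow_add]
          congr 1
          omega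
        have h5 : 8 * G * w / η ≤ w ^ j0 := by
          have h6 : (8 * G * w / η) ^ 2 ≤ (w ^ j0) ^ 2 := by
            have h7 : (w ^ j0) ^ 2 = 2 ^ j0 := by rw [h4]; ring
            rw [h7]
            have h8 : (8 * G * w / η) ^ 2 = 2 * (8 * G / η) ^ 2 := by
              calc (8 * G * w / η) ^ 2 = w ^ 2 * (8 * G / η) ^ 2 := by ring
                _ = _ := by rw [hw2]
            rw [h8]
            linarith
          exact le_of_sq_le_sq h6 (by positivity)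
        rw [div_le_iff₀ hη] at h5
        calc 2 * G * w ^ (j0 + 1) = (8 * G * w) * w ^ j0 / 4 := by rw [pow_succ]; ring
          _ ≤ (w ^ j0 * η) * w ^ j0 / 4 := by gcongr
          _ = η / 4 * 2 ^ j0 := by rw [h4]; ring
      calc 2 * G * w ^ (j + 1) = (2 * G * w ^ (j0 + 1)) * w ^ (j - j0) := by rw [h1]; ring
        _ ≤ (η / 4 * 2 ^ j0) * (3 / 2) ^ (j - j0) := by gcongr
    have hkey : B * (w ^ (j + 1)) ^ q j ≤ 2 * N := by
      have h1 : B * (2 * G * w ^ (j + 1)) ^ q j ≤ 2 * N * (2 * G) ^ q j := by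
        refine le_trans ?_ hb
        gcongr
      rw [mul_pow] at h1
      have h2 : (0 : ℝ) < (2 * G) ^ q j := by positivity
      have h3 : B * (w ^ (j + 1)) ^ q j * (2 * G) ^ q j ≤ 2 * N * (2 * G) ^ q j := by
        calc B * (w ^ (j + 1)) ^ q j * (2 * G) ^ q j = B * ((2 * G) ^ q j * (w ^ (j + 1)) ^ q j) := by ring
          _ ≤ _ := h1
      exact le_of_mul_le_mul_right h3 h2
    have hwl : l ^ (A + 2) ≤ (w ^ (j + 1)) ^ q j := by
      rw [← pow_mul, ← Real.exp_log (show (0 : ℝ) < w ^ ((j + 1) * q j) by positivity), Real.log_pow, ← hly,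
        ← Real.exp_nat_mul]
      apply Real.exp_le_exp.2
      have h1 : Real.log w = Real.log 2 / 2 := by
        rw [hw, Real.log_sqrt (by norm_num)]
      rw [h1]
      push_cast
      have h2 : ((L₁ : ℝ) - 2) * y ≤ ((j : ℝ) + 1) * q j := by
        rw [div_lt_iff₀ hj1] at hqge
        nlinarith
      have h3 : ((L₁ : ℝ) - 2) = 3 * (A + 2) := by
        rw [hL₁]
        push_cast
        ring
      rw [h3] at h2
      have hA0 : (0 : ℝ) ≤ A := Nat.cast_nonneg A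
      have h4 : 0 ≤ ((A : ℝ) + 2) * y := by positivity
      calc ((A : ℝ) + 2) * y ≤ (3 * ((A : ℝ) + 2) * y) * (Real.log 2 / 2) := by nlinarith
        _ ≤ (((j : ℝ) + 1) * q j) * (Real.log 2 / 2) := by gcongr
    rw [le_div_iff₀ (by positivity)]
    calc B * l ^ (A + 2) ≤ B * (w ^ (j + 1)) ^ q j := by gcongr
      _ ≤ 2 * N := hkey
  have h1 : (((Ioc 0 N).filter (fun x => η < ∑ p ∈ Pr.filter (fun p => x % p ∈ Ω p), (1 : ℝ) / p)).card : ℝ) ≤
      ∑ j ∈ Ico j0 J, (((Ioc 0 N).filter (fun x =>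
        M j ≤ ((Pr.filter (fun p => Nat.log 2 p = j)).filter (fun p => x % p ∈ Ω p)).card)).card : ℝ) := by
    exact_mod_cast (card_le_card hsub).trans card_biUnion_le
  refine h1.trans ((sum_le_sum hone).trans ?_)
  rw [sum_const, nsmul_eq_mul, Nat.card_Ico]
  have h2 : ((J - j0 : ℕ) : ℝ) ≤ 2 * y := by
    refine le_trans ?_ hJy
    exact_mod_cast Nat.sub_le J j0
  have hlp : 0 < l ^ A := by positivity
  calc ((J - j0 : ℕ) : ℝ) * (2 * N / l ^ (A + 2)) ≤ (2 * y) * (2 * N / l ^ (A + 2)) := by gcongr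
    _ = (4 * y / l ^ 2) * (N / l ^ A) := by
        rw [pow_add]
        field_simp
        ring
    _ ≤ 1 * (N / l ^ A) := by
        gcongr
        rw [div_le_one (by positivity)]
        nlinarith
    _ = _ := one_mul _

end Pool.Agent.H534.NW
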