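import Pool.Agent.H534.NV.Eng
import Pool.Agent.H534.NW.LD

/-!
# The good differences: few collisions modulo the small primes
-/

set_option autoImplicit false

open Finset

namespace Pool.Agent.H534.NW

open Pool.Agent.H534.RT (Sys0 SysU)
open Pool.Agent.Y677.RSZ (rt)
open Pool.Agent.Y852.RSZ (per_dvd)

/-- `h` is the difference of two zeros modulo `p` -/
def HB (F : ℤ → ℤ) (p : ℕ) (h : ℤ) : Prop := ∃ n : ℤ, (p : ℤ) ∣ F n ∧ (p : ℤ) ∣ F (n + h)

open Classical in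
/-- the good differences -/
def Gd (F : ℤ → ℤ) (W : ℕ) (y η : ℝ) (t : ℤ) : Prop := t ≠ 0 ∧
  ∑ p ∈ (Icc 1 ⌊y⌋₊).filter (fun p => p.Prime ∧ ¬ p ∣ W ∧ HB F p (W * t)), (1 : ℝ) / p ≤ η

variable {g : ℕ} {F : ℤ → ℤ}

theorem HB_per (hF : Sys0 g F) {p : ℕ} (hp : p.Prime) {h h' : ℤ} (hh : (p : ℤ) ∣ h - h') :
    HB F p h ↔ HB F p h' := by
  unfold HB
  refine exists_congr fun n => and_congr Iff.rfl ?_
  exact per_dvd (hF.per p hp) (by
    have : n + h - (n + h') = h - h' := by ring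
    rw [this]
    exact hh)

/-- the residues of zeros -/
theorem root_mem (hF : Sys0 g F) {p : ℕ} (hp : p.Prime) (n : ℤ) (hn : (p : ℤ) ∣ F n) :
    (n % p).toNat ∈ (range p).filter (fun r : ℕ => (p : ℤ) ∣ F r) := by
  have hp0 : (0 : ℤ) < p := by exact_mod_cast hp.pos
  have h1 : 0 ≤ n % p := Int.emod_nonneg _ hp0.ne'
  have h2 : n % p < p := Int.emod_lt_of_pos _ hp0
  have h3 : (((n % p).toNat : ℕ) : ℤ) = n % p := Int.toNat_of_nonneg h1
  rw [mem_filter, mem_range]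
  refine ⟨by omega, ?_⟩
  rw [h3]
  refine (per_dvd (hF.per p hp) ?_).1 hn
  exact ⟨n / p, by have := Int.mul_ediv_add_emod n p; linarith⟩

open Classical in
/-- few classes are bad -/
theorem Om_card (hF : Sys0 g F) {p : ℕ} (hp : p.Prime) (W : ℕ) (hW : ¬ p ∣ W) (a c : ℤ) (hc : ¬ (p : ℤ) ∣ c) :
    ((range p).filter (fun x : ℕ => HB F p (W * (a + c * x)))).card ≤ g * g := by
  set R := (range p).filter (fun r : ℕ => (p : ℤ) ∣ F r) with hR
  have hRc : R.card ≤ g := (hF.root p hp).1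
  have hpi : Prime (p : ℤ) := Nat.prime_iff_prime_int.1 hp
  have hp0 : (0 : ℤ) < p := by exact_mod_cast hp.pos
  choose! f hf using fun (x : ℕ) (hx : HB F p (W * (a + c * x))) => hx
  have hmaps : Set.MapsTo (fun x : ℕ => (((f x) % p).toNat, ((f x + W * (a + c * x)) % p).toNat))
      (((range p).filter (fun x : ℕ => HB F p (W * (a + c * x))) : Finset ℕ) : Set ℕ) ((R ×ˢ R : Finset (ℕ × ℕ)) : Set (ℕ × ℕ)) := by
    intro x hx
    rw [mem_coe, mem_filter] at hx
    rw [mem_coe, mem_product]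
    obtain ⟨h1, h2⟩ := hf x hx.2
    exact ⟨root_mem hF hp _ h1, root_mem hF hp _ h2⟩
  have hinj := card_le_card_of_injOn _ hmaps (by
    intro x hx x' hx' h
    rw [mem_coe, mem_filter, mem_range] at hx hx'
    simp only [Prod.mk.injEq] at h
    obtain ⟨h1, h2⟩ := h
    have e1 : (f x) % (p : ℤ) = (f x') % p := by
      have := Int.emod_nonneg (f x) hp0.ne'
      have := Int.emod_nonneg (f x') hp0.ne'
      omega
    have e2 : (f x + W * (a + c * x)) % (p : ℤ) = (f x' + W * (a + c * x')) % p := by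
      have := Int.emod_nonneg (f x + W * (a + c * x)) hp0.ne'
      have := Int.emod_nonneg (f x' + W * (a + c * x')) hp0.ne'
      omega
    have e3 : (p : ℤ) ∣ f x - f x' := Int.ModEq.dvd (Int.ModEq.symm e1)
    have e4 : (p : ℤ) ∣ (f x + W * (a + c * x)) - (f x' + W * (a + c * x')) := Int.ModEq.dvd (Int.ModEq.symm e2)
    have e5 : (p : ℤ) ∣ W * (c * ((x : ℤ) - x')) := by
      have e6 := dvd_sub e4 e3
      have e7 : (f x + W * (a + c * x)) - (f x' + W * (a + c * x')) - (f x - f x') = W * (c * ((x : ℤ) - x')) := by ring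
      rwa [e7] at e6
    have e8 : (p : ℤ) ∣ (x : ℤ) - x' := by
      rcases hpi.dvd_or_dvd e5 with h | h
      · exact absurd (by exact_mod_cast h) hW
      · rcases hpi.dvd_or_dvd h with h | h
        · exact absurd h hc
        · exact h
    have e9 : (x : ℤ) - x' = 0 := by
      apply Int.eq_zero_of_abs_lt_dvd e8
      rw [abs_lt]
      constructor <;> omega
    omega)
  rw [card_product] at hinj
  exact hinj.trans (Nat.mul_le_mul hRc hRc)

open Classical in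
/-- **Few differences on a line are bad.** -/
theorem line_bad (g : ℕ) (η : ℝ) (hη : 0 < η) (A : ℕ) : ∃ L₁ : ℕ, ∃ l₀ : ℝ, ∀ l : ℝ, l₀ ≤ l →
    ∀ N : ℕ, l ^ L₁ ≤ N → ∀ (F : ℤ → ℤ), Sys0 g F → ∀ (W : ℕ) (y : ℝ), y ≤ l →
    (∀ p : ℕ, p.Prime → (p : ℝ) ≤ Real.log l → p ∣ W) → ∀ a c : ℤ, c ≠ 0 →
    (∀ p : ℕ, p.Prime → (p : ℝ) ≤ y → ¬ p ∣ W → ¬ (p : ℤ) ∣ c) →
    (((Ioc 0 N).filter (fun x : ℕ => ¬ Gd F W y η (a + c * x))).card : ℝ) ≤ N / l ^ A := by
  obtain ⟨L₁, l₀, hl₀1, hld⟩ := ld (g * g + 1) (by omega) η hη (A + 1)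
  refine ⟨L₁ + (A + 1), max l₀ 2, ?_⟩
  intro l hl N hN F hF W y hyl hW a c hc hcW
  have hl2 : 2 ≤ l := (le_max_right _ _).trans hl
  have hl1 : 1 ≤ l := by linarith
  have hl0 : 0 < l := by linarith
  have hN' : l ^ L₁ ≤ N := by
    refine le_trans ?_ hN
    exact pow_le_pow_right₀ hl1 (by omega)
  have hN0 : (0 : ℝ) < N := lt_of_lt_of_le (by positivity) hN
  obtain ⟨Pr, hPr⟩ : ∃ Pr : Finset ℕ, Pr = (Icc 1 ⌊y⌋₊).filter (fun p => p.Prime ∧ ¬ p ∣ W) := ⟨_, rfl⟩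
  obtain ⟨Ω, hΩ⟩ : ∃ Ω : ℕ → Finset ℕ, Ω = fun p => (range p).filter (fun x : ℕ => HB F p (W * (a + c * x))) := ⟨_, rfl⟩
  have hPm : ∀ p ∈ Pr, p.Prime ∧ ¬ p ∣ W ∧ (p : ℝ) ≤ y := by
    intro p hp
    rw [hPr, mem_filter, mem_Icc] at hp
    refine ⟨hp.2.1, hp.2.2, ?_⟩
    have h1 : 0 < ⌊y⌋₊ := lt_of_lt_of_le hp.2.1.pos hp.1.2
    have h2 : (⌊y⌋₊ : ℝ) ≤ y := Nat.floor_le (by
      by_contra h
      rw [Nat.floor_of_nonpos (not_le.1 h).le] at h1
      omega)
    have h3 : (p : ℝ) ≤ ⌊y⌋₊ := by exact_mod_cast hp.1.2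
    linarith
  have h1 := hld l ((le_max_left _ _).trans hl) N hN' Pr Ω (by
    intro p hp
    obtain ⟨h1, h2, h3⟩ := hPm p hp
    refine ⟨h1, ?_, h3.trans hyl, ?_⟩
    · by_contra h
      exact h2 (hW p h1 (not_lt.1 h))
    · rw [hΩ]
      exact (Om_card hF h1 W h2 a c (hcW p h1 h3 h2)).trans (by omega))
  have hsub : (Ioc 0 N).filter (fun x : ℕ => ¬ Gd F W y η (a + c * x)) ⊆
      (Ioc 0 N).filter (fun x => η < ∑ p ∈ Pr.filter (fun p => x % p ∈ Ω p), (1 : ℝ) / p) ∪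
      (Ioc 0 N).filter (fun x : ℕ => a + c * x = 0) := by
    intro x hx
    rw [mem_filter] at hx
    rw [mem_union, mem_filter, mem_filter]
    by_cases h0 : a + c * (x : ℤ) = 0
    · right
      exact ⟨hx.1, h0⟩
    · left
      refine ⟨hx.1, ?_⟩
      have h2 := hx.2
      unfold Gd at h2
      rw [not_and] at h2
      have h3 := not_le.1 (h2 h0)
      refine lt_of_lt_of_le h3 (le_of_eq ?_)
      apply sum_congr _ (fun _ _ => rfl)
      ext p
      rw [mem_filter, mem_filter]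
      constructor
      · rintro ⟨h4, h5, h6, h7⟩
        refine ⟨?_, ?_⟩
        · rw [hPr, mem_filter]
          exact ⟨h4, h5, h6⟩
        · rw [hΩ, mem_filter, mem_range]
          refine ⟨Nat.mod_lt _ h5.pos, ?_⟩
          refine (HB_per hF h5 ?_).1 h7
          have e : (W : ℤ) * (a + c * x) - W * (a + c * ((x % p : ℕ) : ℤ)) = W * c * ((x : ℤ) - ((x % p : ℕ) : ℤ)) := by ring
          rw [e]
          apply Dvd.dvd.mul_left
          push_cast
          exact ⟨(x : ℤ) / p, by have := Int.mul_ediv_add_emod (x : ℤ) p; linarith⟩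
      · rintro ⟨h4, h5⟩
        have h4' := h4
        rw [hPr, mem_filter] at h4'
        rw [hΩ, mem_filter] at h5
        refine ⟨h4'.1, h4'.2.1, h4'.2.2, ?_⟩
        refine (HB_per hF h4'.2.1 ?_).2 h5.2
        have e : (W : ℤ) * (a + c * x) - W * (a + c * ((x % p : ℕ) : ℤ)) = W * c * ((x : ℤ) - ((x % p : ℕ) : ℤ)) := by ring
        rw [e]
        apply Dvd.dvd.mul_left
        push_cast
        exact ⟨(x : ℤ) / p, by have := Int.mul_ediv_add_emod (x : ℤ) p; linarith⟩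
  have hz : ((Ioc 0 N).filter (fun x : ℕ => a + c * x = 0)).card ≤ 1 := by
    apply card_le_one.2
    intro x hx x' hx'
    rw [mem_filter] at hx hx'
    have h2 : c * ((x : ℤ) - x') = 0 := by linarith [hx.2, hx'.2]
    rcases mul_eq_zero.1 h2 with h | h
    · exact absurd h hc
    · omega
  have h2 : (((Ioc 0 N).filter (fun x : ℕ => ¬ Gd F W y η (a + c * x))).card : ℝ) ≤
      (((Ioc 0 N).filter (fun x => η < ∑ p ∈ Pr.filter (fun p => x % p ∈ Ω p), (1 : ℝ) / p)).card : ℝ) + 1 := by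
    have := (card_le_card hsub).trans (card_union_le _ _)
    have h3 : ((Ioc 0 N).filter (fun x : ℕ => ¬ Gd F W y η (a + c * x))).card ≤
      ((Ioc 0 N).filter (fun x => η < ∑ p ∈ Pr.filter (fun p => x % p ∈ Ω p), (1 : ℝ) / p)).card + 1 := by omega
    exact_mod_cast h3
  have h3 : (1 : ℝ) ≤ N / l ^ (A + 1) := by
    rw [le_div_iff₀ (by positivity), one_mul]
    refine le_trans ?_ hN
    exact pow_le_pow_right₀ hl1 (by omega)
  calc (((Ioc 0 N).filter (fun x : ℕ => ¬ Gd F W y η (a + c * x))).card : ℝ) ≤ N / l ^ (A + 1) + N / l ^ (A + 1) := by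
        linarith
    _ = (2 / l) * (N / l ^ A) := by
        rw [pow_succ]
        field_simp
        ring
    _ ≤ 1 * (N / l ^ A) := by
        gcongr
        rw [div_le_one hl0]
        exact hl2
    _ = _ := one_mul _

end Pool.Agent.H534.NW
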