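import Pool.Agent.H534.NW.Idx
import Pool.Agent.H534.RT.PStrB

/-!
# Runs of consecutive primes with indices in a class modulo `q`, at every narrow shape
-/

set_option autoImplicit false

open Finset Filter Polynomial

namespace Pool.Agent.H534.NW

/-- the `i`-th prime, `pr 1 = 2` -/
noncomputable def pr (i : ℕ) : ℕ := Nat.nth Nat.Prime (i - 1)

theorem pr_index {p : ℕ} (hp : p.Prime) : pr (Nat.primeCounting p) = p := by
  unfold pr Nat.primeCounting Nat.primeCounting'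
  rw [Nat.count_succ, if_pos hp, Nat.add_sub_cancel]
  exact Nat.nth_count hp

/-- `p` is a prime, its index is in the class of `e` modulo `q`, and `p` and the `m` following primes are at most
`p + K` and have the property `G` -/
def Run (q e m K : ℕ) (G : ℕ → Prop) (p : ℕ) : Prop :=
  p.Prime ∧ Nat.primeCounting p ≡ e [MOD q] ∧
    ∀ u ≤ m, pr (Nat.primeCounting p + u) ≤ p + K ∧ G (pr (Nat.primeCounting p + u))

theorem run_of (q e m K ρ : ℕ) (P : Finset ℕ) (hq : 1 ≤ q) (hP : P ⊆ Icc 1 K) (hPc : q + m ≤ P.card) (hρ : ρ < q) :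
    ∃ t ∈ P, ∀ (G : ℕ → Prop) (n : ℕ), Nat.primeCounting n % q = ρ →
      (∀ t : ℕ, 1 ≤ t → t ≤ K → ((n + t).Prime ↔ t ∈ P)) → (∀ t ∈ P, G (n + t)) → Run q e m K G (n + t) := by
  obtain ⟨i, hi1, hi2, hi3⟩ : ∃ i : ℕ, 1 ≤ i ∧ i ≤ q ∧ ρ + i ≡ e [MOD q] := by
    refine ⟨(e % q + (q - ρ) - 1) % q + 1, by omega, by
      have := Nat.mod_lt (e % q + (q - ρ) - 1) (by omega : 0 < q)
      omega, ?_⟩
    have h1 : e % q + (q - ρ) - 1 + 1 = e % q + (q - ρ) := by omega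
    have h2 : (e % q + (q - ρ) - 1) % q + 1 ≡ e % q + (q - ρ) [MOD q] := by
      have h3 := (Nat.mod_modEq (e % q + (q - ρ) - 1) q).add_right 1
      rwa [h1] at h3
    calc ρ + ((e % q + (q - ρ) - 1) % q + 1) ≡ ρ + (e % q + (q - ρ)) [MOD q] := h2.add_left ρ
      _ = e % q + q := by omega
      _ ≡ e % q [MOD q] := by
        rw [Nat.ModEq, Nat.add_mod_right]
      _ ≡ e [MOD q] := Nat.mod_modEq e q
  have hrank : ∀ u ≤ m, ∃ t ∈ P, (P.filter (· ≤ t)).card = i + u := fun u hu =>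
    exists_rank P (i + u) (by omega) (by omega)
  obtain ⟨t, ht, hti⟩ := hrank 0 (by omega)
  refine ⟨t, ht, fun G n hn hprime hG => ?_⟩
  have hidx := index_after n K K P hP hprime
  have htK := mem_Icc.1 (hP ht)
  have h1 : Nat.primeCounting (n + t) = Nat.primeCounting n + i := by
    rw [hidx t htK.2, hti, add_zero]
  refine ⟨(hprime t htK.1 htK.2).2 ht, ?_, fun u hu => ?_⟩
  · rw [h1]
    have h2 : Nat.primeCounting n + i ≡ ρ + i [MOD q] := by
      apply Nat.ModEq.add_right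
      rw [← hn]
      exact (Nat.mod_modEq _ _).symm
    exact h2.trans hi3
  · obtain ⟨t', ht', hti'⟩ := hrank u hu
    have htK' := mem_Icc.1 (hP ht')
    have h3 : Nat.primeCounting (n + t') = Nat.primeCounting (n + t) + u := by
      rw [hidx t' htK'.2, hti', h1]
      ring
    have h4 : pr (Nat.primeCounting (n + t) + u) = n + t' := by
      rw [← h3]
      exact pr_index ((hprime t' htK'.1 htK'.2).2 ht')
    rw [h4]
    exact ⟨by omega, hG t' ht'⟩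

open Classical in
/-- runs of primes with index in a class modulo `q` and almost prime companions, linear forms -/
theorem runN (r : ℕ) (a : ℕ → ℕ) (b : ℕ → ℤ) (hS : Pool.Agent.Y848.UG.Sys r a b) (q m : ℕ) (hq : 1 ≤ q) :
    ∃ η : ℝ, 0 < η ∧ ∃ B K : ℕ, ∀ k : ℕ, 1 ≤ k → ∃ c σ : ℝ, 0 < c ∧ 0 < σ ∧ σ ≤ 1 / 2 ∧ ∃ L₀ : ℕ,
    ∀ᶠ x : ℕ in atTop, ∀ e : ℕ, Shapes k B c σ L₀ x ((Ioc (x / 2) (2 * x)).filter (Run q e m K
      (fun p => p ≤ 2 * x ∧ ∀ l < r, ∀ u : ℕ, u.Prime → (u : ℤ) ∣ a l * (p : ℤ) + b l → (x : ℝ) ^ η < u))) := by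
  obtain ⟨η, hη, B, K, hm⟩ := idxN r a b hS q (q + m) hq
  refine ⟨η, hη, B, K, fun k hk => ?_⟩
  obtain ⟨c, σ, hc, hσ, hσ2, L₀, hev⟩ := hm k hk
  refine ⟨c, σ, hc, hσ, hσ2, L₀, ?_⟩
  have hK : ∀ᶠ x : ℕ in atTop, (K : ℝ) ≤ Real.log x / Real.log (Real.log x) ^ 2 := by
    have hNr : Tendsto (fun H : ℕ => (H : ℝ)) atTop atTop := tendsto_natCast_atTop_atTop
    have hl : Tendsto (fun H : ℕ => Real.log (H : ℝ)) atTop atTop := Real.tendsto_log_atTop.comp hNr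
    have h1 : ∀ᶠ l : ℝ in atTop, (K : ℝ) ≤ l / Real.log l ^ 2 := by
      have h2 := (Real.isLittleO_pow_log_id_atTop (n := 2)).bound (show (0 : ℝ) < 1 / (K + 1) by positivity)
      filter_upwards [h2, eventually_gt_atTop 1] with l hl hl1
      have h3 : 0 < Real.log l := Real.log_pos hl1
      rw [Real.norm_eq_abs, abs_of_pos (by positivity), id, Real.norm_eq_abs, abs_of_pos (by linarith)] at hl
      rw [le_div_iff₀ (by positivity)]
      calc (K : ℝ) * Real.log l ^ 2 ≤ (K + 1) * (1 / (K + 1) * l) := by gcongr; linarith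
        _ = l := by field_simp
    exact hl.eventually h1
  filter_upwards [hev, hK, eventually_ge_atTop (2 * K + 2)] with x hx hxK hxK2 e
  obtain ⟨P, S, ρ, hP, hPm, hρ, hSg, hSh⟩ := hx K le_rfl hxK
  obtain ⟨t, ht, hrun⟩ := run_of q e m K ρ P hq hP hPm hρ
  have htK := mem_Icc.1 (hP ht)
  refine hSh.add t (fun n hn => ?_)
  obtain ⟨g1, g2, g3, g4, g5⟩ := hSg n hn
  rw [mem_filter, mem_Ioc]
  refine ⟨by omega, hrun _ n g3 g4 (fun t' ht' => ⟨?_, fun l hl u hu hd => g5 t' ht' l hl u hu hd⟩)⟩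
  have := mem_Icc.1 (hP ht')
  omega

open Pool.Agent.H534.RT Pool.Agent.W123.RU in
open Classical in
/-- runs of primes with index in a class modulo `q` and almost prime values of a family of polynomials -/
theorem runF {J : Type} [Fintype J] (F : J → ℤ[X]) (hFam : Fam F) (q m : ℕ) (hq : 1 ≤ q) :
    ∃ (r₀ B K : ℕ) (θ : ℝ), 0 < θ ∧ ∀ k : ℕ, 1 ≤ k → ∃ c σ : ℝ, 0 < c ∧ 0 < σ ∧ σ ≤ 1 / 2 ∧ ∃ L₀ : ℕ,
    ∀ᶠ x : ℕ in atTop, ∀ e : ℕ, Shapes k B c σ L₀ x ((Ioc x (2 * x)).filter (Run q e m K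
      (fun p => p ≤ 2 * x ∧ AVF F r₀ ((x : ℝ) ^ θ) p))) := by
  obtain ⟨K₀, ε₁, hε, -, hK₀⟩ := pstrA F hFam (q + m)
  obtain ⟨r₀, x₀, hr₀⟩ := av_of F hFam ε₁ hε
  obtain ⟨S, hSd⟩ : ∃ S : Finset ℕ, S = Icc 1 (K₀ + 1) := ⟨_, rfl⟩
  have hSc : K₀ ≤ S.card := by rw [hSd, Nat.card_Icc]; omega
  have hsup : S.sup id = K₀ + 1 := by
    apply le_antisymm
    · apply Finset.sup_le
      intro u hu
      rw [hSd, mem_Icc] at hu
      exact hu.2
    · exact Finset.le_sup (f := id) (show K₀ + 1 ∈ S by rw [hSd, mem_Icc]; omega)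
  obtain ⟨n₁, s, r, κ, hn₁, hsys, hκ, hN⟩ := hK₀ S hSc
  rw [hsup] at hN
  have hNe : Nonempty (Option J × Fin n₁) := ⟨⟨none, ⟨0, hn₁⟩⟩⟩
  refine ⟨r₀, (Fintype.card J + 1) * n₁, K₀ + 1, ε₁, hε, fun k hk => ?_⟩
  have hqr : (0 : ℝ) < q := by exact_mod_cast hq
  obtain ⟨c, σ, hc, hσ, hσ2, hP⟩ := polyW (fun j : Option J × Fin n₁ => fG F (s j.2) j.1) hsys k 2 (ε₁ / 2)
    (1 / (q : ℝ) * κ) hk (by positivity) (by positivity)
  obtain ⟨L₀, H₀, hP⟩ := hP σ hσ le_rfl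
  rw [Fintype.card_prod, Fintype.card_option, Fintype.card_fin] at hP
  refine ⟨c, σ, hc, hσ, hσ2, L₀, ?_⟩
  filter_upwards [hN, eventually_ge_atTop H₀, eventually_ge_atTop x₀, eventually_ge_atTop 1] with x hx hxH hxx hx1 e
  obtain ⟨Q, hQS, hQm, Y, A, hY, hA, hAr, hAc, hAg⟩ := hx
  -- a class of the index
  obtain ⟨ρ, hρ, hρc⟩ : ∃ ρ ∈ range q, 1 / (q : ℝ) * A.card ≤
      ((A.filter (fun n => Nat.primeCounting (n - r) % q = ρ)).card : ℝ) := by
    by_contra hcon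
    push Not at hcon
    have h1 : A.card = ∑ ρ ∈ range q, (A.filter (fun n => Nat.primeCounting (n - r) % q = ρ)).card := by
      apply card_eq_sum_card_fiberwise
      intro n _
      rw [mem_coe, mem_range]
      exact Nat.mod_lt _ (by omega)
    have h2 : (A.card : ℝ) < ∑ _ρ ∈ range q, 1 / (q : ℝ) * A.card := by
      have h3 : (A.card : ℝ) = ∑ ρ ∈ range q, ((A.filter (fun n => Nat.primeCounting (n - r) % q = ρ)).card : ℝ) := by
        exact_mod_cast h1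
      have h4 : (range q).Nonempty := ⟨0, mem_range.2 (by omega)⟩
      exact h3.trans_lt (sum_lt_sum_of_nonempty h4 hcon)
    rw [sum_const, card_range, nsmul_eq_mul] at h2
    have h3 : (q : ℝ) * (1 / (q : ℝ) * A.card) = A.card := by field_simp
    linarith
  rw [mem_range] at hρ
  have hSh := hP Y x (A.filter (fun n => Nat.primeCounting (n - r) % q = ρ)) hxH hY ((filter_subset _ _).trans hA)
    (fun n hn => hAr n (filter_subset _ _ hn)) (by
      refine le_trans ?_ hρc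
      rw [mul_assoc]
      gcongr)
  -- the starting points
  have hPs : Q ⊆ Icc 1 (K₀ + 1) := hQS.trans (by rw [hSd])
  obtain ⟨t, ht, hrun⟩ := run_of q e m (K₀ + 1) ρ Q hq hPs hQm hρ
  have htK := mem_Icc.1 (hPs ht)
  have hSh2 : Shapes k ((Fintype.card J + 1) * n₁) c σ L₀ x ((A.filter (fun n => Nat.primeCounting (n - r) % q = ρ)).image (fun n => n - r)) :=
    hSh.sub r (fun n hn => by
      obtain ⟨g1, -, -, -⟩ := hAg n (filter_subset _ _ hn)
      exact ⟨by omega, mem_image_of_mem _ hn⟩)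
  refine hSh2.add t (fun n' hn' => ?_)
  rw [mem_image] at hn'
  obtain ⟨n, hn, rfl⟩ := hn'
  rw [mem_filter] at hn
  obtain ⟨g1, g2, g3, g4⟩ := hAg n hn.1
  rw [mem_filter, mem_Ioc]
  refine ⟨by omega, hrun _ (n - r) hn.2 (fun t' h1 h2 => g3 t' h2) (fun t' ht' => ?_)⟩
  have h5 := mem_Icc.1 (hPs ht')
  exact ⟨by omega, hr₀ x hxx _ (by omega) (g4 t' ht')⟩

end Pool.Agent.H534.NW
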