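import Pool.Agent.H534.NW.LinW

/-!
# Iterates of `n ↦ A n + B` at every narrow shape, uniformly in the times
-/

set_option autoImplicit false

open Finset Filter

namespace Pool.Agent.H534.NW

open Pool.Agent.H534.RT (ia ib be ib_le LAdm LV LP numU)

theorem ib_leN {l : ℕ} (A : ℕ) (hA : 2 ≤ A) (B : ℤ) (t : Fin l → ℕ) (i : Fin l) :
    |(ib A B t i : ℝ)| ≤ (ia A t i : ℝ) * (B.natAbs : ℝ) := by
  apply ib_le A hA B t i
  rw [Nat.cast_natAbs]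
  push_cast
  exact le_rfl

open Classical in
/-- **Dense sets.** -/
theorem itAW (l E k : ℕ) (η κ : ℝ) (hk : 1 ≤ k) (hη : 0 < η) (hκ : 0 < κ)
    (A : ℕ) (hA : 2 ≤ A) (B : ℤ) :
    ∃ c σm : ℝ, 0 < c ∧ 0 < σm ∧ σm ≤ 1 / 2 ∧ ∀ σ : ℝ, 0 < σ → σ ≤ σm → ∃ L H₀ : ℕ,
    ∀ (H Y : ℕ) (t : Fin l → ℕ) (S : Finset ℕ), H₀ ≤ H → LAdm (ia A t) (ib A B t) →
    (∀ j, A ^ t j ≤ H ^ E) → Y ≤ H ^ E →
    (∀ n ∈ Ioc Y (Y + H), ∀ j, (ia A t j : ℤ) * n + ib A B t j ≠ 0) → S ⊆ Ioc Y (Y + H) →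
    (∀ n ∈ S, ∀ p : ℕ, p.Prime → (p : ℝ) ≤ (H : ℝ) ^ η → ¬ p ∣ n ∧ ∀ j, ¬ (p : ℤ) ∣ (ia A t j : ℤ) * n + ib A B t j) →
    κ * (H * LV (ia A t) (ib A B t) H) ≤ S.card → ShapesV k (LV (ia A t) (ib A B t) H) c σ L H S := by
  obtain ⟨c, σm, hc, hσm, hσm2, hm⟩ := linAW l (E + 1) B.natAbs k η κ hk (by omega) hη hκ
  refine ⟨c, σm, hc, hσm, hσm2, fun σ hσ hσσ => ?_⟩
  obtain ⟨L, H₀, hm⟩ := hm σ hσ hσσ
  refine ⟨L, max (max H₀ B.natAbs) 1, fun H Y t S hH hadm ht hY hnz hS hSr hSc => ?_⟩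
  have hH0 : H₀ ≤ H := ((le_max_left _ _).trans (le_max_left _ _)).trans hH
  have hH1 : B.natAbs ≤ H := ((le_max_right _ _).trans (le_max_left _ _)).trans hH
  have hHone : 1 ≤ H := (le_max_right _ _).trans hH
  have hHr : (1 : ℝ) ≤ H := by exact_mod_cast hHone
  have hpow : H ^ E ≤ H ^ (E + 1) := Nat.pow_le_pow_right hHone (by omega)
  refine hm H Y (ia A t) (ib A B t) S hH0 hadm (fun j => Nat.one_le_pow _ _ (by omega))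
    (fun j => by unfold ia; exact_mod_cast (ht j).trans hpow)
    (fun j => ?_) (fun j => ib_leN A hA B t j) (hY.trans hpow) hnz hS hSr hSc
  refine (ib_leN A hA B t j).trans ?_
  have h3 : (ia A t j : ℝ) ≤ (H : ℝ) ^ E := by unfold ia; exact_mod_cast ht j
  have h4 : (B.natAbs : ℝ) ≤ H := by exact_mod_cast hH1
  rw [pow_succ]
  exact mul_le_mul h3 h4 (by positivity) (by positivity)

open Classical in
/-- **A prime and almost primes.** -/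
theorem itBW (l E : ℕ) (A : ℕ) (hA : 2 ≤ A) (B : ℤ) :
    ∃ r₀ : ℕ, 2 ≤ r₀ ∧ ∀ r : ℕ, r₀ ≤ r → ∀ (k : ℕ) (κ' : ℝ), 1 ≤ k → 0 < κ' →
    ∃ c σm : ℝ, 0 < c ∧ 0 < σm ∧ σm ≤ 1 / 2 ∧ ∀ σ : ℝ, 0 < σ → σ ≤ σm → ∃ L : ℕ, ∀ᶠ x : ℕ in atTop,
    ∀ t : Fin l → ℕ, LAdm (ia A t) (ib A B t) → (∀ j, A ^ t j ≤ x ^ E) →
    ∀ A' ⊆ LP (ia A t) (ib A B t) x r, κ' * (LP (ia A t) (ib A B t) x r).card ≤ A'.card →
    ShapesV k (LV (ia A t) (ib A B t) x) c σ L x A' := by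
  obtain ⟨r₀, hr₀, hm⟩ := linBW l (E + 1) B.natAbs (by omega)
  refine ⟨r₀, hr₀, fun r hr k κ' hk hκ' => ?_⟩
  obtain ⟨c, σm, hc, hσm, hσm2, hm⟩ := hm r hr k κ' hk hκ'
  refine ⟨c, σm, hc, hσm, hσm2, fun σ hσ hσσ => ?_⟩
  obtain ⟨L, hm⟩ := hm σ hσ hσσ
  refine ⟨L, ?_⟩
  filter_upwards [hm, eventually_ge_atTop (max 1 B.natAbs)] with x hx hx1' t hadm ht
  have hx1 : 1 ≤ x := (le_max_left _ _).trans hx1'
  have hxB : B.natAbs ≤ x := (le_max_right _ _).trans hx1'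
  have hxr : (1 : ℝ) ≤ x := by exact_mod_cast hx1
  have hpow : x ^ E ≤ x ^ (E + 1) := Nat.pow_le_pow_right hx1 (by omega)
  refine hx (ia A t) (ib A B t) hadm (fun j => Nat.one_le_pow _ _ (by omega))
    (fun j => by unfold ia; exact_mod_cast (ht j).trans hpow)
    (fun j => ?_) (fun j => ib_leN A hA B t j)
  refine (ib_leN A hA B t j).trans ?_
  have h5 : (ia A t j : ℝ) ≤ (x : ℝ) ^ E := by unfold ia; exact_mod_cast ht j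
  have h4 : (B.natAbs : ℝ) ≤ x := by exact_mod_cast hxB
  rw [pow_succ]
  exact mul_le_mul h5 h4 (by positivity) (by positivity)

open Classical in
/-- **Strings of primes.** -/
theorem itCW (m l : ℕ) : ∃ η : ℝ, 0 < η ∧ ∃ B₁ K : ℕ, ∀ (A : ℕ) (_ : 2 ≤ A) (B : ℤ) (k E : ℕ) (κ : ℝ),
    1 ≤ k → 0 < κ →
    ∃ c σm : ℝ, 0 < c ∧ 0 < σm ∧ σm ≤ 1 / 2 ∧ ∀ σ : ℝ, 0 < σ → σ ≤ σm → ∃ Lx x₀ : ℕ,
    ∀ x : ℕ, x₀ ≤ x → ∀ t : Fin l → ℕ, LAdm (ia A t) (ib A B t) →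
      Function.Injective t → (∀ j, 1 ≤ t j) → (∀ j, A ^ t j ≤ x ^ E) →
      ∃ P S : Finset ℕ, P ⊆ Icc 1 K ∧ m ≤ P.card ∧ S ⊆ Ioc (x / 2) (x / 2 + x) ∧
      (∀ n ∈ S, (∀ u : ℕ, 1 ≤ u → (u : ℝ) ≤ Real.log x / Real.log (Real.log x) ^ 2 → ((n + u).Prime ↔ u ∈ P)) ∧
          ∀ u ∈ P, (n + u).Prime ∧ ∀ j, ∀ q : ℕ, q.Prime →
            (q : ℤ) ∣ (ia A t j : ℤ) * ((n + u : ℕ) : ℤ) + ib A B t j → (x : ℝ) ^ η < q) ∧
      ∀ S' ⊆ S, κ * S.card ≤ S'.card → Shapes k B₁ c σ Lx x S' := by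
  obtain ⟨η, hη, B₁, K, hcl⟩ := linCW m l
  refine ⟨η, hη, B₁, K, fun A hA B k E κ hk hκ => ?_⟩
  obtain ⟨c, σm, hc, hσm, hσm2, h1⟩ := hcl k (E + 1) 0 B.natAbs κ hk hκ
  refine ⟨c, σm, hc, hσm, hσm2, fun σ hσ hσσ => ?_⟩
  obtain ⟨Lx, x₀, h1⟩ := h1 σ hσ hσσ
  obtain ⟨x₃, hx₃⟩ := numU 1 one_pos K
  refine ⟨Lx, max x₀ (max B.natAbs (max x₃ 2)), fun x hx t hadm hinj ht1 ht => ?_⟩
  have hx0 : x₀ ≤ x := (le_max_left _ _).trans hx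
  have hx1 : B.natAbs ≤ x := ((le_max_left _ _).trans (le_max_right _ _)).trans hx
  have hx3 : x₃ ≤ x := (((le_max_left _ _).trans (le_max_right _ _)).trans (le_max_right _ _)).trans hx
  have hxK : 2 ≤ x := (((le_max_right _ _).trans (le_max_right _ _)).trans (le_max_right _ _)).trans hx
  have hxr : (1 : ℝ) < x := by exact_mod_cast (by omega : 1 < x)
  obtain ⟨-, -, n3, -, n5⟩ := hx₃ x hx3
  obtain ⟨L, hL⟩ : ∃ L, L = ⌊Real.log x / Real.log (Real.log x) ^ 2⌋₊ := ⟨_, rfl⟩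
  have hLpos : 0 ≤ Real.log x / Real.log (Real.log x) ^ 2 := by
    have : 0 ≤ Real.log (x : ℝ) := Real.log_nonneg hxr.le
    positivity
  have hL1 : (L : ℝ) ≤ Real.log x / Real.log (Real.log x) ^ 2 := by
    rw [hL]
    exact Nat.floor_le hLpos
  have hL2 : K ≤ L := by
    rw [hL]
    apply Nat.le_floor
    linarith
  have hpow : x ^ E ≤ x ^ (E + 1) := Nat.pow_le_pow_right (by omega) (by omega)
  have hne1 : ∀ j, ia A t j ≠ 1 := by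
    intro j
    unfold ia
    have : A ^ 1 ≤ A ^ t j := Nat.pow_le_pow_right (by omega) (ht1 j)
    rw [pow_one] at this
    omega
  obtain ⟨P, S, hP1, hP2, hS1, hS2, hsh⟩ := h1 x hx0 (ia A t) (ib A B t) L hadm
    (fun i j h5 _ => hinj (Nat.pow_right_injective hA h5)) (fun j h5 => hne1 j h5.1)
    (fun j => Nat.one_le_pow _ _ (by omega))
    (fun j => by unfold ia; exact_mod_cast (ht j).trans hpow)
    (fun j => by
      refine (ib_leN A hA B t j).trans ?_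
      have h5 : (ia A t j : ℝ) ≤ (x : ℝ) ^ E := by unfold ia; exact_mod_cast ht j
      have h4 : (B.natAbs : ℝ) ≤ x := by exact_mod_cast hx1
      rw [pow_succ]
      exact mul_le_mul h5 h4 (by positivity) (by positivity))
    (fun j => ib_leN A hA B t j) hL2 hL1 (Or.inr (fun j h5 => absurd h5 (hne1 j)))
  refine ⟨P, S, hP1, hP2, hS1, fun n hn => ?_, hsh⟩
  obtain ⟨h7, h8⟩ := hS2 n hn
  exact ⟨fun u hu1 hu2 => h7 u hu1 (by rw [hL]; exact Nat.le_floor hu2), h8⟩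

end Pool.Agent.H534.NW
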