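import Pool.Agent.H534.NW.Good

/-!
# The local factors at good positions: only the primes up to `log log H` divide the modulus
-/

set_option autoImplicit false

open Finset

namespace Pool.Agent.H534.NW

open Pool.Agent.Y677.RSZ hiding Sys V_pos fac_pos V_lower
open Pool.Agent.H534.RT hiding V_pos V_lower
open Pool.Agent.Y833.RSZ
open Pool.Agent.TH423.SH (PS)
open Pool.Agent.Y394.PSP (sum_inv_le sum_inv_sq_le pow_le_quad)

theorem sum_biUnion_le {ι : Type} [DecidableEq ι] (s : Finset ι) (t : ι → Finset ℕ) (f : ℕ → ℝ) (hf : ∀ p, 0 ≤ f p) :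
    ∑ p ∈ s.biUnion t, f p ≤ ∑ i ∈ s, ∑ p ∈ t i, f p := by
  classical
  induction s using Finset.induction with
  | empty => simp
  | insert a s ha ih =>
    rw [biUnion_insert, sum_insert ha]
    have h1 := sum_union_inter (s₁ := t a) (s₂ := s.biUnion t) (f := f)
    have h2 : 0 ≤ ∑ p ∈ t a ∩ s.biUnion t, f p := sum_nonneg fun p _ => hf p
    linarith

/-- the local factors -/
theorem LOCw (g m : ℕ) (η : ℝ) (hη : 0 < η) : ∃ σ₀ : ℝ, 0 < σ₀ ∧ σ₀ ≤ 1 / 2 ∧ ∃ l₀ : ℝ, ∀ (y η₁ : ℝ) (W N H : ℕ),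
  l₀ ≤ Real.log H → Real.log H ^ (1 - σ₀) ≤ y → 0 ≤ η₁ → η₁ ≤ σ₀ →
  1 ≤ W → 1 ≤ N → (∀ p : ℕ, p.Prime → (p : ℝ) ≤ Real.log (Real.log H) → p ∣ W) → W * N ≤ H →
  ∀ F : ℤ → ℤ, SysU g H W F → ∀ (t : Fin m → ℕ) (b : ℕ), (∀ i j, i ≠ j → Gd F W y η₁ ((t i : ℤ) - t j)) →
  (∀ i, 1 ≤ t i ∧ t i ≤ N) → ∀ R : ℕ,
    |∏ p ∈ PS W R, (1 - (rhoT F W b t p : ℝ) / p) - V F W R ^ m| ≤ η * V F W R ^ m := by
  classical
  set θ : ℝ := Real.log (1 + η) with hθ
  have hθ0 : 0 < θ := Real.log_pos (by linarith)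
  set E : ℝ := 4 * (m : ℝ) ^ 2 * (g : ℝ) ^ 2 + 2 * (m : ℝ) ^ 3 * (g : ℝ) ^ 2 with hE
  have hE0 : 0 ≤ E := by rw [hE]; positivity
  obtain ⟨σ₀, hσ₀d⟩ : ∃ σ₀ : ℝ, σ₀ = min (1 / 2) (θ / (2 * (64 * m * g + 2 * m ^ 3 * g) + 1)) := ⟨_, rfl⟩
  have hσ₀ : 0 < σ₀ := by
    rw [hσ₀d]
    exact lt_min (by norm_num) (by positivity)
  have hσ₀2 : σ₀ ≤ 1 / 2 := hσ₀d ▸ min_le_left _ _
  have hσ₀θ : (64 * (m : ℝ) * g + 2 * m ^ 3 * g) * σ₀ ≤ θ / 2 := by
    have h1 : σ₀ ≤ θ / (2 * (64 * m * g + 2 * m ^ 3 * g) + 1) := hσ₀d ▸ min_le_right _ _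
    rw [le_div_iff₀ (by positivity)] at h1
    nlinarith
  obtain ⟨lw, hlw1, hwin⟩ := Pool.Agent.H534.NV.win_sum σ₀ hσ₀ hσ₀2
  refine ⟨σ₀, hσ₀, hσ₀2, max (max lw (Real.exp (2 * E / θ + 1))) (Real.exp (2 * m * g + 2 * g + 2)), ?_⟩
  intro y η₁ W N H hl₀ hly hη₁0 hη₁ hW1 hN1 hWs' hWNH F hF t b ht ht1 R
  obtain ⟨l, hl⟩ : ∃ l : ℝ, l = Real.log H := ⟨_, rfl⟩
  rw [← hl] at hl₀ hly hWs'
  obtain ⟨s, hs⟩ : ∃ s : ℝ, s = Real.log l := ⟨_, rfl⟩
  have hWs : ∀ p : ℕ, p.Prime → (p : ℝ) ≤ s → p ∣ W := by rw [hs]; exact hWs'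
  have hl0w : lw ≤ l := ((le_max_left _ _).trans (le_max_left _ _)).trans hl₀
  have hl1 : Real.exp (2 * E / θ + 1) ≤ l := ((le_max_right _ _).trans (le_max_left _ _)).trans hl₀
  have hl2 : Real.exp (2 * (m : ℝ) * g + 2 * g + 2) ≤ l := (le_max_right _ _).trans hl₀
  have hm0 : (0 : ℝ) ≤ m := Nat.cast_nonneg m
  have hg0 : (0 : ℝ) ≤ g := Nat.cast_nonneg g
  have hmg0 : (0 : ℝ) ≤ (m : ℝ) * g := mul_nonneg hm0 hg0
  have hlpos : 0 < l := lt_of_lt_of_le (Real.exp_pos _) hl2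
  have hs2 : 2 * (m : ℝ) * g + 2 * g + 2 ≤ s := by
    rw [hs, Real.le_log_iff_exp_le hlpos]
    exact hl2
  have hs1' : 1 < s := by linarith
  have hs0 : 0 < s := by linarith
  have hlogl : 2 * E / θ + 1 ≤ Real.log l := by
    rw [Real.le_log_iff_exp_le hlpos]
    exact hl1
  have hlogl0 : 0 < Real.log l := by rw [← hs]; exact hs0
  have hl1' : 1 < l := by
    by_contra h
    have := Real.log_nonpos hlpos.le (not_lt.1 h)
    linarith
  -- the primes in `PS W R` are larger than `s`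
  have hPS : ∀ p ∈ PS W R, p.Prime ∧ ¬ p ∣ W ∧ s < (p : ℝ) := by
    intro p hp
    unfold PS at hp
    rw [mem_filter] at hp
    refine ⟨hp.2.1, hp.2.2, ?_⟩
    by_contra h
    exact hp.2.2 (hWs p hp.2.1 (not_lt.1 h))
  set a : ℕ → ℝ := fun p => 1 - (rhoT F W b t p : ℝ) / p with ha
  set x : ℕ → ℝ := fun p => (rt F p : ℝ) / p with hxdef
  set bb : ℕ → ℝ := fun p => (1 - x p) ^ m with hb
  obtain ⟨Δ, hΔ⟩ := hF.coll
  -- the differences
  set hh : Fin m × Fin m → ℕ := fun q => W * ((t q.1 : ℤ) - (t q.2 : ℤ)).natAbs with hhh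
  have hhpos : ∀ q ∈ (univ : Finset (Fin m)).offDiag, 1 ≤ hh q ∧ hh q ≤ H ∧ W ∣ hh q := by
    intro q hq
    rw [mem_offDiag] at hq
    have h1 : 1 ≤ ((t q.1 : ℤ) - (t q.2 : ℤ)).natAbs := by
      rw [Nat.one_le_iff_ne_zero]
      intro h
      apply (ht q.1 q.2 hq.2.2).1
      omega
    have h2 : ((t q.1 : ℤ) - (t q.2 : ℤ)).natAbs ≤ N := by
      have := ht1 q.1
      have := ht1 q.2
      omega
    refine ⟨?_, ?_, ?_⟩
    · calc 1 ≤ W := hW1
        _ = W * 1 := (mul_one W).symm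
        _ ≤ _ := Nat.mul_le_mul_left W h1
    · exact (Nat.mul_le_mul_left W h2).trans hWNH
    · exact Dvd.intro _ rfl
  set D : ℕ := ∏ q ∈ (univ : Finset (Fin m)).offDiag, Δ (hh q) with hD
  have hD0 : D ≠ 0 := by
    rw [hD, Finset.prod_ne_zero_iff]
    intro q hq
    obtain ⟨q1, q2, q3⟩ := hhpos q hq
    have := (hΔ (hh q) q1 q2 q3).1
    omega
  have hlogD : Real.log D ≤ (m : ℝ) ^ 2 * g * l := by
    rw [hD, Nat.cast_prod, Real.log_prod]
    · have h1 : ∀ q ∈ (univ : Finset (Fin m)).offDiag, Real.log (Δ (hh q)) ≤ g * l := by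
        intro q hq
        obtain ⟨q1, q2, q3⟩ := hhpos q hq
        obtain ⟨h2, h4, _⟩ := hΔ (hh q) q1 q2 q3
        have h5 : Real.log (Δ (hh q)) ≤ Real.log ((H ^ g : ℕ) : ℝ) := by
          apply Real.log_le_log
          · exact_mod_cast h2
          · exact_mod_cast h4
        refine h5.trans ?_
        push_cast
        rw [Real.log_pow, ← hl]
      calc ∑ q ∈ (univ : Finset (Fin m)).offDiag, Real.log (Δ (hh q))
          ≤ ∑ _q ∈ (univ : Finset (Fin m)).offDiag, (g : ℝ) * l := Finset.sum_le_sum h1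
        _ = ((univ : Finset (Fin m)).offDiag.card : ℝ) * (g * l) := by
            rw [Finset.sum_const, nsmul_eq_mul]
        _ ≤ (m : ℝ) ^ 2 * (g * l) := by
            apply mul_le_mul_of_nonneg_right _ (by positivity)
            rw [offDiag_card]
            simp only [card_univ, Fintype.card_fin]
            have : m * m - m ≤ m ^ 2 := by
              rw [sq]; omega
            exact_mod_cast this
        _ = _ := by ring
    · intro q hq
      have := (Finset.prod_ne_zero_iff.1 hD0) q hq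
      exact_mod_cast this
  -- bounds for the factors
  have hx : ∀ p ∈ PS W R, 0 ≤ x p ∧ x p ≤ g / p ∧ x p ≤ 1 / 2 ∧ (m : ℝ) * x p ≤ 1 / 2 := by
    intro p hp
    obtain ⟨h1, h2, h3⟩ := hPS p hp
    have hp0 : (0 : ℝ) < p := by linarith
    have hr : (rt F p : ℝ) ≤ g := by exact_mod_cast (hF.root p h1).1
    have hr0 : (0 : ℝ) ≤ rt F p := Nat.cast_nonneg _
    have hxp : x p ≤ g / p := div_le_div_of_nonneg_right hr hp0.le
    refine ⟨div_nonneg hr0 hp0.le, hxp, ?_, ?_⟩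
    · refine hxp.trans ?_
      rw [div_le_iff₀ hp0]
      linarith
    · calc (m : ℝ) * x p ≤ m * (g / p) := mul_le_mul_of_nonneg_left hxp hm0
        _ = (m * g) / p := by ring
        _ ≤ 1 / 2 := by
          rw [div_le_iff₀ hp0]
          linarith
  have hb1 : ∀ p ∈ PS W R, 1 - (m : ℝ) * x p ≤ bb p := by
    intro p hp
    obtain ⟨h0, _, h1, h2⟩ := hx p hp
    have := one_add_mul_le_pow (a := -(x p)) (by linarith) m
    simp only [hb]
    calc 1 - (m : ℝ) * x p = 1 + (m : ℝ) * (-(x p)) := by ring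
      _ ≤ (1 + -(x p)) ^ m := this
      _ = (1 - x p) ^ m := by ring
  have hb2 : ∀ p ∈ PS W R, 1 / 2 ≤ bb p := by
    intro p hp
    have := (hx p hp).2.2.2
    have := hb1 p hp
    linarith
  have hb3 : ∀ p ∈ PS W R, bb p ≤ 1 - (m : ℝ) * x p + (m : ℝ) ^ 2 * (x p) ^ 2 := by
    intro p hp
    obtain ⟨h0, _, h1, h2⟩ := hx p hp
    exact pow_le_quad m (x p) h0 (by linarith)
  have hb4 : ∀ p ∈ PS W R, bb p ≤ 1 := by
    intro p hp
    obtain ⟨h0, _, h1, h2⟩ := hx p hp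
    simp only [hb]
    exact pow_le_one₀ (by linarith) (by linarith)
  have ha1 : ∀ p ∈ PS W R, 1 - (m : ℝ) * x p ≤ a p ∧ a p ≤ 1 := by
    intro p hp
    obtain ⟨h1, h2, h3⟩ := hPS p hp
    have hp0 : (0 : ℝ) < p := by linarith
    have hr : (rhoT F W b t p : ℝ) ≤ m * rt F p := by
      exact_mod_cast rhoT_le h1 (hF.per p h1) W b t h2
    have hr0 : (0 : ℝ) ≤ rhoT F W b t p := Nat.cast_nonneg _
    simp only [ha, hxdef]
    constructor
    · have : (rhoT F W b t p : ℝ) / p ≤ (m * rt F p) / p := div_le_div_of_nonneg_right hr hp0.le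
      rw [mul_div_assoc] at this
      linarith
    · have := div_nonneg hr0 hp0.le
      linarith
  obtain ⟨Cl, hCl⟩ : ∃ Cl : ℕ → Prop, Cl = fun p => ∃ q ∈ (univ : Finset (Fin m)).offDiag,
    HB F p (W * ((t q.1 : ℤ) - t q.2)) := ⟨_, rfl⟩
  have ha2 : ∀ p ∈ PS W R, ¬ Cl p → a p = 1 - (m : ℝ) * x p := by
    intro p hp hd
    obtain ⟨hp1, hp2, hp3⟩ := hPS p hp
    have hr : rhoT F W b t p = m * rt F p := by
      apply rhoT_eq hp1 (hF.per p hp1) W b t hp2
      intro i j hij r h1 h2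
      apply hd
      rw [hCl]
      refine ⟨(j, i), ?_, ((W * (r + t i) + b : ℕ) : ℤ), h1, ?_⟩
      · rw [mem_offDiag]; exact ⟨mem_univ _, mem_univ _, hij.symm⟩
      · have e : ((W * (r + t i) + b : ℕ) : ℤ) + W * ((t j : ℤ) - t i) = ((W * (r + t j) + b : ℕ) : ℤ) := by
          push_cast
          ring
        rw [e]
        exact h2
    simp only [ha, hr, hxdef]
    push_cast
    ring
  -- the large collision primes divide `D`
  have hClD : ∀ p ∈ PS W R, Cl p → p ∣ D := by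
    intro p hp hc
    obtain ⟨hp1, hp2, hp3⟩ := hPS p hp
    rw [hCl] at hc
    obtain ⟨q, hq, n, h1, h2⟩ := hc
    have hΔd : p ∣ Δ (hh q) := by
      obtain ⟨q1, q2, q3⟩ := hhpos q hq
      obtain ⟨_, _, h3⟩ := hΔ (hh q) q1 q2 q3
      rcases le_total (t q.2) (t q.1) with hle | hle
      · apply h3 p hp1 n h1
        have e : n + (hh q : ℤ) = n + W * ((t q.1 : ℤ) - t q.2) := by
          simp only [hhh]
          have e1 : ((((t q.1 : ℤ) - (t q.2 : ℤ)).natAbs : ℕ) : ℤ) = (t q.1 : ℤ) - t q.2 := by omega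
          push_cast [e1]
          ring
        rw [e]
        exact h2
      · apply h3 p hp1 _ h2
        have e : n + W * ((t q.1 : ℤ) - t q.2) + (hh q : ℤ) = n := by
          simp only [hhh]
          have e1 : ((((t q.1 : ℤ) - (t q.2 : ℤ)).natAbs : ℕ) : ℤ) = (t q.2 : ℤ) - t q.1 := by omega
          push_cast [e1]
          ring
        rw [e]
        exact h1
    exact hΔd.trans (Finset.dvd_prod_of_mem (fun q => Δ (hh q)) hq)
  -- the relative error
  set f : ℕ → ℝ := fun p => a p / bb p - 1 with hf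
  have hbpos : ∀ p ∈ PS W R, 0 < bb p := fun p hp => by
    have := hb2 p hp
    linarith
  have hf1 : ∀ p ∈ PS W R, |f p| ≤ 2 * |a p - bb p| := by
    intro p hp
    have h0 := hbpos p hp
    have h1 : f p = (a p - bb p) / bb p := by
      simp only [hf]
      field_simp
    rw [h1, abs_div, abs_of_pos h0, div_le_iff₀ h0]
    have h2 := hb2 p hp
    have h3 := abs_nonneg (a p - bb p)
    nlinarith
  have hf2 : ∀ p ∈ PS W R, |f p| ≤ 2 * (m : ℝ) ^ 2 * (g : ℝ) ^ 2 * (1 / (p : ℝ) ^ 2) +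
      (if Cl p then 2 * (m : ℝ) * g * (1 / p) else 0) := by
    intro p hp
    obtain ⟨h0, hg1, h1, h2⟩ := hx p hp
    have hp0 : (0 : ℝ) < p := by have := (hPS p hp).2.2; linarith
    have e1 := hb1 p hp
    have e3 := hb3 p hp
    have e4 := hb4 p hp
    obtain ⟨e5, e6⟩ := ha1 p hp
    refine (hf1 p hp).trans ?_
    have hsq : (m : ℝ) ^ 2 * (x p) ^ 2 ≤ (m : ℝ) ^ 2 * (g : ℝ) ^ 2 * (1 / (p : ℝ) ^ 2) := by
      have : (x p) ^ 2 ≤ (g / p : ℝ) ^ 2 := pow_le_pow_left₀ h0 hg1 2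
      calc (m : ℝ) ^ 2 * (x p) ^ 2 ≤ (m : ℝ) ^ 2 * (g / p : ℝ) ^ 2 :=
            mul_le_mul_of_nonneg_left this (by positivity)
        _ = _ := by ring
    split_ifs with hd
    · have h3 : |a p - bb p| ≤ (m : ℝ) * x p := by
        rw [abs_le]
        constructor <;> linarith
      have h4 : 0 ≤ 2 * (m : ℝ) ^ 2 * (g : ℝ) ^ 2 * (1 / (p : ℝ) ^ 2) := by positivity
      have h5 : (m : ℝ) * x p ≤ m * g * (1 / p) := by
        calc (m : ℝ) * x p ≤ m * (g / p) := mul_le_mul_of_nonneg_left hg1 hm0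
          _ = _ := by ring
      linarith
    · have e7 := ha2 p hp hd
      have h3 : |a p - bb p| ≤ (m : ℝ) ^ 2 * (x p) ^ 2 := by
        rw [abs_le]
        constructor
        · linarith
        · have : 0 ≤ (m : ℝ) ^ 2 * (x p) ^ 2 := by positivity
          linarith
      linarith
  have hsum : ∑ p ∈ PS W R, ‖f p‖ ≤ θ := by
    have h1 : ∑ p ∈ PS W R, ‖f p‖ ≤ ∑ p ∈ PS W R, (2 * (m : ℝ) ^ 2 * (g : ℝ) ^ 2 *
        (1 / (p : ℝ) ^ 2) + (if Cl p then 2 * (m : ℝ) * g * (1 / p) else 0)) := by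
      apply Finset.sum_le_sum
      intro p hp
      rw [Real.norm_eq_abs]
      exact hf2 p hp
    rw [Finset.sum_add_distrib, ← Finset.mul_sum, ← Finset.sum_filter, ← Finset.mul_sum] at h1
    have h2 : ∑ p ∈ PS W R, (1 : ℝ) / (p : ℝ) ^ 2 ≤ 2 / s :=
      sum_inv_sq_le hs1' _ (fun p hp => (hPS p hp).2.2)
    have h3 : ∑ p ∈ (PS W R).filter Cl, (1 : ℝ) / p ≤
        (m : ℝ) ^ 2 * η₁ + (32 * σ₀ + Real.log D / (l * Real.log l)) := by
      rw [← sum_filter_add_sum_filter_not ((PS W R).filter Cl) (fun p : ℕ => (p : ℝ) ≤ y)]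
      apply add_le_add
      · have hsub : ((PS W R).filter Cl).filter (fun p : ℕ => (p : ℝ) ≤ y) ⊆
            (univ : Finset (Fin m)).offDiag.biUnion (fun q => (Icc 1 ⌊y⌋₊).filter
              (fun p => p.Prime ∧ ¬ p ∣ W ∧ HB F p (W * ((t q.1 : ℤ) - t q.2)))) := by
          intro p hp
          rw [mem_filter, mem_filter] at hp
          obtain ⟨⟨h1, h2⟩, h3⟩ := hp
          rw [hCl] at h2
          obtain ⟨q, hq, h4⟩ := h2
          obtain ⟨h5, h6, h7⟩ := hPS p h1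
          rw [mem_biUnion]
          exact ⟨q, hq, mem_filter.2 ⟨mem_Icc.2 ⟨h5.pos, Nat.le_floor h3⟩, h5, h6, h4⟩⟩
        have hnn : ∀ p : ℕ, (0 : ℝ) ≤ 1 / p := fun p => by positivity
        calc ∑ p ∈ ((PS W R).filter Cl).filter (fun p : ℕ => (p : ℝ) ≤ y), (1 : ℝ) / p ≤
              ∑ p ∈ (univ : Finset (Fin m)).offDiag.biUnion (fun q => (Icc 1 ⌊y⌋₊).filter
              (fun p => p.Prime ∧ ¬ p ∣ W ∧ HB F p (W * ((t q.1 : ℤ) - t q.2)))), (1 : ℝ) / p :=
              sum_le_sum_of_subset_of_nonneg hsub fun p _ _ => hnn p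
          _ ≤ ∑ q ∈ (univ : Finset (Fin m)).offDiag, ∑ p ∈ (Icc 1 ⌊y⌋₊).filter
              (fun p => p.Prime ∧ ¬ p ∣ W ∧ HB F p (W * ((t q.1 : ℤ) - t q.2))), (1 : ℝ) / p :=
              sum_biUnion_le _ _ _ hnn
          _ ≤ ∑ _q ∈ (univ : Finset (Fin m)).offDiag, η₁ := by
              apply sum_le_sum
              intro q hq
              rw [mem_offDiag] at hq
              exact (ht q.1 q.2 hq.2.2).2
          _ = ((univ : Finset (Fin m)).offDiag.card : ℝ) * η₁ := by rw [sum_const, nsmul_eq_mul]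
          _ ≤ (m : ℝ) ^ 2 * η₁ := by
              apply mul_le_mul_of_nonneg_right _ hη₁0
              rw [offDiag_card]
              simp only [card_univ, Fintype.card_fin]
              have : m * m - m ≤ m ^ 2 := by
                rw [sq]; omega
              exact_mod_cast this
      · rw [← sum_filter_add_sum_filter_not (((PS W R).filter Cl).filter (fun p : ℕ => ¬ (p : ℝ) ≤ y))
          (fun p : ℕ => (p : ℝ) ≤ l)]
        apply add_le_add
        · apply hwin l y hl0w hly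
          intro p hp
          rw [mem_filter, mem_filter, mem_filter] at hp
          exact ⟨(hPS p hp.1.1.1).1, not_le.1 hp.1.2, hp.2⟩
        · apply sum_inv_le hl1' D hD0
          intro p hp
          rw [mem_filter, mem_filter, mem_filter] at hp
          exact ⟨(hPS p hp.1.1.1).1, not_le.1 hp.2, hClD p hp.1.1.1 hp.1.1.2⟩
    have h4 : Real.log D / (l * Real.log l) ≤ ((m : ℝ) ^ 2 * g) / Real.log l := by
      rw [div_le_div_iff₀ (by positivity) hlogl0]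
      calc Real.log D * Real.log l ≤ ((m : ℝ) ^ 2 * g * l) * Real.log l :=
            mul_le_mul_of_nonneg_right hlogD hlogl0.le
        _ = _ := by ring
    have h5 : 2 / s = 2 / Real.log l := by rw [hs]
    have h6 : 2 * (m : ℝ) ^ 2 * (g : ℝ) ^ 2 * (∑ p ∈ PS W R, (1 : ℝ) / (p : ℝ) ^ 2) ≤
        2 * (m : ℝ) ^ 2 * (g : ℝ) ^ 2 * (2 / Real.log l) :=
      mul_le_mul_of_nonneg_left (h2.trans h5.le) (by positivity)
    have h7 : 2 * (m : ℝ) * g * (∑ p ∈ (PS W R).filter Cl, (1 : ℝ) / p) ≤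
        2 * (m : ℝ) * g * ((m : ℝ) ^ 2 * σ₀ + (32 * σ₀ + ((m : ℝ) ^ 2 * g) / Real.log l)) := by
      apply mul_le_mul_of_nonneg_left _ (by positivity)
      refine h3.trans ?_
      have : (m : ℝ) ^ 2 * η₁ ≤ (m : ℝ) ^ 2 * σ₀ := by gcongr
      linarith
    have h8 : 2 * (m : ℝ) ^ 2 * (g : ℝ) ^ 2 * (2 / Real.log l) +
        2 * (m : ℝ) * g * (((m : ℝ) ^ 2 * g) / Real.log l) = E / Real.log l := by
      rw [hE]
      field_simp
      ring
    have h9 : E / Real.log l ≤ θ / 2 := by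
      rw [div_le_div_iff₀ hlogl0 (by norm_num)]
      have h10 : 2 * E / θ ≤ Real.log l := by linarith
      rw [div_le_iff₀ hθ0] at h10
      linarith
    have h11 : 2 * (m : ℝ) * g * ((m : ℝ) ^ 2 * σ₀ + (32 * σ₀ + ((m : ℝ) ^ 2 * g) / Real.log l)) =
        (64 * m * g + 2 * m ^ 3 * g) * σ₀ + 2 * (m : ℝ) * g * (((m : ℝ) ^ 2 * g) / Real.log l) := by ring
    linarith
  have hprod1 : ∏ p ∈ PS W R, (1 + f p) = (∏ p ∈ PS W R, a p) / ∏ p ∈ PS W R, bb p := by
    rw [← Finset.prod_div_distrib]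
    apply Finset.prod_congr rfl
    intro p _
    simp only [hf]
    ring
  have hprodb : ∏ p ∈ PS W R, bb p = V F W R ^ m := by
    unfold V
    rw [← Finset.prod_pow]
  have hpos : 0 < V F W R ^ m := by
    rw [← hprodb]
    exact Finset.prod_pos hbpos
  have hnorm := Finset.norm_prod_one_add_sub_one_le (PS W R) f
  rw [hprod1, hprodb, Real.norm_eq_abs] at hnorm
  have hexp : Real.exp (∑ p ∈ PS W R, ‖f p‖) - 1 ≤ η := by
    have : Real.exp (∑ p ∈ PS W R, ‖f p‖) ≤ Real.exp θ := Real.exp_le_exp.2 hsum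
    rw [hθ, Real.exp_log (by linarith)] at this
    linarith
  have hfin : |∏ p ∈ PS W R, a p - V F W R ^ m| =
      |(∏ p ∈ PS W R, a p) / V F W R ^ m - 1| * V F W R ^ m := by
    rw [← abs_of_pos hpos, ← abs_mul, abs_of_pos hpos, sub_mul, one_mul,
      div_mul_cancel₀ _ hpos.ne']
  change |∏ p ∈ PS W R, a p - V F W R ^ m| ≤ η * V F W R ^ m
  rw [hfin]
  exact mul_le_mul_of_nonneg_right (hnorm.trans hexp) hpos.le

end Pool.Agent.H534.NW
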