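import Pool.Agent.H534.NW.EngS
import Pool.Agent.H534.NW.Clu
import Pool.Agent.H534.RT.Iter

/-!
# Systems of linear forms `n`, `a_j n + b_j` at every narrow shape, uniformly in the coefficients
-/

set_option autoImplicit false

open Finset Filter Polynomial

namespace Pool.Agent.H534.NW

open Pool.Agent.H534.RS hiding majW classes engP
open Pool.Agent.H534.RT
open Pool.Agent.Y677.RSZ hiding Sys V_pos fac_pos V_lower
open Pool.Agent.W123.RP Pool.Agent.H373R2.T7 Pool.Agent.W123.RU Pool.Agent.W123.RU.Poly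
open Pool.Agent.Y879.GL (US us_adm us_perB lf lf_eval us_lf lf_assoc)

open Classical in
/-- **Every narrow shape, with the count in terms of a density `v`.**  For every shape `b` and every
`X ≥ (log H) ^ L` with `b i * WS σ b H * X ^ 3 ≤ H`, at least `c X` of the `d ≤ X` have at least
`c H v ^ (k + 1)` elements `n` of `A` with `n + WS σ b H * d * b i` in `A` for all `i` -/
def ShapesV (k : ℕ) (v c σ : ℝ) (L H : ℕ) (A : Finset ℕ) : Prop :=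
  ∀ (X : ℕ) (b : Fin k → ℕ), Real.log H ^ L ≤ X → Function.Injective b → (∀ i, 1 ≤ b i) →
    (∀ i, b i * WS σ b H * X ^ 3 ≤ H) →
    c * X ≤ (((Icc 1 X).filter (fun d => c * (H * v ^ (k + 1)) ≤
      ((A.filter (fun n => ∀ i, n + WS σ b H * d * b i ∈ A)).card : ℝ))).card : ℝ)

open Classical in
/-- **Dense subsets of the arguments with rough values contain every narrow shape.** -/
theorem engV (k g s : ℕ) (δ κ : ℝ) (hk : 1 ≤ k) (hδ : 0 < δ) (hκ : 0 < κ) :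
    ∃ c σm : ℝ, 0 < c ∧ 0 < σm ∧ σm ≤ 1 / 2 ∧ ∀ σ : ℝ, 0 < σ → σ ≤ σm → ∃ L H₀ : ℕ,
    ∀ (F : ℤ → ℤ) (Y H : ℕ) (A : Finset ℕ), (∀ b : Fin k → ℕ, SysU g H (WS σ b H) F) → Sys0 s F → H₀ ≤ H →
    (∀ n ∈ Ioc Y (Y + H), F (n : ℤ) ≠ 0 ∧ |F (n : ℤ)| ≤ (H : ℤ) ^ g) → A ⊆ Ioc Y (Y + H) →
    (∀ n ∈ A, ∀ p : ℕ, p.Prime → (p : ℝ) ≤ (H : ℝ) ^ δ → ¬ (p : ℤ) ∣ F (n : ℤ)) →
    κ * (H * V F 1 H) ≤ A.card → ShapesV k (V F 1 H) c σ L H A := by
  obtain ⟨c, σm, hc, hσm, hσm2, heng⟩ := engW k g δ κ hk hδ hκ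
  refine ⟨c, σm, hc, hσm, hσm2, fun σ hσ hσσ => ?_⟩
  obtain ⟨L, H₁, heng⟩ := heng σ hσ hσσ
  refine ⟨L, H₁ + 3, ?_⟩
  intro F Y H A hsys hsys0 hH hsize hA hrough hcard X sh hX hsh hsh1 hsh2
  have hH0 : (0 : ℝ) < H := by
    have : 0 < H := by omega
    exact_mod_cast this
  have hlog1 : 1 ≤ Real.log (H : ℝ) := by
    rw [Real.le_log_iff_exp_le hH0]
    have h1 := Real.exp_one_lt_d9
    have h2 : (3 : ℝ) ≤ H := by
      have : 3 ≤ H := by omega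
      exact_mod_cast this
    linarith
  have hlog : 0 < Real.log (H : ℝ) := by linarith
  have hV0 : 0 < V F 1 H := V_pos hsys0 1 H
  obtain ⟨D', hD1, hD2⟩ := heng F Y H X A sh (hsys sh) (by omega) hX hsize hA hrough hcard hsh hsh1 hsh2
  have hsub : D' ⊆ (Icc 1 X).filter (fun d =>
      c * (H * V F 1 H ^ (k + 1)) ≤
        ((A.filter (fun n => ∀ i, n + WS σ sh H * d * sh i ∈ A)).card : ℝ)) := by
    intro d hd
    obtain ⟨h1, h2, h3⟩ := hD2 d hd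
    rw [mem_filter, mem_Icc]
    refine ⟨⟨h1, h2⟩, ?_⟩
    have hsub2 : ((solN A (WS σ sh H) sh d).card : ℝ) ≤
        ((A.filter (fun n => ∀ i, n + WS σ sh H * d * sh i ∈ A)).card : ℝ) := by
      have : solN A (WS σ sh H) sh d ⊆ A.filter (fun n => ∀ i, n + WS σ sh H * d * sh i ∈ A) := by
        unfold solN
        intro n hn
        rw [mem_filter] at hn
        rw [mem_filter]
        refine ⟨hn.1, fun l => ?_⟩
        have h5 := hn.2 l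
        rwa [mul_right_comm] at h5
      exact_mod_cast card_le_card this
    refine le_trans ?_ (h3.trans hsub2)
    have h5 : V F 1 H = dW F (WS σ sh H) * V F (WS σ sh H) H := by
      apply Pool.Agent.H534.UT.V_dW _ _ _ (WS_pos σ sh H)
      intro p hp hpd
      have h6 := ((WS_dvd σ sh H p hp).1 hpd).1
      have h7 : Real.log (H : ℝ) ^ (1 - σ) ≤ Real.log H := by
        calc Real.log (H : ℝ) ^ (1 - σ) ≤ Real.log (H : ℝ) ^ (1 : ℝ) := by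
              apply Real.rpow_le_rpow_of_exponent_le (by linarith)
              linarith
          _ = _ := Real.rpow_one _
      have h8 : (p : ℝ) ≤ H := by
        have := Real.log_le_sub_one_of_pos hH0
        linarith
      exact_mod_cast h8
    have h6 : 0 < V F (WS σ sh H) H := V_pos hsys0 _ H
    obtain ⟨h7, h8⟩ := dW_le_one hsys0 (WS σ sh H)
    have h9 : (V F 1 H) ^ (k + 1) ≤ dW F (WS σ sh H) * V F (WS σ sh H) H ^ (k + 1) := by
      rw [h5, mul_pow]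
      apply mul_le_mul_of_nonneg_right _ (by positivity)
      exact pow_le_of_le_one h7.le h8 (by omega)
    have h10 : c * (H * V F 1 H ^ (k + 1)) ≤ c * (H * (dW F (WS σ sh H) * V F (WS σ sh H) H ^ (k + 1))) := by
      apply mul_le_mul_of_nonneg_left _ hc.le
      exact mul_le_mul_of_nonneg_left h9 hH0.le
    rwa [← mul_assoc (H : ℝ)] at h10
  exact hD1.trans (by exact_mod_cast card_le_card hsub)

theorem W0_ge (g : ℕ) : ∃ H₀ : ℕ, ∀ H : ℕ, H₀ ≤ H → g ≤ W0 H := by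
  obtain ⟨p, hpg, hp⟩ := Nat.exists_infinite_primes g
  have hNr : Tendsto (fun H : ℕ => (H : ℝ)) atTop atTop := tendsto_natCast_atTop_atTop
  have hl : Tendsto (fun H : ℕ => Real.log (H : ℝ)) atTop atTop := Real.tendsto_log_atTop.comp hNr
  have hll : Tendsto (fun H : ℕ => Real.log (Real.log (H : ℝ))) atTop atTop := Real.tendsto_log_atTop.comp hl
  obtain ⟨H₀, hH₀⟩ := eventually_atTop.1 (hll.eventually_ge_atTop (p : ℝ))
  refine ⟨H₀, fun H hH => ?_⟩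
  have h1 := hH₀ H hH
  have hd : p ∣ W0 H := by
    unfold W0
    rw [hp.dvd_primorial_iff]
    exact Nat.le_floor h1
  exact hpg.trans (Nat.le_of_dvd (primorial_pos _) hd)

open Classical in
/-- **Dense sets, uniformly in the forms.** -/
theorem linAW (l E S k : ℕ) (η κ : ℝ) (hk : 1 ≤ k) (hE : 1 ≤ E) (hη : 0 < η) (hκ : 0 < κ) :
    ∃ c σm : ℝ, 0 < c ∧ 0 < σm ∧ σm ≤ 1 / 2 ∧ ∀ σ : ℝ, 0 < σ → σ ≤ σm → ∃ L H₀ : ℕ,
    ∀ (H Y : ℕ) (a : Fin l → ℕ) (b : Fin l → ℤ) (A : Finset ℕ), H₀ ≤ H → LAdm a b →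
    (∀ j, 1 ≤ a j) → (∀ j, (a j : ℝ) ≤ (H : ℝ) ^ E) → (∀ j, |(b j : ℝ)| ≤ (H : ℝ) ^ E) →
    (∀ j, |(b j : ℝ)| ≤ a j * S) → Y ≤ H ^ E →
    (∀ n ∈ Ioc Y (Y + H), ∀ j, (a j : ℤ) * n + b j ≠ 0) → A ⊆ Ioc Y (Y + H) →
    (∀ n ∈ A, ∀ p : ℕ, p.Prime → (p : ℝ) ≤ (H : ℝ) ^ η → ¬ p ∣ n ∧ ∀ j, ¬ (p : ℤ) ∣ (a j : ℤ) * n + b j) →
    κ * (H * LV a b H) ≤ A.card → ShapesV k (LV a b H) c σ L H A := by
  obtain ⟨c, σm, hc, hσm, hσm2, heng⟩ := engV k (gE (l + 1) 1 E) ((l + 1) * 1 + 1) η κ hk hη hκ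
  refine ⟨c, σm, hc, hσm, hσm2, fun σ hσ hσσ => ?_⟩
  obtain ⟨L, H₁, heng⟩ := heng σ hσ hσσ
  obtain ⟨H₂, hH₂⟩ := WS_ge σ (hσσ.trans hσm2) (2 * S + 1)
  refine ⟨L, max (max H₁ H₂) ((2 * 1).factorial + (1 + 1) * 2 ^ 1 + 1),
    fun H Y a b A hH hadm ha1 haE hbE hbS hY hnz hA hAr hAc => ?_⟩
  have hH0 : H₁ ≤ H := ((le_max_left _ _).trans (le_max_left _ _)).trans hH
  have hH1 : H₂ ≤ H := ((le_max_right _ _).trans (le_max_left _ _)).trans hH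
  have hH3 : (2 * 1).factorial + (1 + 1) * 2 ^ 1 + 1 ≤ H := (le_max_right _ _).trans hH
  have hHone : 1 ≤ H := by omega
  have hHr : (1 : ℝ) ≤ H := by exact_mod_cast hHone
  have hf := ff_us (l := l) _ (one_le_pow₀ hHr) ha1 haE hbE hadm
  have hVF : ∀ z, V (fun n => (∏ i, ff a b i).eval n) 1 z = LV a b z := by
    intro z
    rw [V_eq, ff_Q, LV_eq]
  rw [← hVF H] at hAc ⊢
  refine heng (fun n => (∏ i, ff a b i).eval n) Y H A (fun sh => ?_) (sys0_of_us hf) hH0 ?_ hA ?_ hAc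
  · apply sysU_of_us 1 E H _ hH3 (ff a b) hf
    apply ff_nt _ H (S : ℝ) (by positivity) _ ha1 hbS
    have := hH₂ H hH1 k sh
    exact_mod_cast (by omega : 2 * S < WS σ sh H)
  · intro n hn
    refine ⟨?_, ?_⟩
    · show (∏ i, ff a b i).eval (n : ℤ) ≠ 0
      rw [eval_prod]
      refine Finset.prod_ne_zero_iff.2 fun i _ => ?_
      have hn1 := (mem_Ioc.1 hn).1
      unfold ff
      rw [lf_eval]
      refine Fin.cases ?_ (fun j => ?_) i
      · rw [Fin.cons_zero, Fin.cons_zero]; omega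
      · rw [Fin.cons_succ, Fin.cons_succ]; exact hnz n hn j
    · apply size_of_us 1 E H hE hH3 (ff a b) hf
      rw [mem_Ioc] at hn
      have h1 : ((n : ℤ) : ℝ) = (n : ℝ) := Int.cast_natCast n
      rw [h1, abs_of_nonneg (Nat.cast_nonneg n)]
      have h2 : (n : ℝ) ≤ ((Y + H : ℕ) : ℝ) := by exact_mod_cast hn.2
      push_cast at h2
      have h3 : (Y : ℝ) ≤ (H : ℝ) ^ E := by exact_mod_cast hY
      linarith
  · intro n hn p hp hpH hd
    obtain ⟨i, hi⟩ := (prod_dvd_iff (ff a b) p hp n).1 hd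
    obtain ⟨h3, h4⟩ := hAr n hn p hp hpH
    rcases (ff_dvd a b p n).1 ⟨i, hi⟩ with h5 | ⟨j, h5⟩
    · exact h3 h5
    · exact h4 j h5

open Classical in
/-- **A prime and almost primes.** -/
theorem linBW (l E S : ℕ) (hE : 1 ≤ E) : ∃ r₀ : ℕ, 2 ≤ r₀ ∧ ∀ r : ℕ, r₀ ≤ r → ∀ (k : ℕ) (κ' : ℝ), 1 ≤ k → 0 < κ' →
    ∃ c σm : ℝ, 0 < c ∧ 0 < σm ∧ σm ≤ 1 / 2 ∧ ∀ σ : ℝ, 0 < σ → σ ≤ σm → ∃ L : ℕ, ∀ᶠ x : ℕ in atTop,
    ∀ (a : Fin l → ℕ) (b : Fin l → ℤ), LAdm a b →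
    (∀ j, 1 ≤ a j) → (∀ j, (a j : ℝ) ≤ (x : ℝ) ^ E) → (∀ j, |(b j : ℝ)| ≤ (x : ℝ) ^ E) →
    (∀ j, |(b j : ℝ)| ≤ a j * S) → ∀ A ⊆ LP a b x r, κ' * (LP a b x r).card ≤ A.card →
    ShapesV k (LV a b x) c σ L x A := by
  obtain ⟨r₀, hr₀, hm⟩ := genP (l + 1) 1 E
  refine ⟨r₀, hr₀, fun r hr k κ' hk hκ' => ?_⟩
  obtain ⟨κ, hκ, hκx⟩ := hm r hr
  have hr0 : (0 : ℝ) < r := by exact_mod_cast (by omega : 0 < r)
  obtain ⟨c, σm, hc, hσm, hσm2, hA⟩ := linAW l E S k (1 / r) (κ' * κ) hk hE (by positivity) (by positivity)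
  refine ⟨c, σm, hc, hσm, hσm2, fun σ hσ hσσ => ?_⟩
  obtain ⟨L, H₀, hA⟩ := hA σ hσ hσσ
  refine ⟨L, ?_⟩
  filter_upwards [hκx, eventually_ge_atTop (max H₀ (max 1 (4 * S + 1)))] with x h1 h2 a b hadm ha1 haE hbE hbS A₀ hA₀ hA₀c
  have hx1 : 1 ≤ x := ((le_max_left _ _).trans (le_max_right _ _)).trans h2
  have hxS : 4 * S + 1 ≤ x := ((le_max_right _ _).trans (le_max_right _ _)).trans h2
  have hxr : (1 : ℝ) ≤ x := by exact_mod_cast hx1
  have h7 : (x : ℝ) ^ (1 / (r : ℝ)) ≤ x := by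
    nth_rewrite 2 [← Real.rpow_one (x : ℝ)]
    apply Real.rpow_le_rpow_of_exponent_le hxr
    rw [div_le_one hr0]
    have : 1 ≤ r := by omega
    exact_mod_cast this
  refine hA x x a b A₀ ((le_max_left _ _).trans h2) hadm ha1 haE hbE hbS
    (by nth_rewrite 1 [← pow_one x]; exact Nat.pow_le_pow_right hx1 hE) ?_ ?_ ?_ ?_
  · intro n hn j hz
    have hn1 := (mem_Ioc.1 hn).1
    have h3 := hbS j
    have h4 : (b j : ℝ) = -((a j : ℝ) * n) := by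
      have : b j = -((a j : ℤ) * n) := by linarith
      rw [this]
      push_cast
      ring
    rw [h4, abs_neg, abs_of_nonneg (by positivity)] at h3
    have ha : (0 : ℝ) < a j := by exact_mod_cast ha1 j
    have h5 := le_of_mul_le_mul_left h3 ha
    have h6 : n ≤ S := by exact_mod_cast h5
    omega
  · rw [← two_mul]
    exact hA₀.trans (filter_subset _ _)
  · intro m hm' p hp hpx
    have hm := hA₀ hm'
    unfold LP at hm
    rw [mem_filter, mem_Ioc] at hm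
    obtain ⟨⟨hm1, hm2⟩, h3, h4⟩ := hm
    constructor
    · intro hd
      have h5 := (Nat.prime_dvd_prime_iff_eq hp h3).1 hd
      have h6 : (x : ℝ) < p := by
        rw [h5]
        exact_mod_cast hm1
      linarith
    · intro i hd
      have := h4 i p hp hd
      linarith
  · have h8 := h1 (ff a b) (ff_us _ (one_le_pow₀ hxr) ha1 haE hbE hadm) ⟨0, fun n => by
        unfold ff
        rw [lf_eval, Fin.cons_zero, Fin.cons_zero]
        simp⟩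
    rw [ff_Q, LV_eq] at h8
    refine le_trans ?_ hA₀c
    rw [mul_assoc]
    refine mul_le_mul_of_nonneg_left (h8.trans ?_) hκ'.le
    apply Nat.cast_le.2
    unfold LP
    apply card_le_card
    intro p hp
    rw [mem_filter] at hp ⊢
    refine ⟨hp.1, hp.2.1, fun i q hq hd => ?_⟩
    by_contra hcon
    rw [not_lt] at hcon
    obtain ⟨j, hj⟩ := (ff_dvd a b q p).2 (Or.inr ⟨i, hd⟩)
    exact hp.2.2 j q hq hcon hj

open Classical in
/-- **Strings of primes.** -/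
theorem linCW (m l : ℕ) : ∃ η : ℝ, 0 < η ∧ ∃ B K : ℕ, ∀ (k E C₀ S₀ : ℕ) (κ : ℝ), 1 ≤ k → 0 < κ →
    ∃ c σm : ℝ, 0 < c ∧ 0 < σm ∧ σm ≤ 1 / 2 ∧ ∀ σ : ℝ, 0 < σ → σ ≤ σm → ∃ Lx x₀ : ℕ,
    ∀ x : ℕ, x₀ ≤ x → ∀ (a : Fin l → ℕ) (b : Fin l → ℤ) (L : ℕ), LAdm a b →
      (∀ i j, a i = a j → b i = b j → i = j) → (∀ j, ¬ (a j = 1 ∧ b j = 0)) →
      (∀ j, 1 ≤ a j) → (∀ j, (a j : ℝ) ≤ (x : ℝ) ^ E) → (∀ j, |(b j : ℝ)| ≤ (x : ℝ) ^ E) →
      (∀ j, |(b j : ℝ)| ≤ a j * S₀) →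
      K ≤ L → (L : ℝ) ≤ Real.log x / Real.log (Real.log x) ^ 2 →
      (L ≤ C₀ ∨ ∀ j, a j = 1 → b j ≤ C₀ ∨ (L : ℤ) < b j) →
      ∃ P S : Finset ℕ, P ⊆ Icc 1 K ∧ m ≤ P.card ∧ S ⊆ Ioc (x / 2) (x / 2 + x) ∧
      (∀ n ∈ S, (∀ t : ℕ, 1 ≤ t → t ≤ L → ((n + t).Prime ↔ t ∈ P)) ∧
          ∀ t ∈ P, (n + t).Prime ∧ ∀ j, ∀ q : ℕ, q.Prime → (q : ℤ) ∣ (a j : ℤ) * ((n + t : ℕ) : ℤ) + b j → (x : ℝ) ^ η < q) ∧
      ∀ S' ⊆ S, κ * S.card ≤ S'.card → Shapes k B c σ Lx x S' := by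
  obtain ⟨η, hη, B, K, hcl⟩ := cluN m l
  refine ⟨η, hη, B, K, fun k E C₀ S₀ κ hk hκ => ?_⟩
  obtain ⟨c, σm, hc, hσm, hσm2, h1⟩ := hcl k E C₀ κ hk hκ
  refine ⟨c, σm, hc, hσm, hσm2, fun σ hσ hσσ => ?_⟩
  obtain ⟨Lx, x₀, h1⟩ := h1 σ hσ hσσ
  obtain ⟨x₂, hx₂⟩ := W0_ge (2 * S₀ + K + 2)
  refine ⟨Lx, max x₀ (max x₂ (4 * S₀ + 4)), fun x hx a b L hadm hinj hn1 ha1 haE hbE hbS hKL hL hLC => ?_⟩
  have hx0 : x₀ ≤ x := (le_max_left _ _).trans hx
  have hx2 : x₂ ≤ x := ((le_max_left _ _).trans (le_max_right _ _)).trans hx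
  have hxK : 4 * S₀ + 4 ≤ x := ((le_max_right _ _).trans (le_max_right _ _)).trans hx
  have hxr : (1 : ℝ) < x := by exact_mod_cast (by omega : 1 < x)
  have hW := hx₂ x hx2
  obtain ⟨aa, haa⟩ : ∃ aa : ℕ → ℕ, aa = fun i => if hi : i < l then a ⟨i, hi⟩ else 1 := ⟨_, rfl⟩
  obtain ⟨bb, hbb⟩ : ∃ bb : ℕ → ℤ, bb = fun i => if hi : i < l then b ⟨i, hi⟩ else 0 := ⟨_, rfl⟩
  have hal : ∀ i (hi : i < l), aa i = a ⟨i, hi⟩ := fun i hi => by rw [haa]; simp [hi]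
  have hbl : ∀ i (hi : i < l), bb i = b ⟨i, hi⟩ := fun i hi => by rw [hbb]; simp [hi]
  have has : aa l = 1 := by rw [haa]; simp
  have hbs : bb l = 0 := by rw [hbb]; simp
  have hcase : ∀ i ≤ l, (∃ hi : i < l, aa i = a ⟨i, hi⟩ ∧ bb i = b ⟨i, hi⟩) ∨ (i = l ∧ aa i = 1 ∧ bb i = 0) := by
    intro i hi
    rcases Nat.lt_or_ge i l with h3 | h3
    · exact Or.inl ⟨h3, hal i h3, hbl i h3⟩
    · have : i = l := le_antisymm hi h3
      exact Or.inr ⟨this, by rw [this]; exact has, by rw [this]; exact hbs⟩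
  have hA1 : ∀ i ≤ l, 1 ≤ aa i := by
    intro i hi
    rcases hcase i hi with ⟨h3, h4, -⟩ | ⟨-, h4, -⟩
    · rw [h4]; exact ha1 _
    · rw [h4]
  have hBS : ∀ i ≤ l, |(bb i : ℝ)| ≤ aa i * (S₀ : ℝ) := by
    intro i hi
    rcases hcase i hi with ⟨h3, h4, h5⟩ | ⟨-, h4, h5⟩
    · rw [h4, h5]; exact hbS _
    · rw [h4, h5]
      simp
  have hsys : Pool.Agent.Y848.UG.Sys l aa bb := by
    refine ⟨has, hbs, hA1, ?_, ?_⟩
    · rintro i hi i' hi' hne ⟨he1, he2⟩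
      rcases hcase i hi with ⟨h3, h4, h5⟩ | ⟨h3, h4, h5⟩ <;> rcases hcase i' hi' with ⟨h6, h7, h8⟩ | ⟨h6, h7, h8⟩
      · rw [h4, h7] at he1
        rw [h5, h8] at he2
        have h9 := hinj _ _ he1 he2
        rw [Fin.mk.injEq] at h9
        exact hne h9
      · exact hn1 ⟨i, h3⟩ ⟨by rw [← h4, he1, h7], by rw [← h5, he2, h8]⟩
      · exact hn1 ⟨i', h6⟩ ⟨by rw [← h7, ← he1, h4], by rw [← h8, ← he2, h5]⟩
      · omega
    · intro p hp
      obtain ⟨n, h3, h4⟩ := hadm p hp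
      refine ⟨n, fun i hi hd => ?_⟩
      rcases hcase i hi with ⟨h5, h6, h7⟩ | ⟨h5, h6, h7⟩
      · rw [h6, h7] at hd
        exact h4 ⟨i, h5⟩ hd
      · rw [h6, h7] at hd
        apply h3
        have : (p : ℤ) ∣ (n : ℤ) := by
          push_cast at hd
          rwa [one_mul, add_zero] at hd
        exact Int.natCast_dvd_natCast.1 this
  have hxE : (1 : ℝ) ≤ (x : ℝ) ^ E := one_le_pow₀ hxr.le
  obtain ⟨P, S, hP1, hP2, hS1, hS2, hsh⟩ := h1 x hx0 aa bb L hsys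
    (fun i hi => by
      rcases hcase i hi with ⟨h3, h4, -⟩ | ⟨-, h4, -⟩
      · rw [h4]; exact haE _
      · rw [h4]; push_cast; exact hxE)
    (fun i hi => by
      rcases hcase i hi with ⟨h3, -, h5⟩ | ⟨-, -, h5⟩
      · rw [h5]; exact hbE _
      · rw [h5]
        push_cast
        rw [abs_zero]
        linarith)
    hKL hL
    (by
      rcases hLC with h | h
      · exact Or.inl h
      · right
        intro i hi hai
        rw [hbl i hi]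
        rw [hal i hi] at hai
        exact h _ hai)
    (fun i hi n hn1 hn2 hz => by
      have h3 := hBS i hi
      have h4 : (bb i : ℝ) = -((aa i : ℝ) * n) := by
        have : bb i = -((aa i : ℤ) * n) := by linarith
        rw [this]
        push_cast
        ring
      rw [h4, abs_neg, abs_of_nonneg (by positivity)] at h3
      have ha : (0 : ℝ) < aa i := by exact_mod_cast hA1 i hi
      have h5 := le_of_mul_le_mul_left h3 ha
      have h6 : n ≤ S₀ := by exact_mod_cast h5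
      omega)
    (fun i hi i' hi' hne u t ht1 htx htW hut htu hz => by
      have h6 := Nat.le_of_dvd (by omega) htW
      have h7 : (0 : ℝ) < aa i := by exact_mod_cast hA1 i hi
      have h8 : (0 : ℝ) < aa i' := by exact_mod_cast hA1 i' hi'
      have h9 := abs_le.1 (hBS i hi)
      have h10 := abs_le.1 (hBS i' hi')
      have h11 : (2 : ℝ) * S₀ + 1 < u := by
        have : 2 * S₀ + 1 < u := by omega
        exact_mod_cast this
      have h14 : (aa i : ℝ) * aa i' * u + aa i * bb i' - aa i' * bb i = 0 := by exact_mod_cast hz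
      have h15 : (aa i : ℝ) * (-(aa i' * (S₀ : ℝ))) ≤ aa i * bb i' := mul_le_mul_of_nonneg_left h10.1 h7.le
      have h16 : (aa i' : ℝ) * bb i ≤ aa i' * (aa i * (S₀ : ℝ)) := mul_le_mul_of_nonneg_left h9.2 h8.le
      have h17 : 0 < (aa i : ℝ) * aa i' := mul_pos h7 h8
      have h18 : (aa i : ℝ) * aa i' * (2 * S₀ + 1) < aa i * aa i' * u := mul_lt_mul_of_pos_left h11 h17
      nlinarith)
  refine ⟨P, S, hP1, hP2, hS1, fun n hn => ?_, hsh⟩
  obtain ⟨h7, h8⟩ := hS2 n hn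
  refine ⟨h7, fun t ht => ?_⟩
  obtain ⟨h9, h10⟩ := h8 t ht
  refine ⟨h9, fun j q hq hd => ?_⟩
  apply h10 j j.2 q hq
  rw [hal j j.2, hbl j j.2]
  exact hd

end Pool.Agent.H534.NW
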