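import Pool.Agent.H534.NW.ClusW
import Pool.Agent.H534.RT.Exp3

/-!
# Almost missing integers at all the places of every narrow shape
-/

set_option autoImplicit false

open Finset Filter Polynomial

namespace Pool.Agent.H534.NW

open Pool.Agent.W123.RU
open Pool.Agent.H534.UT (sysU PP six_dvd pair_mem mod6 member adm2 fM fM_eval sysM)
open Pool.Agent.H534.RT (M3 many3)
open Pool.Agent.TH882.DD Pool.Agent.TH882.AG
open Pool.Agent.Results.MP_3509fd_nt.NeighboursOfAlmostMissing (AlmostMissing)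

/-- dense sets of `m` with rough `6 m - 1`, `6 m + 1` -/
theorem missAW (k g : ℕ) (η κ : ℝ) (hk : 1 ≤ k) (hη : 0 < η) (hκ : 0 < κ) :
    ∃ c σm : ℝ, 0 < c ∧ 0 < σm ∧ σm ≤ 1 / 2 ∧ ∀ σ : ℝ, 0 < σ → σ ≤ σm → ∃ L H₀ : ℕ,
    ∀ (Y H : ℕ) (A : Finset ℕ), H₀ ≤ H → Y ≤ H ^ g → A ⊆ Ioc Y (Y + H) →
    (∀ m ∈ A, ∀ p : ℕ, p.Prime → (p : ℝ) ≤ (H : ℝ) ^ η → ¬ p ∣ 6 * m - 1 ∧ ¬ p ∣ 6 * m + 1) →
    κ * (H / Real.log H ^ 2) ≤ A.card → Shapes k 2 c σ L H A := by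
  obtain ⟨c, σm, hc, hσm, hσm2, h⟩ := polyW fM sysM k g η κ hk hη hκ
  rw [Fintype.card_bool] at h
  refine ⟨c, σm, hc, hσm, hσm2, fun σ hσ hσσ => ?_⟩
  obtain ⟨L, H₀, h⟩ := h σ hσ hσσ
  refine ⟨L, H₀, fun Y H A hH hY hA hAr hAc => ?_⟩
  refine h Y H A hH hY hA ?_ hAc
  intro m hm s p hp hpH hd
  obtain ⟨h1, h2⟩ := hAr m hm p hp hpH
  rw [fM_eval] at hd
  have hm1 : 1 ≤ m := by
    have := mem_Ioc.1 (hA hm)
    omega
  cases s
  · apply h1
    have : ((6 * m - 1 : ℕ) : ℤ) = 6 * (m : ℤ) + (if false = true then 1 else -1) := by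
      simp
      omega
    rw [← this] at hd
    exact_mod_cast hd
  · apply h2
    have : ((6 * m + 1 : ℕ) : ℤ) = 6 * (m : ℤ) + (if true = true then 1 else -1) := by
      simp
    rw [← this] at hd
    exact_mod_cast hd

open Classical in
/-- the almost missing integers: at most three prime factors, dense subsets -/
theorem missBW (k : ℕ) (κ : ℝ) (hk : 1 ≤ k) (hκ : 0 < κ) :
    ∃ c σm : ℝ, 0 < c ∧ 0 < σm ∧ σm ≤ 1 / 2 ∧ ∀ σ : ℝ, 0 < σ → σ ≤ σm → ∃ L : ℕ, ∀ᶠ x : ℕ in atTop,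
      ∀ A ⊆ (Ioc x (2 * x)).filter (M3 x), κ * (((Ioc x (2 * x)).filter (M3 x)).card : ℝ) ≤ A.card →
      Shapes k 2 c σ L x A := by
  obtain ⟨κ₀, hκ₀, hκx⟩ := many3
  obtain ⟨c, σm, hc, hσm, hσm2, h⟩ := missAW k 1 (1 / 5) (κ * κ₀) hk (by norm_num) (by positivity)
  refine ⟨c, σm, hc, hσm, hσm2, fun σ hσ hσσ => ?_⟩
  obtain ⟨L, H₀, h⟩ := h σ hσ hσσ
  refine ⟨L, ?_⟩
  filter_upwards [hκx, eventually_ge_atTop (max H₀ 1)] with x h1 h2 A hA hAc
  have hx1 : 1 ≤ x := (le_max_right _ _).trans h2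
  refine h x x A ((le_max_left _ _).trans h2) (by rw [pow_one]) ?_ ?_ ?_
  · rw [← two_mul]
    exact hA.trans (filter_subset _ _)
  · intro m hmA p hp hpx
    have hm := hA hmA
    rw [mem_filter, mem_Ioc] at hm
    obtain ⟨⟨hm1, hm2⟩, h3, -, h4⟩ := hm
    constructor
    · intro hd
      have h5 := (Nat.prime_dvd_prime_iff_eq hp h3).1 hd
      have h6 : (x : ℝ) < p := by
        rw [h5]
        have : x < 6 * m - 1 := by omega
        exact_mod_cast this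
      have h7 : (x : ℝ) ^ (1 / (5 : ℝ)) ≤ x := by
        nth_rewrite 2 [← Real.rpow_one (x : ℝ)]
        exact Real.rpow_le_rpow_of_exponent_le (by exact_mod_cast hx1) (by norm_num)
      linarith
    · intro hd
      have := h4 p hp hd
      linarith
  · refine le_trans ?_ hAc
    rw [mul_assoc]
    apply mul_le_mul_of_nonneg_left _ hκ.le
    refine h1.trans ?_
    apply Nat.cast_le.2
    apply card_le_card
    intro m hm
    rw [mem_filter] at hm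
    exact mem_filter.2 ⟨hm.1, hm.2⟩

open Classical in
/-- **Clusters of almost missing integers at every narrow shape.** -/
theorem missCW (j : ℕ) (hj : 1 ≤ j) : ∃ (r C B : ℕ) (Q : ℕ → Finset ℕ),
    (∀ᶠ X in atTop, (Q X).card = j ∧ Q X ⊆ range C) ∧ ∀ k : ℕ, 1 ≤ k →
    ∃ c σm : ℝ, 0 < c ∧ 0 < σm ∧ σm ≤ 1 / 2 ∧ ∀ σ : ℝ, 0 < σ → σ ≤ σm → ∃ L : ℕ, ∀ᶠ X : ℕ in atTop,
      Shapes k B c σ L X ((Icc 1 X).filter (fun m => ∀ q ∈ Q X, AlmostMissing r X (m + q))) := by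
  obtain ⟨K, hK, δ₀, hδ₀, hδ₀1, Q', -, hQ', hcl⟩ := clusW ({2} : Finset ℤ) adm2 (j - 1)
  obtain ⟨T, hTd⟩ : ∃ T, T = 4 * (j - 1 + 1) := ⟨_, rfl⟩
  obtain ⟨U, hUd⟩ : ∃ U, U = Up ({2} : Finset ℤ) T K := ⟨_, rfl⟩
  rw [← hTd] at hcl
  have hT : 0 < T := by omega
  have hQ'' : ∀ X, Q' X ∈ Pat ({2} : Finset ℤ) (j - 1) K → (Q' X).card = j ∧
      ∀ h ∈ Q' X, ∃ g i, h = Hp ({2} : Finset ℤ) T K g i := by
    intro X hX
    unfold Pat at hX
    rw [mem_filter, mem_powerset, ← hTd] at hX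
    refine ⟨by omega, fun h hh => ?_⟩
    have h1 := hX.1 hh
    rw [mem_image] at h1
    obtain ⟨⟨g, i⟩, -, he⟩ := h1
    exact ⟨g, i, he.symm⟩
  obtain ⟨r, hr⟩ : ∃ r : ℕ, r = ⌈2 / δ₀⌉₊ + 1 := ⟨_, rfl⟩
  have hr2 : 2 / δ₀ ≤ r := by
    rw [hr]
    push_cast
    have := Nat.le_ceil (2 / δ₀)
    linarith
  refine ⟨r, U.sup id + 1, U.card, fun X => (Q' X).image (· / 6), ?_, ?_⟩
  · filter_upwards [hQ'] with X hX
    obtain ⟨h1, h2⟩ := hQ'' X hX
    constructor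
    · rw [card_image_of_injOn, h1]
      intro h hh h' hh' he
      obtain ⟨g, i, hg⟩ := h2 h hh
      obtain ⟨g', i', hg'⟩ := h2 h' hh'
      have e1 := six_dvd T K g i
      have e2 := six_dvd T K g' i'
      rw [← hg] at e1
      rw [← hg'] at e2
      simp only at he
      omega
    · intro q hq
      rw [mem_image] at hq
      obtain ⟨h, hh, rfl⟩ := hq
      obtain ⟨g, i, hg⟩ := h2 h hh
      rw [mem_range]
      have e1 : h ≤ U.sup id := by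
        rw [hUd, hg]
        exact Finset.le_sup (f := id) (Hp_mem _ T K g i)
      have e2 : h / 6 ≤ h := Nat.div_le_self _ _
      omega
  · intro k hk
    obtain ⟨c, σm, hc, hσm, hσm2, hcl⟩ := hcl k 1 hk one_pos
    refine ⟨c / (2 * ((6 : ℕ) : ℝ)), σm, by positivity, hσm, hσm2, fun σ hσ hσσ => ?_⟩
    obtain ⟨L, X₀, hX₀⟩ := hcl σ hσ hσσ
    obtain ⟨H₀, hquot⟩ := Shapes.quot σ 6 5 (by norm_num) k U.card c hc L
    refine ⟨L + 1, ?_⟩
    have hXr : Tendsto (fun X : ℕ => (X : ℝ)) atTop atTop := tendsto_natCast_atTop_atTop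
    have hp1 : Tendsto (fun X : ℕ => (X : ℝ) ^ δ₀) atTop atTop := (tendsto_rpow_atTop hδ₀).comp hXr
    filter_upwards [hQ', eventually_ge_atTop (max X₀ (U.sup id + 10)), hp1.eventually_ge_atTop 3,
      eventually_ge_atTop H₀] with X h1 h2 h3 h4
    obtain ⟨hc1, hc2⟩ := hQ'' X h1
    have hX10 : U.sup id + 10 ≤ X := (le_max_right _ _).trans h2
    have hX10r : ((U.sup id : ℕ) : ℝ) + 10 ≤ X := by exact_mod_cast hX10
    have hX0 : (0 : ℝ) < X := by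
      have : (0 : ℝ) ≤ ((U.sup id : ℕ) : ℝ) := Nat.cast_nonneg _
      linarith
    have hX1 : (1 : ℝ) < X := by
      have : (0 : ℝ) ≤ ((U.sup id : ℕ) : ℝ) := Nat.cast_nonneg _
      linarith
    have hXU : ∀ u ∈ Up ({2} : Finset ℤ) T K, (2 * X + u : ℝ) ≤ (X : ℝ) ^ 2 := by
      intro u hu
      have e1 : (u : ℝ) ≤ ((U.sup id : ℕ) : ℝ) := by
        rw [hUd]
        exact_mod_cast Finset.le_sup (f := id) hu
      have e0 : (0 : ℝ) ≤ u := Nat.cast_nonneg _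
      nlinarith
    obtain ⟨P, hP⟩ : ∃ P, P = PP X ((X : ℝ) ^ δ₀) U (Q' X) := ⟨_, rfl⟩
    have hS : Shapes k U.card c σ L X P := by
      have h5 := hX₀ X ((le_max_left _ _).trans h2) (PP X ((X : ℝ) ^ δ₀) (Up ({2} : Finset ℤ) T K) (Q' X))
        (Finset.Subset.refl _) (by rw [one_mul])
      rw [← hUd, ← hP] at h5
      exact h5
    have hS2 := hquot X (P.image (· / 6)) P h4 hS (fun n hn => by
      rw [hP, hUd] at hn
      refine ⟨mod6 h3 hT hK hn, ?_⟩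
      rw [hP, hUd]
      exact mem_image_of_mem _ hn)
    refine hS2.add 1 (fun n hn => ?_)
    rw [mem_image] at hn
    obtain ⟨n', hn', rfl⟩ := hn
    rw [hP, hUd] at hn'
    have n3 := mod6 h3 hT hK hn'
    have n4 : n' < 2 * X := by
      unfold PP at hn'
      rw [mem_filter, mem_Ico] at hn'
      exact hn'.1.2
    have n5 : n' / 6 + 1 = (n' + 1) / 6 := by omega
    rw [n5, mem_filter, mem_Icc]
    refine ⟨⟨by omega, by omega⟩, ?_⟩
    intro q hq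
    rw [mem_image] at hq
    obtain ⟨h, hh, rfl⟩ := hq
    exact member hδ₀ hr2 (by omega) h3 hX1 hT hK hc2 hXU hn' hh

end Pool.Agent.H534.NW
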