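import Pool.Agent.H534.NW.LinW
import Pool.Agent.H534.RT.QR

/-!
# The forms `q r_j + 1` at every narrow shape, uniformly in the `r_j`
-/

set_option autoImplicit false

open Finset Filter Polynomial

namespace Pool.Agent.H534.NW

open Pool.Agent.H534.RS hiding majW classes engP
open Pool.Agent.H534.RT
open Pool.Agent.Y677.RSZ hiding Sys V_pos fac_pos V_lower
open Pool.Agent.W123.RP Pool.Agent.H373R2.T7 Pool.Agent.W123.RU Pool.Agent.W123.RU.Poly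
open Pool.Agent.Y879.GL (US us_adm us_perB lf lf_eval us_lf lf_assoc)

open Classical in
/-- **Dense sets.** -/
theorem qrAW (l E k : ℕ) (η κ : ℝ) (hk : 1 ≤ k) (hE : 1 ≤ E) (hη : 0 < η) (hκ : 0 < κ) :
    ∃ c σm : ℝ, 0 < c ∧ 0 < σm ∧ σm ≤ 1 / 2 ∧ ∀ σ : ℝ, 0 < σ → σ ≤ σm → ∃ L H₀ : ℕ,
    ∀ (H Y : ℕ) (r : Fin l → ℕ) (A : Finset ℕ), H₀ ≤ H →
    (∀ j, 1 ≤ r j) → (∀ j, r j ≤ H ^ E) → Y ≤ H ^ E → A ⊆ Ioc Y (Y + H) →
    (∀ n ∈ A, ∀ p : ℕ, p.Prime → (p : ℝ) ≤ (H : ℝ) ^ η → ∀ j, ¬ p ∣ n * r j + 1) →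
    κ * (H * QV r H) ≤ A.card → ShapesV k (QV r H) c σ L H A := by
  obtain ⟨c, σm, hc, hσm, hσm2, heng⟩ := engV k (gE l 1 E) (l * 1 + 1) η κ hk hη hκ
  refine ⟨c, σm, hc, hσm, hσm2, fun σ hσ hσσ => ?_⟩
  obtain ⟨L, H₁, heng⟩ := heng σ hσ hσσ
  refine ⟨L, max H₁ ((2 * 1).factorial + (1 + 1) * 2 ^ 1 + 1),
    fun H Y r A hH hr1 hr hY hA hAr hAc => ?_⟩
  have hH0 : H₁ ≤ H := (le_max_left _ _).trans hH
  have hH3 : (2 * 1).factorial + (1 + 1) * 2 ^ 1 + 1 ≤ H := (le_max_right _ _).trans hH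
  have hHone : 1 ≤ H := by omega
  have hHr : (1 : ℝ) ≤ H := by exact_mod_cast hHone
  have hf := qf_us r ((H : ℝ) ^ E) (one_le_pow₀ hHr) hr1 (fun j => by exact_mod_cast hr j)
  have hVF : ∀ z, V (fun n => (∏ i, qf r i).eval n) 1 z = QV r z := by
    intro z
    rw [V_eq, QV_eq]
  rw [← hVF H] at hAc ⊢
  refine heng (fun n => (∏ i, qf r i).eval n) Y H A (fun sh => ?_) (sys0_of_us hf) hH0 ?_ hA ?_ hAc
  · exact sysU_of_us 1 E H _ hH3 (qf r) hf (qf_nt r _ H hr1)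
  · intro n hn
    refine ⟨?_, ?_⟩
    · show (∏ i, qf r i).eval (n : ℤ) ≠ 0
      rw [eval_prod]
      refine Finset.prod_ne_zero_iff.2 fun i _ => ?_
      unfold qf
      rw [lf_eval]
      positivity
    · apply size_of_us 1 E H hE hH3 (qf r) hf
      rw [mem_Ioc] at hn
      have h1 : ((n : ℤ) : ℝ) = (n : ℝ) := Int.cast_natCast n
      rw [h1, abs_of_nonneg (Nat.cast_nonneg n)]
      have h2 : (n : ℝ) ≤ ((Y + H : ℕ) : ℝ) := by exact_mod_cast hn.2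
      push_cast at h2
      have h3 : (Y : ℝ) ≤ (H : ℝ) ^ E := by exact_mod_cast hY
      linarith
  · intro n hn p hp hpH hd
    obtain ⟨i, hi⟩ := (prod_dvd_iff (qf r) p hp n).1 hd
    obtain ⟨j, hj⟩ := (qf_dvd r p n).1 ⟨i, hi⟩
    exact hAr n hn p hp hpH j hj

open Classical in
/-- **Almost primes.** -/
theorem qrBW (l : ℕ) : ∃ R₀ : ℕ, 2 ≤ R₀ ∧ ∀ R : ℕ, R₀ ≤ R → ∀ (k E : ℕ) (κ' : ℝ), 1 ≤ k → 1 ≤ E → 0 < κ' →
    ∃ c σm : ℝ, 0 < c ∧ 0 < σm ∧ σm ≤ 1 / 2 ∧ ∀ σ : ℝ, 0 < σ → σ ≤ σm → ∃ L : ℕ, ∀ᶠ H : ℕ in atTop,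
    ∀ (Y : ℕ) (r : Fin l → ℕ), H ≤ Y → Y ≤ H ^ E → (∀ j, 1 ≤ r j) → (∀ j, r j ≤ H ^ E) →
    ∀ A ⊆ QP r Y H R, κ' * (QP r Y H R).card ≤ A.card → ShapesV k (QV r H) c σ L H A := by
  obtain ⟨R₀, hR₀, hm⟩ := genS l 1
  refine ⟨R₀, hR₀, fun R hR k E κ' hk hE hκ' => ?_⟩
  have hR0 : (0 : ℝ) < R := by exact_mod_cast (by omega : 0 < R)
  obtain ⟨c, σm, hc, hσm, hσm2, hA⟩ := qrAW l E k (1 / R) (κ' * (1 / 2)) hk hE (by positivity) (by positivity)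
  refine ⟨c, σm, hc, hσm, hσm2, fun σ hσ hσσ => ?_⟩
  obtain ⟨L, H₀, hA⟩ := hA σ hσ hσσ
  refine ⟨L, ?_⟩
  filter_upwards [hm R hR, eventually_ge_atTop (max H₀ 1)] with H h1 h2 Y r hHY hY hr1 hr A hAs hAc
  have hH1 : 1 ≤ H := (le_max_right _ _).trans h2
  have hHr : (1 : ℝ) ≤ H := by exact_mod_cast hH1
  refine hA H Y r A ((le_max_left _ _).trans h2) hr1 hr hY (hAs.trans (filter_subset _ _)) ?_ ?_
  · intro n hn' p hp hpH j hd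
    have hn := hAs hn'
    unfold QP at hn
    rw [mem_filter] at hn
    have := hn.2 j p hp hd
    linarith
  · have h3 := h1 ((H : ℝ) ^ E) Y hHY (qf r) (qf_us r _ (one_le_pow₀ hHr) hr1 (fun j => by exact_mod_cast hr j))
    rw [QV_eq] at h3
    refine le_trans ?_ hAc
    rw [mul_assoc]
    refine mul_le_mul_of_nonneg_left (h3.trans ?_) hκ'.le
    apply Nat.cast_le.2
    unfold QP
    apply card_le_card
    intro n hn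
    rw [mem_filter] at hn ⊢
    refine ⟨hn.1, fun j p hp hd => ?_⟩
    by_contra hcon
    rw [not_lt] at hcon
    apply hn.2 j p hp hcon
    unfold qf
    rw [lf_eval]
    have : ((r j : ℤ) * n + 1) = ((n * r j + 1 : ℕ) : ℤ) := by push_cast; ring
    rw [this]
    exact_mod_cast hd

open Classical in
/-- **Strings of primes `q`.** -/
theorem qrCW (m l : ℕ) : ∃ η : ℝ, 0 < η ∧ ∃ B K : ℕ, ∀ (k E : ℕ) (κ : ℝ), 1 ≤ k → 0 < κ →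
    ∃ c σm : ℝ, 0 < c ∧ 0 < σm ∧ σm ≤ 1 / 2 ∧ ∀ σ : ℝ, 0 < σ → σ ≤ σm → ∃ Lx x₀ : ℕ,
    ∀ x : ℕ, x₀ ≤ x → ∀ r : Fin l → ℕ, Function.Injective r →
      (∀ p : ℕ, p.Prime → ∃ n : ℕ, ¬ p ∣ n ∧ ∀ j, ¬ p ∣ n * r j + 1) →
      (∀ j, 1 ≤ r j) → (∀ j, r j ≤ x ^ E) →
      ∃ P S : Finset ℕ, P ⊆ Icc 1 K ∧ m ≤ P.card ∧ S ⊆ Ioc (x / 2) (x / 2 + x) ∧
      (∀ n ∈ S, (∀ t : ℕ, 1 ≤ t → (t : ℝ) ≤ Real.log x / Real.log (Real.log x) ^ 2 → ((n + t).Prime ↔ t ∈ P)) ∧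
          ∀ t ∈ P, (n + t).Prime ∧ ∀ j, ∀ q : ℕ, q.Prime → q ∣ (n + t) * r j + 1 → (x : ℝ) ^ η < q) ∧
      ∀ S' ⊆ S, κ * S.card ≤ S'.card → Shapes k B c σ Lx x S' := by
  obtain ⟨η, hη, B, K, hcl⟩ := linCW m l
  refine ⟨η, hη, B, K, fun k E κ hk hκ => ?_⟩
  obtain ⟨c, σm, hc, hσm, hσm2, h1⟩ := hcl k E 1 1 κ hk hκ
  refine ⟨c, σm, hc, hσm, hσm2, fun σ hσ hσσ => ?_⟩
  obtain ⟨Lx, x₀, h1⟩ := h1 σ hσ hσσ
  obtain ⟨x₃, hx₃⟩ := numU 1 one_pos K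
  refine ⟨Lx, max x₀ (max x₃ 2), fun x hx r hinj hadm hr1 hr => ?_⟩
  have hx0 : x₀ ≤ x := (le_max_left _ _).trans hx
  have hx3 : x₃ ≤ x := ((le_max_left _ _).trans (le_max_right _ _)).trans hx
  have hxK : 2 ≤ x := ((le_max_right _ _).trans (le_max_right _ _)).trans hx
  have hxr : (1 : ℝ) < x := by exact_mod_cast (by omega : 1 < x)
  obtain ⟨-, -, n3, -, n5⟩ := hx₃ x hx3
  obtain ⟨L, hL⟩ : ∃ L, L = ⌊Real.log x / Real.log (Real.log x) ^ 2⌋₊ := ⟨_, rfl⟩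
  have hLpos : 0 ≤ Real.log x / Real.log (Real.log x) ^ 2 := by
    have : 0 ≤ Real.log (x : ℝ) := Real.log_nonneg hxr.le
    positivity
  have hL1 : (L : ℝ) ≤ Real.log x / Real.log (Real.log x) ^ 2 := by
    rw [hL]
    exact Nat.floor_le hLpos
  have hL2 : K ≤ L := by
    rw [hL]
    apply Nat.le_floor
    linarith
  have hxE : (1 : ℝ) ≤ (x : ℝ) ^ E := one_le_pow₀ hxr.le
  have hdv : ∀ (j : Fin l) (q n : ℕ), (q : ℤ) ∣ (r j : ℤ) * (n : ℤ) + 1 ↔ q ∣ n * r j + 1 := by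
    intro j q n
    have : ((r j : ℤ) * (n : ℤ) + 1) = ((n * r j + 1 : ℕ) : ℤ) := by push_cast; ring
    rw [this, Int.natCast_dvd_natCast]
  obtain ⟨P, S, hP1, hP2, hS1, hS2, hsh⟩ := h1 x hx0 r (fun _ => 1) L
    (fun p hp => by
      obtain ⟨n, h3, h4⟩ := hadm p hp
      exact ⟨n, h3, fun j hd => h4 j ((hdv j p n).1 hd)⟩)
    (fun i j h _ => hinj h) (fun j h => one_ne_zero h.2) hr1 (fun j => by exact_mod_cast hr j)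
    (fun j => by push_cast; rw [abs_one]; exact hxE)
    (fun j => by
      push_cast
      rw [abs_one, mul_one]
      exact_mod_cast hr1 j)
    hL2 hL1 (Or.inr (fun j _ => Or.inl (by norm_num)))
  refine ⟨P, S, hP1, hP2, hS1, fun n hn => ?_, hsh⟩
  obtain ⟨h7, h8⟩ := hS2 n hn
  refine ⟨fun t ht1 ht2 => h7 t ht1 (by rw [hL]; exact Nat.le_floor ht2), fun t ht => ?_⟩
  obtain ⟨h9, h10⟩ := h8 t ht
  exact ⟨h9, fun j q hq hd => h10 j q hq ((hdv j q (n + t)).2 hd)⟩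

end Pool.Agent.H534.NW
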