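import Pool.Agent.H534.NW.Exp
import Pool.Agent.H534.NW.GenW
import Pool.Agent.H534.RT.Sie

/-!
# Almost prime values of fixed polynomials in all short intervals, at every narrow shape, in dense subsets
-/

set_option autoImplicit false

open Finset Filter Polynomial

namespace Pool.Agent.H534.NW

open Pool.Agent.H534.RS hiding majW classes engP
open Pool.Agent.H534.RT
open Pool.Agent.W123.RP Pool.Agent.H373R2.T7 Pool.Agent.W123.RU Pool.Agent.W123.RU.Poly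
open Pool.Agent.Y879.GL (US)

theorem us_of_sys {s : ℕ} (f : Fin s → ℤ[X]) (hs : Sys f) : ∃ (D : ℕ) (M : ℝ), US s D M 0 f := by
  refine ⟨∑ i, (f i).natDegree, ∑ i, ∑ n ∈ range ((f i).natDegree + 1), |(((f i).coeff n : ℤ) : ℝ)|, ?_⟩
  refine ⟨hs.irr, fun i => (hs.deg i).ne', fun i => ?_, fun i n => ?_, fun p hp => ?_, fun i j t ht1 ht2 => ?_⟩
  · exact Finset.single_le_sum (f := fun i => (f i).natDegree) (fun _ _ => Nat.zero_le _) (mem_univ i)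
  · have h0 : ∀ j, 0 ≤ ∑ n ∈ range ((f j).natDegree + 1), |(((f j).coeff n : ℤ) : ℝ)| :=
      fun j => Finset.sum_nonneg (fun _ _ => abs_nonneg _)
    refine le_trans ?_ (Finset.single_le_sum (f := fun j => ∑ n ∈ range ((f j).natDegree + 1),
      |(((f j).coeff n : ℤ) : ℝ)|) (fun j _ => h0 j) (mem_univ i))
    by_cases hn : n ≤ (f i).natDegree
    · exact Finset.single_le_sum (f := fun n => |(((f i).coeff n : ℤ) : ℝ)|) (fun _ _ => abs_nonneg _)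
        (mem_range.2 (by omega))
    · rw [coeff_eq_zero_of_natDegree_lt (by omega)]
      simpa using h0 i
  · exact hs.adm p hp
  · have : (1 : ℝ) ≤ t := by exact_mod_cast ht1
    linarith

open Classical in
/-- **Almost prime values in all short intervals.** -/
theorem shortF {s : ℕ} (f : Fin s → ℤ[X]) (hs : Sys f) (hs1 : 1 ≤ s) : ∃ r₀ : ℕ, 2 ≤ r₀ ∧ ∀ r : ℕ, r₀ ≤ r →
    ∀ (k E : ℕ) (κ' : ℝ), 1 ≤ k → 0 < κ' →
    ∃ c σm : ℝ, 0 < c ∧ 0 < σm ∧ σm ≤ 1 / 2 ∧ ∀ σ : ℝ, 0 < σ → σ ≤ σm → ∃ L : ℕ, ∀ᶠ H : ℕ in atTop,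
    ∀ Y : ℕ, H ≤ Y → Y ≤ H ^ E →
    ∀ Q : Finset ℕ, (∀ n ∈ Ioc Y (Y + H),
      (∀ i, ∀ q : ℕ, q.Prime → (q : ℝ) ≤ (H : ℝ) ^ (1 / (r : ℝ)) → ¬ (q : ℤ) ∣ (f i).eval (n : ℤ)) → n ∈ Q) →
    (∀ n ∈ Q, n ∈ Ioc Y (Y + H) ∧
      ∀ i, ∀ q : ℕ, q.Prime → (q : ℝ) ≤ (H : ℝ) ^ (1 / (r : ℝ)) → ¬ (q : ℤ) ∣ (f i).eval (n : ℤ)) →
    ∀ A ⊆ Q, κ' * Q.card ≤ A.card → Shapes k s c σ L H A := by
  have : Nonempty (Fin s) := ⟨⟨0, hs1⟩⟩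
  obtain ⟨D, M, hus⟩ := us_of_sys f hs
  obtain ⟨r₀, hr₀, hm⟩ := genS s D
  refine ⟨r₀, hr₀, fun r hr k E κ' hk hκ' => ?_⟩
  have hr0 : (0 : ℝ) < r := by exact_mod_cast (by omega : 0 < r)
  obtain ⟨v, Cv, hv, hCv, hV⟩ := Poly.V_bounds f hs
  obtain ⟨c, σm, hc, hσm, hσm2, h⟩ := polyW f hs k E (1 / r) (κ' * (1 / 2 * v)) hk (by positivity) (by positivity)
  rw [Fintype.card_fin] at h
  refine ⟨c, σm, hc, hσm, hσm2, fun σ hσ hσσ => ?_⟩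
  obtain ⟨L, H₀, h⟩ := h σ hσ hσσ
  refine ⟨L, ?_⟩
  filter_upwards [hm r hr, eventually_ge_atTop (max H₀ 3)] with H h1 h2 Y hHY hY Q hQ1 hQ2 A hA hAc
  have hH3 : 3 ≤ H := (le_max_right _ _).trans h2
  have hHr : (3 : ℝ) ≤ H := by exact_mod_cast hH3
  have hlog : 0 < Real.log (H : ℝ) := Real.log_pos (by linarith)
  refine h Y H A ((le_max_left _ _).trans h2) hY (fun n hn => (hQ2 n (hA hn)).1)
    (fun n hn i p hp hpH => (hQ2 n (hA hn)).2 i p hp hpH) ?_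
  have h3 := h1 M Y hHY f hus
  have h4 : v / Real.log H ^ s ≤ Vq (Poly.Q f) H := by
    have := (hV H hH3).1
    rw [Fintype.card_fin] at this
    exact this
  refine le_trans ?_ hAc
  rw [mul_assoc]
  refine mul_le_mul_of_nonneg_left ?_ hκ'.le
  calc 1 / 2 * v * (H / Real.log H ^ s) = 1 / 2 * (H * (v / Real.log H ^ s)) := by ring
    _ ≤ 1 / 2 * (H * Vq (Poly.Q f) H) := by gcongr
    _ ≤ _ := h3
    _ ≤ _ := by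
        apply Nat.cast_le.2
        apply card_le_card
        intro n hn
        rw [mem_filter] at hn
        exact hQ1 n hn.1 hn.2

open Classical in
/-- The same with the number of the values. -/
theorem shortF2 {s : ℕ} (f : Fin s → ℤ[X]) (hs : Sys f) (hs1 : 1 ≤ s) : ∃ r₀ : ℕ, 2 ≤ r₀ ∧ (∀ r : ℕ, r₀ ≤ r →
    ∀ (k E : ℕ) (κ' : ℝ), 1 ≤ k → 0 < κ' →
    ∃ c σm : ℝ, 0 < c ∧ 0 < σm ∧ σm ≤ 1 / 2 ∧ ∀ σ : ℝ, 0 < σ → σ ≤ σm → ∃ L : ℕ, ∀ᶠ H : ℕ in atTop,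
    ∀ Y : ℕ, H ≤ Y → Y ≤ H ^ E →
    ∀ Q : Finset ℕ, (∀ n ∈ Ioc Y (Y + H),
      (∀ i, ∀ q : ℕ, q.Prime → (q : ℝ) ≤ (H : ℝ) ^ (1 / (r : ℝ)) → ¬ (q : ℤ) ∣ (f i).eval (n : ℤ)) → n ∈ Q) →
    (∀ n ∈ Q, n ∈ Ioc Y (Y + H) ∧
      ∀ i, ∀ q : ℕ, q.Prime → (q : ℝ) ≤ (H : ℝ) ^ (1 / (r : ℝ)) → ¬ (q : ℤ) ∣ (f i).eval (n : ℤ)) →
    ∀ A ⊆ Q, κ' * Q.card ≤ A.card → Shapes k s c σ L H A) ∧
    ∃ c₀ : ℝ, 0 < c₀ ∧ ∀ r : ℕ, r₀ ≤ r → ∀ᶠ H : ℕ in atTop, ∀ Y : ℕ, H ≤ Y →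
      c₀ * (H / Real.log H ^ s) ≤ (((Ioc Y (Y + H)).filter (fun n : ℕ =>
        ∀ i, ∀ q : ℕ, q.Prime → (q : ℝ) ≤ (H : ℝ) ^ (1 / (r : ℝ)) → ¬ (q : ℤ) ∣ (f i).eval (n : ℤ))).card : ℝ) := by
  obtain ⟨r₀, hr₀, hm⟩ := shortF f hs hs1
  have : Nonempty (Fin s) := ⟨⟨0, hs1⟩⟩
  obtain ⟨D, M, hus⟩ := us_of_sys f hs
  obtain ⟨r₁, hr₁, hm1⟩ := genS s D
  obtain ⟨v, Cv, hv, hCv, hV⟩ := Poly.V_bounds f hs
  refine ⟨max r₀ r₁, hr₀.trans (le_max_left _ _), fun r hr => hm r ((le_max_left _ _).trans hr), 1 / 2 * v,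
    by positivity, fun r hr => ?_⟩
  filter_upwards [hm1 r ((le_max_right _ _).trans hr), eventually_ge_atTop 3] with H h1 hH3 Y hHY
  have hHr : (3 : ℝ) ≤ H := by exact_mod_cast hH3
  have hlog : 0 < Real.log (H : ℝ) := Real.log_pos (by linarith)
  have h4 : v / Real.log H ^ s ≤ Vq (Poly.Q f) H := by
    have := (hV H hH3).1
    rw [Fintype.card_fin] at this
    exact this
  calc 1 / 2 * v * (H / Real.log H ^ s) = 1 / 2 * (H * (v / Real.log H ^ s)) := by ring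
    _ ≤ 1 / 2 * (H * Vq (Poly.Q f) H) := by gcongr
    _ ≤ _ := h1 M Y hHY f hus

end Pool.Agent.H534.NW
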