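import Pool.Agent.H534.NW.Idx2

/-!
# Strings of primes with almost prime values of a family of polynomials: every narrow shape in dense subsets
-/

set_option autoImplicit false

open Finset Filter Polynomial

namespace Pool.Agent.H534.NW

open Pool.Agent.H534.RT Pool.Agent.W123.RU

open Classical in
/-- **Strings of primes at every narrow shape, dense subsets.** -/
theorem strW {J : Type} [Fintype J] (F : J → ℤ[X]) (hFam : Fam F) (m : ℕ) : ∃ (K₀ r₀ : ℕ) (θ : ℝ), 0 < θ ∧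
    ∀ S : Finset ℕ, K₀ ≤ S.card → ∃ (B : ℕ) (κ₀ : ℝ) (Q T : ℕ → Finset ℕ), 0 < κ₀ ∧
    (∀ᶠ x : ℕ in atTop, m ≤ (Q x).card ∧ Q x ⊆ S ∧ T x ⊆ Ioc x (2 * x) ∧
      κ₀ * (x / Real.log x ^ B) ≤ (T x).card ∧
      ∀ n ∈ T x, n + S.sup id ≤ 2 * x ∧ (∀ t ≤ S.sup id, (n + t).Prime ↔ t ∈ Q x) ∧
        ∀ t ∈ Q x, AVF F r₀ ((x : ℝ) ^ θ) (n + t)) ∧
    ∀ (k : ℕ) (κ : ℝ), 1 ≤ k → 0 < κ → ∃ c σ : ℝ, 0 < c ∧ 0 < σ ∧ σ ≤ 1 / 2 ∧ ∃ L : ℕ, ∀ᶠ x : ℕ in atTop,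
      ∀ A ⊆ T x, κ * (x / Real.log x ^ B) ≤ A.card → Shapes k B c σ L x A := by
  obtain ⟨K₀, ε₁, hε, -, hK₀⟩ := pstrA F hFam m
  obtain ⟨r₀, x₀, hr₀⟩ := av_of F hFam ε₁ hε
  refine ⟨K₀, r₀, ε₁, hε, fun S hS => ?_⟩
  obtain ⟨n₁, s, r, κ, hn₁, hsys, hκ, hN⟩ := hK₀ S hS
  have hNe : Nonempty (Option J × Fin n₁) := ⟨⟨none, ⟨0, hn₁⟩⟩⟩
  obtain ⟨N₀, hN₀⟩ := eventually_atTop.1 hN
  have hch : ∀ N : ℕ, ∃ H U : Finset ℕ, ∃ Y : ℕ, N₀ ≤ N → H ⊆ S ∧ m ≤ H.card ∧ Y ≤ N ^ 2 ∧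
      U ⊆ Ioc Y (Y + N) ∧
      (∀ n ∈ U, ∀ j : Option J × Fin n₁, ∀ p : ℕ, p.Prime → (p : ℝ) ≤ (N : ℝ) ^ (ε₁ / 2) →
        ¬ (p : ℤ) ∣ (fG F (s j.2) j.1).eval (n : ℤ)) ∧
      κ * (N / Real.log N ^ ((Fintype.card J + 1) * n₁)) ≤ U.card ∧
      ∀ n ∈ U, N + r < n ∧ n - r + S.sup id ≤ 2 * N ∧
        (∀ y ≤ S.sup id, (n - r + y).Prime ↔ y ∈ H) ∧
        ∀ y ∈ H, ∀ j, ∀ p : ℕ, p.Prime → (p : ℤ) ∣ (F j).eval ((n - r + y : ℕ) : ℤ) → (N : ℝ) ^ ε₁ ≤ p := by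
    intro N
    by_cases h : N₀ ≤ N
    · obtain ⟨H, h1, h2, Y, A, h3⟩ := hN₀ N h
      exact ⟨H, A, Y, fun _ => ⟨h1, h2, h3⟩⟩
    · exact ⟨∅, ∅, 0, fun h' => absurd h' h⟩
  choose Q U Y hQ using hch
  refine ⟨(Fintype.card J + 1) * n₁, κ, Q, fun x => (U x).image (fun n => n - r), hκ, ?_, fun k κ' hk hκ' => ?_⟩
  · filter_upwards [eventually_ge_atTop N₀, eventually_ge_atTop x₀] with x hx hxx
    obtain ⟨h1, h2, -, -, -, h6, h7⟩ := hQ x hx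
    refine ⟨h2, h1, ?_, ?_, ?_⟩
    · intro n hn
      obtain ⟨n', hn', rfl⟩ := mem_image.1 hn
      obtain ⟨g1, g2, -⟩ := h7 n' hn'
      rw [mem_Ioc]
      omega
    · rw [card_image_of_injOn]
      · exact h6
      · intro n hn n' hn' hnn
        have g1 := (h7 n hn).1
        have g2 := (h7 n' hn').1
        simp only at hnn
        omega
    · intro n hn
      obtain ⟨n', hn', rfl⟩ := mem_image.1 hn
      obtain ⟨g1, g2, g3, g4⟩ := h7 n' hn'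
      refine ⟨g2, g3, fun t ht => hr₀ x hxx _ ?_ (g4 t ht)⟩
      have : t ≤ S.sup id := Finset.le_sup (f := id) (h1 ht)
      omega
  · obtain ⟨c, σ, hc, hσ, hσ2, hP⟩ := polyW (fun j : Option J × Fin n₁ => fG F (s j.2) j.1) hsys k 2 (ε₁ / 2) κ'
      hk (by positivity) hκ'
    obtain ⟨L₀, H₀, hP⟩ := hP σ hσ le_rfl
    rw [Fintype.card_prod, Fintype.card_option, Fintype.card_fin] at hP
    refine ⟨c, σ, hc, hσ, hσ2, L₀, ?_⟩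
    filter_upwards [eventually_ge_atTop N₀, eventually_ge_atTop H₀] with x hx hxH A hA hAc
    obtain ⟨-, -, h3, h4, h5, -, h7⟩ := hQ x hx
    obtain ⟨V, hV⟩ : ∃ V, V = (U x).filter (fun n => n - r ∈ A) := ⟨_, rfl⟩
    have hVU : V ⊆ U x := by rw [hV]; exact filter_subset _ _
    have hAV : A.card ≤ V.card := by
      apply card_le_card_of_surjOn (fun n => n - r)
      intro a ha
      obtain ⟨n, hn, hna⟩ := mem_image.1 (hA ha)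
      refine ⟨n, ?_, hna⟩
      rw [hV, mem_coe, mem_filter]
      exact ⟨hn, by
        have : n - r = a := hna
        rw [this]
        exact ha⟩
    have hSh := hP (Y x) x V hxH h3 (hVU.trans h4) (fun n hn => h5 n (hVU hn))
      (hAc.trans (by exact_mod_cast hAV))
    refine hSh.sub r (fun n hn => ⟨?_, ?_⟩)
    · have := (h7 n (hVU hn)).1
      omega
    · rw [hV, mem_filter] at hn
      exact hn.2

end Pool.Agent.H534.NW
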